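import Pool.Agent.AM.UB

set_option autoImplicit false
open Complex Filter Topology
namespace Pool.Agent.AM

/-- The lift of the residue `a` nearest to `-v`, in the half open window. -/
noncomputable def lift (d : ℕ) (v : ℝ) (a : ℤ) : ℤ := a - d * ⌈((a : ℝ) + v) / d - 1 / 2⌉

lemma lift_dvd (d : ℕ) (v : ℝ) (a : ℤ) : (d : ℤ) ∣ lift d v a - a := by
  refine ⟨-⌈((a : ℝ) + v) / d - 1 / 2⌉, ?_⟩
  unfold lift; ring

lemma lift_dvd' (d : ℕ) (v : ℝ) (a : ℤ) : (d : ℤ) ∣ a - lift d v a := by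
  refine ⟨⌈((a : ℝ) + v) / d - 1 / 2⌉, ?_⟩
  unfold lift; ring

lemma lift_gt (d : ℕ) (hd : 0 < d) (v : ℝ) (a : ℤ) : -(d : ℝ) / 2 < lift d v a + v := by
  have hd' : (0 : ℝ) < d := by exact_mod_cast hd
  have h := Int.ceil_lt_add_one (((a : ℝ) + v) / d - 1 / 2)
  unfold lift
  push_cast
  have h2 : (d : ℝ) * ⌈((a : ℝ) + v) / d - 1 / 2⌉ < d * (((a : ℝ) + v) / d - 1 / 2 + 1) :=
    mul_lt_mul_of_pos_left h hd'
  have h3 : (d : ℝ) * (((a : ℝ) + v) / d - 1 / 2 + 1) = a + v + d / 2 := by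
    field_simp
    try ring
  linarith

lemma lift_le (d : ℕ) (hd : 0 < d) (v : ℝ) (a : ℤ) : lift d v a + v ≤ (d : ℝ) / 2 := by
  have hd' : (0 : ℝ) < d := by exact_mod_cast hd
  have h := Int.le_ceil (((a : ℝ) + v) / d - 1 / 2)
  unfold lift
  push_cast
  have h2 : (d : ℝ) * (((a : ℝ) + v) / d - 1 / 2) ≤ (d : ℝ) * ⌈((a : ℝ) + v) / d - 1 / 2⌉ :=
    mul_le_mul_of_nonneg_left h hd'.le
  have h3 : (d : ℝ) * (((a : ℝ) + v) / d - 1 / 2) = a + v - d / 2 := by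
    field_simp
  linarith

/-- distinct residues have distinct lifts -/
lemma lift_inj (d : ℕ) (v : ℝ) (a b : Fin d) (h : lift d v (a : ℕ) = lift d v (b : ℕ)) :
    a = b := by
  have h1 := lift_dvd' d v (a : ℕ)
  have h2 := lift_dvd d v (b : ℕ)
  have h3 : (d : ℤ) ∣ ((a : ℕ) : ℤ) - ((b : ℕ) : ℤ) := by
    have := dvd_add h1 h2
    rw [h] at this
    have e : ((a : ℕ) : ℤ) - lift d v ((b : ℕ) : ℤ) + (lift d v ((b : ℕ) : ℤ) - ((b : ℕ) : ℤ)) =
      ((a : ℕ) : ℤ) - ((b : ℕ) : ℤ) := by ring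
    rwa [e] at this
  have ha := a.2; have hb := b.2
  apply Fin.ext
  have h4 : ((a : ℕ) : ℤ) - ((b : ℕ) : ℤ) = 0 := by
    apply Int.eq_zero_of_abs_lt_dvd h3
    rw [abs_lt]; constructor <;> push_cast <;> omega
  omega

lemma dvd_lift_sub (d : ℕ) (v v' : ℝ) (a : ℤ) : (d : ℤ) ∣ lift d v a - lift d v' a := by
  have := dvd_sub (lift_dvd d v a) (lift_dvd d v' a)
  simpa using this

/-- weight of the two competing lifts -/
noncomputable def EE (d : ℕ) (s : ℝ) (x : ℂ) (N : ℤ) : ℝ := ‖tm s x N‖ + ‖tm s x (N - d)‖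

lemma EE_pos (d : ℕ) (s : ℝ) (x : ℂ) (N : ℤ) : 0 < EE d s x N := by
  unfold EE
  have := norm_pos_iff.mpr (tm_ne_zero s x N)
  positivity

/-- A sequence of singular points, normalised, with all its limits along an ultrafilter. -/
structure Cfg (d m : ℕ) where
  F : Ultrafilter ℕ
  σ : Fin (m + 1) → ℕ → ℝ
  x : Fin (m + 1) → ℕ → ℂ
  s : Fin d → ℕ → ℂ
  M : ℕ → ℝ
  v : Fin (m + 1) → ℝ
  α : Fin (m + 1) → Fin d → ℂ
  β : Fin (m + 1) → Fin d → ℂ
  p : Fin d → ℂ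
  hd : 0 < d
  hσ : ∀ l, Tendsto (σ l) F atTop
  hh : ∀ l l', l < l' → Tendsto (fun n => σ l' n / σ l n) F (𝓝 0)
  hv : ∀ l, Tendsto (fun n => (x l n).im / σ l n) F (𝓝 (v l))
  hM : ∀ᶠ n in (F : Filter ℕ), 0 < M n
  hα : ∀ (l : Fin (m + 1)) (a : Fin d), Tendsto (fun n => tm (σ l n) (x l n) (lift d (v l) (a : ℕ)) /
    (EE d (σ l n) (x l n) (lift d (v l) (a : ℕ)) : ℂ)) F (𝓝 (α l a))
  hβ : ∀ (l : Fin (m + 1)) (a : Fin d), Tendsto (fun n => tm (σ l n) (x l n) (lift d (v l) (a : ℕ) - d) /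
    (EE d (σ l n) (x l n) (lift d (v l) (a : ℕ)) : ℂ)) F (𝓝 (β l a))
  hp : ∀ a : Fin d, Tendsto (fun n => s a n * (∏ l, U d (σ l n) (a : ℕ) (x l n)) / (M n : ℂ)) F
    (𝓝 (p a))
  hp1 : ∃ a, p a ≠ 0
  hsum0 : ∀ᶠ n in (F : Filter ℕ), ∑ a : Fin d, s a n * (∏ l, U d (σ l n) (a : ℕ) (x l n)) = 0
  hsum1 : ∀ l, ∀ᶠ n in (F : Filter ℕ), ∑ a : Fin d, s a n * (U1 d (σ l n) (a : ℕ) (x l n) *
    ∏ l' ∈ Finset.univ.erase l, U d (σ l' n) (a : ℕ) (x l' n)) = 0
  hs : ∀ a, ∃ C : ℝ, ∀ᶠ n in (F : Filter ℕ), ‖s a n‖ ≤ C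

namespace Cfg

variable {d m : ℕ} (c : Cfg d m)

/-- nearest lift -/
noncomputable def N (l : Fin (m + 1)) (a : Fin d) : ℤ := lift d (c.v l) (a : ℕ)
/-- signed position -/
noncomputable def w (l : Fin (m + 1)) (a : Fin d) : ℝ := c.N l a + c.v l
noncomputable def E (l : Fin (m + 1)) (a : Fin d) (n : ℕ) : ℝ :=
  EE d (c.σ l n) (c.x l n) (c.N l a)
noncomputable def uh (l : Fin (m + 1)) (a : Fin d) : ℂ := c.α l a + c.β l a
noncomputable def u1h (l : Fin (m + 1)) (a : Fin d) : ℂ :=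
  (c.N l a : ℂ) * c.α l a + ((c.N l a : ℂ) - d) * c.β l a

lemma w_gt (l : Fin (m + 1)) (a : Fin d) : -(d : ℝ) / 2 < c.w l a := lift_gt d c.hd _ _
lemma w_le (l : Fin (m + 1)) (a : Fin d) : c.w l a ≤ (d : ℝ) / 2 := lift_le d c.hd _ _
lemma E_pos (l : Fin (m + 1)) (a : Fin d) (n : ℕ) : 0 < c.E l a n := EE_pos _ _ _ _

lemma N_inj (l : Fin (m + 1)) (a b : Fin d) (h : c.N l a = c.N l b) : a = b :=
  lift_inj d _ a b h

lemma w_inj (l : Fin (m + 1)) (a b : Fin d) (h : c.w l a = c.w l b) : a = b := by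
  apply c.N_inj l
  unfold w at h
  have : (c.N l a : ℝ) = c.N l b := by linarith
  exact_mod_cast this

lemma U_lift (l : Fin (m + 1)) (a : Fin d) (n : ℕ) :
    U d (c.σ l n) (c.N l a) (c.x l n) = U d (c.σ l n) (a : ℕ) (c.x l n) :=
  U_congr d c.hd _ _ _ (lift_dvd d _ _) _

lemma U1_lift (l : Fin (m + 1)) (a : Fin d) (n : ℕ) :
    U1 d (c.σ l n) (c.N l a) (c.x l n) = U1 d (c.σ l n) (a : ℕ) (c.x l n) :=
  U1_congr d c.hd _ _ _ (lift_dvd d _ _) _

lemma U_lim (l : Fin (m + 1)) (a : Fin d) :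
    Tendsto (fun n => U d (c.σ l n) (a : ℕ) (c.x l n) / (c.E l a n : ℂ)) c.F (𝓝 (c.uh l a)) := by
  have h := (U_tendsto d c.hd c.F (c.σ l) (c.x l) (c.v l) (c.N l a) (c.α l a) (c.β l a)
    (c.hσ l) (c.hv l) (c.w_gt l a) (c.w_le l a) (c.hα l a) (c.hβ l a)).1
  simp only [U_lift] at h
  exact h

lemma U1_lim (l : Fin (m + 1)) (a : Fin d) :
    Tendsto (fun n => U1 d (c.σ l n) (a : ℕ) (c.x l n) / (c.E l a n : ℂ)) c.F
      (𝓝 (c.u1h l a)) := by
  have h := (U_tendsto d c.hd c.F (c.σ l) (c.x l) (c.v l) (c.N l a) (c.α l a) (c.β l a)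
    (c.hσ l) (c.hv l) (c.w_gt l a) (c.w_le l a) (c.hα l a) (c.hβ l a)).2
  simp only [U1_lift] at h
  exact h

lemma norm_ab (l : Fin (m + 1)) (a : Fin d) : ‖c.α l a‖ + ‖c.β l a‖ = 1 := by
  have h1 := ((c.hα l a).norm).add ((c.hβ l a).norm)
  have h2 : ∀ n, ‖tm (c.σ l n) (c.x l n) (lift d (c.v l) (a : ℕ)) /
    (EE d (c.σ l n) (c.x l n) (lift d (c.v l) (a : ℕ)) : ℂ)‖ +
    ‖tm (c.σ l n) (c.x l n) (lift d (c.v l) (a : ℕ) - d) /
    (EE d (c.σ l n) (c.x l n) (lift d (c.v l) (a : ℕ)) : ℂ)‖ = 1 := by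
    intro n
    have hE := EE_pos d (c.σ l n) (c.x l n) (lift d (c.v l) (a : ℕ))
    rw [norm_div, norm_div, Complex.norm_real, Real.norm_of_nonneg hE.le, ← add_div]
    exact div_self hE.ne'
  simp only [h2] at h1
  exact tendsto_nhds_unique h1 tendsto_const_nhds


lemma norm_tm' (s : ℝ) (hs : 0 < s) (x : ℂ) (N : ℤ) :
    ‖tm s x N‖ = Real.exp (s * (Real.pi * (x.im / s) ^ 2 - Real.pi * (N + x.im / s) ^ 2)) := by
  rw [norm_tm]
  congr 1
  field_simp
  ring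

/-- ratio of the weights of the two competing lifts -/
lemma norm_ratio (s : ℝ) (hs : 0 < s) (x : ℂ) (N : ℤ) :
    ‖tm s x (N - d)‖ = ‖tm s x N‖ *
      Real.exp (-(s * (Real.pi * d * (d - 2 * (N + x.im / s))))) := by
  rw [norm_tm' s hs, norm_tm' s hs, ← Real.exp_add]
  congr 1
  push_cast
  ring

lemma sig_pos (l : Fin (m + 1)) : ∀ᶠ n in (c.F : Filter ℕ), 0 < c.σ l n :=
  (c.hσ l).eventually (eventually_gt_atTop 0)

lemma logE_lim (l : Fin (m + 1)) (a : Fin d) :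
    Tendsto (fun n => Real.log (c.E l a n) / c.σ l n) c.F
      (𝓝 (Real.pi * (c.v l) ^ 2 - Real.pi * (c.w l a) ^ 2)) := by
  have hd' : (0 : ℝ) < d := by exact_mod_cast c.hd
  -- lower and upper functions
  have hlow : Tendsto (fun n => Real.pi * ((c.x l n).im / c.σ l n) ^ 2 -
      Real.pi * (c.N l a + (c.x l n).im / c.σ l n) ^ 2) c.F
      (𝓝 (Real.pi * (c.v l) ^ 2 - Real.pi * (c.w l a) ^ 2)) := by
    have h := c.hv l
    exact ((h.pow 2).const_mul Real.pi).sub (((tendsto_const_nhds.add h).pow 2).const_mul Real.pi)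
  have hup : Tendsto (fun n => (Real.pi * ((c.x l n).im / c.σ l n) ^ 2 -
      Real.pi * (c.N l a + (c.x l n).im / c.σ l n) ^ 2) + Real.log 2 / c.σ l n +
      max 0 (-(Real.pi * d * (d - 2 * (c.N l a + (c.x l n).im / c.σ l n))))) c.F
      (𝓝 (Real.pi * (c.v l) ^ 2 - Real.pi * (c.w l a) ^ 2)) := by
    have h := c.hv l
    have h1 : Tendsto (fun n => Real.log 2 / c.σ l n) c.F (𝓝 0) :=
      tendsto_const_nhds.div_atTop (c.hσ l)
    have h2 : Tendsto (fun n => max 0 (-(Real.pi * d *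
        (d - 2 * (c.N l a + (c.x l n).im / c.σ l n))))) c.F
        (𝓝 (max 0 (-(Real.pi * d * (d - 2 * c.w l a))))) := by
      refine tendsto_const_nhds.max ?_
      exact (((tendsto_const_nhds.sub ((tendsto_const_nhds.add h).const_mul 2)).const_mul _).neg)
    have h3 : max 0 (-(Real.pi * d * (d - 2 * c.w l a))) = 0 := by
      apply max_eq_left
      have := c.w_le l a
      have : 0 ≤ Real.pi * d * (d - 2 * c.w l a) := by
        apply mul_nonneg (by positivity); linarith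
      linarith
    rw [h3] at h2
    simpa using (hlow.add h1).add h2
  refine tendsto_of_tendsto_of_tendsto_of_le_of_le' hlow hup ?_ ?_
  · filter_upwards [c.sig_pos l] with n hn
    rw [le_div_iff₀ hn, Real.le_log_iff_exp_le (c.E_pos l a n)]
    unfold E EE
    rw [mul_comm, ← norm_tm' _ hn]
    have := norm_nonneg (tm (c.σ l n) (c.x l n) (c.N l a - d))
    linarith
  · filter_upwards [c.sig_pos l] with n hn
    rw [div_le_iff₀ hn, Real.log_le_iff_le_exp (c.E_pos l a n)]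
    unfold E EE
    rw [norm_ratio _ hn, norm_tm' _ hn]
    set A := c.σ l n * (Real.pi * ((c.x l n).im / c.σ l n) ^ 2 -
      Real.pi * (c.N l a + (c.x l n).im / c.σ l n) ^ 2) with hA
    set B := -(Real.pi * d * (d - 2 * (c.N l a + (c.x l n).im / c.σ l n))) with hB
    have e1 : (Real.pi * ((c.x l n).im / c.σ l n) ^ 2 -
      Real.pi * (c.N l a + (c.x l n).im / c.σ l n) ^ 2 + Real.log 2 / c.σ l n + max 0 B) *
      c.σ l n = A + Real.log 2 + c.σ l n * max 0 B := by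
      rw [hA]; field_simp
    rw [e1, Real.exp_add, Real.exp_add, Real.exp_log (by norm_num)]
    have h1 : Real.exp 0 ≤ Real.exp (c.σ l n * max 0 B) := by
      apply Real.exp_le_exp.mpr
      have := le_max_left 0 B
      positivity
    have h2 : Real.exp (-(c.σ l n * (Real.pi * d * (d - 2 * (c.N l a + (c.x l n).im / c.σ l n)))))
        ≤ Real.exp (c.σ l n * max 0 B) := by
      apply Real.exp_le_exp.mpr
      have h3 := mul_le_mul_of_nonneg_left (le_max_right 0 B) hn.le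
      have h4 : -(c.σ l n * (Real.pi * d * (d - 2 * (c.N l a + (c.x l n).im / c.σ l n)))) =
        c.σ l n * B := by rw [hB]; ring
      rw [h4]; exact h3
    rw [Real.exp_zero] at h1
    have h5 := Real.exp_pos A
    nlinarith

lemma beta_zero (l : Fin (m + 1)) (a : Fin d) (h : c.w l a < (d : ℝ) / 2) : c.β l a = 0 := by
  have hd' : (0 : ℝ) < d := by exact_mod_cast c.hd
  have h1 := (c.hβ l a).norm
  have h2 : Tendsto (fun n => Real.exp (-(c.σ l n * (Real.pi * d *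
      (d - 2 * (c.N l a + (c.x l n).im / c.σ l n)))))) c.F (𝓝 0) := by
    apply Real.tendsto_exp_atBot.comp
    apply tendsto_neg_atTop_atBot.comp
    apply (c.hσ l).atTop_mul_pos (C := Real.pi * d * (d - 2 * c.w l a))
    · apply mul_pos (by positivity); linarith
    · exact ((tendsto_const_nhds.sub ((tendsto_const_nhds.add (c.hv l)).const_mul 2)).const_mul _)
  have h3 : Tendsto (fun n => ‖tm (c.σ l n) (c.x l n) (lift d (c.v l) (a : ℕ) - d) /
    (EE d (c.σ l n) (c.x l n) (lift d (c.v l) (a : ℕ)) : ℂ)‖) c.F (𝓝 0) := by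
    refine tendsto_of_tendsto_of_tendsto_of_le_of_le' tendsto_const_nhds h2 ?_ ?_
    · exact Eventually.of_forall fun n => norm_nonneg _
    · filter_upwards [c.sig_pos l] with n hn
      have hE := EE_pos d (c.σ l n) (c.x l n) (lift d (c.v l) (a : ℕ))
      rw [norm_div, Complex.norm_real, Real.norm_of_nonneg hE.le, div_le_iff₀ hE,
        norm_ratio _ hn]
      unfold EE
      have h4 := norm_nonneg (tm (c.σ l n) (c.x l n) (lift d (c.v l) (a : ℕ) - d))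
      have h5 := Real.exp_pos (-(c.σ l n * (Real.pi * d *
        (d - 2 * ((lift d (c.v l) (a : ℕ) : ℤ) + (c.x l n).im / c.σ l n)))))
      unfold N
      nlinarith
  have h6 := tendsto_nhds_unique h1 h3
  exact norm_eq_zero.mp h6

lemma alpha_norm_one (l : Fin (m + 1)) (a : Fin d) (h : c.w l a < (d : ℝ) / 2) :
    ‖c.α l a‖ = 1 := by
  have := c.norm_ab l a
  rw [c.beta_zero l a h] at this
  simpa using this

lemma uh_ne_zero_of_lt (l : Fin (m + 1)) (a : Fin d) (h : c.w l a < (d : ℝ) / 2) :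
    c.uh l a ≠ 0 := by
  unfold uh
  rw [c.beta_zero l a h, add_zero]
  intro h0
  have := c.alpha_norm_one l a h
  rw [h0] at this; simp at this

lemma u1h_of_lt (l : Fin (m + 1)) (a : Fin d) (h : c.w l a < (d : ℝ) / 2) :
    c.u1h l a = (c.N l a : ℂ) * c.uh l a := by
  unfold uh u1h
  rw [c.beta_zero l a h]; ring

lemma u1h_ne_zero (l : Fin (m + 1)) (a : Fin d) (h : c.uh l a = 0) : c.u1h l a ≠ 0 := by
  have hd' : (0 : ℝ) < d := by exact_mod_cast c.hd
  have hd'' : (d : ℂ) ≠ 0 := by exact_mod_cast c.hd.ne'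
  unfold uh at h
  have e : c.u1h l a = -(d : ℂ) * c.β l a := by
    unfold u1h
    linear_combination (c.N l a : ℂ) * h
  rw [e]
  have h1 : c.β l a ≠ 0 := by
    intro h0
    rw [h0, add_zero] at h
    have := c.norm_ab l a
    rw [h0, h] at this
    simp at this
  exact mul_ne_zero (neg_ne_zero.mpr hd'') h1

lemma cut_unique (l : Fin (m + 1)) (a b : Fin d) (ha : c.w l a = (d : ℝ) / 2)
    (hb : c.w l b = (d : ℝ) / 2) : a = b := c.w_inj l a b (ha.trans hb.symm)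

end Cfg

end Pool.Agent.AM
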