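import Pool.Agent.AM.Core9

/-! No exotic singular points in the odd case. -/

set_option autoImplicit false
open Complex Filter Topology
namespace Pool.Agent.AM

lemma diff_deriv {h : ℂ → ℂ} (hh : Differentiable ℂ h) : Differentiable ℂ (deriv h) := by
  have h1 : ContDiff ℂ 2 h := hh.contDiff
  have h2 : ContDiff ℂ 1 (deriv h) := ((contDiff_succ_iff_deriv (n := 1)).mp h1).2.2
  exact h2.differentiable one_ne_zero

lemma taylor (h : ℂ → ℂ) (hh : Differentiable ℂ h) (w : ℂ) (h0 : h w = 0) (F : Filter ℕ)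
    (t : ℕ → ℂ) (ht : Tendsto t F (𝓝 0)) :
    ∃ C : ℝ, ∀ᶠ n in F, ‖h (w + t n) - t n * deriv h (w + t n)‖ ≤ C * ‖t n‖ ^ 2 := by
  have hd1 := diff_deriv hh
  have hd2 := diff_deriv hd1
  obtain ⟨C, hC⟩ := (isCompact_closedBall w 1).exists_bound_of_continuousOn
    hd2.continuous.continuousOn
  refine ⟨C, ?_⟩
  have hb : ∀ᶠ n in F, ‖t n‖ < 1 := by
    have := ht.norm
    rw [norm_zero] at this
    exact this.eventually_lt_const one_pos
  filter_upwards [hb] with n hn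
  set φ : ℂ → ℂ := fun u => h (w + u) - u * deriv h (w + u) with hφ
  have hder : ∀ u, HasDerivAt φ (-(u * deriv (deriv h) (w + u))) u := by
    intro u
    have e1 : HasDerivAt (fun u => w + u) 1 u := (hasDerivAt_id u).const_add w
    have e2 := ((hh (w + u)).hasDerivAt.comp u e1)
    have e3 := ((hd1 (w + u)).hasDerivAt.comp u e1)
    have e4 := e2.sub ((hasDerivAt_id u).mul e3)
    refine e4.congr_deriv ?_
    simp
  have hmv := Convex.norm_image_sub_le_of_norm_hasDerivWithin_le (f := φ)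
    (f' := fun u => -(u * deriv (deriv h) (w + u))) (C := C * ‖t n‖)
    (s := Metric.closedBall 0 ‖t n‖) (x := 0) (y := t n)
    (fun u _ => (hder u).hasDerivWithinAt) (fun u hu => by
      have hu' : ‖u‖ ≤ ‖t n‖ := by simpa using hu
      rw [norm_neg, norm_mul]
      have h1 : ‖deriv (deriv h) (w + u)‖ ≤ C := by
        apply hC
        simp only [Metric.mem_closedBall, dist_eq_norm, add_sub_cancel_left]
        linarith
      calc ‖u‖ * ‖deriv (deriv h) (w + u)‖ ≤ ‖t n‖ * C :=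
            mul_le_mul hu' h1 (norm_nonneg _) (norm_nonneg _)
        _ = C * ‖t n‖ := mul_comm _ _) (convex_closedBall _ _)
    (by simp) (by simp)
  have e0 : φ 0 = 0 := by simp [hφ, h0]
  rw [e0, sub_zero, sub_zero] at hmv
  calc ‖h (w + t n) - t n * deriv h (w + t n)‖ = ‖φ (t n)‖ := rfl
    _ ≤ C * ‖t n‖ * ‖t n‖ := hmv
    _ = C * ‖t n‖ ^ 2 := by ring

lemma slope_lim (h : ℂ → ℂ) (hh : Differentiable ℂ h) (w : ℂ) (h0 : h w = 0) (F : Filter ℕ)
    (t : ℕ → ℂ) (ht : Tendsto t F (𝓝 0)) (ht0 : ∀ᶠ n in F, t n ≠ 0) :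
    Tendsto (fun n => h (w + t n) / t n) F (𝓝 (deriv h w)) := by
  have h1 := (hh w).hasDerivAt.tendsto_slope_zero
  have h2 : Tendsto t F (𝓝[≠] 0) := by
    rw [tendsto_nhdsWithin_iff]
    exact ⟨ht, ht0⟩
  refine (h1.comp h2).congr fun n => ?_
  simp only [Function.comp, h0, sub_zero, smul_eq_mul]
  rw [div_eq_inv_mul]

/-- function of the first variable for a fixed second variable -/
noncomputable def hY (be : ℝ) (Y2 : ℂ) (w : ℂ) : ℂ :=
  th3 1 w * th3 be Y2 + th4 1 w * th4 be Y2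

lemma hY_diff (be : ℝ) (Y2 : ℂ) : Differentiable ℂ (hY be Y2) := by
  unfold hY
  exact ((th3_diff 1 one_pos).mul_const _).add ((th4_diff 1 one_pos).mul_const _)

lemma hY_deriv (be : ℝ) (Y2 w : ℂ) : deriv (hY be Y2) w =
    deriv (th3 1) w * th3 be Y2 + deriv (th4 1) w * th4 be Y2 := by
  have h1 : HasDerivAt (hY be Y2) (deriv (th3 1) w * th3 be Y2 + deriv (th4 1) w * th4 be Y2) w :=
    ((th3_diff 1 one_pos w).hasDerivAt.mul_const _).add
      ((th4_diff 1 one_pos w).hasDerivAt.mul_const _)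
  exact h1.deriv

lemma th3_refl (al : ℝ) (m : ℤ) (u : ℂ) : th3 al (-u + m) = th3 al u := by
  rw [th3_add_int, th3_neg]

lemma th4_refl (al : ℝ) (m : ℤ) (u : ℂ) : th4 al (-u + m) = th4 al u := by
  have := YC.refl4 al m 0 u
  simpa using this

lemma hY_refl (be : ℝ) (Y2 : ℂ) (m : ℤ) (u : ℂ) : hY be Y2 (-u + m) = hY be Y2 u := by
  unfold hY
  rw [th3_refl, th4_refl]

lemma hY_deriv_refl (be : ℝ) (Y2 : ℂ) (m : ℤ) (u : ℂ) :
    deriv (hY be Y2) (-u + m) = -deriv (hY be Y2) u := by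
  have h1 := YC.deriv_refl (hY be Y2) (hY_diff be Y2) 0 0 (m : ℂ)
    (fun u => by rw [hY_refl]; simp) u
  simpa using h1

/-- the tangency case is impossible -/
theorem tan_absurd {d m : ℕ} (hd3 : 3 ≤ d) (hm : 1 ≤ m) {be : ℝ} (hb : 1 ≤ be) (c : Cfg d m)
    (y1 : ℕ → ℂ) (Y1 Y2 : ℂ) (hy1 : Tendsto y1 c.F (𝓝 Y1))
    (hs : ∀ a : Fin d, ∀ᶠ n in (c.F : Filter ℕ), c.s a n = sO d 1 be (a : ℕ) (y1 n) Y2)
    (ht0 : ∀ᶠ n in (c.F : Filter ℕ), y1 n ≠ Y1) (a0 a1 : Fin d) (hne : a0 ≠ a1)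
    (hadj : (d : ℤ) ∣ ((a1 : ℕ) : ℤ) - ((a0 : ℕ) : ℤ) - 1)
    (h0 : sO d 1 be (a0 : ℕ) Y1 Y2 = 0) (h1 : sO d 1 be (a1 : ℕ) Y1 Y2 = 0) (m' : ℤ)
    (hsum : (Y1 + ((a0 : ℕ) : ℤ) / d) + (Y1 + ((a1 : ℕ) : ℤ) / d) = m')
    (hp0 : c.p a0 ≠ 0) (hp1 : c.p a1 = -c.p a0)
    (hE1 : ∀ᶠ n in (c.F : Filter ℕ), ∑ a : Fin d, ds1 d 1 be (a : ℕ) (y1 n) Y2 *
      ∏ l, U d (c.σ l n) (a : ℕ) (c.x l n) = 0) : False := by
  have hd : 0 < d := by omega
  have hdc : (d : ℂ) ≠ 0 := by exact_mod_cast hd.ne'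
  set W : Fin d → ℂ := fun a => Y1 + (((a : ℕ) : ℤ) : ℂ) / d with hW
  set t : ℕ → ℂ := fun n => y1 n - Y1 with ht
  have htl : Tendsto t c.F (𝓝 0) := by
    have := hy1.sub_const Y1
    rwa [sub_self] at this
  have ht0' : ∀ᶠ n in (c.F : Filter ℕ), t n ≠ 0 := ht0.mono fun n hn => sub_ne_zero.mpr hn
  have hsO : ∀ (a : Fin d) n, sO d 1 be (a : ℕ) (y1 n) Y2 = hY be Y2 (W a + t n) := by
    intro a n
    unfold hY sO
    have e : y1 n + (((a : ℕ) : ℤ) : ℂ) / d = W a + t n := by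
      simp only [hW, ht]; ring
    rw [e]
  have hds : ∀ (a : Fin d) n, ds1 d 1 be (a : ℕ) (y1 n) Y2 = deriv (hY be Y2) (W a + t n) := by
    intro a n
    rw [hY_deriv]
    unfold ds1
    have e : y1 n + (((a : ℕ) : ℤ) : ℂ) / d = W a + t n := by
      simp only [hW, ht]; ring
    rw [e]
  have hW0 : hY be Y2 (W a0) = 0 := h0
  have hW1 : hY be Y2 (W a1) = 0 := h1
  have hWs : W a1 = -W a0 + m' := by
    have : W a0 + W a1 = m' := hsum
    linear_combination this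
  set H := deriv (hY be Y2) (W a0) with hH
  have hHne : H ≠ 0 := by
    rw [hH, hY_deriv]
    exact YC.ds1_ne le_rfl hb hd a0 a1 hne Y1 Y2 h0 h1
  have hH1 : deriv (hY be Y2) (W a1) = -H := by rw [hWs, hY_deriv_refl]
  have hcont : Continuous (hY be Y2) := (hY_diff be Y2).continuous
  have hcontd : Continuous (deriv (hY be Y2)) := (diff_deriv (hY_diff be Y2)).continuous
  have hWt : ∀ a : Fin d, Tendsto (fun n => W a + t n) c.F (𝓝 (W a)) := by
    intro a
    have := htl.const_add (W a)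
    rwa [add_zero] at this
  have hSl : ∀ a : Fin d, Tendsto (c.s a) c.F (𝓝 (hY be Y2 (W a))) := by
    intro a
    refine ((hcont.tendsto _).comp (hWt a)).congr' ?_
    filter_upwards [hs a] with n hn
    rw [hn, hsO]; rfl
  refine (Tan.absurd' (c := c) ?_)
  refine
    { a0 := a0, a1 := a1, hadj := hadj, hd3 := hd3, hm := hm, t := t, ht := htl, ht0 := ht0',
      H := H, hH := hHne, hs0 := ?_, hs1 := ?_, S := fun a => hY be Y2 (W a), hS := ?_,
      hSl := fun a _ _ => hSl a, hsym := ?_, hp0 := hp0, hp1 := hp1,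
      r := fun a n => hY be Y2 (W a + t n) - t n * deriv (hY be Y2) (W a + t n),
      hr0 := taylor _ (hY_diff be Y2) _ hW0 _ _ htl,
      hr1 := taylor _ (hY_diff be Y2) _ hW1 _ _ htl, hr := ?_, hrs := ?_ }
  · refine (slope_lim _ (hY_diff be Y2) _ hW0 _ _ htl ht0').congr' ?_
    filter_upwards [hs a0] with n hn
    rw [hn, hsO]
  · have h2 := slope_lim _ (hY_diff be Y2) _ hW1 _ _ htl ht0'
    rw [hH1] at h2
    refine h2.congr' ?_
    filter_upwards [hs a1] with n hn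
    rw [hn, hsO]
  · intro a ha0 ha1 hz
    exact YC.at_most_two le_rfl hb hd a0 a1 a hne (Ne.symm ha0) (Ne.symm ha1) Y1 Y2 h0 h1 hz
  · intro a b _ _ _ _ hdv
    obtain ⟨k, hk⟩ := hdv
    have e : W b = -W a + ((m' + k : ℤ) : ℂ) := by
      have hk' : (((a : ℕ) : ℤ) : ℂ) + (((b : ℕ) : ℤ) : ℂ) =
          (((a0 : ℕ) : ℤ) : ℂ) + (((a1 : ℕ) : ℤ) : ℂ) + d * k := by
        have : ((a : ℕ) : ℤ) + ((b : ℕ) : ℤ) = ((a0 : ℕ) : ℤ) + ((a1 : ℕ) : ℤ) + d * k := by
          linarith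
        exact_mod_cast this
      have h3 : W a + W b = W a0 + W a1 + k := by
        simp only [hW]
        field_simp
        linear_combination hk'
      have h4 : W a0 + W a1 = m' := hsum
      push_cast
      linear_combination h3 + h4
    show hY be Y2 (W a) = hY be Y2 (W b)
    rw [e, hY_refl]
  · intro a _ _
    have h2 := ((hcont.tendsto _).comp (hWt a)).sub
      (htl.mul ((hcontd.tendsto _).comp (hWt a)))
    rw [zero_mul, sub_zero] at h2
    exact h2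
  · have hall : ∀ᶠ n in (c.F : Filter ℕ), ∀ a : Fin d,
        c.s a n = sO d 1 be (a : ℕ) (y1 n) Y2 := by
      rw [Filter.eventually_all]; exact hs
    filter_upwards [c.hsum0, hE1, hall] with n h2 h3 h4
    have h5 : ∀ a : Fin d, (hY be Y2 (W a + t n) - t n * deriv (hY be Y2) (W a + t n)) *
        (∏ l, U d (c.σ l n) (a : ℕ) (c.x l n)) =
        c.s a n * (∏ l, U d (c.σ l n) (a : ℕ) (c.x l n)) -
        t n * (ds1 d 1 be (a : ℕ) (y1 n) Y2 * ∏ l, U d (c.σ l n) (a : ℕ) (c.x l n)) := by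
      intro a
      rw [h4 a, hsO, hds]; ring
    simp only [h5]
    rw [Finset.sum_sub_distrib, ← Finset.mul_sum, h2, h3]
    ring

end Pool.Agent.AM
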