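import Pool.Agent.AM.Core10

/-! No exotic singular points in the odd case: the final argument. -/

set_option autoImplicit false
open Complex Filter Topology
namespace Pool.Agent.AM

lemma blow (F : Filter ℕ) [F.NeBot] (f A : ℕ → ℂ) (D L : ℂ) (hf : Tendsto f F (𝓝 D))
    (hD : D ≠ 0) (hA : Tendsto (fun n => ‖A n‖) F atTop)
    (h : Tendsto (fun n => f n * A n) F (𝓝 L)) : False := by
  have h1 := (h.div hf hD).norm
  have h2 : Tendsto (fun n => ‖A n‖) F (𝓝 ‖L / D‖) := by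
    refine h1.congr' ?_
    filter_upwards [hf.eventually_ne hD] with n hn
    show ‖f n * A n / f n‖ = _
    rw [mul_div_cancel_left₀ _ hn]
  exact not_tendsto_nhds_of_tendsto_atTop hA _ h2

theorem no_cfg {d m : ℕ} (hd3 : 3 ≤ d) (hm : 1 ≤ m) {be : ℝ} (hb : 1 ≤ be)
    (htu : th3 be 0 * th4 1 (1 / (2 * d)) = th4 be 0 * th3 1 (1 / (2 * d)))
    (hdc : th3 1 0 * th4 be 0 ≠ th4 1 0 * th3 be 0)
    (c : Cfg d m) (y1 y2 : ℕ → ℂ) (Y1 Y2 : ℂ)
    (hy1 : Tendsto y1 c.F (𝓝 Y1)) (hy2 : Tendsto y2 c.F (𝓝 Y2)) (hY1 : |Y1.im| ≤ 1 / 2)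
    (hs : ∀ (a : Fin d) n, c.s a n = sO d 1 be (a : ℕ) (y1 n) (y2 n))
    (hE1 : ∀ᶠ n in (c.F : Filter ℕ), ∑ a : Fin d, ds1 d 1 be (a : ℕ) (y1 n) (y2 n) *
      ∏ l, U d (c.σ l n) (a : ℕ) (c.x l n) = 0)
    (hE2 : ∀ᶠ n in (c.F : Filter ℕ), ∑ a : Fin d, ds2 d 1 be (a : ℕ) (y1 n) (y2 n) *
      ∏ l, U d (c.σ l n) (a : ℕ) (c.x l n) = 0) : False := by
  classical
  have hd : 0 < d := by omega
  have hdC : (d : ℂ) ≠ 0 := by exact_mod_cast hd.ne'
  have hbe : 0 < be := by linarith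
  -- continuity
  have c3 := (th3_diff 1 one_pos).continuous
  have c4 := (th4_diff 1 one_pos).continuous
  have c3' := (diff_deriv (th3_diff 1 one_pos)).continuous
  have c4' := (diff_deriv (th4_diff 1 one_pos)).continuous
  have b3 := (th3_diff be hbe).continuous
  have b4 := (th4_diff be hbe).continuous
  have b3' := (diff_deriv (th3_diff be hbe)).continuous
  have b4' := (diff_deriv (th4_diff be hbe)).continuous
  have hya : ∀ a : Fin d, Tendsto (fun n => y1 n + (((a : ℕ) : ℤ) : ℂ) / d) c.F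
      (𝓝 (Y1 + (((a : ℕ) : ℤ) : ℂ) / d)) := fun a => hy1.add_const _
  have hya3 : ∀ a : Fin d, Tendsto (fun n => th3 1 (y1 n + (((a : ℕ) : ℤ) : ℂ) / d)) c.F
      (𝓝 (th3 1 (Y1 + (((a : ℕ) : ℤ) : ℂ) / d))) := fun a => (c3.tendsto _).comp (hya a)
  have hya4 : ∀ a : Fin d, Tendsto (fun n => th4 1 (y1 n + (((a : ℕ) : ℤ) : ℂ) / d)) c.F
      (𝓝 (th4 1 (Y1 + (((a : ℕ) : ℤ) : ℂ) / d))) := fun a => (c4.tendsto _).comp (hya a)
  have hsl : ∀ a : Fin d, Tendsto (fun n => sO d 1 be (a : ℕ) (y1 n) (y2 n)) c.F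
      (𝓝 (sO d 1 be (a : ℕ) Y1 Y2)) := fun a =>
    ((hya3 a).mul ((b3.tendsto _).comp hy2)).add ((hya4 a).mul ((b4.tendsto _).comp hy2))
  have h1l : ∀ a : Fin d, Tendsto (fun n => ds1 d 1 be (a : ℕ) (y1 n) (y2 n)) c.F
      (𝓝 (ds1 d 1 be (a : ℕ) Y1 Y2)) := fun a =>
    (((c3'.tendsto _).comp (hya a)).mul ((b3.tendsto _).comp hy2)).add
      (((c4'.tendsto _).comp (hya a)).mul ((b4.tendsto _).comp hy2))
  have h2l : ∀ a : Fin d, Tendsto (fun n => ds2 d 1 be (a : ℕ) (y1 n) (y2 n)) c.F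
      (𝓝 (ds2 d 1 be (a : ℕ) Y1 Y2)) := fun a =>
    ((hya3 a).mul ((b3'.tendsto _).comp hy2)).add ((hya4 a).mul ((b4'.tendsto _).comp hy2))
  -- there is a residue in the support with vanishing coefficient
  by_cases hV : ∃ a, c.p a ≠ 0 ∧ sO d 1 be (a : ℕ) Y1 Y2 = 0
  swap
  · push Not at hV
    refine c.ordinary fun a ha => ?_
    have h0 := norm_pos_iff.mpr (hV a ha)
    refine ⟨‖sO d 1 be (a : ℕ) Y1 Y2‖ / 2, by positivity, ?_⟩
    filter_upwards [(hsl a).norm.eventually_const_le (show ‖sO d 1 be (a : ℕ) Y1 Y2‖ / 2 <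
      ‖sO d 1 be (a : ℕ) Y1 Y2‖ by linarith)] with n hn
    rw [hs]; exact hn
  obtain ⟨a, hpa, hSa⟩ := hV
  set A : Fin d → ℕ → ℂ := fun b n =>
    (∏ l, U d (c.σ l n) (b : ℕ) (c.x l n)) / (c.M n : ℂ) with hAdef
  have hpn : ∀ b n, c.pn b n = sO d 1 be (b : ℕ) (y1 n) (y2 n) * A b n := by
    intro b n
    rw [← hs]
    unfold Cfg.pn
    rw [hAdef, mul_div_assoc]
  have hE1' : ∀ᶠ n in (c.F : Filter ℕ),
      ∑ b : Fin d, ds1 d 1 be (b : ℕ) (y1 n) (y2 n) * A b n = 0 := by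
    filter_upwards [hE1] with n hn
    simp only [hAdef, ← mul_div_assoc]
    rw [← Finset.sum_div, hn, zero_div]
  have hE2' : ∀ᶠ n in (c.F : Filter ℕ),
      ∑ b : Fin d, ds2 d 1 be (b : ℕ) (y1 n) (y2 n) * A b n = 0 := by
    filter_upwards [hE2] with n hn
    simp only [hAdef, ← mul_div_assoc]
    rw [← Finset.sum_div, hn, zero_div]
  have hE0' : ∀ᶠ n in (c.F : Filter ℕ),
      ∑ b : Fin d, sO d 1 be (b : ℕ) (y1 n) (y2 n) * A b n = 0 := by
    filter_upwards [c.hsum0] with n hn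
    simp only [hAdef, ← mul_div_assoc, ← hs]
    rw [← Finset.sum_div, hn, zero_div]
  have hAl : ∀ b : Fin d, sO d 1 be (b : ℕ) Y1 Y2 ≠ 0 →
      Tendsto (A b) c.F (𝓝 (c.p b / sO d 1 be (b : ℕ) Y1 Y2)) := by
    intro b hb'
    refine ((c.pn_lim b).div (hsl b) hb').congr' ?_
    filter_upwards [(hsl b).eventually_ne hb'] with n hn
    show c.pn b n / sO d 1 be (b : ℕ) (y1 n) (y2 n) = _
    rw [hpn, mul_div_cancel_left₀ _ hn]
  have hAinf : Tendsto (fun n => ‖A a n‖) c.F atTop := by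
    rw [tendsto_atTop]
    intro C
    by_contra hcon
    have h1 := Ultrafilter.eventually_not.mpr hcon
    apply hpa
    have h2 : Tendsto (c.pn a) c.F (𝓝 0) := by
      have h3 := ((hsl a).norm).mul_const (max C 0)
      rw [hSa, norm_zero, zero_mul] at h3
      refine squeeze_zero_norm' ?_ h3
      filter_upwards [h1] with n hn
      rw [hpn, norm_mul]
      apply mul_le_mul_of_nonneg_left _ (norm_nonneg _)
      push Not at hn
      exact hn.le.trans (le_max_left _ _)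
    exact tendsto_nhds_unique (c.pn_lim a) h2
  have hAinv : Tendsto (fun n => (A a n)⁻¹) c.F (𝓝 0) := by
    rw [tendsto_zero_iff_norm_tendsto_zero]
    simp only [norm_inv]
    exact hAinf.inv_tendsto_atTop
  have hAne : ∀ᶠ n in (c.F : Filter ℕ), A a n ≠ 0 := by
    filter_upwards [hAinf.eventually_gt_atTop 0] with n hn
    exact norm_pos_iff.mp hn
  by_cases hV2 : ∃ b, b ≠ a ∧ sO d 1 be (b : ℕ) Y1 Y2 = 0
  swap
  · -- only one vanishing coefficient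
    push Not at hV2
    have key : ∀ f : Fin d → ℕ → ℂ, ∀ D : Fin d → ℂ, (∀ b, Tendsto (f b) c.F (𝓝 (D b))) →
        (∀ᶠ n in (c.F : Filter ℕ), ∑ b : Fin d, f b n * A b n = 0) → D a = 0 := by
      intro f D hf hsum
      by_contra hD
      have h1 : Tendsto (fun n => -∑ b ∈ Finset.univ.erase a, f b n * A b n) c.F
          (𝓝 (-∑ b ∈ Finset.univ.erase a, D b * (c.p b / sO d 1 be (b : ℕ) Y1 Y2))) := by
        refine (tendsto_finsetSum _ fun b hb' => ?_).neg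
        exact (hf b).mul (hAl b (hV2 b (Finset.ne_of_mem_erase hb')))
      refine blow c.F (f a) (A a) (D a) _ (hf a) hD hAinf (h1.congr' ?_)
      filter_upwards [hsum] with n hn
      rw [← Finset.add_sum_erase Finset.univ _ (Finset.mem_univ a)] at hn
      linear_combination -hn
    rcases YC.grad_ne le_rfl hb hdc ((a : ℕ) : ℤ) Y1 Y2 hSa with h | h
    · exact h (key _ _ h1l hE1')
    · exact h (key _ _ h2l hE2')
  obtain ⟨b, hba, hSb⟩ := hV2
  have hoth : ∀ e : Fin d, e ≠ a → e ≠ b → sO d 1 be (e : ℕ) Y1 Y2 ≠ 0 := fun e h1 h2 h3 =>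
    YC.at_most_two le_rfl hb hd a b e (Ne.symm hba) (Ne.symm h1) (Ne.symm h2) Y1 Y2 hSa hSb h3
  -- decomposition of sums
  have hsplit : ∀ g : Fin d → ℂ, ∑ e, g e = g a + (g b +
      ∑ e ∈ (Finset.univ.erase a).erase b, g e) := by
    intro g
    rw [← Finset.add_sum_erase Finset.univ _ (Finset.mem_univ a),
      ← Finset.add_sum_erase _ _ (Finset.mem_erase.mpr ⟨hba, Finset.mem_univ b⟩)]
  have hrest : ∀ f : Fin d → ℕ → ℂ, ∀ D : Fin d → ℂ, (∀ e, Tendsto (f e) c.F (𝓝 (D e))) →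
      Tendsto (fun n => ∑ e ∈ (Finset.univ.erase a).erase b, f e n * A e n) c.F
        (𝓝 (∑ e ∈ (Finset.univ.erase a).erase b,
          D e * (c.p e / sO d 1 be (e : ℕ) Y1 Y2))) := by
    intro f D hf
    refine tendsto_finsetSum _ fun e he => (hf e).mul (hAl e ?_)
    exact hoth e (Finset.ne_of_mem_erase (Finset.mem_of_mem_erase he)) (Finset.ne_of_mem_erase he)
  obtain ⟨E, hE, g1, g2⟩ := YC.pair_grad le_rfl hb hd a b (Ne.symm hba) Y1 Y2 hSa hSb
  have hD1 := YC.ds1_ne le_rfl hb hd a b (Ne.symm hba) Y1 Y2 hSa hSb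
  by_cases hD2 : ds2 d 1 be (a : ℕ) Y1 Y2 = 0
  swap
  · -- independent gradients
    set f : ℕ → ℂ := fun n => ds1 d 1 be (a : ℕ) (y1 n) (y2 n) * ds2 d 1 be (b : ℕ) (y1 n) (y2 n) -
      ds1 d 1 be (b : ℕ) (y1 n) (y2 n) * ds2 d 1 be (a : ℕ) (y1 n) (y2 n) with hf
    have hfl : Tendsto f c.F (𝓝 (ds1 d 1 be (a : ℕ) Y1 Y2 * ds2 d 1 be (b : ℕ) Y1 Y2 -
        ds1 d 1 be (b : ℕ) Y1 Y2 * ds2 d 1 be (a : ℕ) Y1 Y2)) :=
      ((h1l a).mul (h2l b)).sub ((h1l b).mul (h2l a))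
    have hfne : ds1 d 1 be (a : ℕ) Y1 Y2 * ds2 d 1 be (b : ℕ) Y1 Y2 -
        ds1 d 1 be (b : ℕ) Y1 Y2 * ds2 d 1 be (a : ℕ) Y1 Y2 ≠ 0 := by
      rw [g1, g2]
      have e1 : ds1 d 1 be (a : ℕ) Y1 Y2 * (E * ds2 d 1 be (a : ℕ) Y1 Y2) -
        -E * ds1 d 1 be (a : ℕ) Y1 Y2 * ds2 d 1 be (a : ℕ) Y1 Y2 =
        2 * (E * (ds1 d 1 be (a : ℕ) Y1 Y2 * ds2 d 1 be (a : ℕ) Y1 Y2)) := by ring
      rw [e1]
      exact mul_ne_zero two_ne_zero (mul_ne_zero hE (mul_ne_zero hD1 hD2))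
    have r1 := hrest _ _ h1l
    have r2 := hrest _ _ h2l
    have hlim := (r2.mul (h1l b)).sub (r1.mul (h2l b))
    refine blow c.F f (A a) _ _ hfl hfne hAinf (hlim.congr' ?_)
    filter_upwards [hE1', hE2'] with n k1 k2
    rw [hsplit] at k1 k2
    simp only [hf]
    linear_combination (-ds2 d 1 be (b : ℕ) (y1 n) (y2 n)) * k1 +
      (ds1 d 1 be (b : ℕ) (y1 n) (y2 n)) * k2
  -- tangency
  obtain ⟨m2, n2, hY2⟩ := (YC.ds2_zero_iff le_rfl hb ((a : ℕ) : ℤ) Y1 Y2 hSa).mp hD2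
  obtain ⟨m', hsum⟩ : ∃ m' : ℤ, (Y1 + (((a : ℕ) : ℤ) : ℂ) / d) +
      (Y1 + (((b : ℕ) : ℤ) : ℂ) / d) = m' := by
    obtain ⟨m', n', h⟩ := YC.two_zero le_rfl hb hd a b (Ne.symm hba) Y1 Y2 hSa hSb
    have him := congrArg Complex.im h
    have e1 : ∀ k : ℕ, ((((k : ℕ) : ℤ) : ℂ) / d).im = 0 := by
      intro k
      have : ((((k : ℕ) : ℤ) : ℂ) / d) = (((k : ℝ) / d : ℝ) : ℂ) := by push_cast; rfl
      rw [this, Complex.ofReal_im]
    rw [Complex.add_im, Complex.add_im, Complex.add_im, e1, e1] at him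
    simp at him
    have h2 : (n' : ℝ) = Y1.im := by linarith
    have h3 : |(n' : ℝ)| ≤ 1 / 2 := by rw [h2]; exact hY1
    have h4 : n' = 0 := by
      by_contra hne
      have h5 : (1 : ℝ) ≤ |(n' : ℝ)| := by exact_mod_cast Int.one_le_abs hne
      linarith
    refine ⟨m', ?_⟩
    rw [h, h4]; simp
  set wa : ℂ := Y1 + (((a : ℕ) : ℤ) : ℂ) / d with hwa
  set wb : ℂ := Y1 + (((b : ℕ) : ℤ) : ℂ) / d with hwb
  have hwba : wb = -wa + m' := by linear_combination hsum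
  have hds1b : ds1 d 1 be (b : ℕ) Y1 Y2 = -ds1 d 1 be (a : ℕ) Y1 Y2 := by
    have h1 := hY_deriv_refl be Y2 m' wa
    rw [← hwba, hY_deriv, hY_deriv] at h1
    exact h1
  -- ratio of the large terms
  set ρ : ℕ → ℂ := fun n => A b n * (A a n)⁻¹ with hρ
  have hρl : Tendsto ρ c.F (𝓝 1) := by
    have r1 := (hrest _ _ h1l).mul hAinv
    rw [mul_zero] at r1
    have h3 := (r1.add (h1l a)).neg.div (h1l b) (by rw [hds1b]; exact neg_ne_zero.mpr hD1)
    have e1 : -(0 + ds1 d 1 be (a : ℕ) Y1 Y2) / ds1 d 1 be (b : ℕ) Y1 Y2 = 1 := by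
      rw [hds1b, zero_add]
      exact div_self (neg_ne_zero.mpr hD1)
    rw [e1] at h3
    refine h3.congr' ?_
    filter_upwards [hE1', hAne, (h1l b).eventually_ne (by rw [hds1b]; exact neg_ne_zero.mpr hD1)]
      with n k1 k2 k3
    rw [hsplit] at k1
    show -((∑ e ∈ (Finset.univ.erase a).erase b, ds1 d 1 be (e : ℕ) (y1 n) (y2 n) * A e n) *
      (A a n)⁻¹ + ds1 d 1 be (a : ℕ) (y1 n) (y2 n)) / ds1 d 1 be (b : ℕ) (y1 n) (y2 n) = _
    rw [div_eq_iff k3]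
    simp only [hρ]
    have h4 : A a n * (A a n)⁻¹ = 1 := mul_inv_cancel₀ k2
    linear_combination (-(A a n)⁻¹) * k1 + (ds1 d 1 be (a : ℕ) (y1 n) (y2 n)) * h4
  -- the second coordinate is critical
  have hcrit : ∀ᶠ n in (c.F : Filter ℕ), Wr be (y2 n) = 0 := by
    by_contra hcon
    have hne := Ultrafilter.eventually_not.mpr hcon
    have hG : ∀ᶠ n in (c.F : Filter ℕ),
        (∑ e : Fin d, th3 1 (y1 n + (((e : ℕ) : ℤ) : ℂ) / d) * A e n = 0) ∧
        (∑ e : Fin d, th4 1 (y1 n + (((e : ℕ) : ℤ) : ℂ) / d) * A e n = 0) := by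
      filter_upwards [hE0', hE2', hne] with n k0 k2 k3
      set G3 := ∑ e : Fin d, th3 1 (y1 n + (((e : ℕ) : ℤ) : ℂ) / d) * A e n with hG3
      set G4 := ∑ e : Fin d, th4 1 (y1 n + (((e : ℕ) : ℤ) : ℂ) / d) * A e n with hG4
      have j0 : G3 * th3 be (y2 n) + G4 * th4 be (y2 n) = 0 := by
        rw [← k0, hG3, hG4, Finset.sum_mul, Finset.sum_mul, ← Finset.sum_add_distrib]
        refine Finset.sum_congr rfl fun e _ => ?_
        unfold sO; ring
      have j2 : G3 * deriv (th3 be) (y2 n) + G4 * deriv (th4 be) (y2 n) = 0 := by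
        rw [← k2, hG3, hG4, Finset.sum_mul, Finset.sum_mul, ← Finset.sum_add_distrib]
        refine Finset.sum_congr rfl fun e _ => ?_
        unfold ds2; ring
      have k3' : Wr be (y2 n) ≠ 0 := k3
      have l3 : Wr be (y2 n) * G3 = 0 := by
        unfold Wr
        linear_combination (th4 be (y2 n)) * j2 - (deriv (th4 be) (y2 n)) * j0
      have l4 : Wr be (y2 n) * G4 = 0 := by
        unfold Wr
        linear_combination (deriv (th3 be) (y2 n)) * j0 - (th3 be (y2 n)) * j2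
      exact ⟨(mul_eq_zero.mp l3).resolve_left k3', (mul_eq_zero.mp l4).resolve_left k3'⟩
    have hz : ∀ (T : ℂ → ℂ), (∀ e : Fin d, Tendsto (fun n => T (y1 n + (((e : ℕ) : ℤ) : ℂ) / d))
        c.F (𝓝 (T (Y1 + (((e : ℕ) : ℤ) : ℂ) / d)))) → T wb = T wa →
        (∀ᶠ n in (c.F : Filter ℕ),
          ∑ e : Fin d, T (y1 n + (((e : ℕ) : ℤ) : ℂ) / d) * A e n = 0) → T wa = 0 := by
      intro T hT hTT hTs
      have r := (hrest _ _ hT).mul hAinv
      rw [mul_zero] at r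
      have h5 := ((hT a).add ((hT b).mul hρl)).add r
      have h6 : Tendsto (fun _ : ℕ => (0 : ℂ)) c.F
          (𝓝 (T (Y1 + (((a : ℕ) : ℤ) : ℂ) / d) + T (Y1 + (((b : ℕ) : ℤ) : ℂ) / d) * 1 + 0)) := by
        refine h5.congr' ?_
        filter_upwards [hTs, hAne] with n k1 k2
        rw [hsplit] at k1
        have h4 : A a n * (A a n)⁻¹ = 1 := mul_inv_cancel₀ k2
        simp only [hρ]
        linear_combination ((A a n)⁻¹) * k1 - (T (y1 n + (((a : ℕ) : ℤ) : ℂ) / d)) * h4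
      have h7 := tendsto_nhds_unique tendsto_const_nhds h6
      rw [← hwa, ← hwb, hTT] at h7
      have h8 : (2 : ℂ) * T wa = 0 := by linear_combination -h7
      exact (mul_eq_zero.mp h8).resolve_left two_ne_zero
    refine th_no_common_zero 1 le_rfl wa ⟨?_, ?_⟩
    · exact hz (th3 1) hya3 (by rw [hwba, th3_refl]) (hG.mono fun n hn => hn.1)
    · exact hz (th4 1) hya4 (by rw [hwba, th4_refl]) (hG.mono fun n hn => hn.2)
  -- hence the second coordinate is eventually constant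
  have hconst : ∀ᶠ n in (c.F : Filter ℕ), y2 n = Y2 := by
    have h1 : Tendsto (fun n => 2 * y2 n - 2 * Y2) c.F (𝓝 0) := by
      have := (hy2.const_mul 2).sub_const (2 * Y2)
      rwa [sub_self] at this
    have h2 : ∀ᶠ n in (c.F : Filter ℕ), ‖2 * y2 n - 2 * Y2‖ < 1 := by
      have := h1.norm
      rw [norm_zero] at this
      exact this.eventually_lt_const one_pos
    filter_upwards [hcrit, h2] with n k1 k2
    obtain ⟨p, q, k3⟩ := (wr_zero_iff be hb _).mp k1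
    have e1 : 2 * y2 n - 2 * Y2 = ((p - m2 : ℤ) : ℂ) + 2 * ((q - n2 : ℤ) : ℂ) * (I * be) := by
      rw [k3, hY2]; push_cast; ring
    have hre := (Complex.abs_re_le_norm (2 * y2 n - 2 * Y2)).trans_lt k2
    have him := (Complex.abs_im_le_norm (2 * y2 n - 2 * Y2)).trans_lt k2
    rw [e1] at hre him
    have hre' : |((p - m2 : ℤ) : ℝ)| < 1 := by
      have e2 : (((p - m2 : ℤ) : ℂ) + 2 * ((q - n2 : ℤ) : ℂ) * (I * be)).re =
        ((p - m2 : ℤ) : ℝ) := by simp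
      rwa [e2] at hre
    have him' : |2 * ((q - n2 : ℤ) : ℝ) * be| < 1 := by
      have e2 : (((p - m2 : ℤ) : ℂ) + 2 * ((q - n2 : ℤ) : ℂ) * (I * be)).im =
        2 * ((q - n2 : ℤ) : ℝ) * be := by simp
      rwa [e2] at him
    have hp0 : p - m2 = 0 := by
      by_contra hne
      have h5 : (1 : ℝ) ≤ |((p - m2 : ℤ) : ℝ)| := by exact_mod_cast Int.one_le_abs hne
      linarith
    have hq0 : q - n2 = 0 := by
      by_contra hne
      have h5 : (1 : ℝ) ≤ |((q - n2 : ℤ) : ℝ)| := by exact_mod_cast Int.one_le_abs hne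
      rw [abs_mul, abs_mul, abs_of_pos hbe, abs_of_pos (show (0 : ℝ) < 2 by norm_num)] at him'
      nlinarith
    rw [hp0, hq0] at e1
    have e3 : 2 * y2 n - 2 * Y2 = 0 := by rw [e1]; simp
    linear_combination e3 / 2
  -- the first coordinate is not constant
  have hs' : ∀ e : Fin d, ∀ᶠ n in (c.F : Filter ℕ), c.s e n = sO d 1 be (e : ℕ) (y1 n) Y2 :=
    fun e => hconst.mono fun n hn => by rw [hs, hn]
  have ht0 : ∀ᶠ n in (c.F : Filter ℕ), y1 n ≠ Y1 := by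
    have : ¬ ∀ᶠ n in (c.F : Filter ℕ), y1 n = Y1 := by
      intro hcon
      apply hpa
      refine tendsto_nhds_unique (c.pn_lim a) (tendsto_const_nhds.congr' ?_)
      filter_upwards [hcon, hconst] with n k1 k2
      rw [hpn, k1, k2, hSa, zero_mul]
    exact Ultrafilter.eventually_not.mpr this
  -- the ratio of the small coefficients
  set t : ℕ → ℂ := fun n => y1 n - Y1 with htdef
  have htl : Tendsto t c.F (𝓝 0) := by
    have := hy1.sub_const Y1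
    rwa [sub_self] at this
  have ht0' : ∀ᶠ n in (c.F : Filter ℕ), t n ≠ 0 := ht0.mono fun n hn => sub_ne_zero.mpr hn
  have hsa : Tendsto (fun n => hY be Y2 (wa + t n) / t n) c.F (𝓝 (deriv (hY be Y2) wa)) :=
    slope_lim _ (hY_diff be Y2) wa hSa _ _ htl ht0'
  have hsb : Tendsto (fun n => hY be Y2 (wb + t n) / t n) c.F (𝓝 (-deriv (hY be Y2) wa)) := by
    have h1 := slope_lim _ (hY_diff be Y2) wb hSb _ _ htl ht0'
    rwa [hwba, hY_deriv_refl, ← hwba] at h1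
  have hda : deriv (hY be Y2) wa ≠ 0 := by rw [hY_deriv]; exact hD1
  have hpb : c.p b = -c.p a := by
    have h1 := ((hsb.div hsa hda).mul hρl).mul (c.pn_lim a)
    have e1 : -deriv (hY be Y2) wa / deriv (hY be Y2) wa * 1 * c.p a = -c.p a := by
      rw [neg_div, div_self hda]; ring
    rw [e1] at h1
    refine tendsto_nhds_unique (c.pn_lim b) (h1.congr' ?_)
    filter_upwards [ht0', hAne, hconst, hsa.eventually_ne hda] with n k1 k2 k3 k4
    show hY be Y2 (wb + t n) / t n / (hY be Y2 (wa + t n) / t n) * ρ n * c.pn a n = c.pn b n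
    have e2 : sO d 1 be (a : ℕ) (y1 n) (y2 n) = hY be Y2 (wa + t n) := by
      rw [k3]; unfold hY sO
      have e : y1 n + (((a : ℕ) : ℤ) : ℂ) / d = wa + t n := by
        simp only [hwa, htdef]; ring
      rw [e]
    have e3 : sO d 1 be (b : ℕ) (y1 n) (y2 n) = hY be Y2 (wb + t n) := by
      rw [k3]; unfold hY sO
      have e : y1 n + (((b : ℕ) : ℤ) : ℂ) / d = wb + t n := by
        simp only [hwb, htdef]; ring
      rw [e]
    rw [hpn, hpn, e2, e3]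
    simp only [hρ]
    have k5 : hY be Y2 (wa + t n) ≠ 0 := by
      intro h0; apply k4; rw [h0, zero_div]
    field_simp
  have hpb0 : c.p b ≠ 0 := by rw [hpb]; exact neg_ne_zero.mpr hpa
  have hE1Y : ∀ᶠ n in (c.F : Filter ℕ), ∑ e : Fin d, ds1 d 1 be (e : ℕ) (y1 n) Y2 *
      ∏ l, U d (c.σ l n) (e : ℕ) (c.x l n) = 0 := by
    filter_upwards [hE1, hconst] with n k1 k2
    rw [k2] at k1; exact k1
  -- adjacency
  obtain ⟨cs, ⟨mc, nc, hcs⟩, hpos⟩ := YC.tangency_pos le_rfl hd htu hb Y2 ⟨m2, n2, hY2⟩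
  have hadj : ∀ u v : Fin d, (Y1 + (((u : ℕ) : ℤ) : ℂ) / d) + (Y1 + (((v : ℕ) : ℤ) : ℂ) / d) = m' →
      (∃ p q : ℤ, (Y1 + (((u : ℕ) : ℤ) : ℂ) / d) - cs = p + 2 * q * (I * (1 : ℝ))) →
      (d : ℤ) ∣ ((u : ℕ) : ℤ) - ((v : ℕ) : ℤ) - 1 := by
    rintro u v huv ⟨p, q, hpq⟩
    have e1 : (((u : ℕ) : ℤ) : ℂ) / d - (((v : ℕ) : ℤ) : ℂ) / d - 1 / d =
        ((2 * p + mc - m' : ℤ) : ℂ) + ((4 * q + 2 * nc : ℤ) : ℂ) * I := by
      push_cast at hpq hcs huv ⊢
      linear_combination 2 * hpq - huv + hcs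
    have e2 : (((u : ℕ) : ℤ) : ℂ) / d - (((v : ℕ) : ℤ) : ℂ) / d - 1 / d =
        (((((u : ℕ) : ℝ) - ((v : ℕ) : ℝ) - 1) / d : ℝ) : ℂ) := by
      push_cast; ring
    rw [e2] at e1
    have hre := congrArg Complex.re e1
    rw [Complex.ofReal_re] at hre
    simp only [Complex.add_re, Complex.intCast_re, Complex.mul_re, Complex.I_re, mul_zero,
      Complex.intCast_im, Complex.I_im, mul_one, sub_zero, add_zero] at hre
    have hdr : (d : ℝ) ≠ 0 := by exact_mod_cast hd.ne'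
    rw [div_eq_iff hdr] at hre
    refine ⟨2 * p + mc - m', ?_⟩
    have h3 : ((((u : ℕ) : ℤ) - ((v : ℕ) : ℤ) - 1 : ℤ) : ℝ) =
        (((d : ℤ) * (2 * p + mc - m') : ℤ) : ℝ) := by
      push_cast at hre ⊢
      linarith
    exact_mod_cast h3
  rcases hpos wa hSa with ⟨p, q, h⟩ | ⟨p, q, h⟩
  · -- w_b is congruent to cs
    have hdv := hadj b a (by rw [add_comm]; exact hsum) ⟨m' - p, -q, by
      rw [← hwb, hwba]; push_cast; push_cast at h; linear_combination -h⟩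
    exact tan_absurd hd3 hm hb c y1 Y1 Y2 hy1 hs' ht0 a b (Ne.symm hba) hdv hSa hSb m' hsum
      hpa hpb hE1Y
  · have hdv := hadj a b hsum ⟨p, q, h⟩
    exact tan_absurd hd3 hm hb c y1 Y1 Y2 hy1 hs' ht0 b a hba hdv hSb hSa m'
      (by rw [add_comm]; exact hsum) hpb0 (by rw [hpb, neg_neg]) hE1Y

/-- Odd case: no exotic singular points for suitable parameters. -/
theorem odd_no_exotic (d m : ℕ) (hd3 : 3 ≤ d) (hm : 1 ≤ m) (be : ℝ) (hb : 1 ≤ be)
    (htu : th3 be 0 * th4 1 (1 / (2 * d)) = th4 be 0 * th3 1 (1 / (2 * d)))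
    (hdc : th3 1 0 * th4 be 0 ≠ th4 1 0 * th3 be 0) :
    ∃ s : Fin (m + 1) → ℝ, (∀ l, 0 < s l) ∧ (∀ l, Good d (s l)) ∧
      ∀ z : Fin (m + 3) → ℂ, SingO d m be s z → ∀ a : Fin d, tO d m be s a z = 0 := by
  classical
  have hd : 0 < d := by omega
  have hbe : 0 < be := by linarith
  obtain ⟨n0, hn0⟩ := good_sg d m hd
  by_contra hcon
  push Not at hcon
  have hex : ∀ n ≥ n0, ∃ z : Fin (m + 3) → ℂ, SingO d m be (fun l => sg m l n) z ∧
      |(z 0).im| ≤ 1 / 2 ∧ |(z 0).re| ≤ 1 ∧ |(z 1).im| ≤ be ∧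
      |(z 1).re| ≤ 1 ∧ (∀ l : Fin (m + 1), |(z l.succ.succ).im / sg m l n| ≤ d) ∧
      ∃ a, tO d m be (fun l => sg m l n) a z ≠ 0 := by
    intro n hn
    obtain ⟨z, h1, a, h2⟩ := hcon (fun l => sg m l n) (fun l => sg_pos m l n) (hn0 n hn)
    obtain ⟨z', h3, h4, h5, h6, h7, h8, h9⟩ := normalizeO d m hd be hbe (fun l => sg m l n)
      (fun l => sg_pos m l n) z h1
    exact ⟨z', h3, h4, h5, h6, h7, h8, a, h9 a h2⟩
  have hex' : ∀ n, ∃ z : Fin (m + 3) → ℂ, n ≥ n0 → SingO d m be (fun l => sg m l n) z ∧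
      |(z 0).im| ≤ 1 / 2 ∧ |(z 0).re| ≤ 1 ∧ |(z 1).im| ≤ be ∧
      |(z 1).re| ≤ 1 ∧ (∀ l : Fin (m + 1), |(z l.succ.succ).im / sg m l n| ≤ d) ∧
      ∃ a, tO d m be (fun l => sg m l n) a z ≠ 0 := by
    intro n
    by_cases hn : n ≥ n0
    · obtain ⟨z, hz⟩ := hex n hn
      exact ⟨z, fun _ => hz⟩
    · exact ⟨0, fun h => absurd h hn⟩
  choose z hz using hex'
  have hF : ((hyperfilter ℕ : Ultrafilter ℕ) : Filter ℕ) ≤ atTop := by
    rw [← Nat.cofinite_eq_atTop]; exact hyperfilter_le_cofinite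
  have hge : ∀ᶠ n in ((hyperfilter ℕ : Ultrafilter ℕ) : Filter ℕ), n ≥ n0 :=
    hF (eventually_ge_atTop n0)
  obtain ⟨Y1, -, hY1⟩ := ultra_lim (hyperfilter ℕ) (fun n => z n 0) 2 (hge.mono fun n hn => by
    have h := hz n hn
    calc ‖z n 0‖ ≤ |(z n 0).re| + |(z n 0).im| := Complex.norm_le_abs_re_add_abs_im _
      _ ≤ 2 := by linarith [h.2.1, h.2.2.1])
  obtain ⟨Y2, -, hY2⟩ := ultra_lim (hyperfilter ℕ) (fun n => z n 1) (1 + be)
    (hge.mono fun n hn => by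
    have h := hz n hn
    calc ‖z n 1‖ ≤ |(z n 1).re| + |(z n 1).im| := Complex.norm_le_abs_re_add_abs_im _
      _ ≤ 1 + be := by linarith [h.2.2.2.1, h.2.2.2.2.1])
  have hYim : |Y1.im| ≤ 1 / 2 := by
    have h1 := ((Complex.continuous_im.tendsto Y1).comp hY1).abs
    exact le_of_tendsto h1 (hge.mono fun n hn => (hz n hn).2.1)
  have c3 := (th3_diff 1 one_pos).continuous
  have c4 := (th4_diff 1 one_pos).continuous
  have b3 := (th3_diff be hbe).continuous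
  have b4 := (th4_diff be hbe).continuous
  have hsl : ∀ a : Fin d, Tendsto (fun n => sO d 1 be (a : ℕ) (z n 0) (z n 1)) (hyperfilter ℕ)
      (𝓝 (sO d 1 be (a : ℕ) Y1 Y2)) := fun a =>
    (((c3.tendsto _).comp (hY1.add_const _)).mul ((b3.tendsto _).comp hY2)).add
      (((c4.tendsto _).comp (hY1.add_const _)).mul ((b4.tendsto _).comp hY2))
  obtain ⟨c, hc1, hc2, hc3, hc4⟩ := exists_cfg d m hd (hyperfilter ℕ) hF
    (fun l n => z n l.succ.succ)
    (fun a n => sO d 1 be (a : ℕ) (z n 0) (z n 1))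
    (fun a => ⟨‖sO d 1 be (a : ℕ) Y1 Y2‖ + 1,
      (hsl a).norm.eventually_le_const (lt_add_one _)⟩)
    (fun l => hge.mono fun n hn => (hz n hn).2.2.2.2.2.1 l)
    (hge.mono fun n hn => (hz n hn).1.e0)
    (fun l => hge.mono fun n hn => (hz n hn).1.e3 l)
    (hge.mono fun n hn => (hz n hn).2.2.2.2.2.2)
  refine no_cfg hd3 hm hb htu hdc c (fun n => z n 0) (fun n => z n 1) Y1 Y2
    (by rw [hc1]; exact hY1) (by rw [hc1]; exact hY2) hYim
    (fun a n => by rw [hc3]) ?_ ?_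
  · rw [hc1, hc2, hc4]
    exact hge.mono fun n hn => (hz n hn).1.e1
  · rw [hc1, hc2, hc4]
    exact hge.mono fun n hn => (hz n hn).1.e2

end Pool.Agent.AM
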