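import Pool.Agent.AM.Core1

set_option autoImplicit false
open Complex Filter Topology
namespace Pool.Agent.AM
namespace Cfg

variable {d m : ℕ} (c : Cfg d m)

/-- product of the weights -/
noncomputable def eprod (a : Fin d) (n : ℕ) : ℝ := ∏ l, c.E l a n
noncomputable def e (a : Fin d) (n : ℕ) : ℝ := c.eprod a n / c.M n
/-- normalised terms -/
noncomputable def pn (a : Fin d) (n : ℕ) : ℂ :=
  c.s a n * (∏ l, U d (c.σ l n) (a : ℕ) (c.x l n)) / (c.M n : ℂ)
/-- normalised terms of the derivative -/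
noncomputable def Q (l : Fin (m + 1)) (a : Fin d) (n : ℕ) : ℂ :=
  c.s a n * (U1 d (c.σ l n) (a : ℕ) (c.x l n) *
    ∏ l' ∈ Finset.univ.erase l, U d (c.σ l' n) (a : ℕ) (c.x l' n)) / (c.M n : ℂ)

lemma pn_lim (a : Fin d) : Tendsto (c.pn a) c.F (𝓝 (c.p a)) := c.hp a

lemma eprod_pos (a : Fin d) (n : ℕ) : 0 < c.eprod a n :=
  Finset.prod_pos fun l _ => c.E_pos l a n

lemma e_pos (a : Fin d) : ∀ᶠ n in (c.F : Filter ℕ), 0 < c.e a n := by
  filter_upwards [c.hM] with n hn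
  exact div_pos (c.eprod_pos a n) hn

lemma sum_p : ∑ a, c.p a = 0 := by
  have h1 : Tendsto (fun n => ∑ a, c.pn a n) c.F (𝓝 (∑ a, c.p a)) :=
    tendsto_finsetSum _ fun a _ => c.pn_lim a
  have h2 : Tendsto (fun n => ∑ a, c.pn a n) c.F (𝓝 0) := by
    refine tendsto_const_nhds.congr' ?_
    filter_upwards [c.hsum0] with n hn
    unfold pn
    rw [← Finset.sum_div, hn, zero_div]
  exact tendsto_nhds_unique h1 h2

lemma sum_Q (l : Fin (m + 1)) : ∀ᶠ n in (c.F : Filter ℕ), ∑ a, c.Q l a n = 0 := by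
  filter_upwards [c.hsum1 l] with n hn
  unfold Q
  rw [← Finset.sum_div, hn, zero_div]

/-- exact identity linking `pn` and `Q` -/
lemma pn_Q (l : Fin (m + 1)) (a : Fin d) (n : ℕ) :
    c.pn a n * (U1 d (c.σ l n) (a : ℕ) (c.x l n) / (c.E l a n : ℂ)) =
      c.Q l a n * (U d (c.σ l n) (a : ℕ) (c.x l n) / (c.E l a n : ℂ)) := by
  unfold pn Q
  rw [← Finset.mul_prod_erase Finset.univ _ (Finset.mem_univ l)]
  ring

lemma Q_lim_noncut (l : Fin (m + 1)) (a : Fin d) (h : c.w l a < (d : ℝ) / 2) :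
    Tendsto (c.Q l a) c.F (𝓝 ((c.N l a : ℂ) * c.p a)) := by
  have hu := c.uh_ne_zero_of_lt l a h
  have h1 := c.U_lim l a
  have h2 := c.U1_lim l a
  rw [c.u1h_of_lt l a h] at h2
  have h3 : Tendsto (fun n => c.pn a n * (U1 d (c.σ l n) (a : ℕ) (c.x l n) / (c.E l a n : ℂ)) /
      (U d (c.σ l n) (a : ℕ) (c.x l n) / (c.E l a n : ℂ))) c.F
      (𝓝 (c.p a * ((c.N l a : ℂ) * c.uh l a) / c.uh l a)) :=
    ((c.pn_lim a).mul h2).div h1 hu
  have e1 : c.p a * ((c.N l a : ℂ) * c.uh l a) / c.uh l a = (c.N l a : ℂ) * c.p a := by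
    field_simp
  rw [e1] at h3
  refine h3.congr' ?_
  filter_upwards [h1.eventually_ne hu] with n hn
  rw [c.pn_Q l a n, mul_div_assoc, div_self hn, mul_one]

lemma noncut_or (l : Fin (m + 1)) (a : Fin d) : c.w l a < (d : ℝ) / 2 ∨ c.w l a = (d : ℝ) / 2 :=
  (c.w_le l a).lt_or_eq

lemma noncut_of_ne (l : Fin (m + 1)) (a b : Fin d) (ha : c.w l a = (d : ℝ) / 2) (hab : b ≠ a) :
    c.w l b < (d : ℝ) / 2 := by
  rcases c.noncut_or l b with h | h
  · exact h
  · exact absurd (c.cut_unique l b a h ha) hab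

/-- limits of `Q` -/
lemma Q_lim_ex (l : Fin (m + 1)) (a : Fin d) : ∃ q : ℂ, Tendsto (c.Q l a) c.F (𝓝 q) := by
  classical
  rcases c.noncut_or l a with h | h
  · exact ⟨_, c.Q_lim_noncut l a h⟩
  · refine ⟨-∑ b ∈ Finset.univ.erase a, (c.N l b : ℂ) * c.p b, ?_⟩
    have h1 : Tendsto (fun n => -∑ b ∈ Finset.univ.erase a, c.Q l b n) c.F
        (𝓝 (-∑ b ∈ Finset.univ.erase a, (c.N l b : ℂ) * c.p b)) := by
      refine (tendsto_finsetSum _ fun b hb => ?_).neg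
      exact c.Q_lim_noncut l b (c.noncut_of_ne l a b h (Finset.ne_of_mem_erase hb))
    refine h1.congr' ?_
    filter_upwards [c.sum_Q l] with n hn
    rw [← Finset.add_sum_erase Finset.univ _ (Finset.mem_univ a)] at hn
    linear_combination -hn

noncomputable def q (l : Fin (m + 1)) (a : Fin d) : ℂ := (c.Q_lim_ex l a).choose

lemma q_lim (l : Fin (m + 1)) (a : Fin d) : Tendsto (c.Q l a) c.F (𝓝 (c.q l a)) :=
  (c.Q_lim_ex l a).choose_spec

lemma q_noncut (l : Fin (m + 1)) (a : Fin d) (h : c.w l a < (d : ℝ) / 2) :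
    c.q l a = (c.N l a : ℂ) * c.p a :=
  tendsto_nhds_unique (c.q_lim l a) (c.Q_lim_noncut l a h)

lemma sum_q (l : Fin (m + 1)) : ∑ a, c.q l a = 0 := by
  have h1 : Tendsto (fun n => ∑ a, c.Q l a n) c.F (𝓝 (∑ a, c.q l a)) :=
    tendsto_finsetSum _ fun a _ => c.q_lim l a
  have h2 : Tendsto (fun n => ∑ a, c.Q l a n) c.F (𝓝 0) :=
    tendsto_const_nhds.congr' ((c.sum_Q l).mono fun n hn => hn.symm)
  exact tendsto_nhds_unique h1 h2

lemma q_uh (l : Fin (m + 1)) (a : Fin d) : c.q l a * c.uh l a = c.p a * c.u1h l a := by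
  have h1 := (c.q_lim l a).mul (c.U_lim l a)
  have h2 := (c.pn_lim a).mul (c.U1_lim l a)
  refine tendsto_nhds_unique h1 (h2.congr fun n => c.pn_Q l a n)

/-- F1 -/
lemma uh_ne_zero (l : Fin (m + 1)) (a : Fin d) (h : c.p a ≠ 0) : c.uh l a ≠ 0 := by
  intro h0
  have h1 := c.q_uh l a
  rw [h0, mul_zero] at h1
  exact mul_ne_zero h (c.u1h_ne_zero l a h0) h1.symm

/-- product of the normalised factors -/
lemma R_lim (a : Fin d) : Tendsto (fun n => ∏ l, (U d (c.σ l n) (a : ℕ) (c.x l n) /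
    (c.E l a n : ℂ))) c.F (𝓝 (∏ l, c.uh l a)) :=
  tendsto_finsetProd _ fun l _ => c.U_lim l a

lemma pn_eq (a : Fin d) (n : ℕ) (hM : 0 < c.M n) : c.pn a n =
    c.s a n * (∏ l, (U d (c.σ l n) (a : ℕ) (c.x l n) / (c.E l a n : ℂ))) * (c.e a n : ℂ) := by
  unfold pn e eprod
  rw [Finset.prod_div_distrib]
  have h1 : ((∏ l, c.E l a n : ℝ) : ℂ) ≠ 0 := by
    exact_mod_cast (c.eprod_pos a n).ne'
  have h2 : (c.M n : ℂ) ≠ 0 := by exact_mod_cast hM.ne'
  push_cast at h1 ⊢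
  field_simp

/-- F2 -/
lemma mag (a : Fin d) (h : c.p a ≠ 0) :
    Tendsto (fun n => ‖c.s a n‖ * c.e a n) c.F (𝓝 (‖c.p a‖ / ∏ l, ‖c.uh l a‖)) := by
  have hR : ∏ l, c.uh l a ≠ 0 := Finset.prod_ne_zero_iff.mpr fun l _ => c.uh_ne_zero l a h
  have h1 := ((c.pn_lim a).norm).div (c.R_lim a).norm (norm_ne_zero_iff.mpr hR)
  rw [norm_prod] at h1
  refine h1.congr' ?_
  filter_upwards [c.hM, (c.R_lim a).eventually_ne hR, c.e_pos a] with n hn hR' he
  show ‖c.pn a n‖ / ‖∏ l, (U d (c.σ l n) (a : ℕ) (c.x l n) / (c.E l a n : ℂ))‖ = _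
  rw [c.pn_eq a n hn, norm_mul, norm_mul, Complex.norm_real, Real.norm_of_nonneg he.le]
  have := norm_ne_zero_iff.mpr hR'
  field_simp

lemma mag_pos (a : Fin d) (h : c.p a ≠ 0) : 0 < ‖c.p a‖ / ∏ l, ‖c.uh l a‖ := by
  have h1 := norm_pos_iff.mpr h
  have h2 : 0 < ∏ l, ‖c.uh l a‖ :=
    Finset.prod_pos fun l _ => norm_pos_iff.mpr (c.uh_ne_zero l a h)
  positivity

/-- upper bound for `Q` -/
lemma Q_le (l : Fin (m + 1)) (a : Fin d) : ∃ C : ℝ, 0 < C ∧ ∀ᶠ n in (c.F : Filter ℕ),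
    ‖c.Q l a n‖ ≤ C * (‖c.s a n‖ * c.e a n) := by
  have h1 : Tendsto (fun n => (U1 d (c.σ l n) (a : ℕ) (c.x l n) / (c.E l a n : ℂ)) *
    ∏ l' ∈ Finset.univ.erase l, (U d (c.σ l' n) (a : ℕ) (c.x l' n) / (c.E l' a n : ℂ))) c.F
    (𝓝 (c.u1h l a * ∏ l' ∈ Finset.univ.erase l, c.uh l' a)) :=
    (c.U1_lim l a).mul (tendsto_finsetProd _ fun l' _ => c.U_lim l' a)
  refine ⟨‖c.u1h l a * ∏ l' ∈ Finset.univ.erase l, c.uh l' a‖ + 1, by positivity, ?_⟩
  filter_upwards [h1.norm.eventually_le_const (lt_add_one _), c.hM, c.e_pos a] with n hn hM he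
  have e1 : c.Q l a n = ((U1 d (c.σ l n) (a : ℕ) (c.x l n) / (c.E l a n : ℂ)) *
    ∏ l' ∈ Finset.univ.erase l, (U d (c.σ l' n) (a : ℕ) (c.x l' n) / (c.E l' a n : ℂ))) *
    (c.s a n * (c.e a n : ℂ)) := by
    unfold Q e eprod
    rw [Finset.prod_div_distrib, ← Finset.mul_prod_erase Finset.univ _ (Finset.mem_univ l)]
    have h1 : ((c.E l a n : ℝ) : ℂ) ≠ 0 := by exact_mod_cast (c.E_pos l a n).ne'
    have h3 : ((∏ l' ∈ Finset.univ.erase l, c.E l' a n : ℝ) : ℂ) ≠ 0 := by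
      exact_mod_cast (Finset.prod_pos fun l' _ => c.E_pos l' a n).ne'
    have h2 : (c.M n : ℂ) ≠ 0 := by exact_mod_cast hM.ne'
    push_cast at h3 ⊢
    field_simp
  rw [e1, norm_mul, norm_mul (c.s a n), Complex.norm_real, Real.norm_of_nonneg he.le]
  exact mul_le_mul_of_nonneg_right hn (by positivity)

/-- the top coordinate dominates -/
lemma logeprod_lim (a : Fin d) : Tendsto (fun n => Real.log (c.eprod a n) / c.σ 0 n) c.F
    (𝓝 (Real.pi * (c.v 0) ^ 2 - Real.pi * (c.w 0 a) ^ 2)) := by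
  have h1 : Tendsto (fun n => ∑ l, (Real.log (c.E l a n) / c.σ l n) * (c.σ l n / c.σ 0 n)) c.F
      (𝓝 (∑ l, (Real.pi * (c.v l) ^ 2 - Real.pi * (c.w l a) ^ 2) * (if l = 0 then 1 else 0))) := by
    refine tendsto_finsetSum _ fun l _ => (c.logE_lim l a).mul ?_
    split_ifs with h
    · subst h
      refine tendsto_const_nhds.congr' ?_
      filter_upwards [c.sig_pos 0] with n hn
      exact (div_self hn.ne').symm
    · exact c.hh 0 l (Fin.pos_of_ne_zero h)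
  simp only [mul_ite, mul_one, mul_zero, Finset.sum_ite_eq', Finset.mem_univ, if_true] at h1
  refine h1.congr' ?_
  have h2 : ∀ᶠ n in (c.F : Filter ℕ), ∀ l, 0 < c.σ l n := by
    rw [Filter.eventually_all]; exact fun l => c.sig_pos l
  filter_upwards [h2] with n hn
  unfold eprod
  rw [Real.log_prod (fun l _ => (c.E_pos l a n).ne'), Finset.sum_div]
  refine Finset.sum_congr rfl fun l _ => ?_
  have := (hn l).ne'; have := (hn 0).ne'
  field_simp

lemma loge_diff (a b : Fin d) : Tendsto (fun n => (Real.log (c.e a n) - Real.log (c.e b n)) /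
    c.σ 0 n) c.F (𝓝 (Real.pi * (c.w 0 b) ^ 2 - Real.pi * (c.w 0 a) ^ 2)) := by
  have h1 := (c.logeprod_lim a).sub (c.logeprod_lim b)
  have e1 : Real.pi * (c.v 0) ^ 2 - Real.pi * (c.w 0 a) ^ 2 -
      (Real.pi * (c.v 0) ^ 2 - Real.pi * (c.w 0 b) ^ 2) =
      Real.pi * (c.w 0 b) ^ 2 - Real.pi * (c.w 0 a) ^ 2 := by ring
  rw [e1] at h1
  refine h1.congr' ?_
  filter_upwards [c.hM] with n hn
  unfold e
  rw [Real.log_div (c.eprod_pos a n).ne' hn.ne', Real.log_div (c.eprod_pos b n).ne' hn.ne']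
  ring

/-- `e a` is bounded and bounded below when `s a` stays away from zero. -/
lemma loge_bdd (a : Fin d) (h : c.p a ≠ 0) (δ : ℝ) (hδ : 0 < δ)
    (hs : ∀ᶠ n in (c.F : Filter ℕ), δ ≤ ‖c.s a n‖) :
    ∃ C : ℝ, ∀ᶠ n in (c.F : Filter ℕ), |Real.log (c.e a n)| ≤ C := by
  obtain ⟨C, hC⟩ := c.hs a
  set g := ‖c.p a‖ / ∏ l, ‖c.uh l a‖ with hg
  have hgp : 0 < g := c.mag_pos a h
  have h1 := c.mag a h
  have hu := h1.eventually_le_const (show g < g + 1 by linarith)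
  have hl := h1.eventually_const_le (show g / 2 < g by linarith)
  refine ⟨max (Real.log ((g + 1) / δ)) (-Real.log (g / 2 / (max C 1))), ?_⟩
  filter_upwards [hu, hl, hs, hC, c.e_pos a] with n h2 h3 h4 h5 h6
  have hC1 : 0 < max C 1 := lt_of_lt_of_le one_pos (le_max_right _ _)
  have up : c.e a n ≤ (g + 1) / δ := by
    rw [le_div_iff₀ hδ]
    calc c.e a n * δ ≤ c.e a n * ‖c.s a n‖ := mul_le_mul_of_nonneg_left h4 h6.le
      _ = ‖c.s a n‖ * c.e a n := mul_comm _ _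
      _ ≤ g + 1 := h2
  have lo : g / 2 / (max C 1) ≤ c.e a n := by
    rw [div_le_iff₀ hC1]
    calc g / 2 ≤ ‖c.s a n‖ * c.e a n := h3
      _ ≤ max C 1 * c.e a n := mul_le_mul_of_nonneg_right (h5.trans (le_max_left _ _)) h6.le
      _ = c.e a n * max C 1 := mul_comm _ _
  have l1 := Real.log_le_log h6 up
  have l2 := Real.log_le_log (by positivity) lo
  rw [abs_le]
  constructor
  · have := le_max_right (Real.log ((g + 1) / δ)) (-Real.log (g / 2 / (max C 1)))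
    linarith
  · exact l1.trans (le_max_left _ _)

lemma div_sig_zero (f : ℕ → ℝ) (C : ℝ) (hf : ∀ᶠ n in (c.F : Filter ℕ), |f n| ≤ C)
    (l : Fin (m + 1)) : Tendsto (fun n => f n / c.σ l n) c.F (𝓝 0) := by
  have h1 : Tendsto (fun n => C / c.σ l n) c.F (𝓝 0) := tendsto_const_nhds.div_atTop (c.hσ l)
  refine squeeze_zero_norm' ?_ h1
  filter_upwards [hf, c.sig_pos l] with n hn hp
  rw [Real.norm_eq_abs, abs_div, abs_of_pos hp]
  exact div_le_div_of_nonneg_right hn hp.le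

lemma w_sq_eq (a b : Fin d) (ha : c.p a ≠ 0) (hb : c.p b ≠ 0)
    (hsa : ∃ δ > 0, ∀ᶠ n in (c.F : Filter ℕ), δ ≤ ‖c.s a n‖)
    (hsb : ∃ δ > 0, ∀ᶠ n in (c.F : Filter ℕ), δ ≤ ‖c.s b n‖) :
    (c.w 0 a) ^ 2 = (c.w 0 b) ^ 2 := by
  obtain ⟨δ, hδ, hs⟩ := hsa
  obtain ⟨δ', hδ', hs'⟩ := hsb
  obtain ⟨C, hC⟩ := c.loge_bdd a ha δ hδ hs
  obtain ⟨C', hC'⟩ := c.loge_bdd b hb δ' hδ' hs'
  have h1 := c.loge_diff a b
  have h2 := c.div_sig_zero (fun n => Real.log (c.e a n) - Real.log (c.e b n)) (C + C') (by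
    filter_upwards [hC, hC'] with n h3 h4
    exact (abs_sub _ _).trans (add_le_add h3 h4)) 0
  have h3 := tendsto_nhds_unique h1 h2
  have := Real.pi_pos
  have h4 : Real.pi * ((c.w 0 b) ^ 2 - (c.w 0 a) ^ 2) = 0 := by linarith
  rcases mul_eq_zero.mp h4 with h | h <;> linarith

/-- if the cut residue is dominated at the top level then its `q` vanishes -/
lemma q_zero_of_dom (g a : Fin d) (ha : c.p a ≠ 0)
    (hsa : ∃ δ > 0, ∀ᶠ n in (c.F : Filter ℕ), δ ≤ ‖c.s a n‖)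
    (hw : (c.w 0 a) ^ 2 < (c.w 0 g) ^ 2) (l : Fin (m + 1)) : c.q l g = 0 := by
  obtain ⟨δ, hδ, hs⟩ := hsa
  obtain ⟨C, hC⟩ := c.loge_bdd a ha δ hδ hs
  have h1 := c.loge_diff g a
  have hneg : Real.pi * (c.w 0 a) ^ 2 - Real.pi * (c.w 0 g) ^ 2 < 0 := by
    have := Real.pi_pos
    nlinarith
  -- log e_g -> -infinity
  have h2 : Tendsto (fun n => c.σ 0 n * ((Real.log (c.e g n) - Real.log (c.e a n)) / c.σ 0 n))
      c.F atBot := (c.hσ 0).atTop_mul_neg hneg h1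
  have h3 : Tendsto (fun n => Real.log (c.e g n)) c.F atBot := by
    have h4 : Tendsto (fun n => c.σ 0 n * ((Real.log (c.e g n) - Real.log (c.e a n)) / c.σ 0 n)
        + C) c.F atBot := tendsto_atBot_add_const_right _ _ h2
    refine tendsto_atBot_mono' _ ?_ h4
    filter_upwards [hC, c.sig_pos 0] with n hn hp
    rw [mul_div_cancel₀ _ hp.ne']
    have := (abs_le.mp hn).2
    linarith
  have h5 : Tendsto (fun n => c.e g n) c.F (𝓝 0) := by
    have := Real.tendsto_exp_atBot.comp h3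
    refine this.congr' ?_
    filter_upwards [c.e_pos g] with n hn
    simp [Real.exp_log hn]
  obtain ⟨K, hK, hQ⟩ := c.Q_le l g
  obtain ⟨S, hS⟩ := c.hs g
  have h6 : Tendsto (c.Q l g) c.F (𝓝 0) := by
    have h7 : Tendsto (fun n => K * (S * c.e g n)) c.F (𝓝 0) := by
      simpa using ((h5.const_mul S).const_mul K)
    refine squeeze_zero_norm' ?_ h7
    filter_upwards [hQ, hS, c.e_pos g] with n h8 h9 h10
    refine h8.trans ?_
    exact mul_le_mul_of_nonneg_left (mul_le_mul_of_nonneg_right h9 h10.le) hK.le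
  exact tendsto_nhds_unique (c.q_lim l g) h6

/-- The ordinary case is impossible. -/
theorem ordinary (hs : ∀ a, c.p a ≠ 0 → ∃ δ > 0, ∀ᶠ n in (c.F : Filter ℕ), δ ≤ ‖c.s a n‖) :
    False := by
  classical
  have hd' : (0 : ℝ) < d := by exact_mod_cast c.hd
  obtain ⟨a, ha⟩ := c.hp1
  obtain ⟨b, hb, hab⟩ : ∃ b, c.p b ≠ 0 ∧ b ≠ a := by
    by_contra hcon
    push Not at hcon
    have h1 := c.sum_p
    rw [Finset.sum_eq_single a (fun b _ hb => by
      by_contra h2; exact hb (hcon b h2)) (by simp)] at h1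
    exact ha h1
  have hsq : ∀ e, c.p e ≠ 0 → (c.w 0 e) ^ 2 = (c.w 0 a) ^ 2 := fun e he =>
    c.w_sq_eq e a he ha (hs e he) (hs a ha)
  have hba : c.w 0 b = -c.w 0 a := by
    rcases sq_eq_sq_iff_eq_or_eq_neg.mp (hsq b hb) with h | h
    · exact absurd (c.w_inj 0 b a h) hab
    · exact h
  have hlt : |c.w 0 a| < (d : ℝ) / 2 := by
    rw [abs_lt]
    constructor
    · have := c.w_gt 0 a; linarith
    · have := c.w_gt 0 b; rw [hba] at this; linarith
  have hsupp : ∀ e, c.p e ≠ 0 → e = a ∨ e = b := by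
    intro e he
    rcases sq_eq_sq_iff_eq_or_eq_neg.mp (hsq e he) with h | h
    · exact Or.inl (c.w_inj 0 e a h)
    · exact Or.inr (c.w_inj 0 e b (by rw [h, hba]))
  have hq : ∀ e, c.q 0 e = (c.N 0 e : ℂ) * c.p e := by
    intro e
    rcases c.noncut_or 0 e with h | h
    · exact c.q_noncut 0 e h
    · have hlt2 : (c.w 0 a) ^ 2 < (c.w 0 e) ^ 2 := by
        rw [h]; exact sq_lt_sq' (by linarith [(abs_lt.mp hlt).1]) (abs_lt.mp hlt).2
      have he : c.p e = 0 := by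
        by_contra h2
        rw [hsq e h2] at hlt2
        exact lt_irrefl _ hlt2
      rw [he, mul_zero]
      exact c.q_zero_of_dom e a ha (hs a ha) hlt2 0
  have s0 : c.p a + c.p b = 0 := by
    have h1 := c.sum_p
    rw [← Finset.add_sum_erase _ _ (Finset.mem_univ a),
      ← Finset.add_sum_erase _ _ (Finset.mem_erase.mpr ⟨hab, Finset.mem_univ b⟩)] at h1
    rw [Finset.sum_eq_zero (fun e he => by
      by_contra h2
      simp only [Finset.mem_erase, Finset.mem_univ, and_true] at he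
      rcases hsupp e h2 with h3 | h3
      · exact he.2 h3
      · exact he.1 h3)] at h1
    linear_combination h1
  have s1 : (c.N 0 a : ℂ) * c.p a + (c.N 0 b : ℂ) * c.p b = 0 := by
    have h1 := c.sum_q 0
    simp only [hq] at h1
    rw [← Finset.add_sum_erase _ _ (Finset.mem_univ a),
      ← Finset.add_sum_erase _ _ (Finset.mem_erase.mpr ⟨hab, Finset.mem_univ b⟩)] at h1
    rw [Finset.sum_eq_zero (fun e he => by
      have h2 : c.p e = 0 := by
        by_contra h2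
        simp only [Finset.mem_erase, Finset.mem_univ, and_true] at he
        rcases hsupp e h2 with h3 | h3
        · exact he.2 h3
        · exact he.1 h3
      rw [h2, mul_zero])] at h1
    linear_combination h1
  have s2 : ((c.N 0 a : ℂ) - c.N 0 b) * c.p a = 0 := by
    linear_combination s1 - (c.N 0 b : ℂ) * s0
  rcases mul_eq_zero.mp s2 with h | h
  · have : (c.N 0 a : ℂ) = c.N 0 b := by linear_combination h
    exact hab (c.N_inj 0 b a (by exact_mod_cast this.symm))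
  · exact ha h

end Cfg
end Pool.Agent.AM
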