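import Pool.Agent.AM.Core2

set_option autoImplicit false
open Complex Filter Topology
namespace Pool.Agent.AM

/-- limits along ultrafilters of bounded sequences -/
lemma ultra_lim {E : Type*} [NormedAddCommGroup E] [NormedSpace ℝ E] [FiniteDimensional ℝ E]
    (F : Ultrafilter ℕ) (f : ℕ → E) (C : ℝ) (hf : ∀ᶠ n in (F : Filter ℕ), ‖f n‖ ≤ C) :
    ∃ z : E, ‖z‖ ≤ C ∧ Tendsto f F (𝓝 z) := by
  have : ProperSpace E := FiniteDimensional.proper_real E
  have h1 : (Metric.closedBall (0 : E) C) ∈ (F.map f) := by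
    rw [Ultrafilter.mem_map]
    filter_upwards [hf] with n hn
    simpa using hn
  obtain ⟨z, hz, hz'⟩ := (isCompact_closedBall (0 : E) C).ultrafilter_le_nhds (F.map f)
    (by simpa using h1)
  exact ⟨z, by simpa using hz, hz'⟩

lemma tm_shift (d : ℕ) (s : ℝ) (x : ℂ) (N k : ℤ) :
    tm s (x + k * (I * d * s)) N =
      cexp ((Real.pi : ℂ) * s * (k * d) ^ 2 - 2 * (Real.pi : ℂ) * I * (k * d) * x) *
        tm s x (N + k * d) := by
  unfold tm
  rw [← Complex.exp_add]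
  congr 1
  push_cast
  have hI : (I : ℂ) ^ 2 = -1 := Complex.I_sq
  linear_combination (2 * (Real.pi : ℂ) * N * k * d * s) * hI

lemma U_shift (d : ℕ) (hd : 0 < d) (s : ℝ) (a : ℤ) (x : ℂ) (k : ℤ) :
    U d s a (x + k * (I * d * s)) =
      cexp ((Real.pi : ℂ) * s * (k * d) ^ 2 - 2 * (Real.pi : ℂ) * I * (k * d) * x) *
        U d s a x := by
  rw [← U_congr d hd s (a + k * d) a ⟨k, by ring⟩ x]
  unfold U
  rw [← tsum_mul_left]
  refine tsum_congr fun j => ?_
  rw [tm_shift]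
  congr 2; ring

lemma U1_shift (d : ℕ) (hd : 0 < d) (s : ℝ) (hs : 0 < s) (a : ℤ) (x : ℂ) (k : ℤ) :
    U1 d s a (x + k * (I * d * s)) =
      cexp ((Real.pi : ℂ) * s * (k * d) ^ 2 - 2 * (Real.pi : ℂ) * I * (k * d) * x) *
        (U1 d s a x - k * d * U d s a x) := by
  have e1 : U1 d s a x - k * d * U d s a x =
      U1 d s (a + k * d) x - k * d * U d s (a + k * d) x := by
    rw [U_congr d hd s (a + k * d) a ⟨k, by ring⟩ x, U1_congr d hd s (a + k * d) a ⟨k, by ring⟩ x]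
  rw [e1]
  have h1 := (hasSum_U1 d hd s hs (a + k * d) x).sub
    ((hasSum_U d hd s hs (a + k * d) x).mul_left ((k : ℂ) * d))
  rw [← h1.tsum_eq, ← tsum_mul_left]
  unfold U1
  refine tsum_congr fun j => ?_
  rw [tm_shift]
  have e2 : a + d * j + k * d = a + k * d + d * j := by ring
  rw [e2]
  push_cast
  ring

/-- one coordinate: simple zeros, no common zeros, for large `s`. -/
structure Good (d : ℕ) (s : ℝ) : Prop where
  simple : ∀ (a : Fin d) (x : ℂ), U d s (a : ℕ) x = 0 → U1 d s (a : ℕ) x ≠ 0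
  distinct : ∀ (a b : Fin d) (x : ℂ), U d s (a : ℕ) x = 0 → U d s (b : ℕ) x = 0 → a = b

/-- hierarchical parameters -/
noncomputable def sg (m : ℕ) (l : Fin (m + 1)) (n : ℕ) : ℝ := ((n : ℝ) + 1) ^ (m + 1 - (l : ℕ))

lemma sg_pos (m : ℕ) (l : Fin (m + 1)) (n : ℕ) : 0 < sg m l n := by
  unfold sg; positivity

lemma sg_one_le (m : ℕ) (l : Fin (m + 1)) (n : ℕ) : 1 ≤ sg m l n := by
  unfold sg; apply one_le_pow₀; have : (0 : ℝ) ≤ n := by positivity
  linarith

lemma sg_tendsto (m : ℕ) (l : Fin (m + 1)) : Tendsto (sg m l) atTop atTop := by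
  unfold sg
  have h1 : Tendsto (fun n : ℕ => (n : ℝ) + 1) atTop atTop :=
    tendsto_atTop_add_const_right _ _ tendsto_natCast_atTop_atTop
  exact (tendsto_pow_atTop (by omega)).comp h1

lemma sg_ratio (m : ℕ) (l l' : Fin (m + 1)) (h : l < l') :
    Tendsto (fun n => sg m l' n / sg m l n) atTop (𝓝 0) := by
  have h1 : Tendsto (fun n : ℕ => (n : ℝ) + 1) atTop atTop :=
    tendsto_atTop_add_const_right _ _ tendsto_natCast_atTop_atTop
  have h2 : Tendsto (fun n : ℕ => (((n : ℝ) + 1) ^ ((l' : ℕ) - (l : ℕ)))⁻¹) atTop (𝓝 0) := by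
    apply Tendsto.inv_tendsto_atTop
    exact (tendsto_pow_atTop (by omega)).comp h1
  refine h2.congr fun n => ?_
  unfold sg
  have h3 : m + 1 - (l : ℕ) = (m + 1 - (l' : ℕ)) + ((l' : ℕ) - (l : ℕ)) := by
    have := l'.2; have : (l : ℕ) < l' := h
    omega
  rw [h3, pow_add]
  have : (n : ℝ) + 1 ≠ 0 := by positivity
  field_simp

/-- construction of a configuration -/
theorem exists_cfg (d m : ℕ) (hd : 0 < d) (F : Ultrafilter ℕ) (hF : (F : Filter ℕ) ≤ atTop)
    (x : Fin (m + 1) → ℕ → ℂ) (s : Fin d → ℕ → ℂ)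
    (hs : ∀ a, ∃ C : ℝ, ∀ᶠ n in (F : Filter ℕ), ‖s a n‖ ≤ C)
    (hv : ∀ l, ∀ᶠ n in (F : Filter ℕ), |(x l n).im / sg m l n| ≤ d)
    (hsum0 : ∀ᶠ n in (F : Filter ℕ), ∑ a : Fin d, s a n *
      (∏ l, U d (sg m l n) (a : ℕ) (x l n)) = 0)
    (hsum1 : ∀ l, ∀ᶠ n in (F : Filter ℕ), ∑ a : Fin d, s a n *
      (U1 d (sg m l n) (a : ℕ) (x l n) *
        ∏ l' ∈ Finset.univ.erase l, U d (sg m l' n) (a : ℕ) (x l' n)) = 0)
    (hne : ∀ᶠ n in (F : Filter ℕ), ∃ a : Fin d, s a n *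
      (∏ l, U d (sg m l n) (a : ℕ) (x l n)) ≠ 0) :
    ∃ c : Cfg d m, c.F = F ∧ c.x = x ∧ c.s = s ∧ c.σ = sg m := by
  classical
  set M : ℕ → ℝ := fun n => ∑ a : Fin d, ‖s a n * (∏ l, U d (sg m l n) (a : ℕ) (x l n))‖
    with hMdef
  have hM : ∀ᶠ n in (F : Filter ℕ), 0 < M n := by
    filter_upwards [hne] with n ⟨a, ha⟩
    have h1 : ‖s a n * (∏ l, U d (sg m l n) (a : ℕ) (x l n))‖ ≤ M n :=
      Finset.single_le_sum (f := fun a : Fin d =>
        ‖s a n * (∏ l, U d (sg m l n) (a : ℕ) (x l n))‖) (fun _ _ => norm_nonneg _)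
        (Finset.mem_univ a)
    exact lt_of_lt_of_le (norm_pos_iff.mpr ha) h1
  -- limits
  have hvl : ∀ l, ∃ v : ℝ, Tendsto (fun n => (x l n).im / sg m l n) F (𝓝 v) := by
    intro l
    obtain ⟨v, -, h⟩ := ultra_lim F (fun n => (x l n).im / sg m l n) d (hv l)
    exact ⟨v, h⟩
  choose v hv' using hvl
  have hα : ∀ (l : Fin (m + 1)) (a : Fin d), ∃ α : ℂ,
      Tendsto (fun n => tm (sg m l n) (x l n) (lift d (v l) (a : ℕ)) /
      (EE d (sg m l n) (x l n) (lift d (v l) (a : ℕ)) : ℂ)) F (𝓝 α) := by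
    intro l a
    obtain ⟨α, -, h⟩ := ultra_lim F (fun n => tm (sg m l n) (x l n) (lift d (v l) (a : ℕ)) /
      (EE d (sg m l n) (x l n) (lift d (v l) (a : ℕ)) : ℂ)) 1 (Eventually.of_forall fun n => by
        have hE := EE_pos d (sg m l n) (x l n) (lift d (v l) (a : ℕ))
        rw [norm_div, Complex.norm_real, Real.norm_of_nonneg hE.le, div_le_one hE]
        unfold EE
        have := norm_nonneg (tm (sg m l n) (x l n) (lift d (v l) (a : ℕ) - d))
        linarith)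
    exact ⟨α, h⟩
  have hβ : ∀ (l : Fin (m + 1)) (a : Fin d), ∃ β : ℂ,
      Tendsto (fun n => tm (sg m l n) (x l n) (lift d (v l) (a : ℕ) - d) /
      (EE d (sg m l n) (x l n) (lift d (v l) (a : ℕ)) : ℂ)) F (𝓝 β) := by
    intro l a
    obtain ⟨α, -, h⟩ := ultra_lim F (fun n => tm (sg m l n) (x l n) (lift d (v l) (a : ℕ) - d) /
      (EE d (sg m l n) (x l n) (lift d (v l) (a : ℕ)) : ℂ)) 1 (Eventually.of_forall fun n => by
        have hE := EE_pos d (sg m l n) (x l n) (lift d (v l) (a : ℕ))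
        rw [norm_div, Complex.norm_real, Real.norm_of_nonneg hE.le, div_le_one hE]
        unfold EE
        have := norm_nonneg (tm (sg m l n) (x l n) (lift d (v l) (a : ℕ)))
        linarith)
    exact ⟨α, h⟩
  choose α hα' using hα
  choose β hβ' using hβ
  have hp : ∀ a : Fin d, ∃ p : ℂ, Tendsto (fun n => s a n *
      (∏ l, U d (sg m l n) (a : ℕ) (x l n)) / (M n : ℂ)) F (𝓝 p) := by
    intro a
    obtain ⟨p, -, h⟩ := ultra_lim F (fun n => s a n *
      (∏ l, U d (sg m l n) (a : ℕ) (x l n)) / (M n : ℂ)) 1 (by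
        filter_upwards [hM] with n hn
        rw [norm_div, Complex.norm_real, Real.norm_of_nonneg hn.le, div_le_one hn]
        exact Finset.single_le_sum (f := fun a : Fin d =>
          ‖s a n * (∏ l, U d (sg m l n) (a : ℕ) (x l n))‖) (fun _ _ => norm_nonneg _)
          (Finset.mem_univ a))
    exact ⟨p, h⟩
  choose p hp' using hp
  have hp1 : ∃ a, p a ≠ 0 := by
    by_contra hcon
    push Not at hcon
    have h1 : Tendsto (fun n => ∑ a : Fin d, ‖s a n *
      (∏ l, U d (sg m l n) (a : ℕ) (x l n)) / (M n : ℂ)‖) F (𝓝 (∑ a, ‖p a‖)) :=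
      tendsto_finsetSum _ fun a _ => (hp' a).norm
    have h2 : Tendsto (fun n => ∑ a : Fin d, ‖s a n *
      (∏ l, U d (sg m l n) (a : ℕ) (x l n)) / (M n : ℂ)‖) F (𝓝 1) := by
      refine tendsto_const_nhds.congr' ?_
      filter_upwards [hM] with n hn
      have : ∀ a : Fin d, ‖s a n * (∏ l, U d (sg m l n) (a : ℕ) (x l n)) / (M n : ℂ)‖ =
          ‖s a n * (∏ l, U d (sg m l n) (a : ℕ) (x l n))‖ / M n := by
        intro a
        rw [norm_div, Complex.norm_real, Real.norm_of_nonneg hn.le]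
      simp only [this]
      rw [← Finset.sum_div]
      exact (div_self hn.ne').symm
    have h3 := tendsto_nhds_unique h1 h2
    simp [hcon] at h3
  exact ⟨{ F := F, σ := sg m, x := x, s := s, M := M, v := v, α := α, β := β, p := p, hd := hd,
           hσ := fun l => (sg_tendsto m l).mono_left hF,
           hh := fun l l' h => (sg_ratio m l l' h).mono_left hF,
           hv := hv', hM := hM, hα := hα', hβ := hβ', hp := hp', hp1 := hp1, hsum0 := hsum0,
           hsum1 := hsum1, hs := hs }, rfl, rfl, rfl, rfl⟩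

end Pool.Agent.AM
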