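import Pool.Agent.AM.Core3

set_option autoImplicit false
open Complex Filter Topology
namespace Pool.Agent.AM

lemma one_coord (d : ℕ) (hd : 0 < d) (F : Ultrafilter ℕ) (σ : ℕ → ℝ) (x : ℕ → ℂ) (v : ℝ)
    (hσ : Tendsto σ F atTop) (hv : Tendsto (fun n => (x n).im / σ n) F (𝓝 v)) (a : Fin d) :
    ∃ α β : ℂ,
      Tendsto (fun n => U d (σ n) (a : ℕ) (x n) / (EE d (σ n) (x n) (lift d v (a : ℕ)) : ℂ)) F
        (𝓝 (α + β)) ∧
      Tendsto (fun n => U1 d (σ n) (a : ℕ) (x n) / (EE d (σ n) (x n) (lift d v (a : ℕ)) : ℂ)) F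
        (𝓝 ((lift d v (a : ℕ) : ℂ) * α + ((lift d v (a : ℕ) : ℂ) - d) * β)) ∧
      ‖α‖ + ‖β‖ = 1 ∧ ((lift d v (a : ℕ) : ℝ) + v < (d : ℝ) / 2 → β = 0) := by
  set N := lift d v (a : ℕ) with hN
  have hd' : (0 : ℝ) < d := by exact_mod_cast hd
  obtain ⟨α, -, hα⟩ := ultra_lim F (fun n => tm (σ n) (x n) N / (EE d (σ n) (x n) N : ℂ)) 1
    (Eventually.of_forall fun n => by
      have hE := EE_pos d (σ n) (x n) N
      rw [norm_div, Complex.norm_real, Real.norm_of_nonneg hE.le, div_le_one hE]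
      unfold EE
      have := norm_nonneg (tm (σ n) (x n) (N - d))
      linarith)
  obtain ⟨β, -, hβ⟩ := ultra_lim F (fun n => tm (σ n) (x n) (N - d) / (EE d (σ n) (x n) N : ℂ)) 1
    (Eventually.of_forall fun n => by
      have hE := EE_pos d (σ n) (x n) N
      rw [norm_div, Complex.norm_real, Real.norm_of_nonneg hE.le, div_le_one hE]
      unfold EE
      have := norm_nonneg (tm (σ n) (x n) N)
      linarith)
  have hU := U_tendsto d hd F σ x v N α β hσ hv (lift_gt d hd v _) (lift_le d hd v _) hα hβ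
  refine ⟨α, β, ?_, ?_, ?_, ?_⟩
  · have h := hU.1
    simp only [fun n => U_congr d hd (σ n) N (a : ℕ) (lift_dvd d v _) (x n)] at h
    exact h
  · have h := hU.2
    simp only [fun n => U1_congr d hd (σ n) N (a : ℕ) (lift_dvd d v _) (x n)] at h
    exact h
  · have h1 := (hα.norm).add (hβ.norm)
    have h2 : ∀ n, ‖tm (σ n) (x n) N / (EE d (σ n) (x n) N : ℂ)‖ +
        ‖tm (σ n) (x n) (N - d) / (EE d (σ n) (x n) N : ℂ)‖ = 1 := by
      intro n
      have hE := EE_pos d (σ n) (x n) N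
      rw [norm_div, norm_div, Complex.norm_real, Real.norm_of_nonneg hE.le, ← add_div]
      exact div_self hE.ne'
    simp only [h2] at h1
    exact tendsto_nhds_unique h1 tendsto_const_nhds
  · intro h
    have h1 := hβ.norm
    have h2 : Tendsto (fun n => Real.exp (-(σ n * (Real.pi * d *
        (d - 2 * (N + (x n).im / σ n)))))) F (𝓝 0) := by
      apply Real.tendsto_exp_atBot.comp
      apply tendsto_neg_atTop_atBot.comp
      apply hσ.atTop_mul_pos (C := Real.pi * d * (d - 2 * (N + v)))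
      · apply mul_pos (by positivity); linarith
      · exact ((tendsto_const_nhds.sub ((tendsto_const_nhds.add hv).const_mul 2)).const_mul _)
    have h3 : Tendsto (fun n => ‖tm (σ n) (x n) (N - d) / (EE d (σ n) (x n) N : ℂ)‖) F
        (𝓝 0) := by
      refine tendsto_of_tendsto_of_tendsto_of_le_of_le' tendsto_const_nhds h2 ?_ ?_
      · exact Eventually.of_forall fun n => norm_nonneg _
      · filter_upwards [hσ.eventually (eventually_gt_atTop 0)] with n hn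
        have hE := EE_pos d (σ n) (x n) N
        rw [norm_div, Complex.norm_real, Real.norm_of_nonneg hE.le, div_le_iff₀ hE,
          Cfg.norm_ratio _ hn]
        unfold EE
        have h4 := norm_nonneg (tm (σ n) (x n) (N - d))
        have h5 := Real.exp_pos (-(σ n * (Real.pi * d *
          (d - 2 * (N + (x n).im / σ n)))))
        nlinarith
    exact norm_eq_zero.mp (tendsto_nhds_unique h1 h3)

lemma ultra_const {d : ℕ} (F : Ultrafilter ℕ) (f : ℕ → Fin d) :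
    ∃ a, ∀ᶠ n in (F : Filter ℕ), f n = a := by
  obtain ⟨a, ha⟩ := (F.map f).eq_pure_of_finite
  refine ⟨a, ?_⟩
  have : {a} ∈ F.map f := by rw [ha]; exact Ultrafilter.mem_pure.mpr rfl
  exact this

/-- shifting a point into the fundamental strip -/
lemma exists_shift (d : ℕ) (hd : 0 < d) (s : ℝ) (hs : 0 < s) (x : ℂ) :
    ∃ k : ℤ, |(x + k * (I * d * s)).im / s| ≤ d := by
  have hd' : (0 : ℝ) < d := by exact_mod_cast hd
  refine ⟨-round (x.im / s / d), ?_⟩
  have e1 : (x + ((-round (x.im / s / d) : ℤ) : ℂ) * (I * d * s)).im / s =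
      d * (x.im / s / d - round (x.im / s / d)) := by
    simp
    field_simp
    ring
  rw [e1, abs_mul, abs_of_pos hd']
  have := abs_sub_round (x.im / s / d)
  calc (d : ℝ) * |x.im / s / d - round (x.im / s / d)| ≤ d * (1 / 2) :=
        mul_le_mul_of_nonneg_left this hd'.le
    _ ≤ d := by linarith

lemma U_shift_zero (d : ℕ) (hd : 0 < d) (s : ℝ) (a : ℤ) (x : ℂ) (k : ℤ)
    (h : U d s a x = 0) : U d s a (x + k * (I * d * s)) = 0 := by
  rw [U_shift d hd, h, mul_zero]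

theorem good_eventually (d : ℕ) (hd : 0 < d) : ∃ S0 : ℝ, ∀ s ≥ S0, Good d s := by
  by_contra hcon
  push Not at hcon
  choose σ hσ1 hσ2 using fun n : ℕ => hcon (n + 1)
  have hF : ((hyperfilter ℕ : Ultrafilter ℕ) : Filter ℕ) ≤ atTop := by
    rw [← Nat.cofinite_eq_atTop]; exact hyperfilter_le_cofinite
  set F : Ultrafilter ℕ := hyperfilter ℕ
  have hσpos : ∀ n, 0 < σ n := fun n => by
    have := hσ1 n
    have h2 : (0 : ℝ) ≤ n := by positivity
    linarith
  have hσt : Tendsto σ atTop atTop := by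
    refine tendsto_atTop_mono (fun n => ?_) tendsto_natCast_atTop_atTop
    have := hσ1 n; linarith
  -- either the first or the second property fails along the ultrafilter
  have hcase : (∀ᶠ n in (F : Filter ℕ), ∃ (a : Fin d) (x : ℂ), U d (σ n) (a : ℕ) x = 0 ∧
      U1 d (σ n) (a : ℕ) x = 0) ∨ (∀ᶠ n in (F : Filter ℕ), ∃ (a b : Fin d) (x : ℂ),
      U d (σ n) (a : ℕ) x = 0 ∧ U d (σ n) (b : ℕ) x = 0 ∧ a ≠ b) := by
    have h1 : ∀ n, (∃ (a : Fin d) (x : ℂ), U d (σ n) (a : ℕ) x = 0 ∧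
      U1 d (σ n) (a : ℕ) x = 0) ∨ (∃ (a b : Fin d) (x : ℂ),
      U d (σ n) (a : ℕ) x = 0 ∧ U d (σ n) (b : ℕ) x = 0 ∧ a ≠ b) := by
      intro n
      by_contra h2
      push Not at h2
      apply hσ2 n
      refine ⟨fun a x h3 => h2.1 a x h3, fun a b x h3 h4 => ?_⟩
      exact h2.2 a b x h3 h4
    exact Ultrafilter.eventually_or.mp (Eventually.of_forall h1)
  rcases hcase with h | h
  · have h' : ∀ n, ∃ (a : Fin d) (x : ℂ), (∃ (a : Fin d) (x : ℂ), U d (σ n) (a : ℕ) x = 0 ∧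
      U1 d (σ n) (a : ℕ) x = 0) → U d (σ n) (a : ℕ) x = 0 ∧
      U1 d (σ n) (a : ℕ) x = 0 ∧ |x.im / σ n| ≤ d := by
      intro n
      by_cases h3 : ∃ (a : Fin d) (x : ℂ), U d (σ n) (a : ℕ) x = 0 ∧ U1 d (σ n) (a : ℕ) x = 0
      · obtain ⟨a, x, h4, h5⟩ := h3
        obtain ⟨k, hk⟩ := exists_shift d hd (σ n) (hσpos n) x
        refine ⟨a, x + k * (I * d * (σ n)), fun _ => ⟨U_shift_zero d hd _ _ _ _ h4, ?_, hk⟩⟩
        rw [U1_shift d hd _ (hσpos n), h4, h5]; ring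
      · exact ⟨⟨0, hd⟩, 0, fun h4 => absurd h4 h3⟩
    choose a x hax using h'
    have hax' : ∀ᶠ n in (F : Filter ℕ), U d (σ n) (a n : ℕ) (x n) = 0 ∧
      U1 d (σ n) (a n : ℕ) (x n) = 0 ∧ |(x n).im / σ n| ≤ d := h.mono fun n hn => hax n hn
    obtain ⟨a0, ha0⟩ := ultra_const F a
    obtain ⟨v, -, hv⟩ := ultra_lim F (fun n => (x n).im / σ n) d
      (hax'.mono fun n hn => by rw [Real.norm_eq_abs]; exact hn.2.2)
    obtain ⟨α, β, h1, h2, h3, -⟩ := one_coord d hd F σ x v (hσt.mono_left hF) hv a0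
    have z1 : α + β = 0 := by
      refine tendsto_nhds_unique h1 (tendsto_const_nhds.congr' ?_)
      filter_upwards [hax', ha0] with n h4 h5
      rw [← h5, h4.1, zero_div]
    have z2 : (lift d v (a0 : ℕ) : ℂ) * α + ((lift d v (a0 : ℕ) : ℂ) - d) * β = 0 := by
      refine tendsto_nhds_unique h2 (tendsto_const_nhds.congr' ?_)
      filter_upwards [hax', ha0] with n h4 h5
      rw [← h5, h4.2.1, zero_div]
    have z3 : (d : ℂ) * β = 0 := by
      linear_combination (lift d v (a0 : ℕ) : ℂ) * z1 - z2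
    have hdc : (d : ℂ) ≠ 0 := by exact_mod_cast hd.ne'
    have z4 : β = 0 := (mul_eq_zero.mp z3).resolve_left hdc
    have z5 : α = 0 := by rw [z4, add_zero] at z1; exact z1
    rw [z4, z5] at h3
    simp at h3
  · have h' : ∀ n, ∃ (a b : Fin d) (x : ℂ), (∃ (a b : Fin d) (x : ℂ), U d (σ n) (a : ℕ) x = 0 ∧
      U d (σ n) (b : ℕ) x = 0 ∧ a ≠ b) → U d (σ n) (a : ℕ) x = 0 ∧
      U d (σ n) (b : ℕ) x = 0 ∧ a ≠ b ∧ |x.im / σ n| ≤ d := by
      intro n
      by_cases h3 : ∃ (a b : Fin d) (x : ℂ), U d (σ n) (a : ℕ) x = 0 ∧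
        U d (σ n) (b : ℕ) x = 0 ∧ a ≠ b
      · obtain ⟨a, b, x, h4, h5, h6⟩ := h3
        obtain ⟨k, hk⟩ := exists_shift d hd (σ n) (hσpos n) x
        exact ⟨a, b, x + k * (I * d * (σ n)), fun _ => ⟨U_shift_zero d hd _ _ _ _ h4,
          U_shift_zero d hd _ _ _ _ h5, h6, hk⟩⟩
      · exact ⟨⟨0, hd⟩, ⟨0, hd⟩, 0, fun h4 => absurd h4 h3⟩
    choose a b x hax using h'
    have hax' : ∀ᶠ n in (F : Filter ℕ), U d (σ n) (a n : ℕ) (x n) = 0 ∧
      U d (σ n) (b n : ℕ) (x n) = 0 ∧ a n ≠ b n ∧ |(x n).im / σ n| ≤ d :=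
      h.mono fun n hn => hax n hn
    obtain ⟨a0, ha0⟩ := ultra_const F a
    obtain ⟨b0, hb0⟩ := ultra_const F b
    have hne : a0 ≠ b0 := by
      obtain ⟨n, h4, h5, h6⟩ := (hax'.and (ha0.and hb0)).exists
      rw [← h5, ← h6]; exact h4.2.2.1
    obtain ⟨v, -, hv⟩ := ultra_lim F (fun n => (x n).im / σ n) d
      (hax'.mono fun n hn => by rw [Real.norm_eq_abs]; exact hn.2.2.2)
    obtain ⟨α, β, h1, -, h3, h4⟩ := one_coord d hd F σ x v (hσt.mono_left hF) hv a0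
    obtain ⟨α', β', h1', -, h3', h4'⟩ := one_coord d hd F σ x v (hσt.mono_left hF) hv b0
    have z1 : α + β = 0 := by
      refine tendsto_nhds_unique h1 (tendsto_const_nhds.congr' ?_)
      filter_upwards [hax', ha0] with n h5 h6
      rw [← h6, h5.1, zero_div]
    have z1' : α' + β' = 0 := by
      refine tendsto_nhds_unique h1' (tendsto_const_nhds.congr' ?_)
      filter_upwards [hax', hb0] with n h5 h6
      rw [← h6, h5.2.1, zero_div]
    have w1 : (lift d v (a0 : ℕ) : ℝ) + v = (d : ℝ) / 2 := by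
      by_contra hc
      have hb := h4 (lt_of_le_of_ne (lift_le d hd v _) hc)
      rw [hb, add_zero] at z1
      rw [hb, z1] at h3
      simp at h3
    have w2 : (lift d v (b0 : ℕ) : ℝ) + v = (d : ℝ) / 2 := by
      by_contra hc
      have hb := h4' (lt_of_le_of_ne (lift_le d hd v _) hc)
      rw [hb, add_zero] at z1'
      rw [hb, z1'] at h3'
      simp at h3'
    apply hne
    apply lift_inj d v
    have : (lift d v (a0 : ℕ) : ℝ) = lift d v (b0 : ℕ) := by linarith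
    exact_mod_cast this

/-- normalisation of the x-coordinates -/
lemma normalize (d m : ℕ) (hd : 0 < d) (s : Fin (m + 1) → ℝ) (hs : ∀ l, 0 < s l)
    (cf : Fin d → ℂ) (x : Fin (m + 1) → ℂ)
    (h0 : ∑ a : Fin d, cf a * (∏ l, U d (s l) (a : ℕ) (x l)) = 0)
    (h1 : ∀ l, ∑ a : Fin d, cf a * (U1 d (s l) (a : ℕ) (x l) *
      ∏ l' ∈ Finset.univ.erase l, U d (s l') (a : ℕ) (x l')) = 0) :
    ∃ x' : Fin (m + 1) → ℂ, (∀ l, |(x' l).im / s l| ≤ d) ∧
      (∑ a : Fin d, cf a * (∏ l, U d (s l) (a : ℕ) (x' l)) = 0) ∧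
      (∀ l, ∑ a : Fin d, cf a * (U1 d (s l) (a : ℕ) (x' l) *
        ∏ l' ∈ Finset.univ.erase l, U d (s l') (a : ℕ) (x' l')) = 0) ∧
      (∀ a : Fin d, cf a * (∏ l, U d (s l) (a : ℕ) (x l)) ≠ 0 →
        cf a * (∏ l, U d (s l) (a : ℕ) (x' l)) ≠ 0) := by
  classical
  choose k hk using fun l => exists_shift d hd (s l) (hs l) (x l)
  set C : Fin (m + 1) → ℂ := fun l => cexp ((Real.pi : ℂ) * s l * (k l * d) ^ 2 -
    2 * (Real.pi : ℂ) * I * (k l * d) * x l) with hC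
  have hCne : ∀ l, C l ≠ 0 := fun l => Complex.exp_ne_zero _
  have hU : ∀ (l : Fin (m + 1)) (a : Fin d), U d (s l) (a : ℕ) (x l + k l * (I * d * s l)) =
      C l * U d (s l) (a : ℕ) (x l) := fun l a => U_shift d hd _ _ _ _
  have hU1 : ∀ (l : Fin (m + 1)) (a : Fin d), U1 d (s l) (a : ℕ) (x l + k l * (I * d * s l)) =
      C l * (U1 d (s l) (a : ℕ) (x l) - k l * d * U d (s l) (a : ℕ) (x l)) :=
    fun l a => U1_shift d hd _ (hs l) _ _ _
  refine ⟨fun l => x l + k l * (I * d * s l), hk, ?_, ?_, ?_⟩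
  · simp only [hU, Finset.prod_mul_distrib]
    have : ∀ a : Fin d, cf a * ((∏ l, C l) * ∏ l, U d (s l) (a : ℕ) (x l)) =
      (∏ l, C l) * (cf a * ∏ l, U d (s l) (a : ℕ) (x l)) := fun a => by ring
    simp only [this]
    rw [← Finset.mul_sum, h0, mul_zero]
  · intro l
    simp only [hU, hU1, Finset.prod_mul_distrib]
    have : ∀ a : Fin d, cf a * (C l * (U1 d (s l) (a : ℕ) (x l) -
        k l * d * U d (s l) (a : ℕ) (x l)) * ((∏ l' ∈ Finset.univ.erase l, C l') *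
        ∏ l' ∈ Finset.univ.erase l, U d (s l') (a : ℕ) (x l'))) =
        (C l * ∏ l' ∈ Finset.univ.erase l, C l') * (cf a * (U1 d (s l) (a : ℕ) (x l) *
        ∏ l' ∈ Finset.univ.erase l, U d (s l') (a : ℕ) (x l'))) -
        (C l * ∏ l' ∈ Finset.univ.erase l, C l') * (k l * d) *
          (cf a * ∏ l, U d (s l) (a : ℕ) (x l)) := by
      intro a
      rw [← Finset.mul_prod_erase Finset.univ (fun l => U d (s l) (a : ℕ) (x l))
        (Finset.mem_univ l)]
      ring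
    simp only [this]
    rw [Finset.sum_sub_distrib, ← Finset.mul_sum, ← Finset.mul_sum, h0, h1 l]
    ring
  · intro a ha
    simp only [hU, Finset.prod_mul_distrib]
    have h2 : (∏ l, C l) ≠ 0 := Finset.prod_ne_zero_iff.mpr fun l _ => hCne l
    intro h3
    apply ha
    have h4 : (∏ l, C l) * (cf a * ∏ l, U d (s l) (a : ℕ) (x l)) = 0 := by
      rw [← h3]; ring
    exact (mul_eq_zero.mp h4).resolve_left h2

lemma good_sg (d m : ℕ) (hd : 0 < d) : ∃ n0 : ℕ, ∀ n ≥ n0, ∀ l, Good d (sg m l n) := by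
  obtain ⟨S0, hS⟩ := good_eventually d hd
  have h1 : ∀ᶠ n in (atTop : Filter ℕ), ∀ l, S0 ≤ sg m l n := by
    rw [Filter.eventually_all]
    exact fun l => (sg_tendsto m l).eventually (eventually_ge_atTop S0)
  obtain ⟨n0, hn0⟩ := eventually_atTop.mp h1
  exact ⟨n0, fun n hn l => hS _ (hn0 n hn l)⟩

/-- Even case: no exotic singular points for suitable parameters. -/
theorem even_no_exotic (d m : ℕ) (hd : 0 < d) :
    ∃ s : Fin (m + 1) → ℝ, (∀ l, 0 < s l) ∧ (∀ l, Good d (s l)) ∧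
      ∀ x : Fin (m + 1) → ℂ, ∑ a : Fin d, (∏ l, U d (s l) (a : ℕ) (x l)) = 0 →
        (∀ l, ∑ a : Fin d, (U1 d (s l) (a : ℕ) (x l) *
          ∏ l' ∈ Finset.univ.erase l, U d (s l') (a : ℕ) (x l')) = 0) →
        ∀ a : Fin d, (∏ l, U d (s l) (a : ℕ) (x l)) = 0 := by
  classical
  obtain ⟨n0, hn0⟩ := good_sg d m hd
  by_contra hcon
  push Not at hcon
  have hex : ∀ n ≥ n0, ∃ x : Fin (m + 1) → ℂ, (∀ l, |(x l).im / sg m l n| ≤ d) ∧
      (∑ a : Fin d, (1 : ℂ) * (∏ l, U d (sg m l n) (a : ℕ) (x l)) = 0) ∧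
      (∀ l, ∑ a : Fin d, (1 : ℂ) * (U1 d (sg m l n) (a : ℕ) (x l) *
        ∏ l' ∈ Finset.univ.erase l, U d (sg m l' n) (a : ℕ) (x l')) = 0) ∧
      ∃ a : Fin d, (1 : ℂ) * (∏ l, U d (sg m l n) (a : ℕ) (x l)) ≠ 0 := by
    intro n hn
    obtain ⟨x, h1, h2, a, h3⟩ := hcon (fun l => sg m l n) (fun l => sg_pos m l n)
      (hn0 n hn)
    obtain ⟨x', h4, h5, h6, h7⟩ := normalize d m hd (fun l => sg m l n) (fun l => sg_pos m l n)
      (fun _ => 1) x (by simpa using h1) (fun l => by simpa using h2 l)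
    exact ⟨x', h4, h5, h6, a, h7 a (by simpa using h3)⟩
  have hex' : ∀ n, ∃ x : Fin (m + 1) → ℂ, n ≥ n0 → (∀ l, |(x l).im / sg m l n| ≤ d) ∧
      (∑ a : Fin d, (1 : ℂ) * (∏ l, U d (sg m l n) (a : ℕ) (x l)) = 0) ∧
      (∀ l, ∑ a : Fin d, (1 : ℂ) * (U1 d (sg m l n) (a : ℕ) (x l) *
        ∏ l' ∈ Finset.univ.erase l, U d (sg m l' n) (a : ℕ) (x l')) = 0) ∧
      ∃ a : Fin d, (1 : ℂ) * (∏ l, U d (sg m l n) (a : ℕ) (x l)) ≠ 0 := by
    intro n
    by_cases hn : n ≥ n0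
    · obtain ⟨x, hx⟩ := hex n hn
      exact ⟨x, fun _ => hx⟩
    · exact ⟨0, fun h => absurd h hn⟩
  choose x hx using hex'
  have hF : ((hyperfilter ℕ : Ultrafilter ℕ) : Filter ℕ) ≤ atTop := by
    rw [← Nat.cofinite_eq_atTop]; exact hyperfilter_le_cofinite
  have hge : ∀ᶠ n in ((hyperfilter ℕ : Ultrafilter ℕ) : Filter ℕ), n ≥ n0 :=
    hF (eventually_ge_atTop n0)
  obtain ⟨c, hc1, hc2, hc3, hc4⟩ := exists_cfg d m hd (hyperfilter ℕ) hF (fun l n => x n l)
    (fun _ _ => 1) (fun a => ⟨1, Eventually.of_forall fun n => by simp⟩)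
    (fun l => hge.mono fun n hn => (hx n hn).1 l)
    (hge.mono fun n hn => (hx n hn).2.1)
    (fun l => hge.mono fun n hn => (hx n hn).2.2.1 l)
    (hge.mono fun n hn => (hx n hn).2.2.2)
  refine c.ordinary fun a _ => ⟨1, one_pos, ?_⟩
  rw [hc3]
  exact Eventually.of_forall fun n => by simp

end Pool.Agent.AM
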