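import Pool.Agent.AM.Core4

/-! Tangency configurations (odd case), part 1. -/

set_option autoImplicit false
open Complex Filter Topology
namespace Pool.Agent.AM
namespace Cfg

variable {d m : ℕ} (c : Cfg d m)

/-- hierarchy lemma -/
lemma hier (f : Fin (m + 1) → ℕ → ℝ) (κ : Fin (m + 1) → ℝ)
    (h1 : ∀ l, Tendsto (fun n => f l n / c.σ l n) c.F (𝓝 (κ l)))
    (h2 : ∀ l, κ l = 0 → Tendsto (f l) c.F (𝓝 0))
    (h3 : Tendsto (fun n => ∑ l, f l n) c.F (𝓝 0)) : ∀ l, κ l = 0 := by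
  classical
  by_contra hcon
  push Not at hcon
  obtain ⟨l0, hl0⟩ := hcon
  have hne : (Finset.univ.filter (fun l => κ l ≠ 0)).Nonempty :=
    ⟨l0, by simp [hl0]⟩
  set l1 := (Finset.univ.filter (fun l => κ l ≠ 0)).min' hne with hl1
  have hk : κ l1 ≠ 0 := by
    have := Finset.min'_mem _ hne
    rw [← hl1] at this
    simpa using this
  have hmin : ∀ l, l < l1 → κ l = 0 := by
    intro l hl
    by_contra h
    have := Finset.min'_le (Finset.univ.filter (fun l => κ l ≠ 0)) l (by simp [h])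
    rw [← hl1] at this
    exact absurd hl (not_lt.mpr this)
  have hinv : Tendsto (fun n => (c.σ l1 n)⁻¹) c.F (𝓝 0) := (c.hσ l1).inv_tendsto_atTop
  have h4 : Tendsto (fun n => ∑ l, f l n / c.σ l1 n) c.F
      (𝓝 (∑ l, if l = l1 then κ l1 else 0)) := by
    refine tendsto_finsetSum _ fun l _ => ?_
    rcases lt_trichotomy l l1 with h | h | h
    · rw [if_neg h.ne]
      have := (h2 l (hmin l h)).mul hinv
      simpa [div_eq_mul_inv] using this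
    · rw [if_pos h, h]
      exact h1 l1
    · rw [if_neg h.ne']
      have h5 := (h1 l).mul (c.hh l1 l h)
      rw [mul_zero] at h5
      refine h5.congr' ?_
      filter_upwards [c.sig_pos l, c.sig_pos l1] with n hn hn1
      field_simp
  have h5 : Tendsto (fun n => ∑ l, f l n / c.σ l1 n) c.F (𝓝 0) := by
    have := h3.mul hinv
    rw [mul_zero] at this
    refine this.congr fun n => ?_
    rw [← Finset.sum_div, div_eq_mul_inv]
  have h6 := tendsto_nhds_unique h4 h5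
  rw [Finset.sum_ite_eq' Finset.univ l1] at h6
  simp at h6
  exact hk h6

lemma logU_lim (l : Fin (m + 1)) (a : Fin d) (h : c.uh l a ≠ 0) :
    Tendsto (fun n => Real.log ‖U d (c.σ l n) (a : ℕ) (c.x l n)‖ / c.σ l n) c.F
      (𝓝 (Real.pi * (c.v l) ^ 2 - Real.pi * (c.w l a) ^ 2)) := by
  have h1 := (c.U_lim l a).norm
  have h2 : Tendsto (fun n => Real.log ‖U d (c.σ l n) (a : ℕ) (c.x l n) / (c.E l a n : ℂ)‖)
      c.F (𝓝 (Real.log ‖c.uh l a‖)) :=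
    h1.log (norm_ne_zero_iff.mpr h)
  have h3 : Tendsto (fun n => Real.log ‖U d (c.σ l n) (a : ℕ) (c.x l n) / (c.E l a n : ℂ)‖ /
      c.σ l n) c.F (𝓝 0) := h2.div_atTop (c.hσ l)
  have h4 := h3.add (c.logE_lim l a)
  rw [zero_add] at h4
  refine h4.congr' ?_
  filter_upwards [h1.eventually_ne (norm_ne_zero_iff.mpr h)] with n hn
  have hE := c.E_pos l a n
  rw [norm_div, Complex.norm_real, Real.norm_of_nonneg hE.le] at hn ⊢
  have hU : ‖U d (c.σ l n) (a : ℕ) (c.x l n)‖ ≠ 0 := by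
    intro h0
    apply hn
    rw [h0, zero_div]
  rw [Real.log_div hU hE.ne', ← add_div]
  congr 1
  ring

/-- dominating term in the noncut case or when `β = 0` -/
lemma U_tm_alpha (l : Fin (m + 1)) (a : Fin d) (h : c.β l a = 0) :
    Tendsto (fun n => U d (c.σ l n) (a : ℕ) (c.x l n) / tm (c.σ l n) (c.x l n) (c.N l a)) c.F
      (𝓝 1) := by
  have hα : c.α l a ≠ 0 := by
    intro h0
    have := c.norm_ab l a
    rw [h, h0] at this
    simp at this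
  have h1 := (c.U_lim l a).div (c.hα l a) hα
  have e1 : c.uh l a / c.α l a = 1 := by
    unfold uh; rw [h, add_zero, div_self hα]
  rw [e1] at h1
  refine h1.congr fun n => ?_
  have hE : ((c.E l a n : ℝ) : ℂ) ≠ 0 := by exact_mod_cast (c.E_pos l a n).ne'
  have ht := tm_ne_zero (c.σ l n) (c.x l n) (c.N l a)
  show (U d (c.σ l n) (a : ℕ) (c.x l n) / (c.E l a n : ℂ)) /
    (tm (c.σ l n) (c.x l n) (c.N l a) / (c.E l a n : ℂ)) = _
  field_simp

/-- dominating term in the cut case with `α = 0` -/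
lemma U_tm_beta (l : Fin (m + 1)) (a : Fin d) (h : c.α l a = 0) :
    Tendsto (fun n => U d (c.σ l n) (a : ℕ) (c.x l n) / tm (c.σ l n) (c.x l n) (c.N l a - d))
      c.F (𝓝 1) := by
  have hβ : c.β l a ≠ 0 := by
    intro h0
    have := c.norm_ab l a
    rw [h, h0] at this
    simp at this
  have h1 := (c.U_lim l a).div (c.hβ l a) hβ
  have e1 : c.uh l a / c.β l a = 1 := by
    unfold uh; rw [h, zero_add, div_self hβ]
  rw [e1] at h1
  refine h1.congr fun n => ?_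
  have hE : ((c.E l a n : ℝ) : ℂ) ≠ 0 := by exact_mod_cast (c.E_pos l a n).ne'
  have ht := tm_ne_zero (c.σ l n) (c.x l n) (c.N l a - d)
  show (U d (c.σ l n) (a : ℕ) (c.x l n) / (c.E l a n : ℂ)) /
    (tm (c.σ l n) (c.x l n) (c.N l a - d) / (c.E l a n : ℂ)) = _
  field_simp

/-- lifts of residues differ by the expected amount or the expected amount minus `d` -/
lemma N_diff (l : Fin (m + 1)) (a b : Fin d) (j : ℤ) (hj : 0 < j) (hjd : j < d)
    (h : (d : ℤ) ∣ ((b : ℕ) : ℤ) - ((a : ℕ) : ℤ) - j) :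
    c.N l b - c.N l a = j ∨ c.N l b - c.N l a = j - d := by
  have h1 : (d : ℤ) ∣ c.N l b - c.N l a - j := by
    have e1 := lift_dvd d (c.v l) ((b : ℕ) : ℤ)
    have e2 := lift_dvd d (c.v l) ((a : ℕ) : ℤ)
    have h3 := dvd_add (dvd_sub e1 e2) h
    have e3 : lift d (c.v l) ((b : ℕ) : ℤ) - ((b : ℕ) : ℤ) -
      (lift d (c.v l) ((a : ℕ) : ℤ) - ((a : ℕ) : ℤ)) + (((b : ℕ) : ℤ) - ((a : ℕ) : ℤ) - j) =
      c.N l b - c.N l a - j := by
      show _ = lift d (c.v l) ((b : ℕ) : ℤ) - lift d (c.v l) ((a : ℕ) : ℤ) - j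
      ring
    rwa [e3] at h3
  obtain ⟨k, hk⟩ := h1
  have ha1 := c.w_gt l a; have ha2 := c.w_le l a
  have hb1 := c.w_gt l b; have hb2 := c.w_le l b
  unfold w at ha1 ha2 hb1 hb2
  have hlt : ((c.N l b - c.N l a : ℤ) : ℝ) < d := by push_cast; linarith
  have hgt : -(d : ℝ) < ((c.N l b - c.N l a : ℤ) : ℝ) := by push_cast; linarith
  have hlt' : c.N l b - c.N l a < d := by exact_mod_cast hlt
  have hgt' : -(d : ℤ) < c.N l b - c.N l a := by exact_mod_cast hgt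
  have e3 : c.N l b - c.N l a = j + d * k := by linarith
  rw [e3] at hlt' hgt'
  have hk0 : k < 1 := by
    by_contra hcon
    push Not at hcon
    nlinarith
  have hk1 : -2 < k := by
    by_contra hcon
    push Not at hcon
    nlinarith
  have hk2 : k = 0 ∨ k = -1 := by omega
  rcases hk2 with h2 | h2
  · left; rw [e3, h2]; ring
  · right; rw [e3, h2]; ring

lemma w_diff (l : Fin (m + 1)) (a b : Fin d) : c.w l b - c.w l a = ((c.N l b - c.N l a : ℤ) : ℝ) := by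
  unfold w; push_cast; ring

end Cfg

/-- tangency data -/
structure Tan {d m : ℕ} (c : Cfg d m) where
  a0 : Fin d
  a1 : Fin d
  hadj : (d : ℤ) ∣ ((a1 : ℕ) : ℤ) - ((a0 : ℕ) : ℤ) - 1
  hd3 : 3 ≤ d
  hm : 1 ≤ m
  t : ℕ → ℂ
  ht : Tendsto t c.F (𝓝 0)
  ht0 : ∀ᶠ n in (c.F : Filter ℕ), t n ≠ 0
  H : ℂ
  hH : H ≠ 0
  hs0 : Tendsto (fun n => c.s a0 n / t n) c.F (𝓝 H)
  hs1 : Tendsto (fun n => c.s a1 n / t n) c.F (𝓝 (-H))
  S : Fin d → ℂ
  hS : ∀ a, a ≠ a0 → a ≠ a1 → S a ≠ 0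
  hSl : ∀ a, a ≠ a0 → a ≠ a1 → Tendsto (c.s a) c.F (𝓝 (S a))
  hsym : ∀ a b, a ≠ a0 → a ≠ a1 → b ≠ a0 → b ≠ a1 →
    (d : ℤ) ∣ ((a : ℕ) : ℤ) + ((b : ℕ) : ℤ) - ((a0 : ℕ) : ℤ) - ((a1 : ℕ) : ℤ) → S a = S b
  hp0 : c.p a0 ≠ 0
  hp1 : c.p a1 = -c.p a0
  r : Fin d → ℕ → ℂ
  hr0 : ∃ C : ℝ, ∀ᶠ n in (c.F : Filter ℕ), ‖r a0 n‖ ≤ C * ‖t n‖ ^ 2
  hr1 : ∃ C : ℝ, ∀ᶠ n in (c.F : Filter ℕ), ‖r a1 n‖ ≤ C * ‖t n‖ ^ 2
  hr : ∀ a, a ≠ a0 → a ≠ a1 → Tendsto (r a) c.F (𝓝 (S a))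
  hrs : ∀ᶠ n in (c.F : Filter ℕ), ∑ a : Fin d, r a n *
    (∏ l, U d (c.σ l n) (a : ℕ) (c.x l n)) = 0

namespace Tan

variable {d m : ℕ} {c : Cfg d m} (T : Tan c)

include T

lemma a01 : T.a0 ≠ T.a1 := by
  intro h
  have h1 := T.hadj
  rw [h] at h1
  have h2 : (d : ℤ) ∣ 1 := by
    have e : ((T.a1 : ℕ) : ℤ) - ((T.a1 : ℕ) : ℤ) - 1 = -1 := by ring
    rw [e] at h1
    exact (dvd_neg.mp h1)
  have h3 := Int.le_of_dvd one_pos h2
  have := T.hd3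
  omega

lemma p1_ne : c.p T.a1 ≠ 0 := by rw [T.hp1]; exact neg_ne_zero.mpr T.hp0

/-- ratio of the two small coefficients -/
lemma s_ratio : Tendsto (fun n => c.s T.a0 n / c.s T.a1 n) c.F (𝓝 (-1)) := by
  have h1 := T.hs0.div T.hs1 (neg_ne_zero.mpr T.hH)
  have e1 : T.H / -T.H = -1 := by rw [div_neg, div_self T.hH]
  rw [e1] at h1
  refine h1.congr' ?_
  filter_upwards [T.ht0] with n hn
  show (c.s T.a0 n / T.t n) / (c.s T.a1 n / T.t n) = _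
  field_simp

lemma s1_ne : ∀ᶠ n in (c.F : Filter ℕ), c.s T.a1 n ≠ 0 := by
  filter_upwards [T.hs1.eventually_ne (neg_ne_zero.mpr T.hH)] with n hn h0
  apply hn; rw [h0, zero_div]

lemma s0_ne : ∀ᶠ n in (c.F : Filter ℕ), c.s T.a0 n ≠ 0 := by
  filter_upwards [T.hs0.eventually_ne T.hH] with n hn h0
  apply hn; rw [h0, zero_div]

/-- ratio of the two products -/
lemma P_ratio : Tendsto (fun n => (∏ l, U d (c.σ l n) (T.a0 : ℕ) (c.x l n)) /
    (∏ l, U d (c.σ l n) (T.a1 : ℕ) (c.x l n))) c.F (𝓝 1) := by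
  have h1 := ((c.pn_lim T.a0).div (c.pn_lim T.a1) T.p1_ne).div T.s_ratio (by norm_num)
  have e1 : c.p T.a0 / c.p T.a1 / (-1) = 1 := by
    rw [T.hp1]
    have := T.hp0
    field_simp
  rw [e1] at h1
  refine h1.congr' ?_
  filter_upwards [T.s0_ne, T.s1_ne, c.hM] with n h2 h3 h4
  have h5 : (c.M n : ℂ) ≠ 0 := by exact_mod_cast h4.ne'
  show (c.pn T.a0 n / c.pn T.a1 n) / (c.s T.a0 n / c.s T.a1 n) = _
  unfold Cfg.pn
  by_cases h6 : (∏ l, U d (c.σ l n) (T.a1 : ℕ) (c.x l n)) = 0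
  · rw [h6]; simp
  · field_simp

lemma uh0 (l : Fin (m + 1)) : c.uh l T.a0 ≠ 0 := c.uh_ne_zero l _ T.hp0
lemma uh1 (l : Fin (m + 1)) : c.uh l T.a1 ≠ 0 := c.uh_ne_zero l _ T.p1_ne

omit T in
lemma U_ne (l : Fin (m + 1)) (a : Fin d) (h : c.uh l a ≠ 0) :
    ∀ᶠ n in (c.F : Filter ℕ), U d (c.σ l n) (a : ℕ) (c.x l n) ≠ 0 := by
  filter_upwards [(c.U_lim l a).eventually_ne h] with n hn h0
  apply hn; rw [h0, zero_div]

/-- sum of the logarithms of the coordinate ratios -/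
lemma sum_logY : Tendsto (fun n => ∑ l, (Real.log ‖U d (c.σ l n) (T.a0 : ℕ) (c.x l n)‖ -
    Real.log ‖U d (c.σ l n) (T.a1 : ℕ) (c.x l n)‖)) c.F (𝓝 0) := by
  have h1 := (T.P_ratio.norm).log (by simp)
  simp only [norm_one, Real.log_one] at h1
  refine h1.congr' ?_
  have h2 : ∀ᶠ n in (c.F : Filter ℕ), ∀ l, U d (c.σ l n) (T.a0 : ℕ) (c.x l n) ≠ 0 := by
    rw [Filter.eventually_all]; exact fun l => U_ne l _ (T.uh0 l)
  have h3 : ∀ᶠ n in (c.F : Filter ℕ), ∀ l, U d (c.σ l n) (T.a1 : ℕ) (c.x l n) ≠ 0 := by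
    rw [Filter.eventually_all]; exact fun l => U_ne l _ (T.uh1 l)
  filter_upwards [h2, h3] with n h4 h5
  rw [norm_div, norm_prod, norm_prod, Real.log_div, Real.log_prod, Real.log_prod,
    Finset.sum_sub_distrib]
  · exact fun l _ => norm_ne_zero_iff.mpr (h5 l)
  · exact fun l _ => norm_ne_zero_iff.mpr (h4 l)
  · exact Finset.prod_ne_zero_iff.mpr fun l _ => norm_ne_zero_iff.mpr (h4 l)
  · exact Finset.prod_ne_zero_iff.mpr fun l _ => norm_ne_zero_iff.mpr (h5 l)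

lemma logY_lim (l : Fin (m + 1)) :
    Tendsto (fun n => (Real.log ‖U d (c.σ l n) (T.a0 : ℕ) (c.x l n)‖ -
      Real.log ‖U d (c.σ l n) (T.a1 : ℕ) (c.x l n)‖) / c.σ l n) c.F
      (𝓝 (Real.pi * ((c.w l T.a1) ^ 2 - (c.w l T.a0) ^ 2))) := by
  have h1 := (c.logU_lim l T.a0 (T.uh0 l)).sub (c.logU_lim l T.a1 (T.uh1 l))
  have e1 : Real.pi * (c.v l) ^ 2 - Real.pi * (c.w l T.a0) ^ 2 -
    (Real.pi * (c.v l) ^ 2 - Real.pi * (c.w l T.a1) ^ 2) =
    Real.pi * ((c.w l T.a1) ^ 2 - (c.w l T.a0) ^ 2) := by ring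
  rw [e1] at h1
  exact h1.congr fun n => (sub_div _ _ _).symm

/-- difference of the lifts of the two special residues -/
lemma N01 (l : Fin (m + 1)) : c.N l T.a1 - c.N l T.a0 = 1 ∨ c.N l T.a1 - c.N l T.a0 = 1 - d :=
  c.N_diff l T.a0 T.a1 1 one_pos (by have := T.hd3; omega) T.hadj

/-- `e a0` is comparable to `1/t` -/
lemma te0 : Tendsto (fun n => ‖T.t n‖ * c.e T.a0 n) c.F
    (𝓝 (‖c.p T.a0‖ / (∏ l, ‖c.uh l T.a0‖) / ‖T.H‖)) := by
  have h1 := (c.mag T.a0 T.hp0).div T.hs0.norm (norm_ne_zero_iff.mpr T.hH)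
  refine h1.congr' ?_
  filter_upwards [T.ht0, T.s0_ne] with n hn h0
  show (‖c.s T.a0 n‖ * c.e T.a0 n) / ‖c.s T.a0 n / T.t n‖ = _
  rw [norm_div]
  have h2 := norm_ne_zero_iff.mpr hn
  have h3 := norm_ne_zero_iff.mpr h0
  field_simp

lemma te1 : Tendsto (fun n => ‖T.t n‖ * c.e T.a1 n) c.F
    (𝓝 (‖c.p T.a1‖ / (∏ l, ‖c.uh l T.a1‖) / ‖-T.H‖)) := by
  have h1 := (c.mag T.a1 T.p1_ne).div T.hs1.norm (norm_ne_zero_iff.mpr (neg_ne_zero.mpr T.hH))
  refine h1.congr' ?_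
  filter_upwards [T.ht0, T.s1_ne] with n hn h0
  show (‖c.s T.a1 n‖ * c.e T.a1 n) / ‖c.s T.a1 n / T.t n‖ = _
  rw [norm_div]
  have h2 := norm_ne_zero_iff.mpr hn
  have h3 := norm_ne_zero_iff.mpr h0
  field_simp

lemma loge0_top : Tendsto (fun n => Real.log (c.e T.a0 n)) c.F atTop := by
  have hpos : 0 < ‖c.p T.a0‖ / (∏ l, ‖c.uh l T.a0‖) / ‖T.H‖ :=
    div_pos (c.mag_pos T.a0 T.hp0) (norm_pos_iff.mpr T.hH)
  have h1 : Tendsto (fun n => ‖T.t n‖) c.F (𝓝[>] 0) := by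
    rw [tendsto_nhdsWithin_iff]
    refine ⟨by simpa using T.ht.norm, ?_⟩
    filter_upwards [T.ht0] with n hn
    exact norm_pos_iff.mpr hn
  have h2 : Tendsto (fun n => (‖T.t n‖ * c.e T.a0 n) * (‖T.t n‖)⁻¹) c.F atTop :=
    T.te0.pos_mul_atTop hpos (tendsto_inv_nhdsGT_zero.comp h1)
  have h3 : Tendsto (fun n => c.e T.a0 n) c.F atTop := by
    refine h2.congr' ?_
    filter_upwards [T.ht0] with n hn
    have := norm_ne_zero_iff.mpr hn
    field_simp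
  exact Real.tendsto_log_atTop.comp h3

/-- at the top coordinate the two special residues are symmetric -/
lemma w0_neg : c.w 0 T.a1 = -c.w 0 T.a0 := by
  have h1 := c.loge_diff T.a0 T.a1
  have hp0 : 0 < ‖c.p T.a0‖ / (∏ l, ‖c.uh l T.a0‖) / ‖T.H‖ :=
    div_pos (c.mag_pos T.a0 T.hp0) (norm_pos_iff.mpr T.hH)
  have hp1 : 0 < ‖c.p T.a1‖ / (∏ l, ‖c.uh l T.a1‖) / ‖-T.H‖ :=
    div_pos (c.mag_pos T.a1 T.p1_ne) (norm_pos_iff.mpr (neg_ne_zero.mpr T.hH))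
  have h2 := ((T.te0.log hp0.ne').sub (T.te1.log hp1.ne')).div_atTop (c.hσ 0)
  have h3 : Tendsto (fun n => (Real.log (c.e T.a0 n) - Real.log (c.e T.a1 n)) / c.σ 0 n) c.F
      (𝓝 0) := by
    refine h2.congr' ?_
    filter_upwards [T.ht0, c.e_pos T.a0, c.e_pos T.a1] with n hn h4 h5
    have h6 := norm_ne_zero_iff.mpr hn
    rw [Real.log_mul h6 h4.ne', Real.log_mul h6 h5.ne']
    congr 1; ring
  have h4 := tendsto_nhds_unique h1 h3
  have h5 : Real.pi * ((c.w 0 T.a1) ^ 2 - (c.w 0 T.a0) ^ 2) = 0 := by linarith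
  have h6 : (c.w 0 T.a1) ^ 2 = (c.w 0 T.a0) ^ 2 := by
    rcases mul_eq_zero.mp h5 with h | h
    · exact absurd h Real.pi_ne_zero
    · linarith
  rcases sq_eq_sq_iff_eq_or_eq_neg.mp h6 with h | h
  · exact absurd (c.w_inj 0 _ _ h).symm T.a01
  · exact h

end Tan

end Pool.Agent.AM
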