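import Pool.Agent.AM.Core5

/-! Tangency configurations (odd case), part 2: no further residues. -/

set_option autoImplicit false
open Complex Filter Topology
namespace Pool.Agent.AM
namespace Cfg

variable {d m : ℕ} (c : Cfg d m)

lemma Q_eq (l : Fin (m + 1)) (a : Fin d) (n : ℕ) (hM : 0 < c.M n) :
    c.Q l a n = (U1 d (c.σ l n) (a : ℕ) (c.x l n) / (c.E l a n : ℂ)) *
    (∏ l' ∈ Finset.univ.erase l, (U d (c.σ l' n) (a : ℕ) (c.x l' n) / (c.E l' a n : ℂ))) *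
    (c.s a n * (c.e a n : ℂ)) := by
  unfold Q e eprod
  rw [Finset.prod_div_distrib, ← Finset.mul_prod_erase Finset.univ _ (Finset.mem_univ l)]
  have h1 : ((c.E l a n : ℝ) : ℂ) ≠ 0 := by exact_mod_cast (c.E_pos l a n).ne'
  have h3 : ((∏ l' ∈ Finset.univ.erase l, c.E l' a n : ℝ) : ℂ) ≠ 0 := by
    exact_mod_cast (Finset.prod_pos fun l' _ => c.E_pos l' a n).ne'
  have h2 : (c.M n : ℂ) ≠ 0 := by exact_mod_cast hM.ne'
  push_cast at h3 ⊢
  field_simp

/-- ratio of weights -/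
lemma E_ratio (l : Fin (m + 1)) (a b : Fin d) (h : (c.w l a) ^ 2 < (c.w l b) ^ 2) :
    Tendsto (fun n => c.E l b n / c.E l a n) c.F (𝓝 0) := by
  have h1 := (c.logE_lim l b).sub (c.logE_lim l a)
  have hneg : Real.pi * (c.v l) ^ 2 - Real.pi * (c.w l b) ^ 2 -
      (Real.pi * (c.v l) ^ 2 - Real.pi * (c.w l a) ^ 2) < 0 := by
    have := Real.pi_pos
    nlinarith
  have h2 := (c.hσ l).atTop_mul_neg hneg h1
  have h3 := Real.tendsto_exp_atBot.comp h2
  refine h3.congr' ?_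
  filter_upwards [c.sig_pos l] with n hn
  show Real.exp (c.σ l n * (Real.log (c.E l b n) / c.σ l n - Real.log (c.E l a n) / c.σ l n)) = _
  have e1 : c.σ l n * (Real.log (c.E l b n) / c.σ l n - Real.log (c.E l a n) / c.σ l n) =
      Real.log (c.E l b n) - Real.log (c.E l a n) := by
    have := hn.ne'
    field_simp
  rw [e1, Real.exp_sub, Real.exp_log (c.E_pos l b n), Real.exp_log (c.E_pos l a n)]

lemma e_ratio (a b : Fin d) (h : ∀ l, (c.w l a) ^ 2 < (c.w l b) ^ 2) :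
    Tendsto (fun n => c.e b n / c.e a n) c.F (𝓝 0) := by
  have h1 : Tendsto (fun n => ∏ l, (c.E l b n / c.E l a n)) c.F
      (𝓝 (∏ _l : Fin (m + 1), (0 : ℝ))) :=
    tendsto_finsetProd _ fun l _ => c.E_ratio l a b (h l)
  rw [Finset.prod_const, Finset.card_univ, Fintype.card_fin, zero_pow (by omega)] at h1
  refine h1.congr' ?_
  filter_upwards [c.hM] with n hn
  unfold e eprod
  rw [Finset.prod_div_distrib]
  have h2 := (c.eprod_pos a n).ne'
  unfold eprod at h2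
  field_simp

lemma res_eq (l l' : Fin (m + 1)) (a a' b : Fin d)
    (h : c.N l a - c.N l b = c.N l' a' - c.N l' b) : a = a' := by
  have e1 := lift_dvd d (c.v l) ((a : ℕ) : ℤ)
  have e2 := lift_dvd d (c.v l) ((b : ℕ) : ℤ)
  have e3 := lift_dvd d (c.v l') ((a' : ℕ) : ℤ)
  have e4 := lift_dvd d (c.v l') ((b : ℕ) : ℤ)
  have h1 : (d : ℤ) ∣ ((a : ℕ) : ℤ) - ((a' : ℕ) : ℤ) := by
    have h2 := dvd_sub (dvd_sub e3 e4) (dvd_sub e1 e2)
    have h3 : lift d (c.v l') ((a' : ℕ) : ℤ) - ((a' : ℕ) : ℤ) -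
        (lift d (c.v l') ((b : ℕ) : ℤ) - ((b : ℕ) : ℤ)) -
        (lift d (c.v l) ((a : ℕ) : ℤ) - ((a : ℕ) : ℤ) -
          (lift d (c.v l) ((b : ℕ) : ℤ) - ((b : ℕ) : ℤ))) =
        ((a : ℕ) : ℤ) - ((a' : ℕ) : ℤ) := by
      have h4 : lift d (c.v l) ((a : ℕ) : ℤ) - lift d (c.v l) ((b : ℕ) : ℤ) =
        lift d (c.v l') ((a' : ℕ) : ℤ) - lift d (c.v l') ((b : ℕ) : ℤ) := h
      linarith
    rwa [h3] at h2
  have ha := a.2; have ha' := a'.2
  have h4 : ((a : ℕ) : ℤ) - ((a' : ℕ) : ℤ) = 0 := by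
    apply Int.eq_zero_of_abs_lt_dvd h1
    rw [abs_lt]; constructor <;> push_cast <;> omega
  apply Fin.ext
  omega

end Cfg

namespace Tan

variable {d m : ℕ} {c : Cfg d m} (T : Tan c)

include T

lemma sum_two (f : Fin d → ℂ) (h : ∀ a, a ≠ T.a0 → a ≠ T.a1 → f a = 0) :
    ∑ a, f a = f T.a0 + f T.a1 := by
  classical
  rw [← Finset.sum_subset (Finset.subset_univ {T.a0, T.a1})]
  · rw [Finset.sum_pair T.a01]
  · intro a _ ha
    simp only [Finset.mem_insert, Finset.mem_singleton, not_or] at ha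
    exact h a ha.1 ha.2

lemma sum_three (f : Fin d → ℂ) (e : Fin d) (he0 : e ≠ T.a0) (he1 : e ≠ T.a1)
    (h : ∀ a, a ≠ T.a0 → a ≠ T.a1 → a ≠ e → f a = 0) :
    ∑ a, f a = f e + (f T.a0 + f T.a1) := by
  classical
  rw [← Finset.sum_subset (Finset.subset_univ {e, T.a0, T.a1})]
  · rw [Finset.sum_insert, Finset.sum_pair T.a01]
    simp [he0, he1]
  · intro a _ ha
    simp only [Finset.mem_insert, Finset.mem_singleton, not_or] at ha
    exact h a ha.2.1 ha.2.2 ha.1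

lemma hd3r : (3 : ℝ) ≤ d := by exact_mod_cast T.hd3

lemma w_neg_cases (l : Fin (m + 1)) (h : (c.w l T.a1) ^ 2 = (c.w l T.a0) ^ 2) :
    (c.w l T.a0 = -1 / 2 ∧ c.w l T.a1 = 1 / 2 ∧ c.N l T.a1 = c.N l T.a0 + 1) ∨
    (c.w l T.a0 = ((d : ℝ) - 1) / 2 ∧ c.w l T.a1 = -(((d : ℝ) - 1) / 2)) := by
  have h1 : c.w l T.a1 = -c.w l T.a0 := by
    rcases sq_eq_sq_iff_eq_or_eq_neg.mp h with h | h
    · exact absurd (c.w_inj l _ _ h).symm T.a01
    · exact h
  have h2 := c.w_diff l T.a0 T.a1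
  rcases T.N01 l with h3 | h3
  · left
    rw [h3] at h2
    push_cast at h2
    refine ⟨by linarith, by linarith, by linarith⟩
  · right
    rw [h3] at h2
    push_cast at h2
    constructor <;> linarith

lemma coord2 (hL : ∀ a, a ≠ T.a0 → a ≠ T.a1 → c.p a = 0) (l : Fin (m + 1))
    (h : (c.w l T.a1) ^ 2 = (c.w l T.a0) ^ 2) :
    ∃ e, e ≠ T.a0 ∧ e ≠ T.a1 ∧ c.w l e = (d : ℝ) / 2 ∧ c.w l T.a0 = -1 / 2 ∧
      c.w l T.a1 = 1 / 2 ∧ c.N l T.a1 = c.N l T.a0 + 1 ∧ c.q l e = c.p T.a0 ∧ c.uh l e = 0 := by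
  have hd3 := T.hd3r
  have hcut : ∃ e, c.w l e = (d : ℝ) / 2 := by
    by_contra hcon
    push Not at hcon
    have hq : ∀ a, c.q l a = (c.N l a : ℂ) * c.p a := fun a =>
      c.q_noncut l a ((c.noncut_or l a).resolve_right (hcon a))
    have h1 := c.sum_q l
    simp only [hq] at h1
    rw [T.sum_two _ (fun a h0 h1 => by rw [hL a h0 h1, mul_zero]), T.hp1] at h1
    have h2 : ((c.N l T.a0 : ℂ) - c.N l T.a1) * c.p T.a0 = 0 := by linear_combination h1
    rcases mul_eq_zero.mp h2 with h3 | h3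
    · have h4 : (c.N l T.a0 : ℂ) = c.N l T.a1 := by linear_combination h3
      exact T.a01 (c.N_inj l _ _ (by exact_mod_cast h4))
    · exact T.hp0 h3
  obtain ⟨e, he⟩ := hcut
  rcases T.w_neg_cases l h with ⟨h0, h1, hN⟩ | ⟨h0, h1⟩
  · have he0 : e ≠ T.a0 := by
      rintro rfl
      rw [h0] at he; linarith
    have he1 : e ≠ T.a1 := by
      rintro rfl
      rw [h1] at he; linarith
    have hq : ∀ a, a ≠ e → c.q l a = (c.N l a : ℂ) * c.p a := fun a ha =>
      c.q_noncut l a (c.noncut_of_ne l e a he ha)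
    have hs := c.sum_q l
    rw [T.sum_three _ e he0 he1 (fun a h0 h1 h2 => by rw [hq a h2, hL a h0 h1, mul_zero]),
      hq _ he0.symm, hq _ he1.symm, T.hp1, hN] at hs
    have hqe : c.q l e = c.p T.a0 := by
      push_cast at hs
      linear_combination hs
    refine ⟨e, he0, he1, he, h0, h1, hN, hqe, ?_⟩
    have h2 := c.q_uh l e
    rw [hL e he0 he1, zero_mul, hqe] at h2
    exact (mul_eq_zero.mp h2).resolve_left T.hp0
  · exfalso
    have h2 := c.w_diff l T.a0 e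
    rw [he, h0] at h2
    have h3 : (1 : ℝ) = ((2 * (c.N l e - c.N l T.a0) : ℤ) : ℝ) := by
      push_cast at h2 ⊢; linarith
    have h4 : (1 : ℤ) = 2 * (c.N l e - c.N l T.a0) := by exact_mod_cast h3
    omega

/-- the modulus of the ratio tends to one at a symmetric coordinate with vanishing cut factor -/
lemma Ylim (l : Fin (m + 1)) (e : Fin d) (he : c.w l e = (d : ℝ) / 2)
    (h0 : c.w l T.a0 = -1 / 2) (h1 : c.w l T.a1 = 1 / 2) (hu : c.uh l e = 0) :
    Tendsto (fun n => Real.log ‖U d (c.σ l n) (T.a0 : ℕ) (c.x l n)‖ -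
      Real.log ‖U d (c.σ l n) (T.a1 : ℕ) (c.x l n)‖) c.F (𝓝 0) := by
  have hd3 := T.hd3r
  have hdp : (0 : ℝ) < d := by linarith
  -- the moduli of the competing terms
  have hab := c.norm_ab l e
  have hβα : ‖c.β l e‖ = ‖c.α l e‖ := by
    unfold Cfg.uh at hu
    rw [← norm_neg (c.α l e)]
    congr 1
    linear_combination hu
  have hα : ‖c.α l e‖ ≠ 0 := by
    intro h
    rw [hβα, h] at hab
    norm_num at hab
  have hr : Tendsto (fun n => ‖tm (c.σ l n) (c.x l n) (c.N l e - d)‖ /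
      ‖tm (c.σ l n) (c.x l n) (c.N l e)‖) c.F (𝓝 1) := by
    have h2 := (c.hβ l e).norm.div (c.hα l e).norm hα
    rw [hβα, div_self hα] at h2
    refine h2.congr fun n => ?_
    have hE := EE_pos d (c.σ l n) (c.x l n) (c.N l e)
    have ht := norm_ne_zero_iff.mpr (tm_ne_zero (c.σ l n) (c.x l n) (c.N l e))
    show ‖tm (c.σ l n) (c.x l n) (c.N l e - d) / (EE d (c.σ l n) (c.x l n) (c.N l e) : ℂ)‖ /
      ‖tm (c.σ l n) (c.x l n) (c.N l e) / (EE d (c.σ l n) (c.x l n) (c.N l e) : ℂ)‖ = _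
    rw [norm_div, norm_div, Complex.norm_real, Real.norm_of_nonneg hE.le]
    have := hE.ne'
    field_simp
  have hθ : Tendsto (fun n => c.σ l n * (Real.pi * d *
      (d - 2 * (c.N l e + (c.x l n).im / c.σ l n)))) c.F (𝓝 0) := by
    have h2 := (hr.log one_ne_zero).neg
    rw [Real.log_one, neg_zero] at h2
    refine h2.congr' ?_
    filter_upwards [c.sig_pos l] with n hn
    rw [Cfg.norm_ratio _ hn]
    have ht := norm_ne_zero_iff.mpr (tm_ne_zero (c.σ l n) (c.x l n) (c.N l e))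
    rw [mul_div_assoc, mul_comm, div_mul_cancel₀ _ ht, Real.log_exp, neg_neg]
  -- ratios to the dominating terms
  have hn0 := c.U_tm_alpha l T.a0 (c.beta_zero l T.a0 (by rw [h0]; linarith))
  have hn1 := c.U_tm_alpha l T.a1 (c.beta_zero l T.a1 (by rw [h1]; linarith))
  have hl0 := (hn0.norm).log (by simp)
  have hl1 := (hn1.norm).log (by simp)
  simp only [norm_one, Real.log_one] at hl0 hl1
  have hcomb := (hl0.sub hl1).sub (hθ.div_const (d : ℝ))
  rw [sub_zero, zero_div, sub_zero] at hcomb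
  refine hcomb.congr' ?_
  filter_upwards [c.sig_pos l, U_ne l _ (T.uh0 l), U_ne l _ (T.uh1 l)] with n hn hU0 hU1
  have hU0' := norm_ne_zero_iff.mpr hU0
  have hU1' := norm_ne_zero_iff.mpr hU1
  have ht0 := norm_ne_zero_iff.mpr (tm_ne_zero (c.σ l n) (c.x l n) (c.N l T.a0))
  have ht1 := norm_ne_zero_iff.mpr (tm_ne_zero (c.σ l n) (c.x l n) (c.N l T.a1))
  rw [norm_div, norm_div, Real.log_div hU0' ht0, Real.log_div hU1' ht1, norm_tm, norm_tm,
    Real.log_exp, Real.log_exp]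
  have e1 : (c.N l T.a1 : ℝ) = c.N l T.a0 + 1 := by
    have := c.w_diff l T.a0 T.a1
    rw [h0, h1] at this
    push_cast at this
    linarith
  have e2 : 2 * (c.N l T.a0 : ℝ) = 2 * c.N l e - d - 1 := by
    have := c.w_diff l T.a0 e
    rw [h0, he] at this
    push_cast at this
    linarith
  rw [e1]
  have hs := hn.ne'
  have e3 : (c.N l T.a0 : ℝ) = (2 * c.N l e - d - 1) / 2 := by linarith
  rw [e3]
  field_simp
  ring

theorem type2 (hL : ∀ a, a ≠ T.a0 → a ≠ T.a1 → c.p a = 0) : False := by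
  classical
  have hd3 := T.hd3r
  -- all coordinates are symmetric
  have hall : ∀ l, Real.pi * ((c.w l T.a1) ^ 2 - (c.w l T.a0) ^ 2) = 0 := by
    apply c.hier (fun l n => Real.log ‖U d (c.σ l n) (T.a0 : ℕ) (c.x l n)‖ -
      Real.log ‖U d (c.σ l n) (T.a1 : ℕ) (c.x l n)‖) _ T.logY_lim _ T.sum_logY
    intro l hl
    have h1 : (c.w l T.a1) ^ 2 = (c.w l T.a0) ^ 2 := by
      rcases mul_eq_zero.mp hl with h | h
      · exact absurd h Real.pi_ne_zero
      · linarith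
    obtain ⟨e, -, -, he, h0, h1, -, -, hu⟩ := T.coord2 hL l h1
    exact T.Ylim l e he h0 h1 hu
  have hall' : ∀ l, (c.w l T.a1) ^ 2 = (c.w l T.a0) ^ 2 := fun l => by
    rcases mul_eq_zero.mp (hall l) with h | h
    · exact absurd h Real.pi_ne_zero
    · linarith
  obtain ⟨e, he0, he1, hce, hc0, hc1, -⟩ := T.coord2 hL 0 (hall' 0)
  have hco : ∀ l, c.w l e = (d : ℝ) / 2 ∧ c.w l T.a0 = -1 / 2 ∧
      c.w l T.a1 = 1 / 2 ∧ c.q l e = c.p T.a0 ∧ c.uh l e = 0 := by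
    intro l
    obtain ⟨e', -, -, he', h0, h1, -, hq, hu⟩ := T.coord2 hL l (hall' l)
    have h2 : e' = e := by
      apply c.res_eq l 0 e' e T.a0
      have h3 := c.w_diff l T.a0 e'
      have h4 := c.w_diff 0 T.a0 e
      rw [he', h0] at h3
      rw [hce, hc0] at h4
      rw [h3] at h4
      exact_mod_cast h4
    rw [h2] at he' hq hu
    exact ⟨he', h0, h1, hq, hu⟩
  have hpe : c.p e = 0 := hL e he0 he1
  have hpn : Tendsto (fun n => ‖c.pn e n‖) c.F (𝓝 0) := by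
    have := (c.pn_lim e).norm
    rwa [hpe, norm_zero] at this
  have hp0' : 0 < ‖c.p T.a0‖ := norm_pos_iff.mpr T.hp0
  -- the cut factors are all comparable with `pn e`
  have hu : ∀ l, ∃ C : ℝ, 0 < C ∧ ∀ᶠ n in (c.F : Filter ℕ),
      ‖U d (c.σ l n) (e : ℕ) (c.x l n) / (c.E l e n : ℂ)‖ ≤ C * ‖c.pn e n‖ := by
    intro l
    have hV := (c.U1_lim l e).norm
    have hQ := (c.q_lim l e).norm
    rw [(hco l).2.2.2.1] at hQ
    refine ⟨(‖c.u1h l e‖ + 1) / (‖c.p T.a0‖ / 2), by positivity, ?_⟩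
    filter_upwards [hV.eventually_le_const (lt_add_one _),
      hQ.eventually_const_le (show ‖c.p T.a0‖ / 2 < ‖c.p T.a0‖ by linarith)] with n h1 h2
    have h3 := congrArg norm (c.pn_Q l e n)
    rw [norm_mul, norm_mul] at h3
    rw [div_mul_eq_mul_div, le_div_iff₀ (by positivity)]
    calc ‖U d (c.σ l n) (e : ℕ) (c.x l n) / (c.E l e n : ℂ)‖ * (‖c.p T.a0‖ / 2)
        ≤ ‖U d (c.σ l n) (e : ℕ) (c.x l n) / (c.E l e n : ℂ)‖ * ‖c.Q l e n‖ :=
          mul_le_mul_of_nonneg_left h2 (norm_nonneg _)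
      _ = ‖c.pn e n‖ * ‖U1 d (c.σ l n) (e : ℕ) (c.x l n) / (c.E l e n : ℂ)‖ := by
          rw [h3, mul_comm]
      _ ≤ ‖c.pn e n‖ * (‖c.u1h l e‖ + 1) := mul_le_mul_of_nonneg_left h1 (norm_nonneg _)
      _ = (‖c.u1h l e‖ + 1) * ‖c.pn e n‖ := mul_comm _ _
  choose C hC hCu using hu
  -- lower bound for the weight of `e`
  obtain ⟨B, hB⟩ := c.hs e
  have hlow : ∃ δ : ℝ, 0 < δ ∧ ∀ᶠ n in (c.F : Filter ℕ), δ ≤ c.e e n * ‖c.pn e n‖ ^ m := by
    have hV := (c.U1_lim 0 e).norm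
    have hQ := (c.q_lim 0 e).norm
    rw [(hco 0).2.2.2.1] at hQ
    set K : ℝ := (‖c.u1h 0 e‖ + 1) * (∏ l ∈ Finset.univ.erase (0 : Fin (m + 1)), C l) *
      max B 1 with hK
    have hKp : 0 < K := by
      have : 0 < ∏ l ∈ Finset.univ.erase (0 : Fin (m + 1)), C l :=
        Finset.prod_pos fun l _ => hC l
      have h2 : 0 < max B 1 := lt_of_lt_of_le one_pos (le_max_right _ _)
      positivity
    refine ⟨‖c.p T.a0‖ / 2 / K, by positivity, ?_⟩
    have hCall : ∀ᶠ n in (c.F : Filter ℕ), ∀ l,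
        ‖U d (c.σ l n) (e : ℕ) (c.x l n) / (c.E l e n : ℂ)‖ ≤ C l * ‖c.pn e n‖ := by
      rw [Filter.eventually_all]; exact hCu
    filter_upwards [hV.eventually_le_const (lt_add_one _), hCall, hB, c.hM, c.e_pos e,
      hQ.eventually_const_le (show ‖c.p T.a0‖ / 2 < ‖c.p T.a0‖ by linarith)]
      with n h1 h2 h3 h4 h5 h6
    rw [div_le_iff₀ hKp]
    refine h6.trans ?_
    rw [c.Q_eq 0 e n h4, norm_mul, norm_mul, norm_prod, norm_mul, Complex.norm_real,
      Real.norm_of_nonneg h5.le]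
    have h7 : ∏ l ∈ Finset.univ.erase (0 : Fin (m + 1)),
        ‖U d (c.σ l n) (e : ℕ) (c.x l n) / (c.E l e n : ℂ)‖ ≤
        (∏ l ∈ Finset.univ.erase (0 : Fin (m + 1)), C l) * ‖c.pn e n‖ ^ m := by
      calc ∏ l ∈ Finset.univ.erase (0 : Fin (m + 1)),
          ‖U d (c.σ l n) (e : ℕ) (c.x l n) / (c.E l e n : ℂ)‖
          ≤ ∏ l ∈ Finset.univ.erase (0 : Fin (m + 1)), (C l * ‖c.pn e n‖) :=
            Finset.prod_le_prod (fun _ _ => norm_nonneg _) fun l _ => h2 l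
        _ = _ := by
            rw [Finset.prod_mul_distrib, Finset.prod_const, Finset.card_erase_of_mem
              (Finset.mem_univ _), Finset.card_univ, Fintype.card_fin, Nat.add_sub_cancel]
    have h8 : ‖c.s e n‖ ≤ max B 1 := h3.trans (le_max_left _ _)
    have hCp : 0 ≤ ∏ l ∈ Finset.univ.erase (0 : Fin (m + 1)), C l :=
      (Finset.prod_pos fun l _ => hC l).le
    calc ‖U1 d (c.σ 0 n) (e : ℕ) (c.x 0 n) / (c.E 0 e n : ℂ)‖ *
        (∏ l ∈ Finset.univ.erase (0 : Fin (m + 1)),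
        ‖U d (c.σ l n) (e : ℕ) (c.x l n) / (c.E l e n : ℂ)‖) * (‖c.s e n‖ * c.e e n)
        ≤ (‖c.u1h 0 e‖ + 1) * ((∏ l ∈ Finset.univ.erase (0 : Fin (m + 1)), C l) *
          ‖c.pn e n‖ ^ m) * (max B 1 * c.e e n) := by
          apply mul_le_mul
          · apply mul_le_mul h1 h7
            · exact Finset.prod_nonneg fun _ _ => norm_nonneg _
            · positivity
          · exact mul_le_mul_of_nonneg_right h8 h5.le
          · positivity
          · positivity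
      _ = c.e e n * ‖c.pn e n‖ ^ m * K := by rw [hK]; ring
  obtain ⟨δ, hδ, hlow⟩ := hlow
  have hwe : ∀ l, (c.w l e) ^ 2 = ((d : ℝ) / 2) ^ 2 := fun l => by rw [(hco l).1]
  by_cases hex : ∃ b, b ≠ T.a0 ∧ b ≠ T.a1 ∧ b ≠ e
  · -- a further residue blows up
    obtain ⟨b, hb0, hb1, hbe⟩ := hex
    have hbw : ∀ l, (c.w l b) ^ 2 < (c.w l e) ^ 2 := by
      intro l
      rw [hwe l]
      have h1 := c.w_gt l b
      have h2 := c.noncut_of_ne l e b (hco l).1 hbe
      apply sq_lt_sq'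
      · linarith
      · exact h2
    have hr := c.e_ratio b e hbw
    have hub : ∀ l, c.uh l b ≠ 0 := fun l =>
      c.uh_ne_zero_of_lt l b (c.noncut_of_ne l e b (hco l).1 hbe)
    have hR : ∏ l, c.uh l b ≠ 0 := Finset.prod_ne_zero_iff.mpr fun l _ => hub l
    have heb : Tendsto (fun n => c.e b n) c.F (𝓝 0) := by
      have h1 := ((c.pn_lim b).norm).div ((T.hSl b hb0 hb1).norm.mul (c.R_lim b).norm)
        (mul_ne_zero (norm_ne_zero_iff.mpr (T.hS b hb0 hb1)) (norm_ne_zero_iff.mpr hR))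
      rw [hL b hb0 hb1, norm_zero, zero_div] at h1
      refine h1.congr' ?_
      filter_upwards [c.hM, (c.R_lim b).eventually_ne hR, c.e_pos b,
        (T.hSl b hb0 hb1).eventually_ne (T.hS b hb0 hb1)] with n hn hR' he hsn
      show ‖c.pn b n‖ / (‖c.s b n‖ *
        ‖∏ l, (U d (c.σ l n) (b : ℕ) (c.x l n) / (c.E l b n : ℂ))‖) = _
      rw [c.pn_eq b n hn, norm_mul, norm_mul, Complex.norm_real, Real.norm_of_nonneg he.le]
      have h2 := norm_ne_zero_iff.mpr hR'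
      have h3 := norm_ne_zero_iff.mpr hsn
      field_simp
    have hee : Tendsto (fun n => c.e e n) c.F (𝓝 0) := by
      have h1 := hr.mul heb
      rw [zero_mul] at h1
      refine h1.congr' ?_
      filter_upwards [c.e_pos b] with n hn
      field_simp
    have h2 : ∀ᶠ n in (c.F : Filter ℕ), c.e e n < δ := hee.eventually_lt_const hδ
    have h3 : ∀ᶠ n in (c.F : Filter ℕ), ‖c.pn e n‖ < 1 := hpn.eventually_lt_const one_pos
    obtain ⟨n, h4, h5, h6, h7⟩ := (hlow.and (h2.and (h3.and (c.e_pos e)))).exists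
    have h8 : ‖c.pn e n‖ ^ m ≤ 1 := pow_le_one₀ (norm_nonneg _) h6.le
    have : c.e e n * ‖c.pn e n‖ ^ m ≤ c.e e n * 1 := mul_le_mul_of_nonneg_left h8 h7.le
    linarith
  · -- only three residues: `pn e` is of the order of `t`
    push Not at hex
    have hb3 : ∀ b, b ≠ T.a0 → b ≠ T.a1 → b ≠ e → False := fun b h0 h1 h2 => h2 (hex b h0 h1)
    obtain ⟨C0, hC0⟩ := T.hr0
    obtain ⟨C1, hC1⟩ := T.hr1
    have hpt : ∃ K : ℝ, 0 < K ∧ ∀ᶠ n in (c.F : Filter ℕ), ‖c.pn e n‖ ≤ K * ‖T.t n‖ := by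
      have hsr := ((T.hSl e he0 he1).div (T.hr e he0 he1) (T.hS e he0 he1)).norm
      rw [div_self (T.hS e he0 he1), norm_one] at hsr
      have g0 := ((c.pn_lim T.a0).div T.hs0 T.hH).norm
      have g1 := ((c.pn_lim T.a1).div T.hs1 (neg_ne_zero.mpr T.hH)).norm
      refine ⟨2 * (|C0| * (‖c.p T.a0 / T.H‖ + 1) + |C1| * (‖c.p T.a1 / -T.H‖ + 1)) + 1,
        by positivity, ?_⟩
      filter_upwards [hC0, hC1, T.hrs, T.ht0, T.s0_ne, T.s1_ne, c.hM,
        hsr.eventually_le_const (show (1 : ℝ) < 2 by norm_num),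
        g0.eventually_le_const (lt_add_one _), g1.eventually_le_const (lt_add_one _),
        (T.hr e he0 he1).eventually_ne (T.hS e he0 he1)]
        with n k0 k1 k2 k3 k4 k5 k6 k7 k8 k9 k10
      have hM' : (c.M n : ℂ) ≠ 0 := by exact_mod_cast k6.ne'
      rw [T.sum_three _ e he0 he1 (fun a h0 h1 h2 => (hb3 a h0 h1 h2).elim)] at k2
      set P : Fin d → ℂ := fun a => ∏ l, U d (c.σ l n) (a : ℕ) (c.x l n) with hP
      have hpnP : ∀ a, c.pn a n = c.s a n * P a / c.M n := fun a => rfl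
      have k8' : ‖(c.s T.a0 n * P T.a0 / c.M n) / (c.s T.a0 n / T.t n)‖ ≤
        ‖c.p T.a0 / T.H‖ + 1 := k8
      have k9' : ‖(c.s T.a1 n * P T.a1 / c.M n) / (c.s T.a1 n / T.t n)‖ ≤
        ‖c.p T.a1 / -T.H‖ + 1 := k9
      have e0 : (c.s T.a0 n * P T.a0 / c.M n) / (c.s T.a0 n / T.t n) =
        T.t n * (P T.a0 / c.M n) := by field_simp
      have e1 : (c.s T.a1 n * P T.a1 / c.M n) / (c.s T.a1 n / T.t n) =
        T.t n * (P T.a1 / c.M n) := by field_simp
      rw [e0, norm_mul] at k8'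
      rw [e1, norm_mul] at k9'
      have k2' : T.r e n * P e + (T.r T.a0 n * P T.a0 + T.r T.a1 n * P T.a1) = 0 := k2
      have hmain : c.pn e n = -((c.s e n / T.r e n) *
        (T.r T.a0 n * (P T.a0 / c.M n) + T.r T.a1 n * (P T.a1 / c.M n))) := by
        rw [hpnP]
        have h1 : T.r e n * P e = -(T.r T.a0 n * P T.a0 + T.r T.a1 n * P T.a1) := by
          linear_combination k2'
        have h2 : P e = -(T.r T.a0 n * P T.a0 + T.r T.a1 n * P T.a1) / T.r e n := by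
          rw [eq_div_iff k10, mul_comm]; exact h1
        rw [h2]
        field_simp
      have b0 : ‖T.r T.a0 n * (P T.a0 / c.M n)‖ ≤ |C0| * (‖c.p T.a0 / T.H‖ + 1) * ‖T.t n‖ := by
        rw [norm_mul]
        calc ‖T.r T.a0 n‖ * ‖P T.a0 / c.M n‖ ≤ (C0 * ‖T.t n‖ ^ 2) * ‖P T.a0 / c.M n‖ :=
              mul_le_mul_of_nonneg_right k0 (norm_nonneg _)
          _ = C0 * (‖T.t n‖ * ‖P T.a0 / c.M n‖) * ‖T.t n‖ := by ring
          _ ≤ |C0| * (‖c.p T.a0 / T.H‖ + 1) * ‖T.t n‖ := by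
              apply mul_le_mul_of_nonneg_right _ (norm_nonneg _)
              calc C0 * (‖T.t n‖ * ‖P T.a0 / c.M n‖) ≤ |C0| * (‖T.t n‖ * ‖P T.a0 / c.M n‖) :=
                    mul_le_mul_of_nonneg_right (le_abs_self _) (by positivity)
                _ ≤ _ := mul_le_mul_of_nonneg_left k8' (abs_nonneg _)
      have b1 : ‖T.r T.a1 n * (P T.a1 / c.M n)‖ ≤ |C1| * (‖c.p T.a1 / -T.H‖ + 1) * ‖T.t n‖ := by
        rw [norm_mul]
        calc ‖T.r T.a1 n‖ * ‖P T.a1 / c.M n‖ ≤ (C1 * ‖T.t n‖ ^ 2) * ‖P T.a1 / c.M n‖ :=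
              mul_le_mul_of_nonneg_right k1 (norm_nonneg _)
          _ = C1 * (‖T.t n‖ * ‖P T.a1 / c.M n‖) * ‖T.t n‖ := by ring
          _ ≤ |C1| * (‖c.p T.a1 / -T.H‖ + 1) * ‖T.t n‖ := by
              apply mul_le_mul_of_nonneg_right _ (norm_nonneg _)
              calc C1 * (‖T.t n‖ * ‖P T.a1 / c.M n‖) ≤ |C1| * (‖T.t n‖ * ‖P T.a1 / c.M n‖) :=
                    mul_le_mul_of_nonneg_right (le_abs_self _) (by positivity)
                _ ≤ _ := mul_le_mul_of_nonneg_left k9' (abs_nonneg _)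
      rw [hmain, norm_neg, norm_mul]
      have k7' : ‖c.s e n / T.r e n‖ ≤ 2 := k7
      calc ‖c.s e n / T.r e n‖ *
          ‖T.r T.a0 n * (P T.a0 / c.M n) + T.r T.a1 n * (P T.a1 / c.M n)‖
          ≤ 2 * (|C0| * (‖c.p T.a0 / T.H‖ + 1) * ‖T.t n‖ +
            |C1| * (‖c.p T.a1 / -T.H‖ + 1) * ‖T.t n‖) := by
            apply mul_le_mul k7' _ (norm_nonneg _) (by norm_num)
            exact (norm_add_le _ _).trans (add_le_add b0 b1)
        _ ≤ _ := by
            have := norm_nonneg (T.t n)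
            nlinarith
    obtain ⟨K, hK, hpt⟩ := hpt
    have hw1 : ∀ l, (c.w l T.a1) ^ 2 < (c.w l e) ^ 2 := by
      intro l
      rw [hwe l, (hco l).2.2.1]
      apply sq_lt_sq' <;> linarith
    have hr := c.e_ratio T.a1 e hw1
    have hte := T.te1
    have h1 : Tendsto (fun n => (c.e e n / c.e T.a1 n) * (‖T.t n‖ * c.e T.a1 n) * K) c.F
        (𝓝 0) := by
      have := (hr.mul hte).mul_const K
      simpa using this
    have h2 : ∀ᶠ n in (c.F : Filter ℕ),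
        (c.e e n / c.e T.a1 n) * (‖T.t n‖ * c.e T.a1 n) * K < δ := h1.eventually_lt_const hδ
    have h3 : ∀ᶠ n in (c.F : Filter ℕ), ‖c.pn e n‖ < 1 := hpn.eventually_lt_const one_pos
    obtain ⟨n, h4, h5, h6, h7, h8, h9⟩ := (hlow.and (h2.and (h3.and ((c.e_pos e).and
      ((c.e_pos T.a1).and hpt))))).exists
    have h10 : ‖c.pn e n‖ ^ m ≤ ‖c.pn e n‖ := by
      calc ‖c.pn e n‖ ^ m ≤ ‖c.pn e n‖ ^ 1 :=
            pow_le_pow_of_le_one (norm_nonneg _) h6.le T.hm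
        _ = _ := pow_one _
    have h11 : c.e e n * ‖c.pn e n‖ ^ m ≤ c.e e n * (K * ‖T.t n‖) :=
      mul_le_mul_of_nonneg_left (h10.trans h9) h7.le
    have h12 : (c.e e n / c.e T.a1 n) * (‖T.t n‖ * c.e T.a1 n) * K =
        c.e e n * (K * ‖T.t n‖) := by
      have := h8.ne'
      field_simp
    linarith

end Tan

end Pool.Agent.AM
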