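import Pool.Agent.AM.Core6

/-! Tangency configurations (odd case), part 3: two further residues. -/

set_option autoImplicit false
open Complex Filter Topology
namespace Pool.Agent.AM

lemma tm_bracket (s : ℝ) (x : ℂ) (n0 : ℤ) (j : ℕ) :
    (tm s x n0 / tm s x (n0 + 1)) ^ (2 * j + 1) * (tm s x (n0 + 1 + j) / tm s x (n0 - j)) = 1 := by
  unfold tm
  rw [← Complex.exp_sub, ← Complex.exp_sub, ← Complex.exp_nat_mul, ← Complex.exp_add,
    ← Complex.exp_zero]
  congr 1
  push_cast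
  ring

namespace Tan

variable {d m : ℕ} {c : Cfg d m} (T : Tan c)

include T

lemma s_low (a : Fin d) (h0 : a ≠ T.a0) (h1 : a ≠ T.a1) :
    ∃ δ > 0, ∀ᶠ n in (c.F : Filter ℕ), δ ≤ ‖c.s a n‖ := by
  have h2 := norm_pos_iff.mpr (T.hS a h0 h1)
  exact ⟨‖T.S a‖ / 2, by positivity, (T.hSl a h0 h1).norm.eventually_const_le (by linarith)⟩

lemma sum_four (f : Fin d → ℂ) (cL cR : Fin d) (h1 : cL ≠ T.a0) (h2 : cL ≠ T.a1)
    (h3 : cR ≠ T.a0) (h4 : cR ≠ T.a1) (h5 : cL ≠ cR)
    (h : ∀ a, a ≠ T.a0 → a ≠ T.a1 → a ≠ cL → a ≠ cR → f a = 0) :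
    ∑ a, f a = f cL + (f cR + (f T.a0 + f T.a1)) := by
  classical
  rw [← Finset.sum_subset (Finset.subset_univ {cL, cR, T.a0, T.a1})]
  · rw [Finset.sum_insert, Finset.sum_insert, Finset.sum_pair T.a01]
    · simp [h3, h4]
    · simp [h1, h2, h5]
  · intro a _ ha
    simp only [Finset.mem_insert, Finset.mem_singleton, not_or] at ha
    exact h a ha.2.2.1 ha.2.2.2 ha.1 ha.2.1

/-- coordinate product -/
noncomputable def Z (cL cR : Fin d) (j : ℕ) (l : Fin (m + 1)) (n : ℕ) : ℂ :=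
  (U d (c.σ l n) (T.a0 : ℕ) (c.x l n) / U d (c.σ l n) (T.a1 : ℕ) (c.x l n)) ^ (2 * j + 1) *
    (U d (c.σ l n) (cR : ℕ) (c.x l n) / U d (c.σ l n) (cL : ℕ) (c.x l n))

lemma Zlim (cL cR : Fin d) (j : ℕ) (l : Fin (m + 1)) (n0 : ℤ)
    (h0 : Tendsto (fun n => U d (c.σ l n) (T.a0 : ℕ) (c.x l n) / tm (c.σ l n) (c.x l n) n0)
      c.F (𝓝 1))
    (h1 : Tendsto (fun n => U d (c.σ l n) (T.a1 : ℕ) (c.x l n) /
      tm (c.σ l n) (c.x l n) (n0 + 1)) c.F (𝓝 1))
    (hL : Tendsto (fun n => U d (c.σ l n) (cL : ℕ) (c.x l n) /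
      tm (c.σ l n) (c.x l n) (n0 - j)) c.F (𝓝 1))
    (hR : Tendsto (fun n => U d (c.σ l n) (cR : ℕ) (c.x l n) /
      tm (c.σ l n) (c.x l n) (n0 + 1 + j)) c.F (𝓝 1)) :
    Tendsto (T.Z cL cR j l) c.F (𝓝 1) := by
  have h2 := ((h0.div h1 one_ne_zero).pow (2 * j + 1)).mul (hR.div hL one_ne_zero)
  rw [div_one, one_pow, mul_one] at h2
  refine h2.congr fun n => ?_
  have h3 := tm_bracket (c.σ l n) (c.x l n) n0 j
  show ((U d (c.σ l n) (T.a0 : ℕ) (c.x l n) / tm (c.σ l n) (c.x l n) n0) /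
    (U d (c.σ l n) (T.a1 : ℕ) (c.x l n) / tm (c.σ l n) (c.x l n) (n0 + 1))) ^ (2 * j + 1) *
    ((U d (c.σ l n) (cR : ℕ) (c.x l n) / tm (c.σ l n) (c.x l n) (n0 + 1 + j)) /
    (U d (c.σ l n) (cL : ℕ) (c.x l n) / tm (c.σ l n) (c.x l n) (n0 - j))) = _
  unfold Z
  have t0 := tm_ne_zero (c.σ l n) (c.x l n) n0
  have t1 := tm_ne_zero (c.σ l n) (c.x l n) (n0 + 1)
  have t2 := tm_ne_zero (c.σ l n) (c.x l n) (n0 + 1 + j)
  have t3 := tm_ne_zero (c.σ l n) (c.x l n) (n0 - j)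
  have e1 : (U d (c.σ l n) (T.a0 : ℕ) (c.x l n) / tm (c.σ l n) (c.x l n) n0) /
      (U d (c.σ l n) (T.a1 : ℕ) (c.x l n) / tm (c.σ l n) (c.x l n) (n0 + 1)) =
      (U d (c.σ l n) (T.a0 : ℕ) (c.x l n) / U d (c.σ l n) (T.a1 : ℕ) (c.x l n)) /
      (tm (c.σ l n) (c.x l n) n0 / tm (c.σ l n) (c.x l n) (n0 + 1)) := by
    rw [div_div_div_comm]
  have e2 : (U d (c.σ l n) (cR : ℕ) (c.x l n) / tm (c.σ l n) (c.x l n) (n0 + 1 + j)) /
      (U d (c.σ l n) (cL : ℕ) (c.x l n) / tm (c.σ l n) (c.x l n) (n0 - j)) =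
      (U d (c.σ l n) (cR : ℕ) (c.x l n) / U d (c.σ l n) (cL : ℕ) (c.x l n)) /
      (tm (c.σ l n) (c.x l n) (n0 + 1 + j) / tm (c.σ l n) (c.x l n) (n0 - j)) := by
    rw [div_div_div_comm]
  rw [e1, e2, div_pow, div_mul_div_comm, h3, div_one]

/-- the main case -/
theorem type3' (cL cR : Fin d) (hL0 : cL ≠ T.a0) (hL1 : cL ≠ T.a1) (hR0 : cR ≠ T.a0)
    (hR1 : cR ≠ T.a1) (hpL : c.p cL ≠ 0) (hpR : c.p cR ≠ 0) (hw : c.w 0 cL < 0)
    (hwR : c.w 0 cR = -c.w 0 cL) : False := by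
  classical
  have hd3 := T.hd3r
  have hLR : cL ≠ cR := by
    rintro rfl
    linarith
  -- other residues vanish
  have hoth : ∀ a, a ≠ T.a0 → a ≠ T.a1 → a ≠ cL → a ≠ cR → c.p a = 0 := by
    intro a h0 h1 h2 h3
    by_contra hp
    have hsq := c.w_sq_eq a cL hp hpL (T.s_low a h0 h1) (T.s_low cL hL0 hL1)
    rcases sq_eq_sq_iff_eq_or_eq_neg.mp hsq with h | h
    · exact h2 (c.w_inj 0 _ _ h)
    · exact h3 (c.w_inj 0 _ _ (by rw [h, hwR]))
  have hpRL : c.p cR = -c.p cL := by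
    have h1 := c.sum_p
    rw [T.sum_four _ cL cR hL0 hL1 hR0 hR1 hLR (fun a h0 h1 h2 h3 => hoth a h0 h1 h2 h3),
      T.hp1] at h1
    linear_combination h1
  -- comparison of positions
  have hsq0 : (c.w 0 T.a0) ^ 2 ≤ (c.w 0 cL) ^ 2 := by
    have h1 := c.loge_diff T.a0 cL
    obtain ⟨δ, hδ, hs⟩ := T.s_low cL hL0 hL1
    obtain ⟨C, hC⟩ := c.loge_bdd cL hpL δ hδ hs
    have h2 : ∀ᶠ n in (c.F : Filter ℕ), C ≤ Real.log (c.e T.a0 n) :=
      T.loge0_top.eventually_ge_atTop C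
    have h3 : 0 ≤ Real.pi * (c.w 0 cL) ^ 2 - Real.pi * (c.w 0 T.a0) ^ 2 := by
      refine ge_of_tendsto h1 ?_
      filter_upwards [hC, h2, c.sig_pos 0] with n h4 h5 h6
      have := (abs_le.mp h4).2
      exact div_nonneg (by linarith) h6.le
    have := Real.pi_pos
    by_contra hcon
    push Not at hcon
    nlinarith
  have hLgt := c.w_gt 0 cL
  obtain ⟨hA0, hA1⟩ : c.w 0 T.a0 = -1 / 2 ∧ c.w 0 T.a1 = 1 / 2 := by
    rcases T.w_neg_cases 0 (by rw [T.w0_neg]; ring) with ⟨h0, h1, -⟩ | ⟨h0, h1⟩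
    · exact ⟨h0, h1⟩
    · exfalso
      have h2 : ((d : ℝ) - 1) / 2 ≤ c.w 0 cR := by
        rw [hwR]
        rw [h0] at hsq0
        have h3 : |((d : ℝ) - 1) / 2| ≤ |c.w 0 cL| := sq_le_sq.mp hsq0
        rw [abs_of_nonneg (by linarith), abs_of_neg hw] at h3
        exact h3
      have h3 := c.w_diff 0 T.a0 cR
      rw [h0] at h3
      have h4 : (0 : ℝ) ≤ ((c.N 0 cR - c.N 0 T.a0 : ℤ) : ℝ) := by rw [← h3]; linarith
      have h5 : ((c.N 0 cR - c.N 0 T.a0 : ℤ) : ℝ) < 1 := by rw [← h3]; linarith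
      have h6 : 0 ≤ c.N 0 cR - c.N 0 T.a0 := by exact_mod_cast h4
      have h7 : c.N 0 cR - c.N 0 T.a0 < 1 := by exact_mod_cast h5
      exact hR0 (c.N_inj 0 _ _ (by omega))
  -- the integer j
  obtain ⟨j, hj⟩ : ∃ j : ℕ, c.N 0 cR - c.N 0 T.a1 = j := by
    have h3 := c.w_diff 0 T.a1 cR
    rw [hA1] at h3
    have h4 : (-1 : ℝ) < ((c.N 0 cR - c.N 0 T.a1 : ℤ) : ℝ) := by rw [← h3, hwR]; linarith
    have h5 : -1 < c.N 0 cR - c.N 0 T.a1 := by exact_mod_cast h4
    exact ⟨(c.N 0 cR - c.N 0 T.a1).toNat, by omega⟩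
  have hwRj : c.w 0 cR = 1 / 2 + j := by
    have h3 := c.w_diff 0 T.a1 cR
    rw [hA1, hj] at h3
    push_cast at h3
    linarith
  have hwLj : c.w 0 cL = -(1 / 2 + j) := by linarith
  have hj1 : 1 ≤ j := by
    by_contra hcon
    have : j = 0 := by omega
    rw [this] at hj
    exact hR1 (c.N_inj 0 _ _ (by simpa [sub_eq_zero] using hj))
  have hj1r : (1 : ℝ) ≤ j := by exact_mod_cast hj1
  have hqd : (2 * (j : ℝ) + 1) < d := by
    rw [hwLj] at hLgt; linarith
  have hqd' : 2 * j + 1 < d := by exact_mod_cast hqd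
  have hjL : c.N 0 T.a0 - c.N 0 cL = j := by
    have h3 := c.w_diff 0 cL T.a0
    rw [hA0, hwLj] at h3
    have h4 : ((c.N 0 T.a0 - c.N 0 cL : ℤ) : ℝ) = ((j : ℤ) : ℝ) := by
      rw [← h3]; push_cast; ring
    exact_mod_cast h4
  have hN01 : c.N 0 T.a1 - c.N 0 T.a0 = 1 := by
    have h3 := c.w_diff 0 T.a0 T.a1
    rw [hA0, hA1] at h3
    have h4 : ((c.N 0 T.a1 - c.N 0 T.a0 : ℤ) : ℝ) = ((1 : ℤ) : ℝ) := by
      rw [← h3]; push_cast; ring
    exact_mod_cast h4
  -- the values of p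
  have hp0 : c.p T.a0 = -(2 * (j : ℂ) + 1) * c.p cL := by
    have hq : ∀ a, c.q 0 a = (c.N 0 a : ℂ) * c.p a := by
      intro a
      rcases c.noncut_or 0 a with h | h
      · exact c.q_noncut 0 a h
      · have hlt : (c.w 0 cL) ^ 2 < (c.w 0 a) ^ 2 := by
          rw [h]; apply sq_lt_sq' <;> linarith
        have ha : c.p a = 0 := by
          apply hoth a
          · rintro rfl; rw [hA0] at h; linarith
          · rintro rfl; rw [hA1] at h; linarith
          · rintro rfl; linarith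
          · rintro rfl; rw [hwRj] at h; linarith
        rw [ha, mul_zero]
        exact c.q_zero_of_dom a cL hpL (T.s_low cL hL0 hL1) hlt 0
    have h1 := c.sum_q 0
    simp only [hq] at h1
    rw [T.sum_four _ cL cR hL0 hL1 hR0 hR1 hLR
      (fun a h0 h1 h2 h3 => by rw [hoth a h0 h1 h2 h3, mul_zero]), T.hp1, hpRL] at h1
    have e1 : (c.N 0 cR : ℂ) = c.N 0 T.a1 + j := by
      have : c.N 0 cR = c.N 0 T.a1 + j := by linarith
      rw [this]; push_cast; ring
    have e2 : (c.N 0 cL : ℂ) = c.N 0 T.a0 - j := by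
      have : c.N 0 cL = c.N 0 T.a0 - j := by linarith
      rw [this]; push_cast; ring
    have e3 : (c.N 0 T.a1 : ℂ) = c.N 0 T.a0 + 1 := by
      have : c.N 0 T.a1 = c.N 0 T.a0 + 1 := by linarith
      rw [this]; push_cast; ring
    rw [e1, e2, e3] at h1
    linear_combination -h1
  have hp1 : c.p T.a1 = (2 * (j : ℂ) + 1) * c.p cL := by rw [T.hp1, hp0]; ring
  -- residue relations
  have dR : (d : ℤ) ∣ ((cR : ℕ) : ℤ) - ((T.a1 : ℕ) : ℤ) - j := by
    have e1 := lift_dvd d (c.v 0) ((cR : ℕ) : ℤ)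
    have e2 := lift_dvd d (c.v 0) ((T.a1 : ℕ) : ℤ)
    have h2 := dvd_sub e2 e1
    have h3 : lift d (c.v 0) ((T.a1 : ℕ) : ℤ) - ((T.a1 : ℕ) : ℤ) -
      (lift d (c.v 0) ((cR : ℕ) : ℤ) - ((cR : ℕ) : ℤ)) =
      ((cR : ℕ) : ℤ) - ((T.a1 : ℕ) : ℤ) - j := by
      have h4 : lift d (c.v 0) ((cR : ℕ) : ℤ) - lift d (c.v 0) ((T.a1 : ℕ) : ℤ) = j := hj
      linarith
    rwa [h3] at h2
  have dL : (d : ℤ) ∣ ((T.a0 : ℕ) : ℤ) - ((cL : ℕ) : ℤ) - j := by
    have e1 := lift_dvd d (c.v 0) ((T.a0 : ℕ) : ℤ)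
    have e2 := lift_dvd d (c.v 0) ((cL : ℕ) : ℤ)
    have h2 := dvd_sub e2 e1
    have h3 : lift d (c.v 0) ((cL : ℕ) : ℤ) - ((cL : ℕ) : ℤ) -
      (lift d (c.v 0) ((T.a0 : ℕ) : ℤ) - ((T.a0 : ℕ) : ℤ)) =
      ((T.a0 : ℕ) : ℤ) - ((cL : ℕ) : ℤ) - j := by
      have h4 : lift d (c.v 0) ((T.a0 : ℕ) : ℤ) - lift d (c.v 0) ((cL : ℕ) : ℤ) = j := hjL
      linarith
    rwa [h3] at h2
  have hSS : T.S cL = T.S cR := by
    apply T.hsym cL cR hL0 hL1 hR0 hR1
    have h2 := dvd_sub dR dL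
    have h3 : ((cR : ℕ) : ℤ) - ((T.a1 : ℕ) : ℤ) - j - (((T.a0 : ℕ) : ℤ) - ((cL : ℕ) : ℤ) - j) =
      ((cL : ℕ) : ℤ) + ((cR : ℕ) : ℤ) - ((T.a0 : ℕ) : ℤ) - ((T.a1 : ℕ) : ℤ) := by ring
    rwa [h3] at h2
  have hjd : (j : ℤ) < d := by omega
  have hj0 : (0 : ℤ) < j := by omega
  -- nonvanishing of the limits
  have u0 := T.uh0
  have u1 := T.uh1
  have uL : ∀ l, c.uh l cL ≠ 0 := fun l => c.uh_ne_zero l _ hpL
  have uR : ∀ l, c.uh l cR ≠ 0 := fun l => c.uh_ne_zero l _ hpR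
  set κ : Fin (m + 1) → ℝ := fun l => Real.pi * ((2 * (j : ℝ) + 1) *
    ((c.w l T.a1) ^ 2 - (c.w l T.a0) ^ 2) - ((c.w l cR) ^ 2 - (c.w l cL) ^ 2)) with hκ
  -- every coordinate
  have hZ : ∀ l, κ l = 0 → Tendsto (T.Z cL cR j l) c.F (𝓝 1) := by
    intro l hl
    have hl' : (2 * (j : ℝ) + 1) * ((c.w l T.a1) ^ 2 - (c.w l T.a0) ^ 2) -
        ((c.w l cR) ^ 2 - (c.w l cL) ^ 2) = 0 := by
      rcases mul_eq_zero.mp hl with h | h
      · exact absurd h Real.pi_ne_zero
      · exact h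
    have gA := c.w_gt l T.a0; have lA := c.w_le l T.a0
    have gB := c.w_gt l T.a1; have lB := c.w_le l T.a1
    have gL := c.w_gt l cL; have lL := c.w_le l cL
    have gR := c.w_gt l cR; have lR := c.w_le l cR
    have kAB := c.w_diff l T.a0 T.a1
    have kBR := c.w_diff l T.a1 cR
    have kLA := c.w_diff l cL T.a0
    have sq := c.sum_q l
    rcases T.N01 l with n1 | n1 <;>
      rcases c.N_diff l T.a1 cR j hj0 hjd dR with n2 | n2 <;>
      rcases c.N_diff l cL T.a0 j hj0 hjd dL with n3 | n3 <;>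
      rw [n1] at kAB <;> rw [n2] at kBR <;> rw [n3] at kLA <;> push_cast at kAB kBR kLA
    · -- consistent
      have eA1 : c.N l T.a1 = c.N l T.a0 + 1 := by linarith
      have eR : c.N l cR = c.N l T.a0 + 1 + j := by linarith
      have eL : c.N l cL = c.N l T.a0 - j := by linarith
      have b0 := c.beta_zero l T.a0 (by linarith)
      have b1 := c.beta_zero l T.a1 (by linarith)
      have bL := c.beta_zero l cL (by linarith)
      have bR : c.β l cR = 0 := by
        rcases c.noncut_or l cR with h | h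
        · exact c.beta_zero l cR h
        · have hq : ∀ a, a ≠ cR → c.q l a = (c.N l a : ℂ) * c.p a := fun a ha =>
            c.q_noncut l a (c.noncut_of_ne l cR a h ha)
          rw [T.sum_four _ cL cR hL0 hL1 hR0 hR1 hLR
            (fun a h0 h1 h2 h3 => by rw [hq a h3, hoth a h0 h1 h2 h3, mul_zero]),
            hq _ hLR, hq _ hR0.symm, hq _ hR1.symm, hp0, hp1, eA1, eL] at sq
          have h1 := c.q_uh l cR
          unfold Cfg.uh Cfg.u1h at h1
          rw [eR] at h1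
          push_cast at h1 sq
          have hd' : (d : ℂ) ≠ 0 := by
            have := T.hd3
            exact_mod_cast (show d ≠ 0 by omega)
          have h2 : c.p cL * (d * c.β l cR) = 0 := by
            rw [hpRL] at h1
            linear_combination (c.α l cR + c.β l cR) * sq - h1
          rcases mul_eq_zero.mp h2 with h3 | h3
          · exact absurd h3 hpL
          · exact (mul_eq_zero.mp h3).resolve_left hd'
      have g0 := c.U_tm_alpha l T.a0 b0
      have g1 := c.U_tm_alpha l T.a1 b1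
      have gL' := c.U_tm_alpha l cL bL
      have gR' := c.U_tm_alpha l cR bR
      rw [eA1] at g1; rw [eL] at gL'; rw [eR] at gR'
      exact T.Zlim cL cR j l (c.N l T.a0) g0 g1 gL' gR'
    · -- wrap between cL and a0
      have eA1 : c.N l T.a1 = c.N l T.a0 + 1 := by linarith
      have eR : c.N l cR = c.N l T.a0 + 1 + j := by linarith
      have eL : c.N l cL = c.N l T.a0 - j + d := by linarith
      have hcut : c.w l cL = (d : ℝ) / 2 := by
        have e1 : c.w l T.a0 = c.w l cL + j - d := by linarith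
        have e2 : c.w l T.a1 = c.w l cL + j - d + 1 := by linarith
        have e3 : c.w l cR = c.w l cL + 2 * j - d + 1 := by linarith
        rw [e1, e2, e3] at hl'
        have h1 : (d : ℝ) * (2 * c.w l cL - d) = 0 := by linear_combination hl'
        rcases mul_eq_zero.mp h1 with h2 | h2 <;> linarith
      have b0 := c.beta_zero l T.a0 (by linarith)
      have b1 := c.beta_zero l T.a1 (by linarith)
      have bR := c.beta_zero l cR (by linarith)
      have aL : c.α l cL = 0 := by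
        have hq : ∀ a, a ≠ cL → c.q l a = (c.N l a : ℂ) * c.p a := fun a ha =>
          c.q_noncut l a (c.noncut_of_ne l cL a hcut ha)
        rw [T.sum_four _ cL cR hL0 hL1 hR0 hR1 hLR
          (fun a h0 h1 h2 h3 => by rw [hq a h2, hoth a h0 h1 h2 h3, mul_zero]),
          hq _ hLR.symm, hq _ hL0.symm, hq _ hL1.symm, hp0, hp1, hpRL, eA1, eR] at sq
        have h1 := c.q_uh l cL
        unfold Cfg.uh Cfg.u1h at h1
        rw [eL] at h1
        push_cast at h1 sq
        have hd' : (d : ℂ) ≠ 0 := by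
          have := T.hd3
          exact_mod_cast (show d ≠ 0 by omega)
        have h2 : c.p cL * (d * c.α l cL) = 0 := by
          linear_combination (c.α l cL + c.β l cL) * sq - h1
        rcases mul_eq_zero.mp h2 with h3 | h3
        · exact absurd h3 hpL
        · exact (mul_eq_zero.mp h3).resolve_left hd'
      have g0 := c.U_tm_alpha l T.a0 b0
      have g1 := c.U_tm_alpha l T.a1 b1
      have gL' := c.U_tm_beta l cL aL
      have gR' := c.U_tm_alpha l cR bR
      have eL' : c.N l cL - d = c.N l T.a0 - j := by linarith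
      rw [eA1] at g1; rw [eL'] at gL'; rw [eR] at gR'
      exact T.Zlim cL cR j l (c.N l T.a0) g0 g1 gL' gR'
    · -- wrap between a1 and cR
      exfalso
      have e1 : c.w l T.a1 = c.w l T.a0 + 1 := by linarith
      have e2 : c.w l cR = c.w l T.a0 + 1 + j - d := by linarith
      have e3 : c.w l cL = c.w l T.a0 - j := by linarith
      rw [e1, e2, e3] at hl'
      have h1 : (d : ℝ) * (2 * j + 1 + 2 * c.w l T.a0 + 1 - d) = 0 := by
        linear_combination hl'
      rcases mul_eq_zero.mp h1 with h2 | h2 <;> linarith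
    · exfalso; linarith
    · -- wrap between a0 and a1
      exfalso
      have e1 : c.w l T.a1 = c.w l T.a0 + 1 - d := by linarith
      have e2 : c.w l cR = c.w l T.a0 + 1 + j - d := by linarith
      have e3 : c.w l cL = c.w l T.a0 - j := by linarith
      rw [e1, e2, e3] at hl'
      have h1 : (d : ℝ) * (2 * j) * (2 * c.w l T.a0 + 1 - d) = 0 := by
        linear_combination -hl'
      have h2 : c.w l T.a0 = ((d : ℝ) - 1) / 2 := by
        rcases mul_eq_zero.mp h1 with h3 | h3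
        · rcases mul_eq_zero.mp h3 with h4 | h4 <;> linarith
        · linarith
      have hnc : ∀ a, c.w l a < (d : ℝ) / 2 := by
        intro a
        rcases c.noncut_or l a with h | h
        · exact h
        · exfalso
          have h5 := c.w_diff l T.a0 a
          rw [h, h2] at h5
          have h6 : (1 : ℝ) = ((2 * (c.N l a - c.N l T.a0) : ℤ) : ℝ) := by
            push_cast at h5 ⊢; linarith
          have h7 : (1 : ℤ) = 2 * (c.N l a - c.N l T.a0) := by exact_mod_cast h6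
          omega
      have hq : ∀ a, c.q l a = (c.N l a : ℂ) * c.p a := fun a => c.q_noncut l a (hnc a)
      have eA1 : c.N l T.a1 = c.N l T.a0 + 1 - d := by linarith
      have eR : c.N l cR = c.N l T.a0 + 1 + j - d := by linarith
      have eL : c.N l cL = c.N l T.a0 - j := by linarith
      rw [T.sum_four _ cL cR hL0 hL1 hR0 hR1 hLR
        (fun a h0 h1 h2 h3 => by rw [hq a, hoth a h0 h1 h2 h3, mul_zero]),
        hq, hq, hq, hq, hp0, hp1, hpRL, eA1, eR, eL] at sq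
      push_cast at sq
      have h3 : c.p cL * ((d : ℂ) * (2 * j)) = 0 := by linear_combination -sq
      have hd' : (d : ℂ) ≠ 0 := by
        have := T.hd3
        exact_mod_cast (show d ≠ 0 by omega)
      have hj' : (j : ℂ) ≠ 0 := by exact_mod_cast (show j ≠ 0 by omega)
      exact mul_ne_zero hpL (mul_ne_zero hd' (mul_ne_zero two_ne_zero hj')) h3
    · exfalso; linarith
    · exfalso; linarith
    · exfalso; linarith
  -- the product over all coordinates
  have hUne : ∀ᶠ n in (c.F : Filter ℕ), ∀ l, U d (c.σ l n) (T.a0 : ℕ) (c.x l n) ≠ 0 ∧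
      U d (c.σ l n) (T.a1 : ℕ) (c.x l n) ≠ 0 ∧ U d (c.σ l n) (cL : ℕ) (c.x l n) ≠ 0 ∧
      U d (c.σ l n) (cR : ℕ) (c.x l n) ≠ 0 := by
    rw [Filter.eventually_all]
    intro l
    filter_upwards [U_ne l _ (u0 l), U_ne l _ (u1 l), U_ne l _ (uL l), U_ne l _ (uR l)]
      with n h1 h2 h3 h4
    exact ⟨h1, h2, h3, h4⟩
  have hprod : Tendsto (fun n => ∏ l, T.Z cL cR j l n) c.F (𝓝 (-1)) := by
    have h1 := ((c.pn_lim cR).div (c.pn_lim cL) hpL).div
      ((T.hSl cR hR0 hR1).div (T.hSl cL hL0 hL1) (T.hS cL hL0 hL1))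
      (by rw [hSS]; exact div_ne_zero (T.hS cR hR0 hR1) (T.hS cR hR0 hR1))
    have e1 : c.p cR / c.p cL / (T.S cR / T.S cL) = -1 := by
      rw [hSS, div_self (T.hS cR hR0 hR1), hpRL, div_one, neg_div, div_self hpL]
    rw [e1] at h1
    have h2 := (T.P_ratio.pow (2 * j + 1)).mul h1
    rw [one_pow, one_mul] at h2
    refine h2.congr' ?_
    filter_upwards [hUne, c.hM, (T.hSl cR hR0 hR1).eventually_ne (T.hS cR hR0 hR1),
      (T.hSl cL hL0 hL1).eventually_ne (T.hS cL hL0 hL1)] with n h3 h4 h5 h6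
    have h7 : (c.M n : ℂ) ≠ 0 := by exact_mod_cast h4.ne'
    show ((∏ l, U d (c.σ l n) (T.a0 : ℕ) (c.x l n)) /
      (∏ l, U d (c.σ l n) (T.a1 : ℕ) (c.x l n))) ^ (2 * j + 1) *
      ((c.pn cR n / c.pn cL n) / (c.s cR n / c.s cL n)) = _
    unfold Z Cfg.pn
    rw [Finset.prod_mul_distrib, Finset.prod_pow, Finset.prod_div_distrib,
      Finset.prod_div_distrib]
    have h8 : (∏ l, U d (c.σ l n) (cL : ℕ) (c.x l n)) ≠ 0 :=
      Finset.prod_ne_zero_iff.mpr fun l _ => (h3 l).2.2.1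
    congr 1
    field_simp
  have hκ0 : ∀ l, κ l = 0 := by
    apply c.hier (fun l n => Real.log ‖T.Z cL cR j l n‖) κ
    · intro l
      have h1 := (T.logY_lim l).const_mul (2 * (j : ℝ) + 1)
      have h2 := (c.logU_lim l cR (uR l)).sub (c.logU_lim l cL (uL l))
      have h3 := h1.add h2
      have e1 : (2 * (j : ℝ) + 1) * (Real.pi * ((c.w l T.a1) ^ 2 - (c.w l T.a0) ^ 2)) +
        (Real.pi * (c.v l) ^ 2 - Real.pi * (c.w l cR) ^ 2 -
          (Real.pi * (c.v l) ^ 2 - Real.pi * (c.w l cL) ^ 2)) = κ l := by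
        simp only [hκ]; ring
      rw [e1] at h3
      refine h3.congr' ?_
      filter_upwards [hUne, c.sig_pos l] with n h4 h5
      obtain ⟨k0, k1, k2, k3⟩ := h4 l
      unfold Z
      have k0' := norm_ne_zero_iff.mpr k0
      have k1' := norm_ne_zero_iff.mpr k1
      have k2' := norm_ne_zero_iff.mpr k2
      have k3' := norm_ne_zero_iff.mpr k3
      rw [norm_mul, norm_pow, norm_div, norm_div, Real.log_mul (by positivity) (by positivity),
        Real.log_pow, Real.log_div k0' k1', Real.log_div k3' k2']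
      push_cast
      have := h5.ne'
      field_simp
    · intro l hl
      have h1 := ((hZ l hl).norm).log (by simp)
      simpa using h1
    · have h1 := (hprod.norm).log (by simp)
      simp only [norm_neg, norm_one, Real.log_one] at h1
      refine h1.congr' ?_
      filter_upwards [hUne] with n h3
      rw [norm_prod, Real.log_prod]
      intro l _
      obtain ⟨k0, k1, k2, k3⟩ := h3 l
      unfold Z
      exact norm_ne_zero_iff.mpr (mul_ne_zero (pow_ne_zero _ (div_ne_zero k0 k1))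
        (div_ne_zero k3 k2))
  have hfin : Tendsto (fun n => ∏ l, T.Z cL cR j l n) c.F (𝓝 1) := by
    have h1 : Tendsto (fun n => ∏ l, T.Z cL cR j l n) c.F (𝓝 (∏ _l : Fin (m + 1), (1 : ℂ))) :=
      tendsto_finsetProd _ fun l _ => hZ l (hκ0 l)
    simpa using h1
  have := tendsto_nhds_unique hprod hfin
  norm_num at this

/-- tangency configurations do not exist -/
theorem absurd' : False := by
  classical
  by_cases hL : ∀ a, a ≠ T.a0 → a ≠ T.a1 → c.p a = 0
  · exact T.type2 hL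
  · push Not at hL
    obtain ⟨b, hb0, hb1, hpb⟩ := hL
    obtain ⟨b', hb0', hb1', hbb, hpb'⟩ : ∃ b', b' ≠ T.a0 ∧ b' ≠ T.a1 ∧ b' ≠ b ∧ c.p b' ≠ 0 := by
      by_contra hcon
      push Not at hcon
      have h1 := c.sum_p
      rw [T.sum_three _ b hb0 hb1 (fun a h0 h1 h2 => hcon a h0 h1 h2), T.hp1] at h1
      apply hpb
      linear_combination h1
    have hsq := c.w_sq_eq b' b hpb' hpb (T.s_low b' hb0' hb1') (T.s_low b hb0 hb1)
    have hneg : c.w 0 b' = -c.w 0 b := by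
      rcases sq_eq_sq_iff_eq_or_eq_neg.mp hsq with h | h
      · exact absurd (c.w_inj 0 _ _ h) hbb
      · exact h
    rcases lt_trichotomy (c.w 0 b) 0 with h | h | h
    · exact T.type3' b b' hb0 hb1 hb0' hb1' hpb hpb' h hneg
    · rw [h, neg_zero, ← h] at hneg
      exact hbb (c.w_inj 0 _ _ hneg)
    · exact T.type3' b' b hb0' hb1' hb0 hb1 hpb' hpb (by linarith) (by linarith)

end Tan

end Pool.Agent.AM
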