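import Pool.Agent.AM.Defs

set_option autoImplicit false

/-! Andreotti-Mayer project (MP_becd93_ag), job AM-3a: Hausdorff dimension, part 1. -/

open Complex Filter Topology
open scoped ENNReal NNReal

namespace Pool.Agent.AM

namespace Dim1_

lemma dimH_pi_univ (κ : Type) [Fintype κ] :
    dimH (Set.univ : Set (κ → ℂ)) = ((2 * Fintype.card κ : ℕ) : ℝ≥0∞) := by
  rw [Real.dimH_univ_eq_finrank, Module.finrank_pi_fintype]
  simp [Complex.finrank_real_complex, mul_comm]

open Classical in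
/-- the coordinates in `K` are fixed -/
noncomputable def emb {ι : Type} (K : Finset ι) (ζ : K → ℂ) (y : {l // l ∉ K} → ℂ) : ι → ℂ :=
  fun l => if h : l ∈ K then ζ ⟨l, h⟩ else y ⟨l, h⟩

lemma emb_lip {ι : Type} [Fintype ι] (K : Finset ι) [Fintype {l // l ∉ K}] (ζ : K → ℂ) :
    LipschitzWith 1 (emb K ζ) := by
  intro y y'
  rw [ENNReal.coe_one, one_mul, edist_pi_le_iff]
  intro l
  by_cases h : l ∈ K
  · simp [emb, h]
  · simp only [emb, h, dif_neg, not_false_iff]
    exact edist_le_pi_edist y y' ⟨l, h⟩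

lemma dimH_slice {ι : Type} [Fintype ι] (K : Finset ι) (ζ : K → ℂ) :
    dimH {x : ι → ℂ | ∀ l : K, x l = ζ l} ≤ ((2 * (Fintype.card ι - K.card) : ℕ) : ℝ≥0∞) := by
  classical
  have h1 : {x : ι → ℂ | ∀ l : K, x l = ζ l} ⊆ emb K ζ '' Set.univ := by
    intro x hx
    refine ⟨fun l => x l, Set.mem_univ _, ?_⟩
    ext l
    by_cases h : l ∈ K
    · simp only [emb, h, dif_pos]
      exact (hx ⟨l, h⟩).symm
    · simp only [emb, h, dif_neg, not_false_iff]
  refine (dimH_mono h1).trans (((emb_lip K ζ).dimH_image_le _).trans ?_)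
  rw [dimH_pi_univ]
  have h2 : Fintype.card {l // l ∉ K} = Fintype.card ι - K.card := by
    rw [Fintype.card_subtype_compl, Fintype.card_coe]
  rw [h2]

end Dim1_

open Dim1_

open Classical in
theorem dimH_many_countable {ι : Type} [Fintype ι] (Z : ι → Set ℂ) (hZ : ∀ l, (Z l).Countable)
    (r : ℕ) (hr : r ≤ Fintype.card ι) :
    dimH {x : ι → ℂ | r ≤ (Finset.univ.filter (fun l => x l ∈ Z l)).card} ≤
      ((2 * (Fintype.card ι - r) : ℕ) : ℝ≥0∞) := by
  have hcov : {x : ι → ℂ | r ≤ (Finset.univ.filter (fun l => x l ∈ Z l)).card} ⊆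
      ⋃ K : {K : Finset ι // K.card = r}, ⋃ ζ ∈ Set.pi Set.univ (fun l : K.1 => Z l),
        {x : ι → ℂ | ∀ l : K.1, x l = ζ l} := by
    intro x hx
    obtain ⟨K, hK, hKr⟩ := Finset.exists_subset_card_eq hx
    rw [Set.mem_iUnion]
    refine ⟨⟨K, hKr⟩, ?_⟩
    rw [Set.mem_iUnion₂]
    refine ⟨fun l => x l, ?_, fun l => rfl⟩
    intro l _
    have := hK l.2
    rw [Finset.mem_filter] at this
    exact this.2
  refine (dimH_mono hcov).trans ?_
  rw [dimH_iUnion]
  refine iSup_le fun K => ?_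
  have hcount : (Set.pi Set.univ (fun l : K.1 => Z l)).Countable :=
    Set.countable_univ_pi fun l => hZ l
  rw [dimH_bUnion hcount]
  refine iSup₂_le fun ζ _ => ?_
  have := dimH_slice K.1 ζ
  rwa [K.2] at this

theorem le_dimH_of_proj {ι : Type} [Fintype ι] (S : Set (ι → ℂ)) (J : Finset ι)
    (V : Set (J → ℂ)) (hV : IsOpen V) (hne : V.Nonempty)
    (h : ∀ w ∈ V, ∃ x ∈ S, ∀ j : J, x j = w j) :
    ((2 * J.card : ℕ) : ℝ≥0∞) ≤ dimH S := by
  classical
  have hlip : LipschitzWith 1 (fun (x : ι → ℂ) (j : J) => x j) := by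
    intro x y
    rw [ENNReal.coe_one, one_mul, edist_pi_le_iff]
    intro j
    exact edist_le_pi_edist x y (j : ι)
  have h1 : V ⊆ (fun (x : ι → ℂ) (j : J) => x j) '' S := by
    intro w hw
    obtain ⟨x, hx, hxw⟩ := h w hw
    exact ⟨x, hx, funext hxw⟩
  have h2 : dimH V = ((2 * J.card : ℕ) : ℝ≥0∞) := by
    obtain ⟨w, hw⟩ := hne
    rw [Real.dimH_of_mem_nhds (hV.mem_nhds hw), ← Real.dimH_univ_eq_finrank, dimH_pi_univ,
      Fintype.card_coe]
  rw [← h2]
  exact (dimH_mono h1).trans (hlip.dimH_image_le S)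

end Pool.Agent.AM
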