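import Mathlib

/-! Definitions for the Andreotti-Mayer project (MP_becd93_ag). -/

set_option autoImplicit false

open Complex

namespace Pool.Agent.AM

/-- Elementary term `exp(-pi s N^2 + 2 pi i N x)`. -/
noncomputable def tm (s : ℝ) (x : ℂ) (N : ℤ) : ℂ :=
  cexp (-(Real.pi : ℂ) * s * (N : ℂ) ^ 2 + 2 * (Real.pi : ℂ) * I * N * x)

/-- `U d s a x = sum over N = a mod d of exp(-pi s N^2 + 2 pi i N x)`. -/
noncomputable def U (d : ℕ) (s : ℝ) (a : ℤ) (x : ℂ) : ℂ :=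
  ∑' k : ℤ, tm s x (a + d * k)

/-- `U1 d s a x = sum over N = a mod d of N exp(-pi s N^2 + 2 pi i N x)`. -/
noncomputable def U1 (d : ℕ) (s : ℝ) (a : ℤ) (x : ℂ) : ℂ :=
  ∑' k : ℤ, ((a + d * k : ℤ) : ℂ) * tm s x (a + d * k)

/-- theta_3 with purely imaginary modulus `i al`. -/
noncomputable def th3 (al : ℝ) (w : ℂ) : ℂ := jacobiTheta₂ w (I * al)

/-- theta_4 with purely imaginary modulus `i al`. -/
noncomputable def th4 (al : ℝ) (w : ℂ) : ℂ := jacobiTheta₂ (w + 1 / 2) (I * al)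

/-- The two dimensional block of the odd case. -/
noncomputable def sO (d : ℕ) (al be : ℝ) (a : ℤ) (y1 y2 : ℂ) : ℂ :=
  th3 al (y1 + a / d) * th3 be y2 + th4 al (y1 + a / d) * th4 be y2

/-- The Riemann theta series as in the frozen statement. -/
noncomputable def rth (g : ℕ) (τ : Matrix (Fin g) (Fin g) ℂ) (w : Fin g → ℂ) : ℂ :=
  ∑' n : Fin g → ℤ,
    Complex.exp ((Real.pi : ℂ) * Complex.I *
        ((fun i => (n i : ℂ)) ⬝ᵥ (τ.mulVec (fun i => (n i : ℂ)))) +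
      2 * (Real.pi : ℂ) * Complex.I * ((fun i => (n i : ℂ)) ⬝ᵥ w))

end Pool.Agent.AM
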