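import Mathlib
import Pool.Agent.AM.Defs

/-! AM-2 (helper38): Riemann theta of the special period matrices factorises. -/

set_option autoImplicit false

open Complex Matrix

namespace Pool.Agent.AM

namespace TF

lemma tm_add (d : ℕ) (s : ℝ) (a k : ℤ) (x : ℂ) :
    tm s x (a + d * k) =
      tm s x a * jacobiTheta₂_term k (d * x + I * s * a * d) (I * s * d ^ 2) := by
  unfold tm jacobiTheta₂_term
  rw [← Complex.exp_add]
  congr 1
  push_cast
  linear_combination (-(2 * (Real.pi : ℂ) * k * s * a * d) - (Real.pi : ℂ) * k ^ 2 * s * d ^ 2) *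
    I_mul_I

lemma summable_tm (d : ℕ) (hd : 0 < d) (s : ℝ) (hs : 0 < s) (a : ℤ) (x : ℂ) :
    Summable (fun k : ℤ => ‖tm s x (a + d * k)‖) := by
  have h1 : 0 < (I * s * (d : ℂ) ^ 2).im := by
    have : (I * s * (d : ℂ) ^ 2) = ((s * (d : ℝ) ^ 2 : ℝ) : ℂ) * I := by push_cast; ring
    rw [this, Complex.mul_I_im, Complex.ofReal_re]
    positivity
  have h2 := (summable_jacobiTheta₂_term_iff (d * x + I * s * a * d) (I * s * d ^ 2)).2 h1
  simp_rw [tm_add]
  exact (h2.mul_left (tm s x a)).norm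

/-- sums over tuples of products -/
lemma prodsum {n : ℕ} (f : Fin n → ℤ → ℂ) (hf : ∀ i, Summable (fun j => ‖f i j‖)) :
    Summable (fun k : Fin n → ℤ => ‖∏ i, f i (k i)‖) ∧
      ∑' k : Fin n → ℤ, ∏ i, f i (k i) = ∏ i, ∑' j, f i j := by
  induction n with
  | zero =>
    refine ⟨(hasSum_fintype _).summable, ?_⟩
    rw [tsum_fintype]
    simp
  | succ n ih =>
    obtain ⟨h1, h2⟩ := ih (fun i => f i.succ) (fun i => hf i.succ)
    have h3 : ∀ p : ℤ × (Fin n → ℤ), (∏ i, f i ((Fin.consEquiv (fun _ => ℤ) p) i)) =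
        f 0 p.1 * ∏ i : Fin n, f i.succ (p.2 i) := by
      intro p
      rw [Fin.prod_univ_succ]
      simp [Fin.consEquiv]
    constructor
    · rw [← (Fin.consEquiv (fun _ => ℤ)).summable_iff]
      have h4 := (hf 0).mul_norm h1
      refine h4.congr fun p => ?_
      simp only [Function.comp_apply]
      rw [h3]
    · rw [← (Fin.consEquiv (fun _ => ℤ)).tsum_eq, Fin.prod_univ_succ, ← h2,
        tsum_mul_tsum_of_summable_norm (hf 0) h1]
      exact tsum_congr fun p => h3 p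

/-- the linear forms -/
def NN {m : ℕ} (d : ℕ) (n : Fin (m + 1) → ℤ) (l : Fin (m + 1)) : ℤ :=
  if l = 0 then n 0 else n 0 + d * n l

/-- splitting by the residue of the first coordinate -/
def spl {m : ℕ} (d : ℕ) (hd : 0 < d) : Fin d × (Fin (m + 1) → ℤ) ≃ (Fin (m + 1) → ℤ) where
  toFun p l := if l = 0 then (p.1 : ℕ) + d * p.2 0 else p.2 l - p.2 0
  invFun n := (⟨(n 0 % d).toNat, by
      have h1 := Int.emod_nonneg (n 0) (by omega : (d : ℤ) ≠ 0)
      have h2 := Int.emod_lt_of_pos (n 0) (by omega : (0 : ℤ) < d)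
      omega⟩, fun l => if l = 0 then n 0 / d else n l + n 0 / d)
  left_inv := by
    rintro ⟨a, k⟩
    have hd' : (d : ℤ) ≠ 0 := by omega
    have ha : ((a : ℕ) : ℤ) < d := by exact_mod_cast a.2
    have h1 : (((a : ℕ) : ℤ) + d * k 0) % d = (a : ℕ) := by
      rw [Int.add_mul_emod_self_left]
      exact Int.emod_eq_of_lt (by omega) ha
    have h2 : (((a : ℕ) : ℤ) + d * k 0) / d = k 0 := by
      rw [Int.add_mul_ediv_left _ _ hd', Int.ediv_eq_zero_of_lt (by omega) ha, zero_add]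
    ext l
    · simp [h1]
    · by_cases hl : l = 0
      · subst hl; simp [h2]
      · simp [hl, h2]
  right_inv := by
    intro n
    have h1 := Int.emod_nonneg (n 0) (by omega : (d : ℤ) ≠ 0)
    funext l
    by_cases hl : l = 0
    · subst hl
      simp only [if_true]
      rw [Int.toNat_of_nonneg h1]
      exact Int.emod_add_mul_ediv (n 0) d
    · simp [hl]

lemma NN_spl {m : ℕ} (d : ℕ) (hd : 0 < d) (p : Fin d × (Fin (m + 1) → ℤ)) (l : Fin (m + 1)) :
    NN d (spl d hd p) l = (p.1 : ℕ) + d * p.2 l := by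
  unfold NN
  by_cases hl : l = 0
  · subst hl; simp [spl]
  · simp only [hl, if_false]
    simp only [spl, Equiv.coe_fn_mk, if_true, hl, if_false]
    ring

/-- finite first index -/
lemma fin_prod_sum {ι κ : Type} [Fintype ι] (f : ι × κ → ℂ)
    (hf : ∀ a, Summable (fun k => ‖f (a, k)‖)) :
    Summable (fun p => ‖f p‖) ∧ ∑' p, f p = ∑ a, ∑' k, f (a, k) := by
  have h1 : Summable (fun p => ‖f p‖) := by
    rw [summable_prod_of_nonneg (fun _ => norm_nonneg _)]
    exact ⟨hf, (hasSum_fintype _).summable⟩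
  refine ⟨h1, ?_⟩
  rw [h1.of_norm.tsum_prod' (fun a => (hf a).of_norm), tsum_fintype]

/-- Riemann theta series in coordinates diagonalising the imaginary part -/
theorem general {M : ℕ} (B R : Matrix (Fin M) (Fin M) ℝ) (hB : IsUnit B) (w : Fin M → ℝ)
    (hw : ∀ l, 0 < w l) (hR : R.transpose = R) :
    ∃ τ : Matrix (Fin M) (Fin M) ℂ, τ.transpose = τ ∧ (τ.map Complex.im).PosDef ∧
      ∃ T : (Fin M → ℂ) ≃L[ℂ] (Fin M → ℂ), ∀ x : Fin M → ℂ,
        rth M τ (T x) = ∑' n : Fin M → ℤ,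
          cexp ((Real.pi : ℂ) * I *
            (((fun i => (n i : ℝ)) ⬝ᵥ R.mulVec (fun i => (n i : ℝ)) : ℝ) : ℂ)) *
          ∏ l, cexp (-(Real.pi : ℂ) * w l * ((B.mulVec (fun i => (n i : ℝ)) l : ℝ) : ℂ) ^ 2 +
            2 * (Real.pi : ℂ) * I * ((B.mulVec (fun i => (n i : ℝ)) l : ℝ) : ℂ) * x l) := by
  classical
  set f : ℝ →+* ℂ := Complex.ofRealHom with hf
  have hB' : IsUnit (B.map f) := by
    have := hB.map (RingHom.mapMatrix f : Matrix (Fin M) (Fin M) ℝ →+* _)
    simpa using this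
  set C : Matrix (Fin M) (Fin M) ℂ := B.map f with hC
  have hinj : Function.Injective (Matrix.mulVecLin C.transpose) := by
    have := Matrix.mulVec_injective_iff_isUnit.2 ((Matrix.isUnit_transpose C).2 hB')
    exact this
  refine ⟨R.map f + I • (B.transpose * Matrix.diagonal w * B).map f, ?_, ?_,
    (LinearEquiv.ofInjectiveEndo _ hinj).toContinuousLinearEquiv, ?_⟩
  · rw [Matrix.transpose_add, Matrix.transpose_smul, ← Matrix.transpose_map,
      ← Matrix.transpose_map, hR, Matrix.transpose_mul, Matrix.transpose_mul, Matrix.transpose_transpose,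
      Matrix.diagonal_transpose, Matrix.mul_assoc]
  · have h1 : (R.map f + I • (B.transpose * Matrix.diagonal w * B).map f).map Complex.im =
        B.transpose * Matrix.diagonal w * B := by
      ext i j
      rw [Matrix.map_apply, Matrix.add_apply, Matrix.smul_apply, Matrix.map_apply,
        Matrix.map_apply, smul_eq_mul]
      change ((R i j : ℝ) : ℂ).im + (I * (((B.transpose * Matrix.diagonal w * B) i j : ℝ) : ℂ)).im
        = _
      rw [mul_comm I, Complex.mul_I_im, Complex.ofReal_re, Complex.ofReal_im, zero_add]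
    rw [h1]
    have h2 := (Matrix.PosDef.diagonal hw).conjTranspose_mul_mul_same
      (Matrix.mulVec_injective_iff_isUnit.2 hB)
    simpa using h2
  · intro x
    unfold rth
    refine tsum_congr fun n => ?_
    set v : Fin M → ℝ := fun i => (n i : ℝ) with hv
    have hv' : (fun i => (n i : ℂ)) = f ∘ v := by
      funext i; simp [hf, hv]
    have hCv : C.mulVec (f ∘ v) = f ∘ (B.mulVec v) := by
      funext i
      rw [hC, ← RingHom.map_mulVec]
      rfl
    have hT : (LinearEquiv.ofInjectiveEndo (Matrix.mulVecLin C.transpose)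
        hinj).toContinuousLinearEquiv x = C.transpose.mulVec x := rfl
    rw [hT, hv']
    have e1 : (f ∘ v) ⬝ᵥ (C.transpose.mulVec x) = ∑ l, ((B.mulVec v l : ℝ) : ℂ) * x l := by
      rw [Matrix.dotProduct_mulVec, Matrix.vecMul_transpose, hCv]
      rfl
    have e2 : (f ∘ v) ⬝ᵥ ((R.map f).mulVec (f ∘ v)) = ((v ⬝ᵥ R.mulVec v : ℝ) : ℂ) := by
      have h3 : (R.map f).mulVec (f ∘ v) = f ∘ (R.mulVec v) := by
        funext i
        rw [← RingHom.map_mulVec]
        rfl
      rw [h3]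
      have := (RingHom.map_dotProduct f v (R.mulVec v)).symm
      simpa [hf] using this
    have e3 : (f ∘ v) ⬝ᵥ (((B.transpose * Matrix.diagonal w * B).map f).mulVec (f ∘ v)) =
        ∑ l, (w l : ℂ) * ((B.mulVec v l : ℝ) : ℂ) ^ 2 := by
      have h3 : ((B.transpose * Matrix.diagonal w * B).map f).mulVec (f ∘ v) =
          f ∘ ((B.transpose * Matrix.diagonal w * B).mulVec v) := by
        funext i
        rw [← RingHom.map_mulVec]
        rfl
      rw [h3, ← RingHom.map_dotProduct]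
      have h4 : v ⬝ᵥ ((B.transpose * Matrix.diagonal w * B).mulVec v) =
          ∑ l, w l * (B.mulVec v l) ^ 2 := by
        rw [← Matrix.mulVec_mulVec, ← Matrix.mulVec_mulVec, Matrix.dotProduct_mulVec,
          Matrix.vecMul_transpose]
        simp only [dotProduct, Matrix.mulVec_diagonal]
        refine Finset.sum_congr rfl fun l _ => ?_
        ring
      rw [h4]
      simp [hf]
    rw [Matrix.add_mulVec, Matrix.smul_mulVec, dotProduct_add, dotProduct_smul, e1, e2, e3,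
      smul_eq_mul, ← Complex.exp_sum, ← Complex.exp_add]
    congr 1
    rw [Finset.sum_add_distrib, mul_add, Finset.mul_sum, Finset.mul_sum, Finset.mul_sum, add_assoc]
    congr 1
    congr 1
    · refine Finset.sum_congr rfl fun l _ => ?_
      linear_combination ((Real.pi : ℂ) * w l * ((B.mulVec v l : ℝ) : ℂ) ^ 2) * I_mul_I
    · refine Finset.sum_congr rfl fun l _ => ?_
      ring

/-- the linear map of the forms `NN` -/
def LE (m d : ℕ) : (Fin (m + 1) → ℝ) →ₗ[ℝ] (Fin (m + 1) → ℝ) where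
  toFun n l := if l = 0 then n 0 else n 0 + d * n l
  map_add' x y := by
    funext l
    by_cases hl : l = 0
    · simp [hl]
    · simp only [hl, if_false, Pi.add_apply]; ring
  map_smul' c x := by
    funext l
    by_cases hl : l = 0
    · simp [hl]
    · simp only [hl, if_false, Pi.smul_apply, smul_eq_mul, RingHom.id_apply]; ring

lemma LE_cast (m d : ℕ) (n : Fin (m + 1) → ℤ) (l : Fin (m + 1)) :
    LE m d (fun i => (n i : ℝ)) l = (NN d n l : ℝ) := by
  unfold NN
  simp only [LE, LinearMap.coe_mk, AddHom.coe_mk]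
  by_cases hl : l = 0
  · simp [hl]
  · simp [hl]

lemma LE_inj (m d : ℕ) (hd : 0 < d) : Function.Injective (LE m d) := by
  have hd' : (d : ℝ) ≠ 0 := by positivity
  rw [injective_iff_map_eq_zero]
  intro x hx
  have h0 : x 0 = 0 := by
    have := congrFun hx 0
    simpa [LE] using this
  funext l
  by_cases hl : l = 0
  · rw [hl]; exact h0
  · have := congrFun hx l
    simp only [LE, LinearMap.coe_mk, AddHom.coe_mk, hl, if_false, h0, zero_add,
      Pi.zero_apply] at this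
    exact (mul_eq_zero.1 this).resolve_left hd'

lemma unit_of_inj {M : ℕ} (L : (Fin M → ℝ) →ₗ[ℝ] (Fin M → ℝ)) (hL : Function.Injective L) :
    IsUnit (LinearMap.toMatrix' L) := by
  rw [← Matrix.mulVec_injective_iff_isUnit]
  intro x y hxy
  simp only [LinearMap.toMatrix'_mulVec] at hxy
  exact hL hxy

lemma tm_eq (s : ℝ) (x : ℂ) (N : ℤ) (r : ℝ) (hr : r = N) :
    cexp (-(Real.pi : ℂ) * s * (r : ℂ) ^ 2 + 2 * (Real.pi : ℂ) * I * (r : ℂ) * x) = tm s x N := by
  unfold tm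
  rw [hr]
  norm_cast

end TF

open TF

theorem thetaE (m d : ℕ) (hd : 0 < d) (σ : Fin (m + 1) → ℝ) (hσ : ∀ l, 0 < σ l) :
    ∃ τ : Matrix (Fin (m + 1)) (Fin (m + 1)) ℂ, τ.transpose = τ ∧
      (τ.map Complex.im).PosDef ∧
      ∃ T : (Fin (m + 1) → ℂ) ≃L[ℂ] (Fin (m + 1) → ℂ), ∀ x : Fin (m + 1) → ℂ,
        rth (m + 1) τ (T x) = ∑ a : Fin d, ∏ l, U d (σ l) (a : ℕ) (x l) := by
  obtain ⟨τ, h1, h2, T, hT⟩ := general (LinearMap.toMatrix' (LE m d)) 0
    (unit_of_inj _ (LE_inj m d hd)) σ hσ Matrix.transpose_zero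
  refine ⟨τ, h1, h2, T, fun x => ?_⟩
  rw [hT x]
  have h3 : ∀ n : Fin (m + 1) → ℤ,
      cexp ((Real.pi : ℂ) * I * (((fun i => (n i : ℝ)) ⬝ᵥ
        (0 : Matrix (Fin (m + 1)) (Fin (m + 1)) ℝ).mulVec (fun i => (n i : ℝ)) : ℝ) : ℂ)) *
      ∏ l, cexp (-(Real.pi : ℂ) * σ l *
        (((LinearMap.toMatrix' (LE m d)).mulVec (fun i => (n i : ℝ)) l : ℝ) : ℂ) ^ 2 +
        2 * (Real.pi : ℂ) * I *
        (((LinearMap.toMatrix' (LE m d)).mulVec (fun i => (n i : ℝ)) l : ℝ) : ℂ) * x l) =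
      ∏ l, tm (σ l) (x l) (NN d n l) := by
    intro n
    rw [Matrix.zero_mulVec, dotProduct_zero, Complex.ofReal_zero, mul_zero, Complex.exp_zero,
      one_mul]
    refine Finset.prod_congr rfl fun l _ => tm_eq _ _ _ _ ?_
    rw [LinearMap.toMatrix'_mulVec, LE_cast]
  rw [tsum_congr h3, ← (spl d hd).tsum_eq]
  have h4 : ∀ a : Fin d, Summable (fun k : Fin (m + 1) → ℤ =>
      ‖∏ l, tm (σ l) (x l) (((a : ℕ) : ℤ) + d * k l)‖) ∧
      ∑' k : Fin (m + 1) → ℤ, ∏ l, tm (σ l) (x l) (((a : ℕ) : ℤ) + d * k l) =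
        ∏ l, U d (σ l) (a : ℕ) (x l) := fun a =>
    prodsum (fun l k => tm (σ l) (x l) (((a : ℕ) : ℤ) + d * k))
      (fun l => summable_tm d hd (σ l) (hσ l) _ (x l))
  have h5 := fin_prod_sum (ι := Fin d) (κ := Fin (m + 1) → ℤ)
    (fun p => ∏ l, tm (σ l) (x l) (NN d (spl d hd p) l)) (fun a => by
      simp only [NN_spl]
      exact (h4 a).1)
  rw [h5.2]
  refine Finset.sum_congr rfl fun a _ => ?_
  simp only [NN_spl]
  exact (h4 a).2

namespace TF

/-- the forms of the odd case -/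
def LO (m d : ℕ) : (Fin (m + 3) → ℝ) →ₗ[ℝ] (Fin (m + 3) → ℝ) where
  toFun n := Fin.cons (n 0) (Fin.cons (n 0 + 2 * n 1) (LE m d fun l => n l.succ.succ))
  map_add' x y := by
    funext i
    refine Fin.cases ?_ (fun i => ?_) i
    · simp
    · refine Fin.cases ?_ (fun i => ?_) i
      · simp only [Fin.cons_succ, Fin.cons_zero, Pi.add_apply]; ring
      · simp only [Fin.cons_succ, Pi.add_apply]
        have : (fun l : Fin (m + 1) => x l.succ.succ + y l.succ.succ) =
            (fun l : Fin (m + 1) => x l.succ.succ) + fun l => y l.succ.succ := rfl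
        rw [this, map_add]; rfl
  map_smul' c x := by
    funext i
    refine Fin.cases ?_ (fun i => ?_) i
    · simp
    · refine Fin.cases ?_ (fun i => ?_) i
      · simp only [Fin.cons_succ, Fin.cons_zero, Pi.smul_apply, smul_eq_mul, RingHom.id_apply]
        ring
      · simp only [Fin.cons_succ, Pi.smul_apply, RingHom.id_apply]
        have : (fun l : Fin (m + 1) => c • x l.succ.succ) =
            c • (fun l : Fin (m + 1) => x l.succ.succ) := rfl
        rw [this, map_smul]; rfl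

lemma LO_inj (m d : ℕ) (hd : 0 < d) : Function.Injective (LO m d) := by
  rw [injective_iff_map_eq_zero]
  intro x hx
  have h0 : x 0 = 0 := by
    have := congrFun hx 0
    simpa [LO] using this
  have h1 : x 1 = 0 := by
    have := congrFun hx (Fin.succ 0)
    simp only [LO, LinearMap.coe_mk, AddHom.coe_mk, Fin.cons_succ, Fin.cons_zero, h0, zero_add,
      Pi.zero_apply] at this
    linarith
  have h2 : (fun l : Fin (m + 1) => x l.succ.succ) = 0 := by
    apply LE_inj m d hd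
    rw [map_zero]
    funext l
    have := congrFun hx l.succ.succ
    simpa only [LO, LinearMap.coe_mk, AddHom.coe_mk, Fin.cons_succ, Pi.zero_apply] using this
  funext i
  refine Fin.cases h0 (fun i => ?_) i
  refine Fin.cases h1 (fun i => ?_) i
  exact congrFun h2 i

lemma tm_half (s : ℝ) (w : ℂ) (p : ℤ) :
    tm s (w + 1 / 2) p = (if Even p then 1 else -1) * tm s w p := by
  unfold tm
  have h1 : -(Real.pi : ℂ) * s * (p : ℂ) ^ 2 + 2 * (Real.pi : ℂ) * I * p * (w + 1 / 2) =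
      p * (Real.pi * I) + (-(Real.pi : ℂ) * s * (p : ℂ) ^ 2 + 2 * (Real.pi : ℂ) * I * p * w) := by
    ring
  rw [h1, Complex.exp_add, Complex.exp_int_mul, Complex.exp_pi_mul_I]
  congr 1
  split_ifs with h
  · exact h.neg_one_zpow
  · exact (Int.not_even_iff_odd.1 h).neg_one_zpow

lemma tm_shift (s : ℝ) (w : ℂ) (p : ℤ) (c : ℂ) :
    cexp (2 * (Real.pi : ℂ) * I * p * c) * tm s w p = tm s (w + c) p := by
  unfold tm
  rw [← Complex.exp_add]
  congr 1
  ring

lemma summable_tm1 (s : ℝ) (hs : 0 < s) (x : ℂ) : Summable (fun k : ℤ => ‖tm s x k‖) := by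
  have := summable_tm 1 one_pos s hs 0 x
  simpa using this

lemma th3_eq (s : ℝ) (w : ℂ) : th3 s w = ∑' p : ℤ, tm s w p := by
  unfold th3 jacobiTheta₂ jacobiTheta₂_term tm
  refine tsum_congr fun p => ?_
  congr 1
  linear_combination ((Real.pi : ℂ) * p ^ 2 * s) * I_mul_I

lemma th4_eq (s : ℝ) (w : ℂ) : th4 s w = ∑' p : ℤ, tm s (w + 1 / 2) p := th3_eq s (w + 1 / 2)

/-- sums over pairs of equal parity -/
lemma pq (al be : ℝ) (hal : 0 < al) (hbe : 0 < be) (w y : ℂ) :
    Summable (fun p : ℤ × ℤ => ‖tm al w p.1 * tm be y (p.1 + 2 * p.2)‖) ∧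
      ∑' p : ℤ × ℤ, tm al w p.1 * tm be y (p.1 + 2 * p.2) =
        1 / 2 * (th3 al w * th3 be y + th4 al w * th4 be y) := by
  set g : ℤ × ℤ → ℤ × ℤ := fun p => (p.1, p.1 + 2 * p.2) with hg
  have hginj : Function.Injective g := by
    rintro ⟨a, b⟩ ⟨c, e⟩ h
    simp only [hg, Prod.mk.injEq] at h
    obtain ⟨h1, h2⟩ := h
    ext <;> omega
  have s1 := summable_tm1 al hal w
  have s2 := summable_tm1 be hbe y
  have s3 := summable_tm1 al hal (w + 1 / 2)
  have s4 := summable_tm1 be hbe (y + 1 / 2)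
  have h12 := s1.mul_norm s2
  have h34 := s3.mul_norm s4
  refine ⟨(h12.comp_injective hginj).congr fun p => ?_, ?_⟩
  · simp only [Function.comp_apply, hg]
  set f : ℤ × ℤ → ℂ := fun p => 1 / 2 * (tm al w p.1 * tm be y p.2 +
    tm al (w + 1 / 2) p.1 * tm be (y + 1 / 2) p.2) with hf
  have h1 : ∀ p : ℤ × ℤ, f (g p) = tm al w p.1 * tm be y (p.1 + 2 * p.2) := by
    intro p
    simp only [hf, hg]
    rw [tm_half, tm_half]
    have : Even (p.1 + 2 * p.2) ↔ Even p.1 := by
      rw [Int.even_add]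
      simp
    by_cases hp : Even p.1
    · rw [if_pos hp, if_pos (this.2 hp)]; ring
    · rw [if_neg hp, if_neg (fun h => hp (this.1 h))]; ring
  have h2 : Function.support f ⊆ Set.range g := by
    rintro ⟨a, b⟩ hab
    rw [Function.mem_support] at hab
    by_cases h3 : Even (b - a)
    · obtain ⟨c, hc⟩ := h3
      refine ⟨(a, c), ?_⟩
      simp only [hg]
      ext
      · rfl
      · simp only; omega
    · exfalso
      apply hab
      simp only [hf]
      rw [tm_half, tm_half]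
      rw [Int.even_sub] at h3
      by_cases ha : Even a
      · have hb : ¬ Even b := fun hb => h3 ⟨fun _ => ha, fun _ => hb⟩
        rw [if_pos ha, if_neg hb]; ring
      · have hb : Even b := by
          by_contra hb
          exact h3 ⟨fun h => absurd h hb, fun h => absurd h ha⟩
        rw [if_neg ha, if_pos hb]; ring
  rw [← tsum_congr h1, hginj.tsum_eq h2]
  simp only [hf]
  rw [tsum_mul_left, h12.of_norm.tsum_add h34.of_norm,
    ← tsum_mul_tsum_of_summable_norm s1 s2, ← tsum_mul_tsum_of_summable_norm s3 s4,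
    ← th3_eq, ← th3_eq, ← th4_eq, ← th4_eq]

/-- coordinates for the odd case -/
def splO {m : ℕ} (d : ℕ) (hd : 0 < d) :
    Fin d × ((ℤ × ℤ) × (Fin (m + 1) → ℤ)) ≃ (Fin (m + 3) → ℤ) where
  toFun p := Fin.cons p.2.1.1 (Fin.cons p.2.1.2 (spl d hd (p.1, p.2.2)))
  invFun n := (((spl d hd).symm fun l => n l.succ.succ).1,
    ((n 0, n 1), ((spl d hd).symm fun l => n l.succ.succ).2))
  left_inv := by
    rintro ⟨a, ⟨p, q⟩, k⟩
    have h1 : (fun l : Fin (m + 1) => (Fin.cons p (Fin.cons q (spl d hd (a, k))) :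
        Fin (m + 3) → ℤ) l.succ.succ) = spl d hd (a, k) := by
      funext l; simp
    have h2 : (Fin.cons p (Fin.cons q (spl d hd (a, k))) : Fin (m + 3) → ℤ) 1 = q := by
      have : (1 : Fin (m + 3)) = Fin.succ 0 := rfl
      rw [this, Fin.cons_succ, Fin.cons_zero]
    simp only [h1, Equiv.symm_apply_apply, Fin.cons_zero, h2]
  right_inv := by
    intro n
    simp only [Prod.mk.eta, Equiv.apply_symm_apply]
    funext i
    refine Fin.cases rfl (fun i => ?_) i
    refine Fin.cases rfl (fun i => ?_) i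
    rfl

end TF

theorem thetaO (m d : ℕ) (hd : 0 < d) (σ : Fin (m + 1) → ℝ) (hσ : ∀ l, 0 < σ l)
    (al be : ℝ) (hal : 0 < al) (hbe : 0 < be) :
    ∃ τ : Matrix (Fin (m + 3)) (Fin (m + 3)) ℂ, τ.transpose = τ ∧
      (τ.map Complex.im).PosDef ∧
      ∃ T : (Fin (m + 3) → ℂ) ≃L[ℂ] (Fin (m + 3) → ℂ), ∀ z : Fin (m + 3) → ℂ,
        rth (m + 3) τ (T z) = (1 / 2) * ∑ a : Fin d, sO d al be (a : ℕ) (z 0) (z 1) *
          ∏ l : Fin (m + 1), U d (σ l) (a : ℕ) (z (Fin.succ (Fin.succ l))) := by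
  have hdC : (d : ℂ) ≠ 0 := by exact_mod_cast hd.ne'
  set e0 : Fin (m + 3) → ℝ := Pi.single 0 1 with he0
  set e2 : Fin (m + 3) → ℝ := Pi.single (0 : Fin (m + 1)).succ.succ 1 with he2
  set R : Matrix (Fin (m + 3)) (Fin (m + 3)) ℝ :=
    (1 / (d : ℝ)) • (vecMulVec e0 e2 + vecMulVec e2 e0) with hR
  have hRt : R.transpose = R := by
    rw [hR, transpose_smul, transpose_add, transpose_vecMulVec, transpose_vecMulVec,
      add_comm (vecMulVec e2 e0)]
  have hRv : ∀ v : Fin (m + 3) → ℝ, v ⬝ᵥ R.mulVec v =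
      2 * v 0 * v (0 : Fin (m + 1)).succ.succ / d := by
    intro v
    rw [hR, smul_mulVec, add_mulVec, vecMulVec_mulVec, vecMulVec_mulVec]
    simp only [he0, he2, dotProduct_smul, dotProduct_add, single_dotProduct, one_mul,
      dotProduct_single, smul_eq_mul, op_smul_eq_smul, mul_one]
    ring
  set w : Fin (m + 3) → ℝ := Fin.cons al (Fin.cons be σ) with hw
  have hwpos : ∀ l, 0 < w l := by
    intro i
    refine Fin.cases hal (fun i => ?_) i
    refine Fin.cases hbe (fun i => ?_) i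
    exact hσ i
  obtain ⟨τ, h1, h2, T, hT⟩ := general (LinearMap.toMatrix' (LO m d)) R
    (unit_of_inj _ (LO_inj m d hd)) w hwpos hRt
  refine ⟨τ, h1, h2, T, fun x => ?_⟩
  rw [hT x]
  have h3 : ∀ n : Fin (m + 3) → ℤ,
      cexp ((Real.pi : ℂ) * I * (((fun i => (n i : ℝ)) ⬝ᵥ
        R.mulVec (fun i => (n i : ℝ)) : ℝ) : ℂ)) *
      ∏ l, cexp (-(Real.pi : ℂ) * w l *
        (((LinearMap.toMatrix' (LO m d)).mulVec (fun i => (n i : ℝ)) l : ℝ) : ℂ) ^ 2 +
        2 * (Real.pi : ℂ) * I *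
        (((LinearMap.toMatrix' (LO m d)).mulVec (fun i => (n i : ℝ)) l : ℝ) : ℂ) * x l) =
      (cexp (2 * (Real.pi : ℂ) * I * (n 0) * (n (0 : Fin (m + 1)).succ.succ / d)) *
        tm al (x 0) (n 0) * tm be (x 1) (n 0 + 2 * n 1)) *
      ∏ l : Fin (m + 1), tm (σ l) (x l.succ.succ) (NN d (fun l => n l.succ.succ) l) := by
    intro n
    rw [LinearMap.toMatrix'_mulVec, Fin.prod_univ_succ, Fin.prod_univ_succ, hRv]
    have q0 : cexp (-(Real.pi : ℂ) * w 0 * ((LO m d (fun i => (n i : ℝ)) 0 : ℝ) : ℂ) ^ 2 +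
        2 * (Real.pi : ℂ) * I * ((LO m d (fun i => (n i : ℝ)) 0 : ℝ) : ℂ) * x 0) =
        tm al (x 0) (n 0) := tm_eq _ _ _ _ (by simp [LO])
    have q1 : cexp (-(Real.pi : ℂ) * w (Fin.succ 0) *
        ((LO m d (fun i => (n i : ℝ)) (Fin.succ 0) : ℝ) : ℂ) ^ 2 +
        2 * (Real.pi : ℂ) * I * ((LO m d (fun i => (n i : ℝ)) (Fin.succ 0) : ℝ) : ℂ) *
        x (Fin.succ 0)) = tm be (x 1) (n 0 + 2 * n 1) := tm_eq _ _ _ _ (by simp [LO])
    have q2 : ∀ l : Fin (m + 1), cexp (-(Real.pi : ℂ) * w l.succ.succ *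
        ((LO m d (fun i => (n i : ℝ)) l.succ.succ : ℝ) : ℂ) ^ 2 +
        2 * (Real.pi : ℂ) * I * ((LO m d (fun i => (n i : ℝ)) l.succ.succ : ℝ) : ℂ) *
        x l.succ.succ) =
        tm (σ l) (x l.succ.succ) (NN d (fun l => n l.succ.succ) l) := by
      intro l
      refine tm_eq _ _ _ _ ?_
      rw [← LE_cast]
      rfl
    rw [q0, q1, Finset.prod_congr rfl fun l _ => q2 l]
    have q3 : (Real.pi : ℂ) * I * ((2 * (n 0 : ℝ) * (n (0 : Fin (m + 1)).succ.succ : ℝ) / (d : ℝ)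
        : ℝ) : ℂ) = 2 * (Real.pi : ℂ) * I * (n 0) * (n (0 : Fin (m + 1)).succ.succ / d) := by
      push_cast
      ring
    rw [q3]
    ring
  rw [tsum_congr h3, ← (splO d hd).tsum_eq]
  have h4 : ∀ p : Fin d × ((ℤ × ℤ) × (Fin (m + 1) → ℤ)),
      (cexp (2 * (Real.pi : ℂ) * I * (splO d hd p 0) *
        (splO d hd p (0 : Fin (m + 1)).succ.succ / d)) *
        tm al (x 0) (splO d hd p 0) * tm be (x 1) (splO d hd p 0 + 2 * splO d hd p 1)) *
      ∏ l : Fin (m + 1), tm (σ l) (x l.succ.succ)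
        (NN d (fun l => splO d hd p l.succ.succ) l) =
      (tm al (x 0 + ((p.1 : ℕ) : ℤ) / d) p.2.1.1 * tm be (x 1) (p.2.1.1 + 2 * p.2.1.2)) *
      ∏ l : Fin (m + 1), tm (σ l) (x l.succ.succ) (((p.1 : ℕ) : ℤ) + d * p.2.2 l) := by
    intro p
    have q0 : splO d hd p 0 = p.2.1.1 := rfl
    have q1 : splO d hd p 1 = p.2.1.2 := rfl
    have q2 : (fun l : Fin (m + 1) => splO d hd p l.succ.succ) = spl d hd (p.1, p.2.2) := rfl
    have q3 : splO d hd p (0 : Fin (m + 1)).succ.succ = ((p.1 : ℕ) : ℤ) + d * p.2.2 0 := by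
      have h5 : splO d hd p (0 : Fin (m + 1)).succ.succ = spl d hd (p.1, p.2.2) 0 := rfl
      rw [h5]
      simp [spl]
    rw [q0, q1, q2, q3]
    simp only [NN_spl]
    congr 1
    congr 1
    rw [← tm_shift]
    congr 1
    have q4 : 2 * (Real.pi : ℂ) * I * (p.2.1.1 : ℂ) *
        (((((p.1 : ℕ) : ℤ) + d * p.2.2 0 : ℤ) : ℂ) / d) =
        2 * (Real.pi : ℂ) * I * (p.2.1.1 : ℂ) * ((((p.1 : ℕ) : ℤ) : ℂ) / d) +
          ((p.2.1.1 * p.2.2 0 : ℤ) : ℂ) * (2 * (Real.pi : ℂ) * I) := by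
      push_cast
      field_simp
    rw [q4, Complex.exp_add, Complex.exp_int_mul_two_pi_mul_I, mul_one]
  rw [tsum_congr h4]
  have h5 : ∀ a : Fin d, Summable (fun k : Fin (m + 1) → ℤ =>
      ‖∏ l : Fin (m + 1), tm (σ l) (x l.succ.succ) (((a : ℕ) : ℤ) + d * k l)‖) ∧
      ∑' k : Fin (m + 1) → ℤ, ∏ l : Fin (m + 1),
        tm (σ l) (x l.succ.succ) (((a : ℕ) : ℤ) + d * k l) =
        ∏ l : Fin (m + 1), U d (σ l) (a : ℕ) (x l.succ.succ) := fun a =>
    prodsum (fun l k => tm (σ l) (x l.succ.succ) (((a : ℕ) : ℤ) + d * k))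
      (fun l => summable_tm d hd (σ l) (hσ l) _ (x l.succ.succ))
  have h6 := fun a : Fin d => pq al be hal hbe (x 0 + (((a : ℕ) : ℤ) : ℂ) / d) (x 1)
  have h7 := fin_prod_sum (ι := Fin d) (κ := (ℤ × ℤ) × (Fin (m + 1) → ℤ))
    (fun p => (tm al (x 0 + ((p.1 : ℕ) : ℤ) / d) p.2.1.1 *
      tm be (x 1) (p.2.1.1 + 2 * p.2.1.2)) *
      ∏ l : Fin (m + 1), tm (σ l) (x l.succ.succ) (((p.1 : ℕ) : ℤ) + d * p.2.2 l))
    (fun a => by
      have h8 := (h6 a).1.mul_norm (h5 a).1
      refine h8.congr fun p => ?_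
      rfl)
  rw [h7.2, Finset.mul_sum]
  refine Finset.sum_congr rfl fun a _ => ?_
  simp only
  rw [← tsum_mul_tsum_of_summable_norm (h6 a).1 (h5 a).1, (h6 a).2, (h5 a).2]
  unfold sO
  ring

end Pool.Agent.AM
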