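import Pool.Agent.AM.Core4
import Pool.Agent.AM.ThetaFac
import Pool.Agent.AM.Dim1

set_option autoImplicit false
open Complex Filter Topology
open scoped ENNReal
namespace Pool.Agent.AM

/-- derivative of a product of one-variable functions of the coordinates -/
lemma hasFDerivAt_prodU (d m : ℕ) (hd : 0 < d) (s : Fin (m + 1) → ℝ) (hs : ∀ l, 0 < s l)
    (a : ℤ) (x : Fin (m + 1) → ℂ) :
    HasFDerivAt (fun x : Fin (m + 1) → ℂ => ∏ l, U d (s l) a (x l))
      (∑ l, (∏ l' ∈ Finset.univ.erase l, U d (s l') a (x l')) •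
        ((2 * (Real.pi : ℂ) * I * U1 d (s l) a (x l)) •
          (ContinuousLinearMap.proj (R := ℂ) (φ := fun _ : Fin (m + 1) => ℂ) l))) x := by
  refine HasFDerivAt.finsetProd (u := Finset.univ)
    (g := fun (l : Fin (m + 1)) (x : Fin (m + 1) → ℂ) => U d (s l) a (x l))
    (g' := fun l => (2 * (Real.pi : ℂ) * I * U1 d (s l) a (x l)) •
          (ContinuousLinearMap.proj (R := ℂ) (φ := fun _ : Fin (m + 1) => ℂ) l)) ?_
  intro l _
  have h1 := (hasDerivAt_U d hd (s l) (hs l) a (x l))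
  have h2 : HasFDerivAt (fun x : Fin (m + 1) → ℂ => x l)
    (ContinuousLinearMap.proj (R := ℂ) (φ := fun _ : Fin (m + 1) => ℂ) l) x :=
    (ContinuousLinearMap.proj (R := ℂ) (φ := fun _ : Fin (m + 1) => ℂ) l).hasFDerivAt
  exact h1.comp_hasFDerivAt x h2

/-- even type theta function in product coordinates -/
noncomputable def fE (d m : ℕ) (s : Fin (m + 1) → ℝ) (x : Fin (m + 1) → ℂ) : ℂ :=
  ∑ a : Fin d, ∏ l, U d (s l) (a : ℕ) (x l)

lemma hasFDerivAt_fE (d m : ℕ) (hd : 0 < d) (s : Fin (m + 1) → ℝ) (hs : ∀ l, 0 < s l)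
    (x : Fin (m + 1) → ℂ) :
    HasFDerivAt (fE d m s)
      (∑ a : Fin d, ∑ l, (∏ l' ∈ Finset.univ.erase l, U d (s l') (a : ℕ) (x l')) •
        ((2 * (Real.pi : ℂ) * I * U1 d (s l) (a : ℕ) (x l)) •
          (ContinuousLinearMap.proj (R := ℂ) (φ := fun _ : Fin (m + 1) => ℂ) l))) x := by
  unfold fE
  exact HasFDerivAt.fun_sum fun a _ => hasFDerivAt_prodU d m hd s hs (a : ℕ) x

lemma fderiv_fE_single (d m : ℕ) (hd : 0 < d) (s : Fin (m + 1) → ℝ) (hs : ∀ l, 0 < s l)
    (x : Fin (m + 1) → ℂ) (l : Fin (m + 1)) :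
    fderiv ℂ (fE d m s) x (Pi.single l 1) = (2 * (Real.pi : ℂ) * I) *
      ∑ a : Fin d, (U1 d (s l) (a : ℕ) (x l) *
        ∏ l' ∈ Finset.univ.erase l, U d (s l') (a : ℕ) (x l')) := by
  classical
  rw [(hasFDerivAt_fE d m hd s hs x).fderiv]
  simp only [_root_.sum_apply, _root_.smul_apply,
    ContinuousLinearMap.proj_apply, smul_eq_mul]
  rw [Finset.mul_sum]
  refine Finset.sum_congr rfl fun a _ => ?_
  rw [Finset.sum_eq_single l]
  · rw [Pi.single_eq_same]; ring
  · intro l' _ hl'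
    rw [Pi.single_eq_of_ne hl']; ring
  · simp

lemma clm_eq_zero {n : ℕ} (L : (Fin n → ℂ) →L[ℂ] ℂ) (h : ∀ l, L (Pi.single l 1) = 0) :
    L = 0 := by
  ext x
  have h1 : x = ∑ l, x l • (Pi.single l (1 : ℂ) : Fin n → ℂ) := by
    ext j
    simp [Finset.sum_apply, Pi.single_apply]
  rw [h1, map_sum]
  simp [h]

/-- the singular locus in product coordinates -/
theorem sing_fE (d m : ℕ) (hd : 0 < d) (s : Fin (m + 1) → ℝ) (hs : ∀ l, 0 < s l)
    (hgood : ∀ l, Good d (s l))
    (hno : ∀ x : Fin (m + 1) → ℂ, ∑ a : Fin d, (∏ l, U d (s l) (a : ℕ) (x l)) = 0 →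
        (∀ l, ∑ a : Fin d, (U1 d (s l) (a : ℕ) (x l) *
          ∏ l' ∈ Finset.univ.erase l, U d (s l') (a : ℕ) (x l')) = 0) →
        ∀ a : Fin d, (∏ l, U d (s l) (a : ℕ) (x l)) = 0) (x : Fin (m + 1) → ℂ) :
    (fE d m s x = 0 ∧ fderiv ℂ (fE d m s) x = 0) ↔
      ∀ a : Fin d, ∃ l l', l ≠ l' ∧ U d (s l) (a : ℕ) (x l) = 0 ∧
        U d (s l') (a : ℕ) (x l') = 0 := by
  classical
  have h2pi : (2 * (Real.pi : ℂ) * I) ≠ 0 := by
    have : (Real.pi : ℂ) ≠ 0 := by exact_mod_cast Real.pi_ne_zero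
    simp [this]
  constructor
  · rintro ⟨h0, h1⟩ a
    have h1' : ∀ l, ∑ a : Fin d, (U1 d (s l) (a : ℕ) (x l) *
          ∏ l' ∈ Finset.univ.erase l, U d (s l') (a : ℕ) (x l')) = 0 := by
      intro l
      have := fderiv_fE_single d m hd s hs x l
      rw [h1, _root_.zero_apply] at this
      exact (mul_eq_zero.mp this.symm).resolve_left h2pi
    have hP := hno x h0 h1'
    have hkill : ∀ b : Fin d, ∃ l, U d (s l) (b : ℕ) (x l) = 0 := by
      intro b
      obtain ⟨l, -, hl⟩ := Finset.prod_eq_zero_iff.mp (hP b)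
      exact ⟨l, hl⟩
    obtain ⟨l, hl⟩ := hkill a
    by_contra hcon
    push Not at hcon
    have honly : ∀ l', l ≠ l' → U d (s l') (a : ℕ) (x l') ≠ 0 := fun l' hne => hcon l l' hne hl
    have h3 := h1' l
    rw [Finset.sum_eq_single a] at h3
    · have h4 : ∏ l' ∈ Finset.univ.erase l, U d (s l') (a : ℕ) (x l') ≠ 0 :=
        Finset.prod_ne_zero_iff.mpr fun l' hl' => honly l' (Finset.ne_of_mem_erase hl').symm
      exact mul_ne_zero ((hgood l).simple a (x l) hl) h4 h3
    · intro b _ hba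
      obtain ⟨l', hl'⟩ := hkill b
      have hne : l' ≠ l := by
        intro he
        rw [he] at hl'
        exact hba ((hgood l).distinct b a (x l) hl' hl)
      have h4 : ∏ l' ∈ Finset.univ.erase l, U d (s l') (b : ℕ) (x l') = 0 :=
        Finset.prod_eq_zero (Finset.mem_erase.mpr ⟨hne, Finset.mem_univ _⟩) hl'
      rw [h4, mul_zero]
    · simp
  · intro h
    have hz : ∀ a : Fin d, ∏ l, U d (s l) (a : ℕ) (x l) = 0 := by
      intro a
      obtain ⟨l, l', -, h1, -⟩ := h a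
      exact Finset.prod_eq_zero (Finset.mem_univ l) h1
    refine ⟨Finset.sum_eq_zero fun a _ => hz a, ?_⟩
    apply clm_eq_zero
    intro l
    rw [fderiv_fE_single d m hd s hs x l]
    rw [Finset.sum_eq_zero, mul_zero]
    intro a _
    obtain ⟨l1, l2, hne, h1, h2⟩ := h a
    by_cases hl : l1 = l
    · have h3 : l2 ≠ l := by rw [← hl]; exact hne.symm
      have h4 : ∏ l' ∈ Finset.univ.erase l, U d (s l') (a : ℕ) (x l') = 0 :=
        Finset.prod_eq_zero (Finset.mem_erase.mpr ⟨h3, Finset.mem_univ _⟩) h2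
      rw [h4, mul_zero]
    · have h4 : ∏ l' ∈ Finset.univ.erase l, U d (s l') (a : ℕ) (x l') = 0 :=
        Finset.prod_eq_zero (Finset.mem_erase.mpr ⟨hl, Finset.mem_univ _⟩) h1
      rw [h4, mul_zero]

/-- dimension of the doubly killed locus -/
theorem dimH_dk (d m : ℕ) (hd : 0 < d) (hm : 2 * d ≤ m + 1) (s : Fin (m + 1) → ℝ)
    (hs : ∀ l, 0 < s l) (hgood : ∀ l, Good d (s l)) :
    dimH {x : Fin (m + 1) → ℂ | ∀ a : Fin d, ∃ l l', l ≠ l' ∧ U d (s l) (a : ℕ) (x l) = 0 ∧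
        U d (s l') (a : ℕ) (x l') = 0} = ((2 * (m + 1 - 2 * d) : ℕ) : ℝ≥0∞) ∧
    ({x : Fin (m + 1) → ℂ | ∀ a : Fin d, ∃ l l', l ≠ l' ∧ U d (s l) (a : ℕ) (x l) = 0 ∧
        U d (s l') (a : ℕ) (x l') = 0}).Nonempty := by
  classical
  set S := {x : Fin (m + 1) → ℂ | ∀ a : Fin d, ∃ l l', l ≠ l' ∧ U d (s l) (a : ℕ) (x l) = 0 ∧
        U d (s l') (a : ℕ) (x l') = 0} with hS
  -- upper bound
  set Z : Fin (m + 1) → Set ℂ := fun l => ⋃ a : Fin d, {z | U d (s l) (a : ℕ) z = 0} with hZ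
  have hZc : ∀ l, (Z l).Countable := fun l =>
    Set.countable_iUnion fun a => U_zeros_countable d hd (s l) (hs l) _
  have hsub : S ⊆ {x : Fin (m + 1) → ℂ |
      2 * d ≤ (Finset.univ.filter (fun l => x l ∈ Z l)).card} := by
    intro x hx
    simp only [Set.mem_ofPred_eq]
    choose l l' hne h1 h2 using hx
    -- injection Fin d × Fin 2 -> filter
    have hinj : Function.Injective (fun p : Fin d × Bool => if p.2 then l p.1 else l' p.1) := by
      rintro ⟨a, i⟩ ⟨b, j⟩ hab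
      have hzero : ∀ (c : Fin d) (k : Bool), U d (s (if k then l c else l' c)) (c : ℕ)
          (x (if k then l c else l' c)) = 0 := by
        intro c k; cases k
        · simpa using h2 c
        · simpa using h1 c
      have ha := hzero a i
      have hb := hzero b j
      simp only at hab
      rw [hab] at ha
      have hab' := (hgood _).distinct a b _ ha hb
      subst hab'
      cases i <;> cases j
      · rfl
      · simp at hab; exact absurd hab.symm (hne a)
      · simp at hab; exact absurd hab (hne a)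
      · rfl
    have hcard : (Finset.univ.image (fun p : Fin d × Bool => if p.2 then l p.1 else l' p.1)).card
        = 2 * d := by
      rw [Finset.card_image_of_injective _ hinj]
      simp [mul_comm]
    rw [← hcard]
    apply Finset.card_le_card
    intro j hj
    simp only [Finset.mem_image, Finset.mem_univ, true_and, Prod.exists] at hj
    obtain ⟨a, i, rfl⟩ := hj
    simp only [Finset.mem_filter, Finset.mem_univ, true_and, hZ, Set.mem_iUnion,
      Set.mem_ofPred_eq]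
    refine ⟨a, ?_⟩
    cases i
    · simpa using h2 a
    · simpa using h1 a
  have hup : dimH S ≤ ((2 * (m + 1 - 2 * d) : ℕ) : ℝ≥0∞) := by
    have := dimH_many_countable Z hZc (2 * d) (by simpa using hm)
    rw [Fintype.card_fin] at this
    refine (dimH_mono hsub).trans ?_
    convert this
  -- lower bound
  set J : Finset (Fin (m + 1)) := Finset.univ.filter (fun l => 2 * d ≤ (l : ℕ)) with hJ
  have hJcard : J.card = m + 1 - 2 * d := by
    have h1 : J.card + (Finset.univ.filter (fun l : Fin (m + 1) => ¬ 2 * d ≤ (l : ℕ))).card =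
        m + 1 := by
      rw [hJ, Finset.card_filter_add_card_filter_not]; simp
    have h2 : (Finset.univ.filter (fun l : Fin (m + 1) => ¬ 2 * d ≤ (l : ℕ))).card = 2 * d := by
      have : (Finset.univ.filter (fun l : Fin (m + 1) => ¬ 2 * d ≤ (l : ℕ))) =
          Finset.univ.filter (fun l : Fin (m + 1) => (l : ℕ) < 2 * d) := by
        ext l; simp
      rw [this]
      rw [Fin.card_filter_val_lt]
      omega
    omega
  set zr : Fin (m + 1) → ℂ := fun l =>
    1 / (2 * d) - I * s l * ((((l : ℕ) / 2 : ℕ) : ℤ) - d / 2) with hzr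
  have hzr0 : ∀ l, U d (s l) (((l : ℕ) / 2 : ℕ) : ℤ) (zr l) = 0 := by
    intro l
    have := U_zero_exists d hd (s l) (hs l) (((l : ℕ) / 2 : ℕ) : ℤ)
    exact this
  have hpt : ∀ w : J → ℂ, ∃ x ∈ S, ∀ j : J, x j = w j := by
    intro w
    refine ⟨fun l => if h : l ∈ J then w ⟨l, h⟩ else zr l, ?_, ?_⟩
    · intro a
      have ha := a.2
      have h1 : 2 * (a : ℕ) < m + 1 := by omega
      have h2 : 2 * (a : ℕ) + 1 < m + 1 := by omega
      have hn1 : (⟨2 * (a : ℕ), h1⟩ : Fin (m + 1)) ∉ J := by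
        simp [hJ]
      have hn2 : (⟨2 * (a : ℕ) + 1, h2⟩ : Fin (m + 1)) ∉ J := by
        simp [hJ]; omega
      refine ⟨⟨2 * (a : ℕ), h1⟩, ⟨2 * (a : ℕ) + 1, h2⟩, ?_, ?_, ?_⟩
      · intro h; have := congrArg Fin.val h; simp at this
      · simp only [dif_neg hn1]
        have := hzr0 ⟨2 * (a : ℕ), h1⟩
        have e : 2 * (a : ℕ) / 2 = a := by omega
        simp only [e] at this
        exact this
      · simp only [dif_neg hn2]
        have := hzr0 ⟨2 * (a : ℕ) + 1, h2⟩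
        have e : (2 * (a : ℕ) + 1) / 2 = a := by omega
        simp only [e] at this
        exact this
    · intro j
      simp [j.2]
  have hlow : ((2 * (m + 1 - 2 * d) : ℕ) : ℝ≥0∞) ≤ dimH S := by
    have := le_dimH_of_proj S J Set.univ isOpen_univ Set.univ_nonempty (fun w _ => hpt w)
    rwa [hJcard] at this
  refine ⟨le_antisymm hup hlow, ?_⟩
  obtain ⟨x, hx, -⟩ := hpt 0
  exact ⟨x, hx⟩

/-- Even codimension `2 d`: a principally polarised abelian variety with singular locus of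
codimension exactly `2 d`. -/
theorem even_case (g d : ℕ) (hd : 0 < d) (hg : 2 * d ≤ g) :
    ∃ τ : Matrix (Fin g) (Fin g) ℂ, τ.transpose = τ ∧ (τ.map Complex.im).PosDef ∧
      (∃ z, z ∈ {z : Fin g → ℂ | rth g τ z = 0 ∧ fderiv ℂ (rth g τ) z = 0}) ∧
      dimH {z : Fin g → ℂ | rth g τ z = 0 ∧ fderiv ℂ (rth g τ) z = 0} =
        ((2 * (g - 2 * d) : ℕ) : ℝ≥0∞) := by
  obtain ⟨m, rfl⟩ : ∃ m, g = m + 1 := ⟨g - 1, by omega⟩
  obtain ⟨s, hs, hgood, hno⟩ := even_no_exotic d m hd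
  obtain ⟨τ, h1, h2, T, hT⟩ := thetaE m d hd s hs
  refine ⟨τ, h1, h2, ?_⟩
  have hfun : rth (m + 1) τ = fE d m s ∘ T.symm := by
    funext z
    have := hT (T.symm z)
    rw [T.apply_symm_apply] at this
    rw [this]; rfl
  have hset : {z : Fin (m + 1) → ℂ | rth (m + 1) τ z = 0 ∧ fderiv ℂ (rth (m + 1) τ) z = 0} =
      T '' {x | ∀ a : Fin d, ∃ l l', l ≠ l' ∧ U d (s l) (a : ℕ) (x l) = 0 ∧
        U d (s l') (a : ℕ) (x l') = 0} := by
    ext z
    rw [T.image_eq_preimage_symm]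
    simp only [Set.mem_ofPred_eq, Set.mem_preimage]
    rw [← sing_fE d m hd s hs hgood hno (T.symm z), hfun]
    have h3 : fderiv ℂ (fE d m s ∘ T.symm) z = (fderiv ℂ (fE d m s) (T.symm z)).comp
        (T.symm : (Fin (m + 1) → ℂ) →L[ℂ] (Fin (m + 1) → ℂ)) := T.symm.comp_right_fderiv
    rw [h3]
    constructor
    · rintro ⟨h4, h5⟩
      refine ⟨h4, ?_⟩
      ext v
      have := congrArg (fun L => L (T v)) h5
      simpa using this
    · rintro ⟨h4, h5⟩
      refine ⟨h4, ?_⟩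
      rw [h5]; simp
  obtain ⟨h3, h4⟩ := dimH_dk d m hd hg s hs hgood
  constructor
  · rw [hset]
    obtain ⟨x, hx⟩ := h4
    exact ⟨T x, Set.mem_image_of_mem _ hx⟩
  · rw [hset, T.dimH_image, h3]

end Pool.Agent.AM
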