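import Pool.Agent.AM.YB1

set_option autoImplicit false
open Complex Filter Topology
open scoped ENNReal
namespace Pool.Agent.AM

namespace YB2

/-- quasi-period factor -/
noncomputable def E (al : ℝ) (w : ℂ) : ℂ := cexp ((Real.pi : ℂ) * al - 2 * (Real.pi : ℂ) * I * w)

theorem E_ne (al : ℝ) (w : ℂ) : E al w ≠ 0 := Complex.exp_ne_zero _

theorem E_half (al : ℝ) (w : ℂ) : E al (w + 1 / 2) = -E al w := by
  unfold E
  have : (Real.pi : ℂ) * al - 2 * (Real.pi : ℂ) * I * (w + 1 / 2) =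
      ((Real.pi : ℂ) * al - 2 * (Real.pi : ℂ) * I * w) - (Real.pi : ℂ) * I := by ring
  rw [this, Complex.exp_sub, Complex.exp_pi_mul_I]
  ring

/-- the factorisation of the determinant -/
theorem det_eq (al : ℝ) (h : 0 < al) (w w' : ℂ) :
    th3 al w * th4 al w' - th4 al w * th3 al w' =
      -(2 / E al w') * (th3 (2 * al) (w + (w' + 1 / 2 + I * al)) *
        th3 (2 * al) (w - (w' + 1 / 2 + I * al))) := by
  have h1 : th3 al (w' + 1 / 2 + I * al) = -(E al w' * th4 al w') := by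
    rw [th3_add_tau, th3_add_half]
    have := E_half al w'
    unfold E at this ⊢
    rw [this]
    ring
  have h2 : th4 al (w' + 1 / 2 + I * al) = E al w' * th3 al w' := by
    rw [show w' + 1 / 2 + I * al = (w' + I * al) + 1 / 2 by ring, th4_add_half, th3_add_tau]
    rfl
  have h3 := th_add al h w (w' + 1 / 2 + I * al)
  rw [h1, h2] at h3
  have hE := E_ne al w'
  generalize th3 (2 * al) (w + (w' + 1 / 2 + I * al)) = A at *
  generalize th3 (2 * al) (w - (w' + 1 / 2 + I * al)) = B at *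
  field_simp
  linear_combination -h3

theorem im_coord (al : ℝ) (h : 0 < al) (m n : ℤ) (x : ℂ) (hx : x.im = 0)
    (e : x = m + 2 * n * (I * al)) : n = 0 ∧ x = m := by
  have h1 := congrArg Complex.im e
  simp [hx] at h1
  rcases h1 with h1 | h1
  · subst h1
    simpa using e
  · exact absurd h1 h.ne'

theorem zero_plus (al : ℝ) (h : 1 ≤ al) (x : ℂ) :
    th3 (2 * al) (x + (1 / 2 + I * al)) = 0 ↔ ∃ m n : ℤ, x = m + 2 * n * (I * al) := by
  rw [th3_zero_iff (2 * al) (by linarith)]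
  constructor
  · rintro ⟨m, n, e⟩
    refine ⟨m, n, ?_⟩
    push_cast at e
    linear_combination e
  · rintro ⟨m, n, e⟩
    refine ⟨m, n, ?_⟩
    push_cast
    linear_combination e

theorem zero_minus (al : ℝ) (h : 1 ≤ al) (x : ℂ) :
    th3 (2 * al) (x - (1 / 2 + I * al)) = 0 ↔ ∃ m n : ℤ, x = m + 2 * n * (I * al) := by
  rw [th3_zero_iff (2 * al) (by linarith)]
  constructor
  · rintro ⟨m, n, e⟩
    refine ⟨m + 1, n + 1, ?_⟩
    push_cast at e ⊢
    linear_combination e
  · rintro ⟨m, n, e⟩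
    refine ⟨m - 1, n - 1, ?_⟩
    push_cast
    linear_combination e

end YB2

open YB2

theorem th_ratio_iff (al : ℝ) (h : 1 ≤ al) (w w' : ℂ) :
    th3 al w * th4 al w' = th4 al w * th3 al w' ↔
      (∃ m n : ℤ, w + w' = m + 2 * n * (I * al)) ∨
      (∃ m n : ℤ, w - w' = m + 2 * n * (I * al)) := by
  have h0 : 0 < al := by linarith
  rw [← sub_eq_zero, det_eq al h0]
  have hE : -(2 / E al w') ≠ 0 := by
    rw [neg_ne_zero]
    exact div_ne_zero two_ne_zero (E_ne _ _)
  rw [mul_eq_zero, or_iff_right hE, mul_eq_zero]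
  rw [show w + (w' + 1 / 2 + I * al) = (w + w') + (1 / 2 + I * al) by ring,
    show w - (w' + 1 / 2 + I * al) = (w - w') - (1 / 2 + I * al) by ring,
    zero_plus al h, zero_minus al h]

theorem th_no_common_zero (al : ℝ) (h : 1 ≤ al) (w : ℂ) : ¬ (th3 al w = 0 ∧ th4 al w = 0) := by
  rintro ⟨h1, h2⟩
  rw [← th3_add_half] at h2
  obtain ⟨m, n, e⟩ := (th3_zero_iff al h w).1 h1
  obtain ⟨m', n', e'⟩ := (th3_zero_iff al h _).1 h2
  have e2 : (1 / 2 : ℂ) = ((m' - m : ℤ) : ℂ) + ((n' - n : ℤ) : ℂ) * (I * al) := by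
    push_cast
    linear_combination e' - e
  have him := congrArg Complex.im e2
  simp at him
  have hre := congrArg Complex.re e2
  simp at hre
  have h3 : (2 : ℝ) * ((m' : ℝ) - m) = 1 := by linarith
  have h4 : (2 : ℤ) * (m' - m) = 1 := by exact_mod_cast h3
  omega

theorem wr_zero_iff (al : ℝ) (h : 1 ≤ al) (w : ℂ) :
    deriv (th3 al) w * th4 al w - th3 al w * deriv (th4 al) w = 0 ↔
      ∃ m n : ℤ, 2 * w = m + 2 * n * (I * al) := by
  have h0 : 0 < al := by linarith
  set T := th3 (2 * al) with hT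
  set c : ℂ := w + 1 / 2 + I * al with hc
  have hTd : Differentiable ℂ T := th3_diff _ (by linarith)
  have hfun : (fun x => th3 al x * th4 al w - th4 al x * th3 al w) =
      fun x => -(2 / E al w) * (T (x + c) * T (x - c)) := by
    funext x
    exact det_eq al h0 x w
  have hd1 : HasDerivAt (fun x => th3 al x * th4 al w - th4 al x * th3 al w)
      (deriv (th3 al) w * th4 al w - deriv (th4 al) w * th3 al w) w :=
    (((th3_diff al h0) w).hasDerivAt.mul_const _).sub (((th4_diff al h0) w).hasDerivAt.mul_const _)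
  have hTp : HasDerivAt (fun x => T (x + c)) (deriv T (w + c)) w := by
    have := (hTd (w + c)).hasDerivAt.comp_add_const w c
    exact this
  have hTm : HasDerivAt (fun x => T (x - c)) (deriv T (w - c)) w := by
    have := (hTd (w - c)).hasDerivAt.comp_sub_const w c
    exact this
  have hd2 : HasDerivAt (fun x => -(2 / E al w) * (T (x + c) * T (x - c)))
      (-(2 / E al w) * (deriv T (w + c) * T (w - c) + T (w + c) * deriv T (w - c))) w :=
    (hTp.mul hTm).const_mul _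
  rw [hfun] at hd1
  have heq := hd1.unique hd2
  have hz : T (w - c) = 0 := by
    rw [hT, hc, show w - (w + 1 / 2 + I * al) = 0 - (1 / 2 + I * al) by ring, zero_minus al h]
    exact ⟨0, 0, by simp⟩
  have hz' : deriv T (w - c) ≠ 0 := th3_deriv_ne_zero (2 * al) (by linarith) _ hz
  have hE : -(2 / E al w) ≠ 0 := by
    rw [neg_ne_zero]
    exact div_ne_zero two_ne_zero (E_ne _ _)
  have heq2 : deriv (th3 al) w * th4 al w - th3 al w * deriv (th4 al) w =
      -(2 / E al w) * (T (w + c) * deriv T (w - c)) := by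
    rw [hz, mul_zero, zero_add] at heq
    linear_combination heq
  rw [heq2, mul_eq_zero, or_iff_right hE, mul_eq_zero, or_iff_left hz']
  rw [hT, hc, show w + (w + 1 / 2 + I * al) = 2 * w + (1 / 2 + I * al) by ring, zero_plus al h]

namespace YB2

/-- real values -/
theorem th3_real (al : ℝ) (x : ℝ) : ((th3 al x).re : ℂ) = th3 al x := by
  have h := jacobiTheta₂_conj (x : ℂ) (I * al)
  have h2 : -(starRingEnd ℂ) (I * (al : ℂ)) = I * al := by simp
  rw [Complex.conj_ofReal, h2] at h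
  exact Complex.conj_eq_iff_re.1 h

theorem th4_eq (al : ℝ) (x : ℝ) : th4 al x = th3 al ((x + 1 / 2 : ℝ) : ℂ) := by
  rw [← th3_add_half]
  push_cast
  rfl

theorem im_tau (al : ℝ) (h : 0 < al) : 0 < (I * (al : ℂ)).im := by simpa using h

theorem th3_real_ne (al : ℝ) (h : 1 ≤ al) (x : ℝ) : th3 al x ≠ 0 := by
  intro h0
  obtain ⟨m, n, e⟩ := (th3_zero_iff al h x).1 h0
  have h1 := congrArg Complex.im e
  simp at h1
  have h2 : al * (1 / 2 + (n : ℝ)) = 0 := by linarith
  rcases mul_eq_zero.1 h2 with h3 | h3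
  · linarith
  · have h4 : (2 : ℝ) * n = -1 := by linarith
    have h5 : (2 : ℤ) * n = -1 := by exact_mod_cast h4
    omega

/-- norm of a theta value at a real point is at most the value at zero -/
theorem term_norm (al : ℝ) (n : ℤ) (x : ℝ) :
    ‖jacobiTheta₂_term n (x : ℂ) (I * al)‖ = Real.exp (-Real.pi * n ^ 2 * al) := by
  rw [norm_jacobiTheta₂_term]
  simp

theorem term_zero (al : ℝ) (n : ℤ) :
    jacobiTheta₂_term n 0 (I * al) = ((Real.exp (-Real.pi * n ^ 2 * al) : ℝ) : ℂ) := by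
  unfold jacobiTheta₂_term
  push_cast
  congr 1
  have := Complex.I_mul_I
  linear_combination (Real.pi : ℂ) * n ^ 2 * al * this

theorem hasSum_zero (al : ℝ) (h : 0 < al) :
    HasSum (fun n : ℤ => Real.exp (-Real.pi * n ^ 2 * al)) (th3 al 0).re := by
  have h1 := hasSum_jacobiTheta₂_term 0 (im_tau al h)
  have h2 := Complex.hasSum_re h1
  have h3 : (fun n : ℤ => (jacobiTheta₂_term n 0 (I * al)).re) =
      fun n : ℤ => Real.exp (-Real.pi * n ^ 2 * al) := by
    funext n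
    rw [term_zero, Complex.ofReal_re]
  rw [h3] at h2
  exact h2

/-- the real function -/
noncomputable def t3 (al x : ℝ) : ℝ := (th3 al x).re

theorem t3_eq (al x : ℝ) : ((t3 al x : ℝ) : ℂ) = th3 al x := th3_real al x

theorem t3_zero_pos (al : ℝ) (h : 0 < al) : 0 < t3 al 0 := by
  have h1 := hasSum_zero al h
  have h2 := le_hasSum h1 0 (fun n _ => (Real.exp_pos _).le)
  have h3 : (1 : ℝ) ≤ t3 al 0 := by
    have : (th3 al 0).re = t3 al 0 := by simp [t3]
    rw [this] at h2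
    simpa using h2
  linarith

theorem t3_abs_le (al : ℝ) (h : 0 < al) (x : ℝ) : |t3 al x| ≤ t3 al 0 := by
  have h1 := hasSum_jacobiTheta₂_term (x : ℂ) (im_tau al h)
  have h2 := hasSum_zero al h
  have h3 := h1.norm_le_of_bounded h2 (fun n => (term_norm al n x).le)
  have h4 : (th3 al 0).re = t3 al 0 := by simp [t3]
  rw [h4] at h3
  have h5 : jacobiTheta₂ (x : ℂ) (I * al) = ((t3 al x : ℝ) : ℂ) := (t3_eq al x).symm
  rw [h5, Complex.norm_real] at h3
  exact h3

theorem t3_cont (al : ℝ) (h : 0 < al) : Continuous (t3 al) := by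
  unfold t3
  exact Complex.continuous_re.comp ((th3_diff al h).continuous.comp Complex.continuous_ofReal)

theorem t3_ne (al : ℝ) (h : 1 ≤ al) (x : ℝ) : t3 al x ≠ 0 := by
  intro h0
  have h1 := t3_eq al x
  rw [h0] at h1
  exact th3_real_ne al h x (by rw [← h1]; simp)

theorem t3_pos (al : ℝ) (h : 1 ≤ al) (x : ℝ) : 0 < t3 al x := by
  by_contra hx
  push Not at hx
  obtain ⟨y, hy⟩ := mem_range_of_exists_le_of_exists_ge (t3_cont al (by linarith))
    ⟨x, hx⟩ ⟨0, (t3_zero_pos al (by linarith)).le⟩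
  exact t3_ne al h y hy

theorem ratio_real (al : ℝ) (h : 1 ≤ al) (x y : ℝ)
    (e : t3 al x * t3 al (y + 1 / 2) = t3 al (x + 1 / 2) * t3 al y) :
    (∃ m : ℤ, x + y = m) ∨ (∃ m : ℤ, x - y = m) := by
  have h1 : th3 al x * th4 al y = th4 al x * th3 al y := by
    rw [th4_eq, th4_eq, ← t3_eq, ← t3_eq, ← t3_eq, ← t3_eq]
    exact_mod_cast e
  have h0 : 0 < al := by linarith
  rcases (th_ratio_iff al h x y).1 h1 with ⟨m, n, e⟩ | ⟨m, n, e⟩
  · left
    obtain ⟨_, h3⟩ := im_coord al h0 m n _ (by simp) e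
    exact ⟨m, by exact_mod_cast h3⟩
  · right
    obtain ⟨_, h3⟩ := im_coord al h0 m n _ (by simp) e
    exact ⟨m, by exact_mod_cast h3⟩

theorem t3_add_one (al x : ℝ) : t3 al (x + 1) = t3 al x := by
  have h := th3_add_one al x
  have h1 := t3_eq al (x + 1)
  push_cast at h1
  rw [h, ← t3_eq] at h1
  exact_mod_cast h1

theorem t3_neg (al x : ℝ) : t3 al (-x) = t3 al x := by
  have h := th3_neg al x
  have h1 := t3_eq al (-x)
  push_cast at h1
  rw [h, ← t3_eq] at h1
  exact_mod_cast h1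

theorem no_int {y : ℝ} (h1 : 0 < y) (h2 : y < 1) : ¬ ∃ m : ℤ, y = m := by
  rintro ⟨m, rfl⟩
  have h3 : (0 : ℤ) < m := by exact_mod_cast h1
  have h4 : m < (1 : ℤ) := by exact_mod_cast h2
  omega

theorem no_int' {y : ℝ} (h1 : -1 < y) (h2 : y < 0) : ¬ ∃ m : ℤ, y = m := by
  rintro ⟨m, rfl⟩
  have h3 : (-1 : ℤ) < m := by exact_mod_cast h1
  have h4 : m < (0 : ℤ) := by exact_mod_cast h2
  omega

/-- the difference of theta three and theta four on [0, 1/4) -/
theorem H_pos (al : ℝ) (h : 1 ≤ al) (x : ℝ) (hx : 0 ≤ x) (hx1 : x < 1 / 4) :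
    t3 al (x + 1 / 2) < t3 al x := by
  have hne : ∀ y : ℝ, 0 ≤ y → y < 1 / 4 → t3 al y - t3 al (y + 1 / 2) ≠ 0 := by
    intro y hy hy1 e
    have h34 : t3 al (1 / 4 + 1 / 2) = t3 al (1 / 4) := by
      rw [show (1 / 4 + 1 / 2 : ℝ) = -(1 / 4) + 1 by norm_num, t3_add_one, t3_neg]
    have e2 : t3 al y * t3 al (1 / 4 + 1 / 2) = t3 al (y + 1 / 2) * t3 al (1 / 4) := by
      rw [h34, show t3 al y = t3 al (y + 1 / 2) by linarith]
    rcases ratio_real al h y (1 / 4) e2 with h3 | h3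
    · exact no_int (by linarith) (by linarith) h3
    · exact no_int' (by linarith) (by linarith) h3
  have hcont : Continuous (fun y => t3 al y - t3 al (y + 1 / 2)) :=
    (t3_cont al (by linarith)).sub ((t3_cont al (by linarith)).comp (continuous_id.add continuous_const))
  by_contra hcon
  push Not at hcon
  have h0 : 0 ≤ t3 al 0 - t3 al (0 + 1 / 2) := by
    have := (le_abs_self _).trans (t3_abs_le al (by linarith) (0 + 1 / 2))
    linarith
  have hmem : (0 : ℝ) ∈ Set.Icc (t3 al x - t3 al (x + 1 / 2)) (t3 al 0 - t3 al (0 + 1 / 2)) :=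
    ⟨by linarith, h0⟩
  obtain ⟨y, hy, hy0⟩ := intermediate_value_Icc' hx hcont.continuousOn hmem
  exact hne y hy.1 (lt_of_le_of_lt hy.2 hx1) hy0

theorem D_pos (al : ℝ) (h : 1 ≤ al) (x : ℝ) (hx : 0 < x) (hx1 : x ≤ 1 / 2) :
    t3 al (1 / 2) * t3 al x < t3 al 0 * t3 al (x + 1 / 2) := by
  have hne : ∀ y : ℝ, 0 < y → y ≤ 1 / 2 →
      t3 al 0 * t3 al (y + 1 / 2) - t3 al (1 / 2) * t3 al y ≠ 0 := by
    intro y hy hy1 e
    have e2 : t3 al 0 * t3 al (y + 1 / 2) = t3 al (0 + 1 / 2) * t3 al y := by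
      rw [zero_add]; linarith
    rcases ratio_real al h 0 y e2 with h3 | h3
    · exact no_int (by linarith) (by linarith) h3
    · exact no_int' (by linarith) (by linarith) h3
  have hcont : Continuous (fun y => t3 al 0 * t3 al (y + 1 / 2) - t3 al (1 / 2) * t3 al y) :=
    (continuous_const.mul ((t3_cont al (by linarith)).comp
      (continuous_id.add continuous_const))).sub
      (continuous_const.mul (t3_cont al (by linarith)))
  by_contra hcon
  push Not at hcon
  have h1 : t3 al (1 / 2 + 1 / 2) = t3 al 0 := by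
    rw [show (1 / 2 + 1 / 2 : ℝ) = 0 + 1 by norm_num, t3_add_one]
  have h0 : 0 ≤ t3 al 0 * t3 al (1 / 2 + 1 / 2) - t3 al (1 / 2) * t3 al (1 / 2) := by
    rw [h1]
    have h2 := (le_abs_self _).trans (t3_abs_le al (by linarith) (1 / 2))
    have h3 := t3_pos al h (1 / 2)
    nlinarith
  have hmem : (0 : ℝ) ∈ Set.Icc (t3 al 0 * t3 al (x + 1 / 2) - t3 al (1 / 2) * t3 al x)
      (t3 al 0 * t3 al (1 / 2 + 1 / 2) - t3 al (1 / 2) * t3 al (1 / 2)) :=
    ⟨by linarith, h0⟩
  obtain ⟨y, hy, hy0⟩ := intermediate_value_Icc hx1 hcont.continuousOn hmem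
  exact hne y (lt_of_lt_of_le hx hy.1) hy.2 hy0

theorem t3_be_cont (x al : ℝ) (h : 0 < al) : ContinuousOn (fun be => t3 be x) (Set.Ici al) := by
  intro be hbe
  have hb : 0 < be := lt_of_lt_of_le h hbe
  have h1 : ContinuousAt (jacobiTheta₂ (x : ℂ)) (I * (be : ℂ)) :=
    (differentiableAt_jacobiTheta₂_snd (x : ℂ) (im_tau be hb)).continuousAt
  have h2 : ContinuousAt (fun b : ℝ => I * (b : ℂ)) be :=
    (continuous_const.mul Complex.continuous_ofReal).continuousAt
  have h3 : ContinuousAt (fun b : ℝ => jacobiTheta₂ (x : ℂ) (I * (b : ℂ))) be :=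
    ContinuousAt.comp (f := fun b : ℝ => I * (b : ℂ)) h1 h2
  exact (Complex.continuous_re.continuousAt.comp h3).continuousWithinAt

theorem lim_aux (f : ℝ → ℂ) (hf : ∀ be > 0, ‖f be - 1‖ ≤
    2 / (1 - Real.exp (-Real.pi * be)) * Real.exp (-Real.pi * be)) :
    Tendsto (fun be => (f be).re) atTop (𝓝 1) := by
  have h1 : Tendsto (fun be : ℝ => Real.exp (-Real.pi * be)) atTop (𝓝 0) := by
    have : Tendsto (fun be : ℝ => -Real.pi * be) atTop atBot :=
      tendsto_id.const_mul_atTop_of_neg (by have := Real.pi_pos; linarith)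
    exact Real.tendsto_exp_atBot.comp this
  have h2 : Tendsto (fun be : ℝ => 2 / (1 - Real.exp (-Real.pi * be)) *
      Real.exp (-Real.pi * be)) atTop (𝓝 (2 / (1 - 0) * 0)) :=
    (tendsto_const_nhds.div (tendsto_const_nhds.sub h1) (by norm_num)).mul h1
  rw [mul_zero] at h2
  have h3 : Tendsto (fun be => f be - 1) atTop (𝓝 0) :=
    squeeze_zero_norm' (by
      filter_upwards [eventually_gt_atTop (0 : ℝ)] with be hbe
      exact hf be hbe) h2
  have h4 : Tendsto f atTop (𝓝 1) := by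
    have := h3.add_const 1
    simpa using this
  have h5 := (Complex.continuous_re.tendsto 1).comp h4
  rw [Complex.one_re] at h5
  exact h5

theorem lim0 : Tendsto (fun be => t3 be 0) atTop (𝓝 1) := by
  have : (fun be : ℝ => t3 be 0) = fun be : ℝ => (jacobiTheta (I * (be : ℂ))).re := by
    funext be
    rw [jacobiTheta_eq_jacobiTheta₂]
    simp [t3, th3]
  rw [this]
  refine lim_aux _ fun be hbe => ?_
  have := norm_jacobiTheta_sub_one_le (im_tau be hbe)
  simpa using this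

theorem lim_half : Tendsto (fun be => t3 be (1 / 2)) atTop (𝓝 1) := by
  have : (fun be : ℝ => t3 be (1 / 2)) = fun be : ℝ => (jacobiTheta (I * (be : ℂ) + 1)).re := by
    funext be
    rw [jacobiTheta_eq_jacobiTheta₂]
    unfold t3 th3 jacobiTheta₂
    congr 2
    funext n
    unfold jacobiTheta₂_term
    have hpar : cexp ((Real.pi : ℂ) * I * (n : ℂ)) = cexp ((Real.pi : ℂ) * I * (n : ℂ) ^ 2) := by
      obtain ⟨k, hk⟩ := Int.even_mul_succ_self (n - 1)
      have hk2 : (n : ℂ) ^ 2 = n + 2 * k := by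
        have : n ^ 2 = n + 2 * k := by
          have : (n - 1) * (n - 1 + 1) = n ^ 2 - n := by ring
          linarith
        exact_mod_cast this
      rw [hk2, show (Real.pi : ℂ) * I * ((n : ℂ) + 2 * k) =
        (Real.pi : ℂ) * I * n + k * (2 * (Real.pi : ℂ) * I) by ring, Complex.exp_add,
        Complex.exp_int_mul_two_pi_mul_I, mul_one]
    rw [show 2 * (Real.pi : ℂ) * I * n * ((1 / 2 : ℝ) : ℂ) + (Real.pi : ℂ) * I * n ^ 2 * (I * be) =
      (Real.pi : ℂ) * I * n + (Real.pi : ℂ) * I * n ^ 2 * (I * be) by push_cast; ring,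
      show 2 * (Real.pi : ℂ) * I * n * 0 + (Real.pi : ℂ) * I * n ^ 2 * (I * be + 1) =
      (Real.pi : ℂ) * I * n ^ 2 + (Real.pi : ℂ) * I * n ^ 2 * (I * be) by ring,
      Complex.exp_add, Complex.exp_add, hpar]
  rw [this]
  refine lim_aux _ fun be hbe => ?_
  have h1 : 0 < (I * (be : ℂ) + 1).im := by simpa using hbe
  have := norm_jacobiTheta_sub_one_le h1
  simpa using this

theorem real_exists (al : ℝ) (h : 1 ≤ al) (x : ℝ) (hx : 0 < x) (hx1 : x < 1 / 4) :
    ∃ be : ℝ, al < be ∧ t3 be 0 * t3 al (x + 1 / 2) = t3 be (1 / 2) * t3 al x := by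
  have hD := D_pos al h x hx (by linarith)
  have hH := H_pos al h x hx.le hx1
  have hlim : Tendsto (fun be => t3 be 0 * t3 al (x + 1 / 2) - t3 be (1 / 2) * t3 al x) atTop
      (𝓝 (1 * t3 al (x + 1 / 2) - 1 * t3 al x)) :=
    (lim0.mul_const _).sub (lim_half.mul_const _)
  have hev := (hlim.eventually (gt_mem_nhds (show 1 * t3 al (x + 1 / 2) - 1 * t3 al x < 0 by
    linarith))).and (eventually_gt_atTop al)
  obtain ⟨B, hB, hBal⟩ := hev.exists
  have hcont : ContinuousOn (fun be => t3 be 0 * t3 al (x + 1 / 2) - t3 be (1 / 2) * t3 al x)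
      (Set.Icc al B) := by
    refine ContinuousOn.sub (ContinuousOn.mul ?_ continuousOn_const)
      (ContinuousOn.mul ?_ continuousOn_const)
    · exact (t3_be_cont 0 al (by linarith)).mono Set.Icc_subset_Ici_self
    · exact (t3_be_cont (1 / 2) al (by linarith)).mono Set.Icc_subset_Ici_self
  obtain ⟨be, hbe, hbe0⟩ := intermediate_value_Icc' hBal.le hcont
    (show (0 : ℝ) ∈ Set.Icc _ _ from ⟨hB.le, by simpa using hD.le⟩)
  refine ⟨be, lt_of_le_of_ne hbe.1 ?_, by linarith⟩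
  rintro rfl
  simp only at hbe0
  linarith

end YB2

/-- tuning of the second modulus -/
theorem exists_be (al : ℝ) (h : 1 ≤ al) (d : ℕ) (hd : 3 ≤ d) :
    ∃ be : ℝ, al < be ∧ th3 be 0 * th4 al (1 / (2 * d)) = th4 be 0 * th3 al (1 / (2 * d)) := by
  have hd' : (3 : ℝ) ≤ d := by exact_mod_cast hd
  have hx : 0 < 1 / (2 * (d : ℝ)) := by positivity
  have hx1 : 1 / (2 * (d : ℝ)) < 1 / 4 := by
    rw [div_lt_div_iff₀ (by positivity) (by norm_num)]
    linarith
  obtain ⟨be, h1, h2⟩ := real_exists al h _ hx hx1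
  refine ⟨be, h1, ?_⟩
  have e1 : (1 / (2 * (d : ℂ))) = ((1 / (2 * (d : ℝ)) : ℝ) : ℂ) := by push_cast; rfl
  have e2 : (0 : ℂ) = ((0 : ℝ) : ℂ) := by simp
  rw [e1, th4_eq]
  have e3 : th4 be 0 = th3 be ((1 / 2 : ℝ) : ℂ) := by
    rw [e2, th4_eq]; simp
  rw [e3, e2, ← t3_eq, ← t3_eq, ← t3_eq, ← t3_eq]
  exact_mod_cast h2

namespace YB2

theorem shift_n (al : ℝ) (w : ℂ) (n : ℤ) : ∃ κ : ℂ, κ ≠ 0 ∧ ∃ ε : ℂ, (ε = 1 ∨ ε = -1) ∧
    th3 al (w + n * (I * al)) = κ * th3 al w ∧ th4 al (w + n * (I * al)) = κ * (ε * th4 al w) := by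
  have step : ∀ z : ℂ, th3 al (z + I * al) = E al z * th3 al z ∧
      th4 al (z + I * al) = -(E al z * th4 al z) := fun z => by
    refine ⟨th3_add_tau al z, ?_⟩
    rw [th4_add_tau]
    unfold E
    ring
  induction n using Int.induction_on with
  | zero => exact ⟨1, one_ne_zero, 1, Or.inl rfl, by simp, by simp⟩
  | succ k ih =>
    obtain ⟨κ, hκ, ε, hε, h1, h2⟩ := ih
    have e : w + ((k + 1 : ℤ) : ℂ) * (I * al) = (w + (k : ℤ) * (I * al)) + I * al := by
      push_cast; ring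
    refine ⟨E al (w + (k : ℤ) * (I * al)) * κ, mul_ne_zero (E_ne _ _) hκ, -ε, ?_, ?_, ?_⟩
    · rcases hε with rfl | rfl
      · exact Or.inr rfl
      · exact Or.inl (by simp)
    · rw [e, (step _).1, h1]; ring
    · rw [e, (step _).2, h2]; ring
  | pred k ih =>
    obtain ⟨κ, hκ, ε, hε, h1, h2⟩ := ih
    have e : (w + ((-k - 1 : ℤ) : ℂ) * (I * al)) + I * al = w + ((-k : ℤ) : ℂ) * (I * al) := by
      push_cast; ring
    set z := w + ((-k - 1 : ℤ) : ℂ) * (I * al) with hz
    have s := step z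
    rw [e, h1, h2] at s
    have hE := E_ne al z
    refine ⟨κ / E al z, div_ne_zero hκ hE, -ε, ?_, ?_, ?_⟩
    · rcases hε with rfl | rfl
      · exact Or.inr rfl
      · exact Or.inl (by simp)
    · field_simp
      linear_combination -s.1
    · field_simp
      linear_combination s.2

theorem shift_m (al : ℝ) (m : ℤ) :
    (th3 al (m / 2) = th3 al 0 ∧ th4 al (m / 2) = th4 al 0) ∨
    (th3 al (m / 2) = th4 al 0 ∧ th4 al (m / 2) = th3 al 0) := by
  induction m using Int.induction_on with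
  | zero => left; simp
  | succ k ih =>
    have e : (((k + 1 : ℤ) : ℂ) / 2) = ((k : ℤ) : ℂ) / 2 + 1 / 2 := by push_cast; ring
    rw [e, th3_add_half, th4_add_half]
    tauto
  | pred k ih =>
    have e : ((-k : ℤ) : ℂ) / 2 = (((-k - 1 : ℤ) : ℂ) / 2) + 1 / 2 := by push_cast; ring
    rw [e, th3_add_half, th4_add_half] at ih
    tauto

theorem crit_val (al : ℝ) (w : ℂ) (hw : ∃ m n : ℤ, 2 * w = m + 2 * n * (I * al)) :
    ∃ κ : ℂ, κ ≠ 0 ∧ ∃ ε : ℝ, (ε = 1 ∨ ε = -1) ∧
      ((th3 al w = κ * (t3 al 0 : ℝ) ∧ th4 al w = κ * (ε * t3 al (1 / 2) : ℝ)) ∨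
       (th3 al w = κ * (t3 al (1 / 2) : ℝ) ∧ th4 al w = κ * (ε * t3 al 0 : ℝ))) := by
  obtain ⟨m, n, e⟩ := hw
  have e1 : w = (m / 2 : ℂ) + n * (I * al) := by linear_combination e / 2
  have a3 : th3 al 0 = ((t3 al 0 : ℝ) : ℂ) := by rw [t3_eq]; simp
  have a4 : th4 al 0 = ((t3 al (1 / 2) : ℝ) : ℂ) := by
    rw [t3_eq, ← th3_add_half]; simp
  obtain ⟨κ, hκ, ε, hε, h1, h2⟩ := shift_n al (m / 2) n
  obtain ⟨δ, hδ, hδε⟩ : ∃ δ : ℝ, (δ = 1 ∨ δ = -1) ∧ (ε : ℂ) = (δ : ℂ) := by
    rcases hε with rfl | rfl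
    · exact ⟨1, Or.inl rfl, by simp⟩
    · exact ⟨-1, Or.inr rfl, by simp⟩
  refine ⟨κ, hκ, δ, hδ, ?_⟩
  rw [e1, h1, h2, hδε]
  rcases shift_m al m with ⟨h3, h4⟩ | ⟨h3, h4⟩
  · left
    rw [h3, h4, a3, a4]
    exact ⟨rfl, by push_cast; ring⟩
  · right
    rw [h3, h4, a3, a4]
    exact ⟨rfl, by push_cast; ring⟩

end YB2

theorem no_double_crit (al be : ℝ) (h : 1 ≤ al) (hb : 1 ≤ be)
    (hne : th3 al 0 * th4 be 0 ≠ th4 al 0 * th3 be 0) (w y : ℂ)
    (hw : ∃ m n : ℤ, 2 * w = m + 2 * n * (I * al)) (hy : ∃ m n : ℤ, 2 * y = m + 2 * n * (I * be)) :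
    th3 al w * th3 be y + th4 al w * th4 be y ≠ 0 := by
  have a3 : ∀ al : ℝ, th3 al 0 = ((t3 al 0 : ℝ) : ℂ) := fun al => by rw [t3_eq]; simp
  have a4 : ∀ al : ℝ, th4 al 0 = ((t3 al (1 / 2) : ℝ) : ℂ) := fun al => by
    rw [t3_eq, ← th3_add_half]; simp
  rw [a3, a4, a3, a4] at hne
  have hne' : t3 al 0 * t3 be (1 / 2) ≠ t3 al (1 / 2) * t3 be 0 := by
    intro e
    exact hne (by exact_mod_cast e)
  have hal := H_pos al h 0 le_rfl (by norm_num)
  have hbe := H_pos be hb 0 le_rfl (by norm_num)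
  rw [zero_add] at hal hbe
  have pal := t3_pos al h (1 / 2)
  have pbe := t3_pos be hb (1 / 2)
  obtain ⟨κ, hκ, ε, hε, h1⟩ := crit_val al w hw
  obtain ⟨κ', hκ', ε', hε', h2⟩ := crit_val be y hy
  set A := t3 al 0
  set a := t3 al (1 / 2)
  set B := t3 be 0
  set b := t3 be (1 / 2)
  have hAa : 0 < A := by linarith
  have hBb : 0 < B := by linarith
  have key : ∀ R : ℝ, R ≠ 0 → κ * κ' * (R : ℂ) ≠ 0 := fun R hR =>
    mul_ne_zero (mul_ne_zero hκ hκ') (by exact_mod_cast hR)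
  have hAB : a * b < A * B := by nlinarith
  have hεε : ε * ε' = 1 ∨ ε * ε' = -1 := by
    rcases hε with rfl | rfl <;> rcases hε' with rfl | rfl <;> simp
  rcases h1 with ⟨h3, h4⟩ | ⟨h3, h4⟩ <;> rcases h2 with ⟨h5, h6⟩ | ⟨h5, h6⟩ <;>
    rw [h3, h4, h5, h6]
  · have := key (A * B + (ε * ε') * (a * b)) (by rcases hεε with e | e <;> rw [e] <;> nlinarith)
    intro h0
    apply this
    rw [← h0]
    push_cast
    ring
  · have := key (A * b + (ε * ε') * (a * B)) (by
      rcases hεε with e | e <;> rw [e]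
      · have : 0 < A * b + a * B := by positivity
        linarith
      · intro h0
        exact hne' (by linarith))
    intro h0
    apply this
    rw [← h0]
    push_cast
    ring
  · have := key (a * B + (ε * ε') * (A * b)) (by
      rcases hεε with e | e <;> rw [e]
      · have : 0 < a * B + A * b := by positivity
        linarith
      · intro h0
        exact hne' (by linarith))
    intro h0
    apply this
    rw [← h0]
    push_cast
    ring
  · have := key (a * b + (ε * ε') * (A * B)) (by rcases hεε with e | e <;> rw [e] <;> nlinarith)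
    intro h0
    apply this
    rw [← h0]
    push_cast
    ring

end Pool.Agent.AM
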