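import Pool.Agent.AM.YB1
import Pool.Agent.AM.YB2

/-! The two dimensional block of the odd case: zeros and gradients of `sO`. -/

set_option autoImplicit false
open Complex Filter Topology
namespace Pool.Agent.AM

/-- first partial derivative -/
noncomputable def ds1 (d : ℕ) (al be : ℝ) (a : ℤ) (y1 y2 : ℂ) : ℂ :=
  deriv (th3 al) (y1 + a / d) * th3 be y2 + deriv (th4 al) (y1 + a / d) * th4 be y2

/-- second partial derivative -/
noncomputable def ds2 (d : ℕ) (al be : ℝ) (a : ℤ) (y1 y2 : ℂ) : ℂ :=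
  th3 al (y1 + a / d) * deriv (th3 be) y2 + th4 al (y1 + a / d) * deriv (th4 be) y2

/-- Wronskian -/
noncomputable def Wr (al : ℝ) (w : ℂ) : ℂ :=
  deriv (th3 al) w * th4 al w - th3 al w * deriv (th4 al) w

namespace YC

/-- two vectors orthogonal to a nonzero vector -/
lemma kappa (A A' B B' : ℂ) (hA : ¬ (A = 0 ∧ A' = 0)) (hB : ¬ (B = 0 ∧ B' = 0))
    (h : A * B + A' * B' = 0) : ∃ κ : ℂ, κ ≠ 0 ∧ B = -κ * A' ∧ B' = κ * A := by
  by_cases h1 : A = 0
  · have h2 : A' ≠ 0 := fun h3 => hA ⟨h1, h3⟩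
    have h3 : B' = 0 := by
      rw [h1, zero_mul, zero_add] at h
      exact (mul_eq_zero.mp h).resolve_left h2
    refine ⟨-B / A', ?_, ?_, ?_⟩
    · intro h4
      rcases div_eq_zero_iff.mp h4 with h5 | h5
      · exact hB ⟨neg_eq_zero.mp h5, h3⟩
      · exact h2 h5
    · field_simp
    · rw [h1, h3, mul_zero]
  · refine ⟨B' / A, ?_, ?_, ?_⟩
    · intro h4
      rcases div_eq_zero_iff.mp h4 with h5 | h5
      · rw [h5, mul_zero, add_zero] at h
        exact hB ⟨(mul_eq_zero.mp h).resolve_left h1, h5⟩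
      · exact h1 h5
    · field_simp
      linear_combination h
    · field_simp

variable {d : ℕ} {al be : ℝ}

lemma int_frac (hal : 0 < al) (d : ℕ) (hd : 0 < d) (a b : Fin d) (m n : ℤ)
    (h : ((a : ℕ) : ℂ) / d - ((b : ℕ) : ℂ) / d = m + 2 * n * (I * al)) : a = b := by
  have hd' : (d : ℝ) ≠ 0 := by exact_mod_cast hd.ne'
  have him := congrArg Complex.im h
  have hre := congrArg Complex.re h
  have e1 : (((a : ℕ) : ℂ) / d - ((b : ℕ) : ℂ) / d) =
      (((((a : ℕ) : ℝ) / d - ((b : ℕ) : ℝ) / d : ℝ)) : ℂ) := by push_cast; ring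
  rw [e1] at him hre
  rw [Complex.ofReal_im] at him
  rw [Complex.ofReal_re] at hre
  simp at him hre
  have hn : (n : ℝ) = 0 := by
    rcases him with h | h
    · exact_mod_cast h
    · exact absurd h hal.ne'
  have h3 : (((a : ℕ) : ℝ) - ((b : ℕ) : ℝ)) = m * d := by
    have : ((a : ℕ) : ℝ) / d - ((b : ℕ) : ℝ) / d = m := by
      simpa using hre
    field_simp at this
    linarith
  have h4 : ((a : ℕ) : ℤ) - ((b : ℕ) : ℤ) = m * d := by exact_mod_cast h3
  have h5 : ((a : ℕ) : ℤ) - ((b : ℕ) : ℤ) = 0 := by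
    apply Int.eq_zero_of_abs_lt_dvd (⟨m, by rw [h4]; ring⟩ : (d : ℤ) ∣ _)
    have := a.2; have := b.2
    rw [abs_lt]; constructor <;> omega
  apply Fin.ext
  omega

/-- reflection identity -/
lemma refl3 (al : ℝ) (m n : ℤ) (u : ℂ) : th3 al (-u + m + 2 * n * (I * al)) =
    cexp (4 * (Real.pi : ℂ) * al * (n : ℂ) ^ 2 + 4 * (Real.pi : ℂ) * I * n * u) * th3 al u := by
  have e1 : -u + m + 2 * n * (I * al) = (-u + m) + ((2 * n : ℤ) : ℂ) * (I * al) := by
    push_cast; ring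
  rw [e1, th3_add_int_tau, th3_add_int, th3_neg]
  congr 1
  rw [show (Real.pi : ℂ) * al * ((2 * n : ℤ) : ℂ) ^ 2 -
    2 * (Real.pi : ℂ) * I * ((2 * n : ℤ) : ℂ) * (-u + m) =
    (4 * (Real.pi : ℂ) * al * (n : ℂ) ^ 2 + 4 * (Real.pi : ℂ) * I * n * u) +
      ((-2 * n * m : ℤ) : ℂ) * (2 * Real.pi * I) by push_cast; ring, Complex.exp_add,
    Complex.exp_int_mul_two_pi_mul_I, mul_one]

lemma refl4 (al : ℝ) (m n : ℤ) (u : ℂ) : th4 al (-u + m + 2 * n * (I * al)) =
    cexp (4 * (Real.pi : ℂ) * al * (n : ℂ) ^ 2 + 4 * (Real.pi : ℂ) * I * n * u) * th4 al u := by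
  rw [← th3_add_half, ← th3_add_half]
  have e1 : -u + m + 2 * n * (I * al) + 1 / 2 = -(u + 1 / 2) + ((m + 1 : ℤ) : ℂ) +
    2 * n * (I * al) := by push_cast; ring
  rw [e1, refl3]
  congr 1
  rw [show 4 * (Real.pi : ℂ) * al * (n : ℂ) ^ 2 + 4 * (Real.pi : ℂ) * I * n * (u + 1 / 2) =
    (4 * (Real.pi : ℂ) * al * (n : ℂ) ^ 2 + 4 * (Real.pi : ℂ) * I * n * u) +
      (n : ℂ) * (2 * Real.pi * I) by ring, Complex.exp_add,
    Complex.exp_int_mul_two_pi_mul_I, mul_one]

lemma deriv_refl (f : ℂ → ℂ) (hf : Differentiable ℂ f) (A B K : ℂ)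
    (h : ∀ u, f (-u + K) = cexp (A + B * u) * f u) (u : ℂ) :
    deriv f (-u + K) = -(cexp (A + B * u) * B * f u + cexp (A + B * u) * deriv f u) := by
  have h1 : HasDerivAt (fun u => f (-u + K)) (deriv f (-u + K) * (-1)) u := by
    have h2 : HasDerivAt (fun u : ℂ => -u + K) (-1) u := (hasDerivAt_id u).neg.add_const K
    exact (hf (-u + K)).hasDerivAt.comp u h2
  have h3 : HasDerivAt (fun u => cexp (A + B * u) * f u)
      (cexp (A + B * u) * B * f u + cexp (A + B * u) * deriv f u) u := by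
    have h4 : HasDerivAt (fun u : ℂ => A + B * u) B u := by
      simpa using ((hasDerivAt_id u).const_mul B).const_add A
    exact h4.cexp.mul (hf u).hasDerivAt
  have h5 : (fun u => f (-u + K)) = fun u => cexp (A + B * u) * f u := funext h
  rw [h5] at h1
  have := h1.unique h3
  linear_combination -this

/-- two vanishing members of the family -/
theorem two_zero (h : 1 ≤ al) (hb : 1 ≤ be) (hd : 0 < d) (a b : Fin d) (hab : a ≠ b) (y1 y2 : ℂ)
    (h1 : sO d al be (a : ℕ) y1 y2 = 0) (h2 : sO d al be (b : ℕ) y1 y2 = 0) :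
    ∃ m n : ℤ, (y1 + ((a : ℕ) : ℤ) / d) + (y1 + ((b : ℕ) : ℤ) / d) = m + 2 * n * (I * al) := by
  set w := y1 + (((a : ℕ) : ℤ) : ℂ) / d with hw
  set w' := y1 + (((b : ℕ) : ℤ) : ℂ) / d with hw'
  have hB := th_no_common_zero be hb y2
  have k1 : th3 al w * th3 be y2 + th4 al w * th4 be y2 = 0 := h1
  have k2 : th3 al w' * th3 be y2 + th4 al w' * th4 be y2 = 0 := h2
  have hdet : th3 al w * th4 al w' = th4 al w * th3 al w' := by
    by_contra hne
    have e1 : (th3 al w * th4 al w' - th4 al w * th3 al w') * th3 be y2 = 0 := by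
      linear_combination (th4 al w') * k1 - (th4 al w) * k2
    have e2 : (th3 al w * th4 al w' - th4 al w * th3 al w') * th4 be y2 = 0 := by
      linear_combination (th3 al w) * k2 - (th3 al w') * k1
    have hne' := sub_ne_zero.mpr hne
    exact hB ⟨(mul_eq_zero.mp e1).resolve_left hne', (mul_eq_zero.mp e2).resolve_left hne'⟩
  rcases (th_ratio_iff al h w w').mp hdet with h3 | ⟨m, n, h3⟩
  · exact h3
  · exfalso
    apply hab
    apply int_frac (al := al) (by linarith) d hd a b m n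
    rw [← h3, hw, hw']
    push_cast
    ring

/-- `al` Wronskian is nonzero at a double zero of the family -/
theorem wr_ne (h : 1 ≤ al) (hb : 1 ≤ be) (hd : 0 < d) (a b : Fin d) (hab : a ≠ b) (y1 y2 : ℂ)
    (h1 : sO d al be (a : ℕ) y1 y2 = 0) (h2 : sO d al be (b : ℕ) y1 y2 = 0) :
    Wr al (y1 + ((a : ℕ) : ℤ) / d) ≠ 0 := by
  intro h0
  obtain ⟨m, n, e1⟩ := two_zero h hb hd a b hab y1 y2 h1 h2
  obtain ⟨m', n', e2⟩ := (wr_zero_iff al h _).mp h0
  apply hab
  apply int_frac (al := al) (by linarith) d hd a b (m' - m) (n' - n)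
  push_cast at e1 e2 ⊢
  linear_combination e2 - e1

/-- the first derivative in terms of Wronskians -/
theorem grad_formula (h : 1 ≤ al) (hb : 1 ≤ be) (a : ℤ) (y1 y2 : ℂ)
    (h1 : sO d al be a y1 y2 = 0) : ∃ κ : ℂ, κ ≠ 0 ∧ ds1 d al be a y1 y2 = -κ * Wr al (y1 + a / d) ∧
      κ * ds2 d al be a y1 y2 = Wr be y2 := by
  obtain ⟨κ, hκ, e1, e2⟩ := kappa _ _ _ _ (th_no_common_zero al h (y1 + a / d))
    (th_no_common_zero be hb y2) h1
  refine ⟨κ, hκ, ?_, ?_⟩
  · unfold ds1 Wr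
    rw [e1, e2]; ring
  · unfold ds2 Wr
    linear_combination (-deriv (th3 be) y2) * e2 + (deriv (th4 be) y2) * e1

theorem ds1_ne (h : 1 ≤ al) (hb : 1 ≤ be) (hd : 0 < d) (a b : Fin d) (hab : a ≠ b) (y1 y2 : ℂ)
    (h1 : sO d al be (a : ℕ) y1 y2 = 0) (h2 : sO d al be (b : ℕ) y1 y2 = 0) :
    ds1 d al be (a : ℕ) y1 y2 ≠ 0 := by
  obtain ⟨κ, hκ, e1, -⟩ := grad_formula h hb ((a : ℕ) : ℤ) y1 y2 h1
  rw [e1]
  exact mul_ne_zero (neg_ne_zero.mpr hκ) (wr_ne h hb hd a b hab y1 y2 h1 h2)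

theorem ds2_zero_iff (h : 1 ≤ al) (hb : 1 ≤ be) (a : ℤ) (y1 y2 : ℂ)
    (h1 : sO d al be a y1 y2 = 0) : ds2 d al be a y1 y2 = 0 ↔
      ∃ m n : ℤ, 2 * y2 = m + 2 * n * (I * be) := by
  obtain ⟨κ, hκ, -, e2⟩ := grad_formula h hb a y1 y2 h1
  rw [← wr_zero_iff be hb]
  constructor
  · intro h3
    rw [h3, mul_zero] at e2
    exact e2.symm
  · intro h3
    have : κ * ds2 d al be a y1 y2 = 0 := by rw [e2]; exact h3
    exact (mul_eq_zero.mp this).resolve_left hκ

theorem grad_ne (h : 1 ≤ al) (hb : 1 ≤ be) (hne : th3 al 0 * th4 be 0 ≠ th4 al 0 * th3 be 0)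
    (a : ℤ) (y1 y2 : ℂ) (h1 : sO d al be a y1 y2 = 0) :
    ds1 d al be a y1 y2 ≠ 0 ∨ ds2 d al be a y1 y2 ≠ 0 := by
  by_contra hcon
  push Not at hcon
  obtain ⟨κ, hκ, e1, e2⟩ := grad_formula h hb a y1 y2 h1
  have h2 : Wr al (y1 + a / d) = 0 := by
    rw [hcon.1] at e1
    exact (mul_eq_zero.mp e1.symm).resolve_left (neg_ne_zero.mpr hκ)
  exact no_double_crit al be h hb hne (y1 + a / d) y2 ((wr_zero_iff al h _).mp h2)
    ((ds2_zero_iff h hb a y1 y2 h1).mp hcon.2) h1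

/-- gradients at a double zero -/
theorem pair_grad (h : 1 ≤ al) (hb : 1 ≤ be) (hd : 0 < d) (a b : Fin d) (hab : a ≠ b)
    (y1 y2 : ℂ) (h1 : sO d al be (a : ℕ) y1 y2 = 0) (h2 : sO d al be (b : ℕ) y1 y2 = 0) :
    ∃ E : ℂ, E ≠ 0 ∧ ds1 d al be (b : ℕ) y1 y2 = -E * ds1 d al be (a : ℕ) y1 y2 ∧
      ds2 d al be (b : ℕ) y1 y2 = E * ds2 d al be (a : ℕ) y1 y2 := by
  have h0 : 0 < al := by linarith
  obtain ⟨m, n, e⟩ := two_zero h hb hd a b hab y1 y2 h1 h2
  set w := y1 + (((a : ℕ) : ℤ) : ℂ) / d with hw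
  set w' := y1 + (((b : ℕ) : ℤ) : ℂ) / d with hw'
  have e' : w' = -w + (m + 2 * n * (I * al)) := by linear_combination e
  set A : ℂ := 4 * (Real.pi : ℂ) * al * (n : ℂ) ^ 2 with hA
  set B : ℂ := 4 * (Real.pi : ℂ) * I * n with hB
  have r3 : ∀ u, th3 al (-u + (m + 2 * n * (I * al))) = cexp (A + B * u) * th3 al u := fun u => by
    rw [← add_assoc, refl3]
  have r4 : ∀ u, th4 al (-u + (m + 2 * n * (I * al))) = cexp (A + B * u) * th4 al u := fun u => by
    rw [← add_assoc, refl4]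
  have d3 := deriv_refl _ (th3_diff al h0) A B _ r3 w
  have d4 := deriv_refl _ (th4_diff al h0) A B _ r4 w
  have v3 := r3 w
  have v4 := r4 w
  rw [← e'] at d3 d4 v3 v4
  refine ⟨cexp (A + B * w), Complex.exp_ne_zero _, ?_, ?_⟩
  · have k1 : th3 al w * th3 be y2 + th4 al w * th4 be y2 = 0 := h1
    show deriv (th3 al) w' * th3 be y2 + deriv (th4 al) w' * th4 be y2 =
      -cexp (A + B * w) * (deriv (th3 al) w * th3 be y2 + deriv (th4 al) w * th4 be y2)
    rw [d3, d4]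
    linear_combination (-cexp (A + B * w) * B) * k1
  · show th3 al w' * deriv (th3 be) y2 + th4 al w' * deriv (th4 be) y2 =
      cexp (A + B * w) * (th3 al w * deriv (th3 be) y2 + th4 al w * deriv (th4 be) y2)
    rw [v3, v4]; ring

/-- at most two members vanish -/
theorem at_most_two (h : 1 ≤ al) (hb : 1 ≤ be) (hd : 0 < d) (a b c : Fin d) (hab : a ≠ b)
    (hac : a ≠ c) (hbc : b ≠ c) (y1 y2 : ℂ) (h1 : sO d al be (a : ℕ) y1 y2 = 0)
    (h2 : sO d al be (b : ℕ) y1 y2 = 0) (h3 : sO d al be (c : ℕ) y1 y2 = 0) : False := by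
  obtain ⟨m, n, e1⟩ := two_zero h hb hd a b hab y1 y2 h1 h2
  obtain ⟨m', n', e2⟩ := two_zero h hb hd a c hac y1 y2 h1 h3
  apply hbc
  apply int_frac (al := al) (by linarith) d hd b c (m - m') (n - n')
  push_cast at e1 e2 ⊢
  linear_combination e1 - e2

/-- the candidates for a tangency -/
theorem tangency_pos (h : 1 ≤ al) (hd : 0 < d)
    (ht : th3 be 0 * th4 al (1 / (2 * d)) = th4 be 0 * th3 al (1 / (2 * d)))
    (hb : 1 ≤ be) (y2 : ℂ) (hy : ∃ m n : ℤ, 2 * y2 = m + 2 * n * (I * be)) :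
    ∃ cs : ℂ, (∃ m n : ℤ, 2 * cs - 1 / d = m + 2 * n * (I * al)) ∧
      ∀ w : ℂ, th3 al w * th3 be y2 + th4 al w * th4 be y2 = 0 →
        (∃ m n : ℤ, w + cs = m + 2 * n * (I * al)) ∨
        (∃ m n : ℤ, w - cs = m + 2 * n * (I * al)) := by
  obtain ⟨m, n, e⟩ := hy
  have hB := th_no_common_zero be hb
  have e1 : y2 = (m / 2 : ℂ) + n * (I * be) := by linear_combination e / 2
  obtain ⟨κ, hκ, ε, hε, k3, k4⟩ := YB2.shift_n be (m / 2) n
  rw [← e1] at k3 k4
  set c0 : ℂ := 1 / (2 * d) with hc0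
  have hdc : (d : ℂ) ≠ 0 := by exact_mod_cast hd.ne'
  -- the shifted values at c0 + I al
  obtain ⟨κ', hκ', ε', hε', j3, j4⟩ := YB2.shift_n al c0 1
  have hε'1 : ε' = -1 := by
    rcases hε' with h1 | h1
    · exfalso
      rw [h1, one_mul] at j4
      have hdet : th3 al (c0 + (1 : ℤ) * (I * al)) * th4 al c0 =
          th4 al (c0 + (1 : ℤ) * (I * al)) * th3 al c0 := by rw [j3, j4]; ring
      rcases (th_ratio_iff al h _ _).mp hdet with ⟨m', n', e2⟩ | ⟨m', n', e2⟩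
      · have him := congrArg Complex.im e2
        have : (c0 : ℂ).im = 0 := by
          rw [hc0]
          have : (1 / (2 * (d : ℂ))) = ((1 / (2 * (d : ℝ)) : ℝ) : ℂ) := by push_cast; ring
          rw [this, Complex.ofReal_im]
        simp [this] at him
        have h0 : al ≠ 0 := by linarith
        have h3 : (1 : ℝ) = 2 * n' := by
          have h4 : al * 1 = al * (2 * n') := by linarith
          exact mul_left_cancel₀ h0 h4
        have h5 : (1 : ℤ) = 2 * n' := by exact_mod_cast h3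
        omega
      · have him := congrArg Complex.im e2
        simp at him
        have h0 : al ≠ 0 := by linarith
        have h3 : (1 : ℝ) = 2 * n' := by
          have h4 : al * 1 = al * (2 * n') := by linarith
          exact mul_left_cancel₀ h0 h4
        have h5 : (1 : ℤ) = 2 * n' := by exact_mod_cast h3
        omega
    · exact h1
  rw [hε'1] at j4
  have key : ∀ cs : ℂ, (∀ w : ℂ, th3 al w * th3 be y2 + th4 al w * th4 be y2 = 0 →
      th3 al w * th4 al cs = th4 al w * th3 al cs) → ∀ w : ℂ,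
      th3 al w * th3 be y2 + th4 al w * th4 be y2 = 0 →
        (∃ m n : ℤ, w + cs = m + 2 * n * (I * al)) ∨
        (∃ m n : ℤ, w - cs = m + 2 * n * (I * al)) := fun cs hcs w hw =>
    (th_ratio_iff al h w cs).mp (hcs w hw)
  -- criterion: th3 be y2 * th3 al cs = - th4 be y2 * th4 al cs gives the determinant relation
  have crit : ∀ cs : ℂ, th3 al cs * th3 be y2 + th4 al cs * th4 be y2 = 0 →
      ∀ w : ℂ, th3 al w * th3 be y2 + th4 al w * th4 be y2 = 0 →
      th3 al w * th4 al cs = th4 al w * th3 al cs := by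
    intro cs h1 w h2
    by_contra hne
    have hne' := sub_ne_zero.mpr hne
    have e3 : (th3 al w * th4 al cs - th4 al w * th3 al cs) * th3 be y2 = 0 := by
      linear_combination (th4 al cs) * h2 - (th4 al w) * h1
    have e4 : (th3 al w * th4 al cs - th4 al w * th3 al cs) * th4 be y2 = 0 := by
      linear_combination (th3 al w) * h1 - (th3 al cs) * h2
    exact hB y2 ⟨(mul_eq_zero.mp e3).resolve_left hne', (mul_eq_zero.mp e4).resolve_left hne'⟩
  rcases YB2.shift_m be m with ⟨s3, s4⟩ | ⟨s3, s4⟩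
  · rcases hε with hε | hε
    · -- th3 be y2 = κ th3 be 0, th4 be y2 = κ th4 be 0 : cs = c0 + 1/2 + I al
      refine ⟨c0 + (1 : ℤ) * (I * al) + 1 / 2, ⟨1, 1, ?_⟩, key _ (crit _ ?_)⟩
      · rw [hc0]; push_cast; field_simp; ring
      · rw [th3_add_half, th4_add_half, j3, j4, k3, k4, s3, s4, hε]
        linear_combination (-κ * κ') * ht
    · refine ⟨c0 + 1 / 2, ⟨1, 0, ?_⟩, key _ (crit _ ?_)⟩
      · rw [hc0]; push_cast; field_simp; ring
      · rw [th3_add_half, th4_add_half, k3, k4, s3, s4, hε]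
        linear_combination κ * ht
  · rcases hε with hε | hε
    · refine ⟨c0 + (1 : ℤ) * (I * al), ⟨0, 1, ?_⟩, key _ (crit _ ?_)⟩
      · rw [hc0]; push_cast; field_simp; ring
      · rw [j3, j4, k3, k4, s3, s4, hε]
        linear_combination (-κ * κ') * ht
    · refine ⟨c0, ⟨0, 0, ?_⟩, key _ (crit _ ?_)⟩
      · rw [hc0]; push_cast; field_simp; ring
      · rw [k3, k4, s3, s4, hε]
        linear_combination (-κ) * ht

end YC

end Pool.Agent.AM
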