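import Pool.Agent.AM.Core7
import Pool.Agent.AM.YC
import Pool.Agent.AM.EvenFinal

/-! The odd theta function, its singular points and their normalisation. -/

set_option autoImplicit false
open Complex Filter Topology
open scoped ENNReal
namespace Pool.Agent.AM

/-- one term of the odd theta function -/
noncomputable def tO (d m : ℕ) (be : ℝ) (s : Fin (m + 1) → ℝ) (a : Fin d)
    (z : Fin (m + 3) → ℂ) : ℂ :=
  sO d 1 be (a : ℕ) (z 0) (z 1) * ∏ l : Fin (m + 1), U d (s l) (a : ℕ) (z l.succ.succ)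

/-- odd type theta function in product coordinates -/
noncomputable def fO (d m : ℕ) (be : ℝ) (s : Fin (m + 1) → ℝ) (z : Fin (m + 3) → ℂ) : ℂ :=
  ∑ a : Fin d, tO d m be s a z

/-- the equations of the singular points -/
structure SingO (d m : ℕ) (be : ℝ) (s : Fin (m + 1) → ℝ) (z : Fin (m + 3) → ℂ) : Prop where
  e0 : ∑ a : Fin d, sO d 1 be (a : ℕ) (z 0) (z 1) *
    ∏ l : Fin (m + 1), U d (s l) (a : ℕ) (z l.succ.succ) = 0
  e1 : ∑ a : Fin d, ds1 d 1 be (a : ℕ) (z 0) (z 1) *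
    ∏ l : Fin (m + 1), U d (s l) (a : ℕ) (z l.succ.succ) = 0
  e2 : ∑ a : Fin d, ds2 d 1 be (a : ℕ) (z 0) (z 1) *
    ∏ l : Fin (m + 1), U d (s l) (a : ℕ) (z l.succ.succ) = 0
  e3 : ∀ l, ∑ a : Fin d, sO d 1 be (a : ℕ) (z 0) (z 1) *
    (U1 d (s l) (a : ℕ) (z l.succ.succ) *
      ∏ l' ∈ Finset.univ.erase l, U d (s l') (a : ℕ) (z l'.succ.succ)) = 0

lemma hasFDerivAt_sO (d : ℕ) (al be : ℝ) (hal : 0 < al) (hbe : 0 < be) (a : ℤ) (n : ℕ)
    (z : Fin (n + 2) → ℂ) :
    HasFDerivAt (fun z : Fin (n + 2) → ℂ => sO d al be a (z 0) (z 1))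
      (ds1 d al be a (z 0) (z 1) •
        (ContinuousLinearMap.proj (R := ℂ) (φ := fun _ : Fin (n + 2) => ℂ) 0) +
       ds2 d al be a (z 0) (z 1) •
        (ContinuousLinearMap.proj (R := ℂ) (φ := fun _ : Fin (n + 2) => ℂ) 1)) z := by
  have p0 : HasFDerivAt (fun z : Fin (n + 2) → ℂ => z 0)
    (ContinuousLinearMap.proj (R := ℂ) (φ := fun _ : Fin (n + 2) => ℂ) 0) z :=
    (ContinuousLinearMap.proj (R := ℂ) (φ := fun _ : Fin (n + 2) => ℂ) 0).hasFDerivAt
  have p1 : HasFDerivAt (fun z : Fin (n + 2) → ℂ => z 1)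
    (ContinuousLinearMap.proj (R := ℂ) (φ := fun _ : Fin (n + 2) => ℂ) 1) z :=
    (ContinuousLinearMap.proj (R := ℂ) (φ := fun _ : Fin (n + 2) => ℂ) 1).hasFDerivAt
  have p0' : HasFDerivAt (fun z : Fin (n + 2) → ℂ => z 0 + (a : ℂ) / d)
    (ContinuousLinearMap.proj (R := ℂ) (φ := fun _ : Fin (n + 2) => ℂ) 0) z := p0.add_const _
  have a3 := (th3_diff al hal (z 0 + a / d)).hasDerivAt.comp_hasFDerivAt z p0'
  have a4 := (th4_diff al hal (z 0 + a / d)).hasDerivAt.comp_hasFDerivAt z p0'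
  have b3 := (th3_diff be hbe (z 1)).hasDerivAt.comp_hasFDerivAt z p1
  have b4 := (th4_diff be hbe (z 1)).hasDerivAt.comp_hasFDerivAt z p1
  have h := (a3.mul b3).add (a4.mul b4)
  refine h.congr_fderiv ?_
  ext v
  simp only [ds1, ds2, _root_.add_apply, _root_.smul_apply, ContinuousLinearMap.proj_apply,
    smul_eq_mul, Function.comp]
  ring

lemma hasFDerivAt_prodU' (d m : ℕ) (hd : 0 < d) (s : Fin (m + 1) → ℝ) (hs : ∀ l, 0 < s l)
    (a : ℤ) (z : Fin (m + 3) → ℂ) :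
    HasFDerivAt (fun z : Fin (m + 3) → ℂ => ∏ l : Fin (m + 1), U d (s l) a (z l.succ.succ))
      (∑ l : Fin (m + 1), (∏ l' ∈ Finset.univ.erase l, U d (s l') a (z l'.succ.succ)) •
        ((2 * (Real.pi : ℂ) * I * U1 d (s l) a (z l.succ.succ)) •
          (ContinuousLinearMap.proj (R := ℂ) (φ := fun _ : Fin (m + 3) => ℂ) l.succ.succ))) z := by
  refine HasFDerivAt.finsetProd (u := Finset.univ)
    (g := fun (l : Fin (m + 1)) (z : Fin (m + 3) → ℂ) => U d (s l) a (z l.succ.succ))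
    (g' := fun l => (2 * (Real.pi : ℂ) * I * U1 d (s l) a (z l.succ.succ)) •
          (ContinuousLinearMap.proj (R := ℂ) (φ := fun _ : Fin (m + 3) => ℂ) l.succ.succ)) ?_
  intro l _
  have h1 := (hasDerivAt_U d hd (s l) (hs l) a (z l.succ.succ))
  have h2 : HasFDerivAt (fun z : Fin (m + 3) → ℂ => z l.succ.succ)
    (ContinuousLinearMap.proj (R := ℂ) (φ := fun _ : Fin (m + 3) => ℂ) l.succ.succ) z :=
    (ContinuousLinearMap.proj (R := ℂ) (φ := fun _ : Fin (m + 3) => ℂ) l.succ.succ).hasFDerivAt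
  exact h1.comp_hasFDerivAt z h2

/-- the total derivative of one term -/
noncomputable def dtO (d m : ℕ) (be : ℝ) (s : Fin (m + 1) → ℝ) (a : Fin d)
    (z : Fin (m + 3) → ℂ) : (Fin (m + 3) → ℂ) →L[ℂ] ℂ :=
  sO d 1 be (a : ℕ) (z 0) (z 1) •
    (∑ l : Fin (m + 1), (∏ l' ∈ Finset.univ.erase l, U d (s l') (a : ℕ) (z l'.succ.succ)) •
        ((2 * (Real.pi : ℂ) * I * U1 d (s l) (a : ℕ) (z l.succ.succ)) •
          (ContinuousLinearMap.proj (R := ℂ) (φ := fun _ : Fin (m + 3) => ℂ) l.succ.succ))) +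
  (∏ l : Fin (m + 1), U d (s l) (a : ℕ) (z l.succ.succ)) •
    (ds1 d 1 be (a : ℕ) (z 0) (z 1) •
        (ContinuousLinearMap.proj (R := ℂ) (φ := fun _ : Fin (m + 3) => ℂ) 0) +
       ds2 d 1 be (a : ℕ) (z 0) (z 1) •
        (ContinuousLinearMap.proj (R := ℂ) (φ := fun _ : Fin (m + 3) => ℂ) 1))

lemma hasFDerivAt_tO (d m : ℕ) (hd : 0 < d) (be : ℝ) (hbe : 0 < be) (s : Fin (m + 1) → ℝ)
    (hs : ∀ l, 0 < s l) (a : Fin d) (z : Fin (m + 3) → ℂ) :
    HasFDerivAt (tO d m be s a) (dtO d m be s a z) z :=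
  (hasFDerivAt_sO d 1 be one_pos hbe (a : ℕ) (m + 1) z).mul
    (hasFDerivAt_prodU' d m hd s hs (a : ℕ) z)

lemma hasFDerivAt_fO (d m : ℕ) (hd : 0 < d) (be : ℝ) (hbe : 0 < be) (s : Fin (m + 1) → ℝ)
    (hs : ∀ l, 0 < s l) (z : Fin (m + 3) → ℂ) :
    HasFDerivAt (fO d m be s) (∑ a : Fin d, dtO d m be s a z) z := by
  unfold fO
  exact HasFDerivAt.fun_sum fun a _ => hasFDerivAt_tO d m hd be hbe s hs a z

lemma dtO_zero (d m : ℕ) (be : ℝ) (s : Fin (m + 1) → ℝ) (a : Fin d) (z : Fin (m + 3) → ℂ) :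
    dtO d m be s a z (Pi.single 0 1) = ds1 d 1 be (a : ℕ) (z 0) (z 1) *
      ∏ l : Fin (m + 1), U d (s l) (a : ℕ) (z l.succ.succ) := by
  unfold dtO
  simp only [_root_.add_apply, _root_.smul_apply, _root_.sum_apply,
    ContinuousLinearMap.proj_apply, smul_eq_mul, Pi.single_eq_same]
  rw [Finset.sum_eq_zero (fun l _ => by
    rw [Pi.single_eq_of_ne (show (l.succ.succ : Fin (m + 3)) ≠ 0 from Fin.succ_ne_zero _)]; ring)]
  rw [Pi.single_eq_of_ne (show (1 : Fin (m + 3)) ≠ 0 by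
    intro h; have := congrArg Fin.val h; simp at this)]
  ring

lemma dtO_one (d m : ℕ) (be : ℝ) (s : Fin (m + 1) → ℝ) (a : Fin d) (z : Fin (m + 3) → ℂ) :
    dtO d m be s a z (Pi.single 1 1) = ds2 d 1 be (a : ℕ) (z 0) (z 1) *
      ∏ l : Fin (m + 1), U d (s l) (a : ℕ) (z l.succ.succ) := by
  unfold dtO
  simp only [_root_.add_apply, _root_.smul_apply, _root_.sum_apply,
    ContinuousLinearMap.proj_apply, smul_eq_mul, Pi.single_eq_same]
  rw [Finset.sum_eq_zero (fun l _ => by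
    rw [Pi.single_eq_of_ne (show (l.succ.succ : Fin (m + 3)) ≠ 1 by
      intro h; have := congrArg Fin.val h; simp at this)]; ring)]
  rw [Pi.single_eq_of_ne (show (0 : Fin (m + 3)) ≠ 1 by
    intro h; have := congrArg Fin.val h; simp at this)]
  ring

lemma dtO_succ (d m : ℕ) (be : ℝ) (s : Fin (m + 1) → ℝ) (a : Fin d) (z : Fin (m + 3) → ℂ)
    (l : Fin (m + 1)) :
    dtO d m be s a z (Pi.single l.succ.succ 1) = (2 * (Real.pi : ℂ) * I) *
      (sO d 1 be (a : ℕ) (z 0) (z 1) * (U1 d (s l) (a : ℕ) (z l.succ.succ) *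
      ∏ l' ∈ Finset.univ.erase l, U d (s l') (a : ℕ) (z l'.succ.succ))) := by
  unfold dtO
  simp only [_root_.add_apply, _root_.smul_apply, _root_.sum_apply,
    ContinuousLinearMap.proj_apply, smul_eq_mul]
  rw [Finset.sum_eq_single l (fun l' _ hl' => by
    rw [Pi.single_eq_of_ne (show (l'.succ.succ : Fin (m + 3)) ≠ l.succ.succ by
      intro h; exact hl' (Fin.succ_injective _ (Fin.succ_injective _ h)))]; ring) (by simp)]
  rw [Pi.single_eq_same, Pi.single_eq_of_ne (show (0 : Fin (m + 3)) ≠ l.succ.succ from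
    (Fin.succ_ne_zero _).symm), Pi.single_eq_of_ne (show (1 : Fin (m + 3)) ≠ l.succ.succ by
      intro h; have := congrArg Fin.val h; simp at this)]
  ring

theorem sing_fO_iff (d m : ℕ) (hd : 0 < d) (be : ℝ) (hbe : 0 < be) (s : Fin (m + 1) → ℝ)
    (hs : ∀ l, 0 < s l) (z : Fin (m + 3) → ℂ) :
    (fO d m be s z = 0 ∧ fderiv ℂ (fO d m be s) z = 0) ↔ SingO d m be s z := by
  have h2pi : (2 * (Real.pi : ℂ) * I) ≠ 0 := by
    have : (Real.pi : ℂ) ≠ 0 := by exact_mod_cast Real.pi_ne_zero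
    simp [this]
  rw [(hasFDerivAt_fO d m hd be hbe s hs z).fderiv]
  constructor
  · rintro ⟨h0, h1⟩
    refine ⟨h0, ?_, ?_, ?_⟩
    · have h2 := congrArg (fun L => L (Pi.single 0 1)) h1
      simp only [_root_.sum_apply, dtO_zero, _root_.zero_apply] at h2
      exact h2
    · have h2 := congrArg (fun L => L (Pi.single 1 1)) h1
      simp only [_root_.sum_apply, dtO_one, _root_.zero_apply] at h2
      exact h2
    · intro l
      have h2 := congrArg (fun L => L (Pi.single l.succ.succ 1)) h1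
      simp only [_root_.sum_apply, dtO_succ, _root_.zero_apply] at h2
      rw [← Finset.mul_sum] at h2
      exact (mul_eq_zero.mp h2).resolve_left h2pi
  · intro h
    refine ⟨h.e0, clm_eq_zero _ fun i => ?_⟩
    simp only [_root_.sum_apply]
    induction i using Fin.cases with
    | zero => simp only [dtO_zero]; exact h.e1
    | succ i =>
      induction i using Fin.cases with
      | zero =>
        have e : (Fin.succ (0 : Fin (m + 2))) = 1 := rfl
        rw [e]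
        simp only [dtO_one]; exact h.e2
      | succ l =>
        simp only [dtO_succ]
        rw [← Finset.mul_sum, h.e3 l, mul_zero]

/-- translation by a quasi period -/
theorem SingO.shift {d m : ℕ} (hd : 0 < d) {be : ℝ} (hbe : 0 < be) {s : Fin (m + 1) → ℝ}
    (hs : ∀ l, 0 < s l) (v : Fin (m + 3) → ℂ) (C : (Fin (m + 3) → ℂ) → ℂ)
    (hC : Differentiable ℂ C) (h : ∀ (a : Fin d) z, tO d m be s a (z + v) = C z * tO d m be s a z)
    (z : Fin (m + 3) → ℂ) (hz : SingO d m be s z) : SingO d m be s (z + v) := by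
  rw [← sing_fO_iff d m hd be hbe s hs] at hz ⊢
  have hf : ∀ z, fO d m be s (z + v) = C z * fO d m be s z := by
    intro z
    unfold fO
    rw [Finset.mul_sum]
    exact Finset.sum_congr rfl fun a _ => h a z
  refine ⟨by rw [hf, hz.1, mul_zero], ?_⟩
  have h1 : HasFDerivAt (fun z => fO d m be s (z + v)) (fderiv ℂ (fO d m be s) (z + v)) z := by
    have h2 := (hasFDerivAt_fO d m hd be hbe s hs (z + v))
    rw [h2.fderiv]
    have h3 : HasFDerivAt (fun z : Fin (m + 3) → ℂ => z + v)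
      (ContinuousLinearMap.id ℂ (Fin (m + 3) → ℂ)) z := (hasFDerivAt_id z).add_const v
    have h4 := h2.comp z h3
    rw [ContinuousLinearMap.comp_id] at h4
    exact h4
  have h2 : HasFDerivAt (fun z => C z * fO d m be s z)
      (C z • fderiv ℂ (fO d m be s) z + fO d m be s z • fderiv ℂ C z) z := by
    have h3 := (hasFDerivAt_fO d m hd be hbe s hs z)
    have h4 := (hC z).hasFDerivAt.mul h3
    rw [h3.fderiv]
    exact h4
  rw [show (fun z => fO d m be s (z + v)) = fun z => C z * fO d m be s z from funext hf] at h1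
  rw [h1.unique h2, hz.1, hz.2]
  refine ContinuousLinearMap.ext fun w => ?_
  show C z * 0 + 0 * _ = 0
  ring

end Pool.Agent.AM
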