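import Pool.Agent.AM.Core8

/-! Normalisation of singular points in the odd case. -/

set_option autoImplicit false
open Complex Filter Topology
namespace Pool.Agent.AM

lemma th3_shift2 (al : ℝ) (w : ℂ) (k n : ℤ) : th3 al (w + (k + 2 * n * (I * al))) =
    cexp ((Real.pi : ℂ) * al * (2 * n) ^ 2 - 2 * (Real.pi : ℂ) * I * (2 * n) * w) * th3 al w := by
  have e1 : w + (k + 2 * n * (I * al)) = (w + ((2 * n : ℤ) : ℂ) * (I * al)) + (k : ℂ) := by
    push_cast; ring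
  rw [e1, th3_add_int, th3_add_int_tau]
  push_cast
  rfl

lemma th4_shift2 (al : ℝ) (w : ℂ) (k n : ℤ) : th4 al (w + (k + 2 * n * (I * al))) =
    cexp ((Real.pi : ℂ) * al * (2 * n) ^ 2 - 2 * (Real.pi : ℂ) * I * (2 * n) * w) * th4 al w := by
  rw [← th3_add_half, ← th3_add_half]
  have e1 : w + (k + 2 * n * (I * al)) + 1 / 2 = (w + 1 / 2) + (k + 2 * n * (I * al)) := by ring
  rw [e1, th3_shift2]
  congr 1
  rw [show (Real.pi : ℂ) * al * (2 * n) ^ 2 - 2 * (Real.pi : ℂ) * I * (2 * n) * (w + 1 / 2) =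
    ((Real.pi : ℂ) * al * (2 * n) ^ 2 - 2 * (Real.pi : ℂ) * I * (2 * n) * w) +
      ((-n : ℤ) : ℂ) * (2 * Real.pi * I) by push_cast; ring, Complex.exp_add,
    Complex.exp_int_mul_two_pi_mul_I, mul_one]

lemma th4_add_int_tau' (al : ℝ) (w : ℂ) (n : ℤ) : th4 al (w + n * (I * al)) =
    cexp ((Real.pi : ℂ) * al * (n : ℂ) ^ 2 - 2 * (Real.pi : ℂ) * I * n * w) *
      (cexp (-(n : ℂ) * (Real.pi * I)) * th4 al w) := by
  rw [← th3_add_half, ← th3_add_half]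
  have e1 : w + n * (I * al) + 1 / 2 = (w + 1 / 2) + n * (I * al) := by ring
  rw [e1, th3_add_int_tau, ← mul_assoc, ← Complex.exp_add]
  congr 2
  ring

lemma U_add_div (d : ℕ) (hd : 0 < d) (s : ℝ) (a : ℤ) (x : ℂ) (k : ℤ) :
    U d s a (x + k / d) = cexp (2 * (Real.pi : ℂ) * I * (k * a) / d) * U d s a x := by
  have hdc : (d : ℂ) ≠ 0 := by exact_mod_cast hd.ne'
  unfold U
  rw [← tsum_mul_left]
  refine tsum_congr fun j => ?_
  unfold tm
  rw [← Complex.exp_add]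
  rw [show -(Real.pi : ℂ) * s * ((a + d * j : ℤ) : ℂ) ^ 2 +
      2 * (Real.pi : ℂ) * I * ((a + d * j : ℤ) : ℂ) * (x + k / d) =
      (2 * (Real.pi : ℂ) * I * (k * a) / d + (-(Real.pi : ℂ) * s * ((a + d * j : ℤ) : ℂ) ^ 2 +
        2 * (Real.pi : ℂ) * I * ((a + d * j : ℤ) : ℂ) * x)) +
      ((k * j : ℤ) : ℂ) * (2 * Real.pi * I) by
    push_cast; field_simp; ring, Complex.exp_add _ (((k * j : ℤ) : ℂ) * (2 * Real.pi * I)),
    Complex.exp_int_mul_two_pi_mul_I, mul_one]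

/-- first shift vector -/
noncomputable def v3 (d m : ℕ) (be : ℝ) (k : ℤ) : Fin (m + 3) → ℂ :=
  Fin.cons ((k : ℂ) * (I * (1 : ℝ))) (Fin.cons ((k : ℂ) * (I * be))
    (Fin.cons ((k : ℂ) / d) (fun _ => 0)))

lemma tO_v3 (d m : ℕ) (hd : 0 < d) (be : ℝ) (s : Fin (m + 1) → ℝ) (k : ℤ) (a : Fin d)
    (z : Fin (m + 3) → ℂ) : tO d m be s a (z + v3 d m be k) =
      (cexp ((Real.pi : ℂ) * (1 : ℝ) * (k : ℂ) ^ 2 - 2 * (Real.pi : ℂ) * I * k * z 0) *
        cexp ((Real.pi : ℂ) * be * (k : ℂ) ^ 2 - 2 * (Real.pi : ℂ) * I * k * z 1)) *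
        tO d m be s a z := by
  have hdc : (d : ℂ) ≠ 0 := by exact_mod_cast hd.ne'
  have h0 : (z + v3 d m be k) 0 = z 0 + (k : ℂ) * (I * (1 : ℝ)) := rfl
  have h1 : (z + v3 d m be k) 1 = z 1 + (k : ℂ) * (I * be) := rfl
  have h2 : (z + v3 d m be k) (Fin.succ (Fin.succ (0 : Fin (m + 1)))) =
    z (Fin.succ (Fin.succ (0 : Fin (m + 1)))) + (k : ℂ) / d := rfl
  have h3 : ∀ l : Fin m, (z + v3 d m be k) l.succ.succ.succ = z l.succ.succ.succ := by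
    intro l
    show z l.succ.succ.succ + 0 = _
    rw [add_zero]
  have hs : sO d 1 be (a : ℕ) (z 0 + (k : ℂ) * (I * (1 : ℝ))) (z 1 + (k : ℂ) * (I * be)) =
      cexp ((Real.pi : ℂ) * (1 : ℝ) * (k : ℂ) ^ 2 -
        2 * (Real.pi : ℂ) * I * k * (z 0 + ((a : ℕ) : ℤ) / d)) *
      cexp ((Real.pi : ℂ) * be * (k : ℂ) ^ 2 - 2 * (Real.pi : ℂ) * I * k * z 1) *
        sO d 1 be (a : ℕ) (z 0) (z 1) := by
    unfold sO
    have e1 : z 0 + (k : ℂ) * (I * (1 : ℝ)) + (((a : ℕ) : ℤ) : ℂ) / d =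
      (z 0 + (((a : ℕ) : ℤ) : ℂ) / d) + (k : ℂ) * (I * (1 : ℝ)) := by ring
    rw [e1, th3_add_int_tau, th3_add_int_tau, th4_add_int_tau', th4_add_int_tau']
    have e2 : cexp (-(k : ℂ) * (Real.pi * I)) * cexp (-(k : ℂ) * (Real.pi * I)) = 1 := by
      rw [← Complex.exp_add, show -(k : ℂ) * (Real.pi * I) + -(k : ℂ) * (Real.pi * I) =
        ((-k : ℤ) : ℂ) * (2 * Real.pi * I) by push_cast; ring,
        Complex.exp_int_mul_two_pi_mul_I]
    generalize cexp (-(k : ℂ) * (Real.pi * I)) = X at e2 ⊢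
    generalize cexp ((Real.pi : ℂ) * (1 : ℝ) * (k : ℂ) ^ 2 -
        2 * (Real.pi : ℂ) * I * k * (z 0 + (((a : ℕ) : ℤ) : ℂ) / d)) = A
    generalize cexp ((Real.pi : ℂ) * be * (k : ℂ) ^ 2 - 2 * (Real.pi : ℂ) * I * k * z 1) = B
    linear_combination (A * B * th4 1 (z 0 + (((a : ℕ) : ℤ) : ℂ) / d) * th4 be (z 1)) * e2
  unfold tO
  rw [h0, h1, hs, Fin.prod_univ_succ, Fin.prod_univ_succ, h2, U_add_div d hd]
  simp only [h3]
  have e3 : cexp ((Real.pi : ℂ) * (1 : ℝ) * (k : ℂ) ^ 2 -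
        2 * (Real.pi : ℂ) * I * k * (z 0 + ((a : ℕ) : ℤ) / d)) *
      cexp (2 * (Real.pi : ℂ) * I * (k * ((a : ℕ) : ℤ)) / d) =
      cexp ((Real.pi : ℂ) * (1 : ℝ) * (k : ℂ) ^ 2 - 2 * (Real.pi : ℂ) * I * k * z 0) := by
    rw [← Complex.exp_add]
    congr 1
    field_simp
    ring
  rw [← e3]
  ring

/-- second shift vector -/
noncomputable def v4 (d m : ℕ) (be : ℝ) (s : Fin (m + 1) → ℝ) (k1 k2 j : ℤ)
    (kx : Fin (m + 1) → ℤ) : Fin (m + 3) → ℂ :=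
  Fin.cons (k1 : ℂ) (Fin.cons ((k2 : ℂ) + 2 * j * (I * be))
    (fun l => (kx l : ℂ) * (I * d * s l)))

lemma tO_v4 (d m : ℕ) (hd : 0 < d) (be : ℝ) (s : Fin (m + 1) → ℝ) (k1 k2 j : ℤ)
    (kx : Fin (m + 1) → ℤ) (a : Fin d)
    (z : Fin (m + 3) → ℂ) : tO d m be s a (z + v4 d m be s k1 k2 j kx) =
      (cexp ((Real.pi : ℂ) * be * (2 * j) ^ 2 - 2 * (Real.pi : ℂ) * I * (2 * j) * z 1) *
        ∏ l : Fin (m + 1), cexp ((Real.pi : ℂ) * s l * (kx l * d) ^ 2 -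
          2 * (Real.pi : ℂ) * I * (kx l * d) * z l.succ.succ)) *
        tO d m be s a z := by
  have h0 : (z + v4 d m be s k1 k2 j kx) 0 = z 0 + (k1 : ℂ) := rfl
  have h1 : (z + v4 d m be s k1 k2 j kx) 1 = z 1 + ((k2 : ℂ) + 2 * j * (I * be)) := rfl
  have h2 : ∀ l : Fin (m + 1), (z + v4 d m be s k1 k2 j kx) l.succ.succ =
    z l.succ.succ + (kx l : ℂ) * (I * d * s l) := fun l => rfl
  have hs : sO d 1 be (a : ℕ) (z 0 + (k1 : ℂ)) (z 1 + ((k2 : ℂ) + 2 * j * (I * be))) =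
      cexp ((Real.pi : ℂ) * be * (2 * j) ^ 2 - 2 * (Real.pi : ℂ) * I * (2 * j) * z 1) *
        sO d 1 be (a : ℕ) (z 0) (z 1) := by
    unfold sO
    have e1 : z 0 + (k1 : ℂ) + (((a : ℕ) : ℤ) : ℂ) / d =
      (z 0 + (((a : ℕ) : ℤ) : ℂ) / d) + (k1 : ℂ) := by ring
    have e2 : z 0 + (((a : ℕ) : ℤ) : ℂ) / d + (k1 : ℂ) =
      (z 0 + (((a : ℕ) : ℤ) : ℂ) / d) + (k1 + 2 * ((0 : ℤ) : ℂ) * (I * (1 : ℝ))) := by
      push_cast; ring
    rw [e1, e2, th3_shift2, th4_shift2, th3_shift2, th4_shift2]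
    simp
    ring
  unfold tO
  rw [h0, h1, hs]
  simp only [h2, U_shift d hd, Finset.prod_mul_distrib]
  ring

/-- normalisation -/
theorem normalizeO (d m : ℕ) (hd : 0 < d) (be : ℝ) (hbe : 0 < be) (s : Fin (m + 1) → ℝ)
    (hs : ∀ l, 0 < s l) (z : Fin (m + 3) → ℂ) (hz : SingO d m be s z) :
    ∃ z', SingO d m be s z' ∧ |(z' 0).im| ≤ 1 / 2 ∧ |(z' 0).re| ≤ 1 ∧ |(z' 1).im| ≤ be ∧
      |(z' 1).re| ≤ 1 ∧ (∀ l : Fin (m + 1), |(z' l.succ.succ).im / s l| ≤ d) ∧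
      ∀ a, tO d m be s a z ≠ 0 → tO d m be s a z' ≠ 0 := by
  set k : ℤ := -round (z 0).im with hk
  set z1 : Fin (m + 3) → ℂ := z + v3 d m be k with hz1
  have hz1s : SingO d m be s z1 := by
    refine SingO.shift hd hbe hs (v3 d m be k) (fun z =>
      cexp ((Real.pi : ℂ) * (1 : ℝ) * (k : ℂ) ^ 2 - 2 * (Real.pi : ℂ) * I * k * z 0) *
        cexp ((Real.pi : ℂ) * be * (k : ℂ) ^ 2 - 2 * (Real.pi : ℂ) * I * k * z 1)) ?_
      (fun a z => tO_v3 d m hd be s k a z) z hz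
    fun_prop
  choose kx hkx using fun l : Fin (m + 1) => exists_shift d hd (s l) (hs l) (z1 l.succ.succ)
  set k1 : ℤ := -round (z1 0).re with hk1
  set k2 : ℤ := -round (z1 1).re with hk2
  set j : ℤ := -round ((z1 1).im / (2 * be)) with hj
  refine ⟨z1 + v4 d m be s k1 k2 j kx, ?_, ?_, ?_, ?_, ?_, ?_, ?_⟩
  · refine SingO.shift hd hbe hs (v4 d m be s k1 k2 j kx) (fun z =>
      (cexp ((Real.pi : ℂ) * be * (2 * j) ^ 2 - 2 * (Real.pi : ℂ) * I * (2 * j) * z 1) *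
        ∏ l : Fin (m + 1), cexp ((Real.pi : ℂ) * s l * (kx l * d) ^ 2 -
          2 * (Real.pi : ℂ) * I * (kx l * d) * z l.succ.succ))) ?_
      (fun a z => tO_v4 d m hd be s k1 k2 j kx a z) z1 hz1s
    fun_prop
  · have e1 : ((z1 + v4 d m be s k1 k2 j kx) 0).im = (z 0).im - round (z 0).im := by
      show (z 0 + (k : ℂ) * (I * (1 : ℝ)) + (k1 : ℂ)).im = _
      simp [hk]
      ring
    rw [e1]
    exact abs_sub_round _
  · have e1 : ((z1 + v4 d m be s k1 k2 j kx) 0).re = (z1 0).re - round (z1 0).re := by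
      show (z1 0 + (k1 : ℂ)).re = _
      simp [hk1]
      ring
    rw [e1]
    have := abs_sub_round (z1 0).re
    linarith
  · have e1 : ((z1 + v4 d m be s k1 k2 j kx) 1).im =
        (2 * be) * ((z1 1).im / (2 * be) - round ((z1 1).im / (2 * be))) := by
      show (z1 1 + ((k2 : ℂ) + 2 * j * (I * be))).im = _
      simp [hj]
      field_simp
      ring
    rw [e1, abs_mul, abs_of_pos (by positivity)]
    have := abs_sub_round ((z1 1).im / (2 * be))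
    calc 2 * be * |(z1 1).im / (2 * be) - round ((z1 1).im / (2 * be))| ≤ 2 * be * (1 / 2) :=
          mul_le_mul_of_nonneg_left this (by positivity)
      _ = be := by ring
  · have e1 : ((z1 + v4 d m be s k1 k2 j kx) 1).re = (z1 1).re - round (z1 1).re := by
      show (z1 1 + ((k2 : ℂ) + 2 * j * (I * be))).re = _
      simp [hk2]
      ring
    rw [e1]
    have := abs_sub_round (z1 1).re
    linarith
  · intro l
    exact hkx l
  · intro a ha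
    rw [tO_v4 d m hd, hz1, tO_v3 d m hd]
    refine mul_ne_zero (mul_ne_zero (Complex.exp_ne_zero _) ?_)
      (mul_ne_zero (mul_ne_zero (Complex.exp_ne_zero _) (Complex.exp_ne_zero _)) ha)
    exact Finset.prod_ne_zero_iff.mpr fun l _ => Complex.exp_ne_zero _

end Pool.Agent.AM
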