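import Pool.Agent.AM.Defs
import Pool.Agent.Sqz.HolDeriv

/-! Job AM-3b: Hausdorff dimension of zero sets of holomorphic functions. -/

set_option autoImplicit false

open Complex Filter Topology Metric Set Module
open scoped ENNReal

namespace Pool.Agent.AM

namespace D2

/-- a bound for the local dimensions is a bound for the dimension -/
lemma dimH_le_of_local {X : Type} [EMetricSpace X] [SecondCountableTopology X] {s : Set X}
    {r : ℝ≥0∞} (h : ∀ x ∈ s, ∃ t ∈ 𝓝[s] x, dimH t ≤ r) : dimH s ≤ r := by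
  by_contra hcon
  push Not at hcon
  obtain ⟨x, hx, hx2⟩ := exists_mem_nhdsWithin_lt_dimH_of_lt_dimH hcon
  obtain ⟨t, ht, ht2⟩ := h x hx
  exact absurd (hx2 t ht) (not_lt.2 ht2)

variable {E : Type} [NormedAddCommGroup E] [NormedSpace ℂ E] [FiniteDimensional ℂ E]

/-- near a point where the derivative does not vanish, a level set has real codimension two -/
lemma local_dim {G : E → ℂ} {z : E} {G' : E →L[ℂ] ℂ} (hG : HasStrictFDerivAt G G' z)
    (hG' : G' ≠ 0) : ∃ t ∈ 𝓝 z, dimH (t ∩ {w | G w = G z}) ≤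
      ((2 * (finrank ℂ E - 1) : ℕ) : ℝ≥0∞) := by
  have : CompleteSpace E := FiniteDimensional.complete ℂ E
  have hsurj : G'.range = ⊤ := by
    rw [LinearMap.range_eq_top]
    obtain ⟨v, hv⟩ : ∃ v, G' v ≠ 0 := by
      by_contra hcon
      push Not at hcon
      exact hG' (ContinuousLinearMap.ext hcon)
    intro c
    refine ⟨(c / G' v) • v, ?_⟩
    simp [hv]
  have hker : finrank ℂ G'.ker + 1 = finrank ℂ E := by
    have h1 := LinearMap.finrank_range_add_finrank_ker (G' : E →ₗ[ℂ] ℂ)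
    have h2 : finrank ℂ (LinearMap.range (G' : E →ₗ[ℂ] ℂ)) = 1 := by
      have : LinearMap.range (G' : E →ₗ[ℂ] ℂ) = ⊤ := hsurj
      rw [this, finrank_top, finrank_self]
    rw [h2] at h1
    have h3 : finrank ℂ (LinearMap.ker (G' : E →ₗ[ℂ] ℂ)) = finrank ℂ G'.ker := rfl
    omega
  obtain ⟨K, s, hs, hK⟩ := (hG.to_implicitFunction hsurj).exists_lipschitzOnWith
  have h1 := hG.eq_implicitFunction hsurj
  have h2 : ∀ᶠ x in 𝓝 z, (hG.implicitToOpenPartialHomeomorph G G' hsurj x).snd ∈ s := by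
    have h3 : ContinuousAt (hG.implicitToOpenPartialHomeomorph G G' hsurj) z :=
      (hG.implicitToOpenPartialHomeomorph G G' hsurj).continuousAt
        (hG.mem_implicitToOpenPartialHomeomorph_source hsurj)
    have h4 : ContinuousAt (fun x => (hG.implicitToOpenPartialHomeomorph G G' hsurj x).snd) z :=
      continuousAt_snd.comp h3
    refine h4.eventually_mem ?_
    simpa using hs
  refine ⟨_, h1.and h2, ?_⟩
  have hsub : ({x | hG.implicitFunction G G' hsurj (G x)
      (hG.implicitToOpenPartialHomeomorph G G' hsurj x).snd = x ∧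
      (hG.implicitToOpenPartialHomeomorph G G' hsurj x).snd ∈ s} ∩ {w | G w = G z}) ⊆
      (hG.implicitFunction G G' hsurj (G z)) '' s := by
    rintro x ⟨⟨hx1, hx2⟩, hx3⟩
    refine ⟨_, hx2, ?_⟩
    rw [mem_ofPred_eq] at hx3
    rw [← hx3]
    exact hx1
  calc dimH _ ≤ dimH ((hG.implicitFunction G G' hsurj (G z)) '' s) := dimH_mono hsub
    _ ≤ dimH s := hK.dimH_image_le
    _ ≤ dimH (univ : Set G'.ker) := dimH_mono (subset_univ _)
    _ = finrank ℝ G'.ker := Real.dimH_univ_eq_finrank G'.ker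
    _ = ((2 * (finrank ℂ E - 1) : ℕ) : ℝ≥0∞) := by
      rw [finrank_real_of_complex, ← hker, Nat.add_sub_cancel]

/-- iterated derivatives of a holomorphic function are holomorphic at the points of an open set -/
lemma diffAt_iter {V : Set E} (hV : IsOpen V) {F : E → ℂ} (hF : DifferentiableOn ℂ F V) (r : ℕ)
    {z : E} (hz : z ∈ V) : ContDiffAt ℂ 1 (iteratedFDeriv ℂ r F) z := by
  have h1 := Sqz.Hol.contDiffAt hV hF hz (r + 1)
  refine h1.iteratedFDeriv_right ?_
  push_cast
  rw [add_comm]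

/-- if all iterated derivatives vanish at a point the function vanishes near the point -/
lemma eventually_zero {V : Set E} (hV : IsOpen V) {F : E → ℂ} (hF : DifferentiableOn ℂ F V)
    {z : E} (hz : z ∈ V) (h0 : ∀ r, iteratedFDeriv ℂ r F z = 0) : F =ᶠ[𝓝 z] 0 := by
  obtain ⟨ρ, hρ, hρV⟩ := Metric.isOpen_iff.1 hV z hz
  filter_upwards [ball_mem_nhds z hρ] with x hx
  by_cases hxa : x = z
  · have h1 := h0 0
    have h2 : iteratedFDeriv ℂ 0 F z (fun _ => 0) = F z := iteratedFDeriv_zero_apply _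
    rw [hxa, ← h2, h1]
    simp
  have hne : 0 < ‖x - z‖ := norm_pos_iff.2 (sub_ne_zero.2 hxa)
  have hlt : ‖x - z‖ < ρ := by rwa [mem_ball, dist_eq_norm] at hx
  set R : ℝ := ρ / ‖x - z‖ with hR
  have hR1 : 1 < R := by rw [hR, lt_div_iff₀ hne]; linarith
  have hline : ∀ t ∈ ball (0 : ℂ) R, z + t • (x - z) ∈ V := by
    intro t ht
    apply hρV
    rw [mem_ball, dist_eq_norm, add_sub_cancel_left, norm_smul]
    have : ‖t‖ < R := by simpa using ht
    calc ‖t‖ * ‖x - z‖ < R * ‖x - z‖ := mul_lt_mul_of_pos_right this hne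
      _ = ρ := by rw [hR]; field_simp
  have hφ : DifferentiableOn ℂ (fun t : ℂ => F (z + t • (x - z))) (ball 0 R) := by
    refine hF.comp ?_ hline
    fun_prop
  have key : ∀ k : ℕ, ∀ t ∈ ball (0 : ℂ) R, iteratedDeriv k (fun t : ℂ => F (z + t • (x - z))) t =
      iteratedFDeriv ℂ k F (z + t • (x - z)) (fun _ => x - z) := by
    intro k
    induction k with
    | zero => intro t _; simp
    | succ k ih =>
      intro t ht
      rw [iteratedDeriv_succ]
      have h1 : iteratedDeriv k (fun t : ℂ => F (z + t • (x - z))) =ᶠ[𝓝 t]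
          fun t => iteratedFDeriv ℂ k F (z + t • (x - z)) (fun _ => x - z) := by
        filter_upwards [isOpen_ball.mem_nhds ht] with s hs using ih s hs
      rw [h1.deriv_eq, iteratedFDeriv_succ_apply_left]
      have h2 : HasFDerivAt (iteratedFDeriv ℂ k F)
          (fderiv ℂ (iteratedFDeriv ℂ k F) (z + t • (x - z))) (z + t • (x - z)) :=
        ((diffAt_iter hV hF k (hline t ht)).differentiableAt (by norm_num)).hasFDerivAt
      have h3 : HasDerivAt (fun t : ℂ => z + t • (x - z)) (x - z) t := by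
        simpa using ((hasDerivAt_id t).smul_const (x - z)).const_add z
      have h4 := h2.comp_hasDerivAt t h3
      have h5 := ((ContinuousMultilinearMap.apply ℂ (fun _ : Fin k => E) ℂ
        (fun _ => x - z)).hasFDerivAt.comp_hasDerivAt t h4)
      exact h5.deriv
  have h1 : (1 : ℂ) ∈ ball (0 : ℂ) R := by simpa using hR1
  have hs := Complex.hasSum_taylorSeries_on_ball hφ h1
  have hzz : ∀ n, iteratedDeriv n (fun t : ℂ => F (z + t • (x - z))) 0 = 0 := by
    intro n
    rw [key n 0 (mem_ball_self (by linarith))]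
    simp [h0]
  simp only [hzz, smul_zero] at hs
  have := hs.unique hasSum_zero
  simpa using this

/-- zero set of a holomorphic function which is nowhere locally zero -/
theorem dimH_zero_le' (V : Set E) (hV : IsOpen V) (F : E → ℂ) (hF : DifferentiableOn ℂ F V)
    (hne : ∀ z ∈ V, ¬ (F =ᶠ[𝓝 z] 0)) :
    dimH {z ∈ V | F z = 0} ≤ ((2 * (finrank ℂ E - 1) : ℕ) : ℝ≥0∞) := by
  have : CompleteSpace E := FiniteDimensional.complete ℂ E
  have : ProperSpace E := FiniteDimensional.proper ℂ E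
  have hcov : {z ∈ V | F z = 0} ⊆ ⋃ r : ℕ, {z ∈ V | iteratedFDeriv ℂ r F z = 0 ∧
      iteratedFDeriv ℂ (r + 1) F z ≠ 0} := by
    rintro z ⟨hz, hFz⟩
    have hex : ∃ r, iteratedFDeriv ℂ r F z ≠ 0 := by
      by_contra hcon
      push Not at hcon
      exact hne z hz (eventually_zero hV hF hz hcon)
    classical
    obtain ⟨r, hr⟩ : ∃ r, r = Nat.find hex := ⟨_, rfl⟩
    have h1 : iteratedFDeriv ℂ r F z ≠ 0 := by rw [hr]; exact Nat.find_spec hex
    have h2 : ∀ m < r, iteratedFDeriv ℂ m F z = 0 := by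
      intro m hm
      rw [hr] at hm
      by_contra hcon
      exact Nat.find_min hex hm hcon
    cases r with
    | zero =>
      exfalso
      apply h1
      ext v
      simp [hFz]
    | succ r => exact mem_iUnion.2 ⟨r, hz, h2 r (by omega), h1⟩
  refine (dimH_mono hcov).trans ?_
  rw [dimH_iUnion]
  refine iSup_le fun r => dimH_le_of_local ?_
  rintro z ⟨hz, h0, h1⟩
  obtain ⟨m, hm⟩ : ∃ m : Fin (r + 1) → E, iteratedFDeriv ℂ (r + 1) F z m ≠ 0 := by
    by_contra hcon
    push Not at hcon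
    exact h1 (ContinuousMultilinearMap.ext hcon)
  have hst : HasStrictFDerivAt (iteratedFDeriv ℂ r F) (fderiv ℂ (iteratedFDeriv ℂ r F) z) z :=
    (diffAt_iter hV hF r hz).hasStrictFDerivAt (by norm_num)
  have hst2 : HasStrictFDerivAt (fun w => iteratedFDeriv ℂ r F w (Fin.tail m))
      ((ContinuousMultilinearMap.apply ℂ (fun _ : Fin r => E) ℂ (Fin.tail m)).comp
        (fderiv ℂ (iteratedFDeriv ℂ r F) z)) z :=
    (ContinuousMultilinearMap.apply ℂ (fun _ : Fin r => E) ℂ
      (Fin.tail m)).hasStrictFDerivAt.comp z hst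
  obtain ⟨t, ht, htd⟩ := local_dim hst2 (by
    intro hcon
    apply hm
    rw [iteratedFDeriv_succ_apply_left]
    exact DFunLike.congr_fun hcon (m 0))
  refine ⟨{z ∈ V | iteratedFDeriv ℂ r F z = 0 ∧ iteratedFDeriv ℂ (r + 1) F z ≠ 0} ∩ t,
    inter_mem self_mem_nhdsWithin (mem_nhdsWithin_of_mem_nhds ht), ?_⟩
  refine (dimH_mono ?_).trans htd
  rintro w ⟨⟨-, hw, -⟩, hwt⟩
  refine ⟨hwt, ?_⟩
  simp only [mem_ofPred_eq, hw, h0]

end D2

/-- zero set of an analytic function which is nowhere locally zero -/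
theorem dimH_zero_le {E : Type} [NormedAddCommGroup E] [NormedSpace ℂ E]
    [FiniteDimensional ℂ E] (V : Set E) (hV : IsOpen V) (F : E → ℂ) (hF : AnalyticOnNhd ℂ F V)
    (hne : ∀ z ∈ V, ¬ (F =ᶠ[𝓝 z] 0)) :
    dimH {z ∈ V | F z = 0} ≤ ((2 * (Module.finrank ℂ E - 1) : ℕ) : ℝ≥0∞) :=
  D2.dimH_zero_le' V hV F hF.differentiableOn hne

theorem dimH_zero_coord_le {ι : Type} [Fintype ι] (K : Finset ι) (ζ : ι → ℂ)
    (F : (ι → ℂ) → ℂ) (hF : Differentiable ℂ F)
    (hne : ∃ x, (∀ l ∈ K, x l = ζ l) ∧ F x ≠ 0) :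
    dimH {x : ι → ℂ | (∀ l ∈ K, x l = ζ l) ∧ F x = 0} ≤
      ((2 * (Fintype.card ι - K.card - 1) : ℕ) : ℝ≥0∞) := by
  classical
  set ψ : ({l // l ∉ K} → ℂ) → (ι → ℂ) := fun y l => if h : l ∈ K then ζ l else y ⟨l, h⟩ with hψ
  have hψd : Differentiable ℂ ψ := by
    rw [differentiable_pi]
    intro l
    by_cases h : l ∈ K
    · simp only [hψ, dif_pos h]
      exact differentiable_const _
    · simp only [hψ, dif_neg h]
      fun_prop
  have hψL : LipschitzWith 1 ψ := by
    refine LipschitzWith.of_dist_le_mul fun y y' => ?_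
    rw [NNReal.coe_one, one_mul, dist_pi_le_iff dist_nonneg]
    intro l
    by_cases h : l ∈ K
    · simp only [hψ, dif_pos h, dist_self]
      exact dist_nonneg
    · simp only [hψ, dif_neg h]
      exact dist_le_pi_dist y y' ⟨l, h⟩
  have hsurj : ∀ x : ι → ℂ, (∀ l ∈ K, x l = ζ l) → ψ (fun l => x l.1) = x := by
    intro x hx
    funext l
    by_cases h : l ∈ K
    · simp only [hψ, dif_pos h, hx l h]
    · simp only [hψ, dif_neg h]
  have hH : Differentiable ℂ (fun y => F (ψ y)) := hF.comp hψd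
  have hset : {x : ι → ℂ | (∀ l ∈ K, x l = ζ l) ∧ F x = 0} ⊆
      ψ '' {y ∈ (univ : Set ({l // l ∉ K} → ℂ)) | F (ψ y) = 0} := by
    rintro x ⟨hx, hFx⟩
    exact ⟨fun l => x l.1, ⟨mem_univ _, by rw [hsurj x hx]; exact hFx⟩, hsurj x hx⟩
  refine (dimH_mono hset).trans ((hψL.dimH_image_le _).trans ?_)
  have hcard : finrank ℂ ({l // l ∉ K} → ℂ) = Fintype.card ι - K.card := by
    rw [finrank_fintype_fun_eq_card, Fintype.card_subtype_compl, Fintype.card_coe]
  rw [← hcard]
  refine D2.dimH_zero_le' univ isOpen_univ (fun y => F (ψ y)) hH.differentiableOn ?_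
  intro z _ hz
  obtain ⟨x, hx, hFx⟩ := hne
  apply hFx
  rw [← hsurj x hx]
  set y : {l // l ∉ K} → ℂ := fun l => x l.1 with hy
  -- restrict to the line through `z` and `y`
  have hline : Differentiable ℂ (fun t : ℂ => F (ψ (z + t • (y - z)))) := by
    refine hH.comp ?_
    fun_prop
  have han : AnalyticOnNhd ℂ (fun t : ℂ => F (ψ (z + t • (y - z)))) univ :=
    fun t _ => hline.analyticAt t
  have h0 : (fun t : ℂ => F (ψ (z + t • (y - z)))) =ᶠ[𝓝 0] fun _ => 0 := by
    have hc : ContinuousAt (fun t : ℂ => z + t • (y - z)) 0 := by fun_prop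
    have hz' : ∀ᶠ w in 𝓝 (z + (0 : ℂ) • (y - z)), F (ψ w) = 0 := by
      rw [zero_smul, add_zero]
      exact hz
    exact hc.eventually hz'
  have h1 := han.eqOn_zero_of_preconnected_of_eventuallyEq_zero isPreconnected_univ
    (mem_univ 0) h0 (mem_univ (1 : ℂ))
  simpa using h1

end Pool.Agent.AM
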