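import Pool.Agent.AM.Hyp.Upper
import Pool.Agent.AM.Hyp.Lower
import Pool.Agent.AM.Hyp.Transfer
import Pool.Agent.AM.Hyp.Exist

/-! Codimension three: hyperelliptic Schottky theta functions. -/

set_option autoImplicit false
open Complex Filter Topology
open scoped ENNReal
namespace Pool.Agent.AM

theorem hyp_case (g : ℕ) (hg : 3 ≤ g) :
    ∃ τ : Matrix (Fin g) (Fin g) ℂ, τ.transpose = τ ∧ (τ.map Complex.im).PosDef ∧
      (∃ z, z ∈ {z : Fin g → ℂ | rth g τ z = 0 ∧ fderiv ℂ (rth g τ) z = 0}) ∧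
      dimH {z : Fin g → ℂ | rth g τ z = 0 ∧ fderiv ℂ (rth g τ) z = 0} =
        ((2 * (g - 3) : ℕ) : ℝ≥0∞) := by
  obtain ⟨D⟩ := Hyp.exists_hypData g
  have hT : D.T.PosDef := D.posdef
  refine ⟨D.T.map (fun t : ℝ => I * (t : ℂ)), Hyp.tau_sym _ hT, Hyp.tau_pos _ hT, ?_, ?_⟩
  · obtain ⟨⟨Y, hY⟩, -⟩ := D.lower hg
    refine ⟨fun j => Complex.log (Y j) / (2 * (Real.pi : ℂ) * I), ?_⟩
    have hpi : (2 * (Real.pi : ℂ) * I) ≠ 0 := by
      simp [Real.pi_ne_zero]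
    rw [Set.mem_setOf_eq, Hyp.sing_iff _ hT]
    have : (fun j => cexp (2 * (Real.pi : ℂ) * I * (Complex.log (Y j) / (2 * (Real.pi : ℂ) * I)))) = Y := by
      funext j
      rw [mul_div_cancel₀ _ hpi]
      exact Complex.exp_log (hY.1 j)
    rw [this]
    exact hY
  · rw [Hyp.transfer _ hT]
    exact le_antisymm (D.upper hg) (D.lower hg).2

end Pool.Agent.AM
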