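import Pool.Agent.AM.Core11
import Pool.Agent.AM.Odd.OddUpper
import Pool.Agent.AM.Odd.OddLower

/-! Odd codimension at least five. -/

set_option autoImplicit false
open Complex Filter Topology
open scoped ENNReal
namespace Pool.Agent.AM

/-- zero sets of nonzero entire functions are countable -/
lemma entire_zeros_countable (f : ℂ → ℂ) (hf : Differentiable ℂ f) (x0 : ℂ) (h0 : f x0 ≠ 0) :
    {x : ℂ | f x = 0}.Countable := by
  have han : AnalyticOnNhd ℂ f Set.univ := fun x _ => hf.analyticAt x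
  have h1 := han.preimage_zero_mem_codiscrete h0
  have h2 := (mem_codiscrete'.1 h1).2
  have h3 : (f ⁻¹' {0}ᶜ)ᶜ = {x : ℂ | f x = 0} := by
    ext x
    simp
  rw [h3] at h2
  have := h2.to_subtype
  exact Set.countable_coe_iff.1 (countable_of_Lindelof_of_discrete)

/-- countable set of first coordinates -/
def Yset1 (d : ℕ) : Set ℂ := {y | ∃ (m n : ℤ) (a b : Fin d),
  (y + (((a : ℕ) : ℤ) : ℂ) / d) + (y + (((b : ℕ) : ℤ) : ℂ) / d) = m + 2 * n * (I * (1 : ℝ))}

lemma Yset1_countable (d : ℕ) : (Yset1 d).Countable := by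
  have h1 : Yset1 d ⊆ ⋃ p : (ℤ × ℤ) × (Fin d × Fin d),
      {((p.1.1 : ℂ) + 2 * p.1.2 * (I * (1 : ℝ)) - (((p.2.1 : ℕ) : ℤ) : ℂ) / d -
        (((p.2.2 : ℕ) : ℤ) : ℂ) / d) / 2} := by
    rintro y ⟨m, n, a, b, h⟩
    refine Set.mem_iUnion.2 ⟨((m, n), (a, b)), ?_⟩
    rw [Set.mem_singleton_iff]
    linear_combination h / 2
  exact (Set.countable_iUnion fun p => Set.countable_singleton _).mono h1

/-- countable set of second coordinates -/
def Yset2 (d : ℕ) (be : ℝ) : Set ℂ := {y2 | ∃ y1 ∈ Yset1 d, ∃ a : Fin d,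
  sO d 1 be (a : ℕ) y1 y2 = 0}

lemma Yset2_countable (d : ℕ) (be : ℝ) (hb : 1 ≤ be) : (Yset2 d be).Countable := by
  have hbe : 0 < be := by linarith
  have h1 : Yset2 d be ⊆ ⋃ y1 ∈ Yset1 d, ⋃ a : Fin d, {y2 | sO d 1 be (a : ℕ) y1 y2 = 0} := by
    rintro y2 ⟨y1, hy1, a, h⟩
    exact Set.mem_iUnion₂.2 ⟨y1, hy1, Set.mem_iUnion.2 ⟨a, h⟩⟩
  refine Set.Countable.mono h1 ((Yset1_countable d).biUnion fun y1 _ =>
    Set.countable_iUnion fun a => ?_)
  set w : ℂ := y1 + (((a : ℕ) : ℤ) : ℂ) / d with hw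
  set z0 : ℂ := (1 + I * be) / 2 with hz0
  have hz : th3 be z0 = 0 := (th3_zero_iff be hb z0).mpr ⟨0, 0, by rw [hz0]; simp⟩
  have hz4 : th4 be z0 ≠ 0 := fun h => th_no_common_zero be hb z0 ⟨hz, h⟩
  have hz' : th4 be (z0 + 1 / 2) = 0 := by rw [th4_add_half]; exact hz
  have hz3' : th3 be (z0 + 1 / 2) ≠ 0 := by rw [th3_add_half]; exact hz4
  have hd : Differentiable ℂ (fun y2 => sO d 1 be ((a : ℕ) : ℤ) y1 y2) :=
    ((th3_diff be hbe).const_mul _).add ((th4_diff be hbe).const_mul _)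
  by_cases h4 : th4 1 w = 0
  · have h3 : th3 1 w ≠ 0 := fun h => th_no_common_zero 1 le_rfl w ⟨h, h4⟩
    refine entire_zeros_countable _ hd (z0 + 1 / 2) ?_
    show th3 1 w * th3 be (z0 + 1 / 2) + th4 1 w * th4 be (z0 + 1 / 2) ≠ 0
    rw [h4, zero_mul, add_zero]
    exact mul_ne_zero h3 hz3'
  · refine entire_zeros_countable _ hd z0 ?_
    show th3 1 w * th3 be z0 + th4 1 w * th4 be z0 ≠ 0
    rw [hz, mul_zero, zero_add]
    exact mul_ne_zero h4 hz4

section
variable {d m : ℕ} {be : ℝ} {s : Fin (m + 1) → ℝ}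

open Classical in
/-- coordinates killing the residue `a` -/
noncomputable def Kset (d m : ℕ) (s : Fin (m + 1) → ℝ) (z : Fin (m + 3) → ℂ) (a : Fin d) :
    Finset (Fin (m + 1)) :=
  Finset.univ.filter (fun l => U d (s l) (a : ℕ) (z l.succ.succ) = 0)

open Classical in
lemma card_all (hg : ∀ l, Good d (s l)) (z : Fin (m + 3) → ℂ) :
    (Finset.univ.filter (fun l : Fin (m + 1) =>
        ∃ a : Fin d, U d (s l) (a : ℕ) (z (Fin.succ (Fin.succ l))) = 0)).card =
      ∑ a : Fin d, (Kset d m s z a).card := by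
  rw [← Finset.card_biUnion]
  · congr 1
    ext l
    simp [Kset]
  · intro a _ b _ hab
    rw [Function.onFun, Finset.disjoint_left]
    intro l hl hl'
    simp only [Kset, Finset.mem_filter, Finset.mem_univ, true_and] at hl hl'
    exact hab ((hg l).distinct a b _ hl hl')

lemma mem_Kset (z : Fin (m + 3) → ℂ) (a : Fin d) (l : Fin (m + 1)) :
    l ∈ Kset d m s z a ↔ U d (s l) (a : ℕ) (z l.succ.succ) = 0 := by
  simp [Kset]

lemma one_le_Kset (z : Fin (m + 3) → ℂ) (a : Fin d)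
    (h : ∏ l : Fin (m + 1), U d (s l) (a : ℕ) (z l.succ.succ) = 0) :
    1 ≤ (Kset d m s z a).card := by
  obtain ⟨l, -, hl⟩ := Finset.prod_eq_zero_iff.mp h
  exact Finset.card_pos.mpr ⟨l, (mem_Kset z a l).mpr hl⟩

/-- a residue with nonvanishing coefficient is killed twice -/
lemma two_le_Kset (hg : ∀ l, Good d (s l)) (z : Fin (m + 3) → ℂ) (hz : SingO d m be s z)
    (hno : ∀ a : Fin d, tO d m be s a z = 0) (a : Fin d)
    (ha : sO d 1 be (a : ℕ) (z 0) (z 1) ≠ 0) : 2 ≤ (Kset d m s z a).card := by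
  classical
  have hP : ∏ l : Fin (m + 1), U d (s l) (a : ℕ) (z l.succ.succ) = 0 :=
    (mul_eq_zero.mp (hno a)).resolve_left ha
  obtain ⟨l, -, hl⟩ := Finset.prod_eq_zero_iff.mp hP
  have hlK := (mem_Kset (s := s) z a l).mpr hl
  by_contra hcon
  have h1 : (Kset d m s z a).card = 1 := by
    have := Finset.card_pos.mpr ⟨l, hlK⟩
    omega
  obtain ⟨l', hl'⟩ := Finset.card_eq_one.mp h1
  have hll : ∀ k, U d (s k) (a : ℕ) (z k.succ.succ) = 0 → k = l := by
    intro k hk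
    have h2 := (mem_Kset (s := s) z a k).mpr hk
    rw [hl', Finset.mem_singleton] at h2 hlK
    rw [h2, hlK]
  have h3 := hz.e3 l
  rw [Finset.sum_eq_single a] at h3
  · have h4 : ∏ l' ∈ Finset.univ.erase l, U d (s l') (a : ℕ) (z l'.succ.succ) ≠ 0 :=
      Finset.prod_ne_zero_iff.mpr fun k hk h5 => (Finset.ne_of_mem_erase hk) (hll k h5)
    exact mul_ne_zero ha (mul_ne_zero ((hg l).simple a _ hl) h4) h3
  · intro b _ hba
    by_cases hb : sO d 1 be (b : ℕ) (z 0) (z 1) = 0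
    · rw [hb, zero_mul]
    · have hPb : ∏ l : Fin (m + 1), U d (s l) (b : ℕ) (z l.succ.succ) = 0 :=
        (mul_eq_zero.mp (hno b)).resolve_left hb
      obtain ⟨k, -, hk⟩ := Finset.prod_eq_zero_iff.mp hPb
      have hne : k ≠ l := by
        rintro rfl
        exact hba ((hg k).distinct b a _ hk hl)
      have h4 : ∏ l' ∈ Finset.univ.erase l, U d (s l') (b : ℕ) (z l'.succ.succ) = 0 :=
        Finset.prod_eq_zero (Finset.mem_erase.mpr ⟨hne, Finset.mem_univ _⟩) hk
      rw [h4]; ring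
  · simp

/-- ratio in the tangency case -/
noncomputable def EY (d : ℕ) (be : ℝ) (a b : Fin d) (y1 y2 : ℂ) : ℂ :=
  if -(ds1 d 1 be (b : ℕ) y1 y2) / ds1 d 1 be (a : ℕ) y1 y2 = 0 then 1 else
    -(ds1 d 1 be (b : ℕ) y1 y2) / ds1 d 1 be (a : ℕ) y1 y2

open Classical in
theorem struct_odd (hd3 : 3 ≤ d) (hb : 1 ≤ be)
    (hdc : th3 1 0 * th4 be 0 ≠ th4 1 0 * th3 be 0) (hg : ∀ l, Good d (s l))
    (z : Fin (m + 3) → ℂ) (hz : SingO d m be s z) (hno : ∀ a : Fin d, tO d m be s a z = 0) :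
      (2 * d - 1 ≤ (Finset.univ.filter (fun l : Fin (m + 1) =>
        ∃ a : Fin d, U d (s l) (a : ℕ) (z (Fin.succ (Fin.succ l))) = 0)).card) ∨
      (z 0 ∈ Yset1 d ∧ z 1 ∈ Yset2 d be ∧
        2 * d - 2 ≤ (Finset.univ.filter (fun l : Fin (m + 1) =>
        ∃ a : Fin d, U d (s l) (a : ℕ) (z (Fin.succ (Fin.succ l))) = 0)).card) ∨
      (∃ a b : Fin d, a ≠ b ∧ z 0 ∈ Yset1 d ∧ z 1 ∈ Yset2 d be ∧
        (∀ c : Fin d, c ≠ a → c ≠ b → 2 ≤ (Finset.univ.filter (fun l : Fin (m + 1) =>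
          U d (s l) (c : ℕ) (z (Fin.succ (Fin.succ l))) = 0)).card) ∧
        ∏ l : Fin (m + 1), U d (s l) (a : ℕ) (z (Fin.succ (Fin.succ l))) =
          EY d be a b (z 0) (z 1) *
            ∏ l : Fin (m + 1), U d (s l) (b : ℕ) (z (Fin.succ (Fin.succ l)))) := by
  have hd : 0 < d := by omega
  have h2 : ∀ a : Fin d, sO d 1 be (a : ℕ) (z 0) (z 1) ≠ 0 → 2 ≤ (Kset d m s z a).card :=
    fun a ha => two_le_Kset hg z hz hno a ha
  by_cases hV : ∃ a : Fin d, sO d 1 be (a : ℕ) (z 0) (z 1) = 0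
  swap
  · push Not at hV
    left
    rw [card_all hg]
    have h3 : ∑ _a : Fin d, 2 ≤ ∑ a : Fin d, (Kset d m s z a).card :=
      Finset.sum_le_sum fun a _ => h2 a (hV a)
    rw [Finset.sum_const, Finset.card_univ, Fintype.card_fin, smul_eq_mul] at h3
    omega
  obtain ⟨a, ha⟩ := hV
  by_cases hV2 : ∃ b : Fin d, b ≠ a ∧ sO d 1 be (b : ℕ) (z 0) (z 1) = 0
  swap
  · push Not at hV2
    left
    have hkey : ∀ f : Fin d → ℂ, (∑ b : Fin d, f b *
        ∏ l : Fin (m + 1), U d (s l) (b : ℕ) (z l.succ.succ) = 0) → f a ≠ 0 →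
        ∏ l : Fin (m + 1), U d (s l) (a : ℕ) (z l.succ.succ) = 0 := by
      intro f hf hfa
      rw [Finset.sum_eq_single a] at hf
      · exact (mul_eq_zero.mp hf).resolve_left hfa
      · intro b _ hba
        rw [(mul_eq_zero.mp (hno b)).resolve_left (hV2 b hba), mul_zero]
      · simp
    have hPa : ∏ l : Fin (m + 1), U d (s l) (a : ℕ) (z l.succ.succ) = 0 := by
      rcases YC.grad_ne le_rfl hb hdc ((a : ℕ) : ℤ) (z 0) (z 1) ha with h | h
      · exact hkey _ hz.e1 h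
      · exact hkey _ hz.e2 h
    rw [card_all hg, ← Finset.add_sum_erase Finset.univ _ (Finset.mem_univ a)]
    have h3 : ∑ _b ∈ Finset.univ.erase a, 2 ≤
        ∑ b ∈ Finset.univ.erase a, (Kset d m s z b).card :=
      Finset.sum_le_sum fun b hb' => h2 b (hV2 b (Finset.ne_of_mem_erase hb'))
    rw [Finset.sum_const, Finset.card_erase_of_mem (Finset.mem_univ _), Finset.card_univ,
      Fintype.card_fin, smul_eq_mul] at h3
    have h4 := one_le_Kset (s := s) z a hPa
    omega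
  obtain ⟨b, hba, hsb⟩ := hV2
  right
  have hoth : ∀ e : Fin d, e ≠ a → e ≠ b → sO d 1 be (e : ℕ) (z 0) (z 1) ≠ 0 :=
    fun e h1 h2 h3 => YC.at_most_two le_rfl hb hd a b e (Ne.symm hba) (Ne.symm h1) (Ne.symm h2)
      _ _ ha hsb h3
  have hy1 : z 0 ∈ Yset1 d := by
    obtain ⟨p, q, h⟩ := YC.two_zero le_rfl hb hd a b (Ne.symm hba) (z 0) (z 1) ha hsb
    exact ⟨p, q, a, b, h⟩
  have hy2 : z 1 ∈ Yset2 d be := ⟨z 0, hy1, a, ha⟩
  have hsplit : ∀ f : Fin d → ℂ, (∑ e : Fin d, f e *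
      ∏ l : Fin (m + 1), U d (s l) (e : ℕ) (z l.succ.succ) = 0) →
      f a * ∏ l : Fin (m + 1), U d (s l) (a : ℕ) (z l.succ.succ) +
      f b * ∏ l : Fin (m + 1), U d (s l) (b : ℕ) (z l.succ.succ) = 0 := by
    intro f hf
    rw [← Finset.sum_subset (Finset.subset_univ {a, b})] at hf
    · rwa [Finset.sum_pair (Ne.symm hba)] at hf
    · intro e _ he
      simp only [Finset.mem_insert, Finset.mem_singleton, not_or] at he
      rw [(mul_eq_zero.mp (hno e)).resolve_left (hoth e he.1 he.2), mul_zero]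
  have q1 := hsplit _ hz.e1
  have q2 := hsplit _ hz.e2
  obtain ⟨E, hE, g1, g2⟩ := YC.pair_grad le_rfl hb hd a b (Ne.symm hba) (z 0) (z 1) ha hsb
  have hD1 := YC.ds1_ne le_rfl hb hd a b (Ne.symm hba) (z 0) (z 1) ha hsb
  set Pa := ∏ l : Fin (m + 1), U d (s l) (a : ℕ) (z l.succ.succ) with hPa
  set Pb := ∏ l : Fin (m + 1), U d (s l) (b : ℕ) (z l.succ.succ) with hPb
  have q1' : Pa = E * Pb := by
    rw [g1] at q1
    have : ds1 d 1 be (a : ℕ) (z 0) (z 1) * (Pa - E * Pb) = 0 := by linear_combination q1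
    have := (mul_eq_zero.mp this).resolve_left hD1
    linear_combination this
  by_cases hD2 : ds2 d 1 be (a : ℕ) (z 0) (z 1) = 0
  · right
    refine ⟨a, b, Ne.symm hba, hy1, hy2, fun e h1 h3 => h2 e (hoth e h1 h3), ?_⟩
    have hEY : EY d be a b (z 0) (z 1) = E := by
      unfold EY
      have e1 : -(ds1 d 1 be (b : ℕ) (z 0) (z 1)) / ds1 d 1 be (a : ℕ) (z 0) (z 1) = E := by
        rw [g1]
        field_simp
      rw [e1, if_neg hE]
    rw [hEY]
    exact q1'
  · left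
    refine ⟨hy1, hy2, ?_⟩
    have q2' : Pa + E * Pb = 0 := by
      rw [g2] at q2
      have : ds2 d 1 be (a : ℕ) (z 0) (z 1) * (Pa + E * Pb) = 0 := by linear_combination q2
      exact (mul_eq_zero.mp this).resolve_left hD2
    have hPa0 : Pa = 0 := by
      have : (2 : ℂ) * Pa = 0 := by linear_combination q1' + q2'
      exact (mul_eq_zero.mp this).resolve_left two_ne_zero
    have hPb0 : Pb = 0 := by
      rw [hPa0, zero_add] at q2'
      exact (mul_eq_zero.mp q2').resolve_left hE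
    rw [card_all hg, ← Finset.add_sum_erase Finset.univ _ (Finset.mem_univ a),
      ← Finset.add_sum_erase _ _ (Finset.mem_erase.mpr ⟨hba, Finset.mem_univ b⟩)]
    have h3 : ∑ _e ∈ (Finset.univ.erase a).erase b, 2 ≤
        ∑ e ∈ (Finset.univ.erase a).erase b, (Kset d m s z e).card :=
      Finset.sum_le_sum fun e he => h2 e (hoth e
        (Finset.ne_of_mem_erase (Finset.mem_of_mem_erase he)) (Finset.ne_of_mem_erase he))
    rw [Finset.sum_const, Finset.card_erase_of_mem (Finset.mem_erase.mpr ⟨hba, Finset.mem_univ b⟩),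
      Finset.card_erase_of_mem (Finset.mem_univ _), Finset.card_univ,
      Fintype.card_fin, smul_eq_mul] at h3
    have h4 := one_le_Kset (s := s) z a hPa0
    have h5 := one_le_Kset (s := s) z b hPb0
    omega

end

/-- Odd codimension `2 d - 1` at least five. -/
theorem odd_case (g d : ℕ) (hd3 : 3 ≤ d) (hg : 2 * d - 1 ≤ g) :
    ∃ τ : Matrix (Fin g) (Fin g) ℂ, τ.transpose = τ ∧ (τ.map Complex.im).PosDef ∧
      (∃ z, z ∈ {z : Fin g → ℂ | rth g τ z = 0 ∧ fderiv ℂ (rth g τ) z = 0}) ∧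
      dimH {z : Fin g → ℂ | rth g τ z = 0 ∧ fderiv ℂ (rth g τ) z = 0} =
        ((2 * (g - (2 * d - 1)) : ℕ) : ℝ≥0∞) := by
  classical
  obtain ⟨m, rfl⟩ : ∃ m, g = m + 3 := ⟨g - 3, by omega⟩
  have hd : 0 < d := by omega
  have hdC : (d : ℂ) ≠ 0 := by exact_mod_cast hd.ne'
  have hdR : (3 : ℝ) ≤ d := by exact_mod_cast hd3
  obtain ⟨be, hbe1, htu⟩ := exists_be 1 le_rfl d hd3
  have hb : 1 ≤ be := hbe1.le
  have hbe : 0 < be := by linarith
  have hdc : th3 1 0 * th4 be 0 ≠ th4 1 0 * th3 be 0 := by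
    intro hcon
    have hB := th_no_common_zero be hb 0
    have hdet : th3 1 (1 / (2 * (d : ℂ))) * th4 1 0 = th4 1 (1 / (2 * (d : ℂ))) * th3 1 0 := by
      by_contra hne
      have hne' := sub_ne_zero.mpr hne
      have e3 : (th3 1 (1 / (2 * (d : ℂ))) * th4 1 0 - th4 1 (1 / (2 * (d : ℂ))) * th3 1 0) *
          th3 be 0 = 0 := by
        linear_combination (-th3 1 0) * htu - (th3 1 (1 / (2 * (d : ℂ)))) * hcon
      have e4 : (th3 1 (1 / (2 * (d : ℂ))) * th4 1 0 - th4 1 (1 / (2 * (d : ℂ))) * th3 1 0) *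
          th4 be 0 = 0 := by
        linear_combination (-th4 1 0) * htu - (th4 1 (1 / (2 * (d : ℂ)))) * hcon
      exact hB ⟨(mul_eq_zero.mp e3).resolve_left hne', (mul_eq_zero.mp e4).resolve_left hne'⟩
    have hre : (1 / (2 * (d : ℂ))) = ((1 / (2 * (d : ℝ)) : ℝ) : ℂ) := by push_cast; ring
    have hpos : (0 : ℝ) < 1 / (2 * (d : ℝ)) := by positivity
    have hlt : 1 / (2 * (d : ℝ)) < 1 := by
      rw [div_lt_one (by positivity)]; linarith
    have hcase : ∀ p q : ℤ, (1 / (2 * (d : ℂ))) = p + 2 * q * (I * (1 : ℝ)) → False := by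
      intro p q h
      rw [hre] at h
      have h1 := congrArg Complex.re h
      rw [Complex.ofReal_re] at h1
      simp at h1
      have h2 : (0 : ℝ) < p := by
        have : (d : ℝ)⁻¹ * 2⁻¹ = p := h1
        rw [← this]; positivity
      have h3 : (p : ℝ) < 1 := by
        have : (d : ℝ)⁻¹ * 2⁻¹ = p := h1
        rw [← this]
        have e : (d : ℝ)⁻¹ * 2⁻¹ = 1 / (2 * (d : ℝ)) := by
          field_simp
        rw [e]; exact hlt
      have h4 : 0 < p := by exact_mod_cast h2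
      have h5 : p < 1 := by exact_mod_cast h3
      omega
    rcases (th_ratio_iff 1 le_rfl _ _).mp hdet with ⟨p, q, h⟩ | ⟨p, q, h⟩
    · exact hcase p q (by rw [← h]; ring)
    · exact hcase p q (by rw [← h]; ring)
  obtain ⟨s, hs, hgood, hno⟩ := odd_no_exotic d m hd3 (by omega) be hb htu hdc
  obtain ⟨τ, h1, h2, T, hT⟩ := thetaO m d hd s hs 1 be one_pos hbe
  refine ⟨τ, h1, h2, ?_⟩
  have hfun : rth (m + 3) τ = fun z => (1 / 2 : ℂ) * (fO d m be s ∘ T.symm) z := by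
    funext z
    have := hT (T.symm z)
    rw [T.apply_symm_apply] at this
    rw [this]; rfl
  have hset : {z : Fin (m + 3) → ℂ | rth (m + 3) τ z = 0 ∧ fderiv ℂ (rth (m + 3) τ) z = 0} =
      T '' {z | SingO d m be s z} := by
    ext z
    rw [T.image_eq_preimage_symm]
    simp only [Set.mem_ofPred_eq, Set.mem_preimage]
    rw [← sing_fO_iff d m hd be hbe s hs (T.symm z), hfun]
    have h3 : fderiv ℂ (fO d m be s ∘ T.symm) z = (fderiv ℂ (fO d m be s) (T.symm z)).comp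
        (T.symm : (Fin (m + 3) → ℂ) →L[ℂ] (Fin (m + 3) → ℂ)) := T.symm.comp_right_fderiv
    have hdf : DifferentiableAt ℂ (fO d m be s ∘ T.symm) z :=
      ((hasFDerivAt_fO d m hd be hbe s hs (T.symm z)).comp z T.symm.hasFDerivAt).differentiableAt
    have h5 : fderiv ℂ (fun z => (1 / 2 : ℂ) * (fO d m be s ∘ T.symm) z) z =
        (1 / 2 : ℂ) • fderiv ℂ (fO d m be s ∘ T.symm) z :=
      (hdf.hasFDerivAt.const_mul (1 / 2 : ℂ)).fderiv
    rw [h5, h3]
    have hhalf : (1 / 2 : ℂ) ≠ 0 := by norm_num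
    constructor
    · rintro ⟨h6, h7⟩
      refine ⟨(mul_eq_zero.mp h6).resolve_left hhalf, ?_⟩
      refine ContinuousLinearMap.ext fun v => ?_
      have h8 := congrArg (fun L => L (T v)) h7
      have h9 : (1 / 2 : ℂ) * (fderiv ℂ (fO d m be s) (T.symm z)) (T.symm (T v)) = 0 := h8
      rw [T.symm_apply_apply] at h9
      exact (mul_eq_zero.mp h9).resolve_left hhalf
    · rintro ⟨h6, h7⟩
      refine ⟨by show (1 / 2 : ℂ) * fO d m be s (T.symm z) = 0; rw [h6, mul_zero], ?_⟩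
      refine ContinuousLinearMap.ext fun v => ?_
      show (1 / 2 : ℂ) * (fderiv ℂ (fO d m be s) (T.symm z)) (T.symm v) = 0
      rw [h7]
      show (1 / 2 : ℂ) * 0 = 0
      rw [mul_zero]
  -- upper bound
  have hup := odd_upper d m hd3 (by omega) s hs hgood {z | SingO d m be s z} (Yset1 d)
    (Yset2 d be) (Yset1_countable d) (Yset2_countable d be hb) (EY d be)
    (fun a b y1 y2 => by
      unfold EY
      split_ifs with h
      · exact one_ne_zero
      · exact h)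
    (fun z hz => struct_odd hd3 hb hdc hgood z hz (hno z hz))
  -- lower bound
  set c0 : ℂ := 1 / (2 * (d : ℂ)) with hc0
  have hz0 : th3 be (I * be) = cexp ((Real.pi : ℂ) * be) * th3 be 0 := by
    have := th3_add_tau be 0
    simpa using this
  have hz1 : th4 be (I * be) = -cexp ((Real.pi : ℂ) * be) * th4 be 0 := by
    have := th4_add_tau be 0
    simpa using this
  have hw3 : th3 1 (1 / 2 - c0) = th4 1 c0 := by
    rw [← th3_add_half, show (1 / 2 - c0 : ℂ) = -(c0 + 1 / 2) + ((1 : ℤ) : ℂ) by push_cast; ring,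
      th3_refl]
  have hw4 : th4 1 (1 / 2 - c0) = th3 1 c0 := by
    rw [show (1 / 2 - c0 : ℂ) = -c0 + 1 / 2 by ring, th4_add_half, th3_neg]
  have hS0 : sO d 1 be ((0 : ℕ) : ℤ) (1 / 2 - c0) (I * be) = 0 := by
    unfold sO
    have e : (1 / 2 - c0 : ℂ) + (((0 : ℕ) : ℤ) : ℂ) / d = 1 / 2 - c0 := by simp
    rw [e, hw3, hw4, hz0, hz1]
    linear_combination (cexp ((Real.pi : ℂ) * be)) * htu
  have hS1 : sO d 1 be ((1 : ℕ) : ℤ) (1 / 2 - c0) (I * be) = 0 := by
    unfold sO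
    have e : (1 / 2 - c0 : ℂ) + (((1 : ℕ) : ℤ) : ℂ) / d = c0 + 1 / 2 := by
      rw [hc0]; push_cast; field_simp; ring
    rw [e, th3_add_half, th4_add_half, hz0, hz1]
    linear_combination (cexp ((Real.pi : ℂ) * be)) * htu
  have hlow := odd_lower d m hd3 (by omega) s hs hgood {z | SingO d m be s z} (1 / 2 - c0)
    (I * be) (by
      intro x hkill hPP
      show SingO d m be s _
      set z : Fin (m + 3) → ℂ := Fin.cons (1 / 2 - c0) (Fin.cons (I * be) x : Fin (m + 2) → ℂ)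
        with hz
      have k0 : z 0 = 1 / 2 - c0 := rfl
      have k1 : z 1 = I * be := rfl
      have k2 : ∀ l : Fin (m + 1), z l.succ.succ = x l := fun l => rfl
      set a0 : Fin d := ⟨0, by omega⟩ with ha0
      set a1 : Fin d := ⟨1, by omega⟩ with ha1
      have hne : a0 ≠ a1 := by simp [ha0, ha1]
      have hS0' : sO d 1 be ((a0 : ℕ) : ℤ) (z 0) (z 1) = 0 := hS0
      have hS1' : sO d 1 be ((a1 : ℕ) : ℤ) (z 0) (z 1) = 0 := hS1
      have hge2 : ∀ c : Fin d, c ≠ a0 → c ≠ a1 → 2 ≤ (c : ℕ) := by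
        intro c hc0' hc1'
        by_contra hcon
        have : (c : ℕ) = 0 ∨ (c : ℕ) = 1 := by omega
        rcases this with h | h
        · exact hc0' (Fin.ext h)
        · exact hc1' (Fin.ext h)
      have hP : ∀ c : Fin d, c ≠ a0 → c ≠ a1 →
          ∏ l : Fin (m + 1), U d (s l) (c : ℕ) (z l.succ.succ) = 0 := by
        intro c hc0' hc1'
        have h3 := hkill c (hge2 c hc0' hc1')
        obtain ⟨l, hl⟩ := Finset.card_pos.mp (lt_of_lt_of_le two_pos h3)
        rw [Finset.mem_filter] at hl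
        exact Finset.prod_eq_zero (Finset.mem_univ l) (by rw [k2]; exact hl.2)
      have hPe : ∀ c : Fin d, c ≠ a0 → c ≠ a1 → ∀ k : Fin (m + 1),
          ∏ l ∈ Finset.univ.erase k, U d (s l) (c : ℕ) (z l.succ.succ) = 0 := by
        intro c hc0' hc1' k
        have h3 := hkill c (hge2 c hc0' hc1')
        obtain ⟨l, hl, hlk⟩ := Finset.exists_mem_ne (lt_of_lt_of_le one_lt_two h3) k
        rw [Finset.mem_filter] at hl
        exact Finset.prod_eq_zero (Finset.mem_erase.mpr ⟨hlk, Finset.mem_univ l⟩)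
          (by rw [k2]; exact hl.2)
      have hsum : ∀ f : Fin d → ℂ, (∀ c, c ≠ a0 → c ≠ a1 → f c = 0) →
          f a0 + f a1 = 0 → ∑ c, f c = 0 := by
        intro f hf hf2
        rw [← Finset.sum_subset (Finset.subset_univ {a0, a1}), Finset.sum_pair hne]
        · exact hf2
        · intro e _ he
          simp only [Finset.mem_insert, Finset.mem_singleton, not_or] at he
          exact hf e he.1 he.2
      have hPP' : ∏ l : Fin (m + 1), U d (s l) ((a0 : ℕ) : ℤ) (z l.succ.succ) =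
          ∏ l : Fin (m + 1), U d (s l) ((a1 : ℕ) : ℤ) (z l.succ.succ) := by
        simp only [k2]
        have e0 : (((a0 : ℕ) : ℤ)) = 0 := rfl
        have e1 : (((a1 : ℕ) : ℤ)) = 1 := rfl
        rw [e0, e1]; exact hPP
      have hD2 : ∀ c : Fin d, sO d 1 be ((c : ℕ) : ℤ) (z 0) (z 1) = 0 →
          ds2 d 1 be ((c : ℕ) : ℤ) (z 0) (z 1) = 0 := fun c hc =>
        (YC.ds2_zero_iff le_rfl hb ((c : ℕ) : ℤ) (z 0) (z 1) hc).mpr ⟨0, 1, by
          rw [k1]; push_cast; ring⟩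
      have hD1 : ds1 d 1 be ((a1 : ℕ) : ℤ) (z 0) (z 1) = -ds1 d 1 be ((a0 : ℕ) : ℤ) (z 0) (z 1) := by
        have h3 := hY_deriv_refl be (z 1) 1 (z 0 + (((a0 : ℕ) : ℤ) : ℂ) / d)
        rw [hY_deriv, hY_deriv] at h3
        have e : -(z 0 + (((a0 : ℕ) : ℤ) : ℂ) / d) + ((1 : ℤ) : ℂ) =
            z 0 + (((a1 : ℕ) : ℤ) : ℂ) / d := by
          rw [k0, hc0, ha0, ha1]; push_cast; field_simp; ring
        rw [e] at h3
        exact h3
      refine ⟨?_, ?_, ?_, ?_⟩
      · apply hsum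
        · intro c hc0' hc1'; rw [hP c hc0' hc1', mul_zero]
        · rw [hS0', hS1']; ring
      · apply hsum
        · intro c hc0' hc1'; rw [hP c hc0' hc1', mul_zero]
        · rw [hD1, hPP']; ring
      · apply hsum
        · intro c hc0' hc1'; rw [hP c hc0' hc1', mul_zero]
        · rw [hD2 a0 hS0', hD2 a1 hS1']; ring
      · intro k
        apply hsum
        · intro c hc0' hc1'; rw [hPe c hc0' hc1' k]; ring
        · rw [hS0', hS1']; ring)
  constructor
  · rw [hset]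
    obtain ⟨x, hx⟩ := hlow.1
    exact ⟨T x, Set.mem_image_of_mem _ hx⟩
  · rw [hset, T.dimH_image]
    exact le_antisymm hup hlow.2

end Pool.Agent.AM
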