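import Pool.Agent.AM.EvenFinal
import Pool.Agent.AM.OddFinal
import Pool.Agent.AM.HypFinal

/-! All cases together. -/

set_option autoImplicit false
open Complex Filter Topology
open scoped ENNReal
namespace Pool.Agent.AM

theorem all_cases (g k : ℕ) (h : k + 2 ≤ g) :
    ∃ τ : Matrix (Fin g) (Fin g) ℂ, τ.transpose = τ ∧ (τ.map Complex.im).PosDef ∧
      (∃ z, z ∈ {z : Fin g → ℂ | rth g τ z = 0 ∧ fderiv ℂ (rth g τ) z = 0}) ∧
      dimH {z : Fin g → ℂ | rth g τ z = 0 ∧ fderiv ℂ (rth g τ) z = 0} =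
        ((2 * k : ℕ) : ℝ≥0∞) := by
  rcases Nat.even_or_odd (g - k) with ⟨d, hd⟩ | ⟨d, hd⟩
  · obtain ⟨τ, h1, h2, h3, h4⟩ := even_case g d (by omega) (by omega)
    refine ⟨τ, h1, h2, h3, ?_⟩
    rw [h4]
    have : g - 2 * d = k := by omega
    rw [this]
  · by_cases hd1 : d = 1
    · obtain ⟨τ, h1, h2, h3, h4⟩ := hyp_case g (by omega)
      refine ⟨τ, h1, h2, h3, ?_⟩
      rw [h4]
      have : g - 3 = k := by omega
      rw [this]
    · obtain ⟨τ, h1, h2, h3, h4⟩ := odd_case g (d + 1) (by omega) (by omega)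
      refine ⟨τ, h1, h2, h3, ?_⟩
      rw [h4]
      have : g - (2 * (d + 1) - 1) = k := by omega
      rw [this]

end Pool.Agent.AM
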