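import Pool.Agent.AM.Defs

/-! Job AM-1 of the Andreotti-Mayer project (MP_becd93_ag): basic theory of the series `U`. -/

set_option autoImplicit false

open Complex Filter Topology

namespace Pool.Agent.AM

theorem norm_tm (s : ℝ) (x : ℂ) (N : ℤ) :
    ‖tm s x N‖ = Real.exp (-Real.pi * s * (N : ℝ) ^ 2 - 2 * Real.pi * N * x.im) := by
  unfold tm
  rw [Complex.norm_exp]
  congr 1
  have h1 : -(Real.pi : ℂ) * s * (N : ℂ) ^ 2 + 2 * (Real.pi : ℂ) * I * N * x =
      ((-Real.pi * s * (N : ℝ) ^ 2 : ℝ) : ℂ) + ((2 * Real.pi * N : ℝ) : ℂ) * (I * x) := by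
    push_cast
    ring
  rw [h1, Complex.add_re, Complex.ofReal_re, Complex.re_ofReal_mul]
  simp
  ring

theorem tm_ne_zero (s : ℝ) (x : ℂ) (N : ℤ) : tm s x N ≠ 0 := Complex.exp_ne_zero _

/-- factorisation through the terms of the Jacobi theta function -/
theorem tm_eq_term (d : ℕ) (s : ℝ) (a : ℤ) (x : ℂ) (k : ℤ) :
    tm s x (a + d * k) = tm s x a *
      jacobiTheta₂_term k (d * x + I * s * d * a) (I * s * d ^ 2) := by
  unfold tm jacobiTheta₂_term
  rw [← Complex.exp_add]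
  congr 1
  have hI : I * I = -1 := Complex.I_mul_I
  have e1 : 2 * (Real.pi : ℂ) * I * k * (d * x + I * s * d * a) +
      (Real.pi : ℂ) * I * (k : ℂ) ^ 2 * (I * s * d ^ 2) =
      2 * (Real.pi : ℂ) * I * k * d * x + (I * I) * (2 * (Real.pi : ℂ) * k * s * d * a +
        (Real.pi : ℂ) * (k : ℂ) ^ 2 * s * d ^ 2) := by ring
  rw [e1, hI]
  push_cast
  ring

theorem tau_im (d : ℕ) (hd : 0 < d) (s : ℝ) (hs : 0 < s) : 0 < (I * s * d ^ 2 : ℂ).im := by
  have h1 : (I * s * d ^ 2 : ℂ) = ((s * d ^ 2 : ℝ) : ℂ) * I := by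
    push_cast
    ring
  rw [h1, Complex.im_ofReal_mul, Complex.I_im, mul_one]
  have : (0 : ℝ) < d := by exact_mod_cast hd
  positivity

theorem hasSum_U (d : ℕ) (hd : 0 < d) (s : ℝ) (hs : 0 < s) (a : ℤ) (x : ℂ) :
    HasSum (fun k : ℤ => tm s x (a + d * k)) (U d s a x) := by
  have h1 := (hasSum_jacobiTheta₂_term (d * x + I * s * d * a) (tau_im d hd s hs)).mul_left
    (tm s x a)
  have h2 : (fun k : ℤ => tm s x (a + d * k)) = fun k : ℤ => tm s x a *
      jacobiTheta₂_term k (d * x + I * s * d * a) (I * s * d ^ 2) := by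
    funext k
    exact tm_eq_term d s a x k
  rw [← h2] at h1
  have h3 : Summable (fun k : ℤ => tm s x (a + d * k)) := h1.summable
  exact h3.hasSum

theorem U_eq (d : ℕ) (hd : 0 < d) (s : ℝ) (hs : 0 < s) (a : ℤ) (x : ℂ) :
    U d s a x = tm s x a * jacobiTheta₂ (d * x + I * s * d * a) (I * s * d ^ 2) := by
  have h1 := (hasSum_jacobiTheta₂_term (d * x + I * s * d * a) (tau_im d hd s hs)).mul_left
    (tm s x a)
  have h2 : (fun k : ℤ => tm s x (a + d * k)) = fun k : ℤ => tm s x a *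
      jacobiTheta₂_term k (d * x + I * s * d * a) (I * s * d ^ 2) := by
    funext k
    exact tm_eq_term d s a x k
  rw [← h2] at h1
  exact (hasSum_U d hd s hs a x).unique h1

theorem summable_norm_U (d : ℕ) (hd : 0 < d) (s : ℝ) (hs : 0 < s) (a : ℤ) (x : ℂ) :
    Summable (fun k : ℤ => ‖tm s x (a + d * k)‖) := by
  exact (hasSum_U d hd s hs a x).summable.norm

theorem hasSum_U1_aux (d : ℕ) (hd : 0 < d) (s : ℝ) (hs : 0 < s) (a : ℤ) (x : ℂ) :
    HasSum (fun k : ℤ => ((a + d * k : ℤ) : ℂ) * tm s x (a + d * k))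
      (a * (tm s x a * jacobiTheta₂ (d * x + I * s * d * a) (I * s * d ^ 2)) +
        d * tm s x a / (2 * (Real.pi : ℂ) * I) *
          jacobiTheta₂' (d * x + I * s * d * a) (I * s * d ^ 2)) := by
  have hpi : (2 * (Real.pi : ℂ) * I) ≠ 0 := by
    simp [Real.pi_ne_zero]
  have h1 := ((hasSum_jacobiTheta₂_term (d * x + I * s * d * a) (tau_im d hd s hs)).mul_left
    (tm s x a)).mul_left (a : ℂ)
  have h2 := (hasSum_jacobiTheta₂'_term (d * x + I * s * d * a) (tau_im d hd s hs)).mul_left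
    (d * tm s x a / (2 * (Real.pi : ℂ) * I))
  have h3 := h1.add h2
  have h4 : (fun k : ℤ => ((a + d * k : ℤ) : ℂ) * tm s x (a + d * k)) = fun k : ℤ =>
      (a : ℂ) * (tm s x a * jacobiTheta₂_term k (d * x + I * s * d * a) (I * s * d ^ 2)) +
      d * tm s x a / (2 * (Real.pi : ℂ) * I) *
        jacobiTheta₂'_term k (d * x + I * s * d * a) (I * s * d ^ 2) := by
    funext k
    rw [tm_eq_term d s a x k]
    unfold jacobiTheta₂'_term
    push_cast
    field_simp
  rw [h4]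
  exact h3

theorem hasSum_U1 (d : ℕ) (hd : 0 < d) (s : ℝ) (hs : 0 < s) (a : ℤ) (x : ℂ) :
    HasSum (fun k : ℤ => ((a + d * k : ℤ) : ℂ) * tm s x (a + d * k)) (U1 d s a x) :=
  (hasSum_U1_aux d hd s hs a x).summable.hasSum

theorem hasDerivAt_tm (s : ℝ) (a : ℤ) (x : ℂ) :
    HasDerivAt (fun x => tm s x a) (2 * (Real.pi : ℂ) * I * a * tm s x a) x := by
  unfold tm
  have h1 : HasDerivAt (fun x : ℂ => -(Real.pi : ℂ) * s * (a : ℂ) ^ 2 +
      2 * (Real.pi : ℂ) * I * a * x) (2 * (Real.pi : ℂ) * I * a) x := by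
    simpa using ((hasDerivAt_id x).const_mul (2 * (Real.pi : ℂ) * I * a)).const_add
      (-(Real.pi : ℂ) * s * (a : ℂ) ^ 2)
  exact h1.cexp.congr_deriv (mul_comm _ _)

theorem hasDerivAt_U (d : ℕ) (hd : 0 < d) (s : ℝ) (hs : 0 < s) (a : ℤ) (x : ℂ) :
    HasDerivAt (U d s a) (2 * (Real.pi : ℂ) * I * U1 d s a x) x := by
  have hpi : (2 * (Real.pi : ℂ) * I) ≠ 0 := by
    simp [Real.pi_ne_zero]
  have h0 : U d s a = fun x => tm s x a *
      jacobiTheta₂ (d * x + I * s * d * a) (I * s * d ^ 2) := by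
    funext x
    exact U_eq d hd s hs a x
  have h1 : HasDerivAt (fun x : ℂ => (d : ℂ) * x + I * s * d * a) (d : ℂ) x := by
    simpa using ((hasDerivAt_id x).const_mul (d : ℂ)).add_const (I * s * d * a)
  have h2 := (hasDerivAt_jacobiTheta₂_fst (d * x + I * s * d * a) (tau_im d hd s hs)).comp x h1
  have h3 := (hasDerivAt_tm s a x).mul h2
  have h4 : U1 d s a x = _ := (hasSum_U1 d hd s hs a x).unique (hasSum_U1_aux d hd s hs a x)
  rw [h0, h4]
  refine HasDerivAt.congr_deriv h3 ?_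
  simp only [Function.comp_apply]
  field_simp

theorem U_congr (d : ℕ) (hd : 0 < d) (s : ℝ) (a b : ℤ) (h : (d : ℤ) ∣ a - b) (x : ℂ) :
    U d s a x = U d s b x := by
  obtain ⟨c, hc⟩ := h
  unfold U
  rw [← (Equiv.addRight c).tsum_eq (fun k : ℤ => tm s x (b + d * k))]
  congr 1
  funext k
  simp only [Equiv.coe_addRight]
  congr 1
  have : a = b + d * c := by linarith
  rw [this]
  ring

theorem U1_congr (d : ℕ) (hd : 0 < d) (s : ℝ) (a b : ℤ) (h : (d : ℤ) ∣ a - b) (x : ℂ) :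
    U1 d s a x = U1 d s b x := by
  obtain ⟨c, hc⟩ := h
  unfold U1
  rw [← (Equiv.addRight c).tsum_eq (fun k : ℤ => ((b + d * k : ℤ) : ℂ) * tm s x (b + d * k))]
  congr 1
  funext k
  simp only [Equiv.coe_addRight]
  have : a + d * k = b + d * (k + c) := by linarith
  rw [this]

theorem U_add_one (d : ℕ) (s : ℝ) (a : ℤ) (x : ℂ) : U d s a (x + 1) = U d s a x := by
  unfold U
  congr 1
  funext k
  unfold tm
  have h1 : -(Real.pi : ℂ) * s * ((a + d * k : ℤ) : ℂ) ^ 2 +
      2 * (Real.pi : ℂ) * I * ((a + d * k : ℤ) : ℂ) * (x + 1) =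
      (-(Real.pi : ℂ) * s * ((a + d * k : ℤ) : ℂ) ^ 2 +
        2 * (Real.pi : ℂ) * I * ((a + d * k : ℤ) : ℂ) * x) +
      ((a + d * k : ℤ) : ℂ) * (2 * (Real.pi : ℂ) * I) := by ring
  rw [h1, Complex.exp_add, Complex.exp_int_mul_two_pi_mul_I, mul_one]

theorem U_add_inv (d : ℕ) (hd : 0 < d) (s : ℝ) (a : ℤ) (x : ℂ) :
    U d s a (x + 1 / d) = cexp (2 * (Real.pi : ℂ) * I * a / d) * U d s a x := by
  have hd' : (d : ℂ) ≠ 0 := by exact_mod_cast hd.ne'
  unfold U
  rw [← tsum_mul_left]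
  congr 1
  funext k
  unfold tm
  rw [← Complex.exp_add]
  have h1 : -(Real.pi : ℂ) * s * ((a + d * k : ℤ) : ℂ) ^ 2 +
      2 * (Real.pi : ℂ) * I * ((a + d * k : ℤ) : ℂ) * (x + 1 / d) =
      (2 * (Real.pi : ℂ) * I * a / d + (-(Real.pi : ℂ) * s * ((a + d * k : ℤ) : ℂ) ^ 2 +
        2 * (Real.pi : ℂ) * I * ((a + d * k : ℤ) : ℂ) * x)) +
      (k : ℂ) * (2 * (Real.pi : ℂ) * I) := by
    push_cast
    field_simp
    ring
  rw [h1, Complex.exp_add _ ((k : ℂ) * (2 * (Real.pi : ℂ) * I)),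
    Complex.exp_int_mul_two_pi_mul_I, mul_one]

theorem U_add_period (d : ℕ) (hd : 0 < d) (s : ℝ) (hs : 0 < s) (a : ℤ) (x : ℂ) :
    U d s a (x + I * d * s) =
      cexp ((Real.pi : ℂ) * s * d ^ 2 - 2 * (Real.pi : ℂ) * I * d * x) * U d s a x := by
  have h0 : U d s a x = ∑' k : ℤ, tm s x (a + d * (k + 1)) := by
    unfold U
    rw [← (Equiv.addRight (1 : ℤ)).tsum_eq (fun k : ℤ => tm s x (a + d * k))]
    rfl
  rw [h0, ← tsum_mul_left]
  unfold U
  congr 1
  funext k
  unfold tm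
  rw [← Complex.exp_add]
  congr 1
  have hI : I * I = -1 := Complex.I_mul_I
  have e1 : 2 * (Real.pi : ℂ) * I * ((a + d * k : ℤ) : ℂ) * (x + I * d * s) =
      2 * (Real.pi : ℂ) * I * ((a + d * k : ℤ) : ℂ) * x +
      (I * I) * (2 * (Real.pi : ℂ) * ((a + d * k : ℤ) : ℂ) * d * s) := by ring
  rw [e1, hI]
  push_cast
  ring

theorem U_zero_exists (d : ℕ) (hd : 0 < d) (s : ℝ) (hs : 0 < s) (a : ℤ) :
    U d s a (1 / (2 * d) - I * s * (a - d / 2)) = 0 := by
  have hd' : (d : ℂ) ≠ 0 := by exact_mod_cast hd.ne'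
  set x0 : ℂ := 1 / (2 * d) - I * s * (a - d / 2) with hx0
  have key : ∀ k : ℤ, tm s x0 (a + d * (-1 - k)) = -tm s x0 (a + d * k) := by
    intro k
    unfold tm
    have hI : I * I = -1 := Complex.I_mul_I
    have e0 : ∀ N : ℂ, 2 * (Real.pi : ℂ) * I * N * x0 =
        (Real.pi : ℂ) * I * N / d - (I * I) * (2 * (Real.pi : ℂ) * N * s * (a - d / 2)) := by
      intro N
      rw [hx0]
      field_simp
    rw [e0, e0, hI]
    have e2 : -(Real.pi : ℂ) * s * ((a + d * (-1 - k) : ℤ) : ℂ) ^ 2 +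
        ((Real.pi : ℂ) * I * ((a + d * (-1 - k) : ℤ) : ℂ) / d -
          (-1) * (2 * (Real.pi : ℂ) * ((a + d * (-1 - k) : ℤ) : ℂ) * s * (a - d / 2))) =
        ((-(Real.pi : ℂ) * s * ((a + d * k : ℤ) : ℂ) ^ 2 +
        ((Real.pi : ℂ) * I * ((a + d * k : ℤ) : ℂ) / d -
          (-1) * (2 * (Real.pi : ℂ) * ((a + d * k : ℤ) : ℂ) * s * (a - d / 2)))) +
        ((-1 - k : ℤ) : ℂ) * (2 * (Real.pi : ℂ) * I)) + (Real.pi : ℂ) * I := by
      push_cast
      field_simp
      ring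
    rw [e2, Complex.exp_add _ ((Real.pi : ℂ) * I), Complex.exp_pi_mul_I,
      Complex.exp_add _ (((-1 - k : ℤ) : ℂ) * (2 * (Real.pi : ℂ) * I)),
      Complex.exp_int_mul_two_pi_mul_I]
    ring
  have h1 : U d s a x0 = -U d s a x0 := by
    conv_lhs => unfold U
    rw [← (Equiv.subLeft (-1 : ℤ)).tsum_eq (fun k : ℤ => tm s x0 (a + d * k))]
    simp only [Equiv.subLeft_apply]
    rw [show (fun k : ℤ => tm s x0 (a + d * (-1 - k))) = fun k : ℤ => -tm s x0 (a + d * k) from
      funext key]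
    rw [tsum_neg]
    rfl
  exact self_eq_neg.1 h1

theorem U_zeros_countable (d : ℕ) (hd : 0 < d) (s : ℝ) (hs : 0 < s) (a : ℤ) :
    {x : ℂ | U d s a x = 0}.Countable := by
  have hdiff : Differentiable ℂ (U d s a) := fun x =>
    (hasDerivAt_U d hd s hs a x).differentiableAt
  have han : AnalyticOnNhd ℂ (U d s a) Set.univ := fun x _ => hdiff.analyticAt x
  have h0 : U d s a 0 ≠ 0 := by
    have e1 : ∀ k : ℤ, tm s 0 (a + d * k) =
        ((Real.exp (-Real.pi * s * ((a + d * k : ℤ) : ℝ) ^ 2) : ℝ) : ℂ) := by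
      intro k
      unfold tm
      rw [mul_zero, add_zero]
      push_cast
      rfl
    have e2 : U d s a 0 =
        ((∑' k : ℤ, Real.exp (-Real.pi * s * ((a + d * k : ℤ) : ℝ) ^ 2) : ℝ) : ℂ) := by
      unfold U
      rw [Complex.ofReal_tsum]
      congr 1
      funext k
      exact e1 k
    rw [e2]
    have e3 : Summable (fun k : ℤ => Real.exp (-Real.pi * s * ((a + d * k : ℤ) : ℝ) ^ 2)) := by
      have h1 := summable_norm_U d hd s hs a 0
      refine h1.congr (fun k => ?_)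
      rw [norm_tm]
      simp
    have e4 : 0 < ∑' k : ℤ, Real.exp (-Real.pi * s * ((a + d * k : ℤ) : ℝ) ^ 2) :=
      e3.tsum_pos (fun k => (Real.exp_pos _).le) 0 (Real.exp_pos _)
    exact_mod_cast e4.ne'
  have h1 := han.preimage_zero_mem_codiscrete h0
  have h2 := (mem_codiscrete'.1 h1).2
  have h3 : ((U d s a) ⁻¹' {0}ᶜ)ᶜ = {x : ℂ | U d s a x = 0} := by
    ext x
    simp
  rw [h3] at h2
  have := h2.to_subtype
  exact Set.countable_coe_iff.1 (countable_of_Lindelof_of_discrete)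

/-- Comparison of a general term with the two terms `k = 0` and `k = -1`. -/
theorem norm_ratio (d : ℕ) (hd : 0 < d) (s : ℝ) (hs : 0 < s) (x : ℂ) (N : ℤ) (c : ℝ)
    (h1 : c ≤ d * (d + 2 * (N + x.im / s))) (h2 : c ≤ d * (3 * d - 2 * (N + x.im / s)))
    (k : ℤ) : ‖tm s x (N + d * k)‖ ≤
      Real.exp (-Real.pi * s * (c * (|(k : ℝ) + 1 / 2| - 1 / 2))) *
        (‖tm s x N‖ + ‖tm s x (N - d)‖) := by
  have hd' : (0 : ℝ) < d := by exact_mod_cast hd
  have hpi := Real.pi_pos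
  set w : ℝ := N + x.im / s with hw
  have hy : x.im = s * (w - N) := by
    rw [hw]
    field_simp
    ring
  rw [mul_add]
  rcases le_or_gt 0 k with hk | hk
  · have hk' : (0 : ℝ) ≤ k := by exact_mod_cast hk
    have hk1 : (0 : ℝ) ≤ k * (k - 1) := by
      rcases eq_or_lt_of_le hk with h | h
      · rw [← h]; simp
      · have : (1 : ℝ) ≤ k := by exact_mod_cast h
        exact mul_nonneg hk' (by linarith)
    have e1 : |(k : ℝ) + 1 / 2| - 1 / 2 = k := by
      rw [abs_of_nonneg (by linarith)]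
      ring
    rw [e1]
    have h3 : ‖tm s x (N + d * k)‖ ≤ Real.exp (-Real.pi * s * (c * k)) * ‖tm s x N‖ := by
      rw [norm_tm, norm_tm, ← Real.exp_add, hy]
      apply Real.exp_le_exp.2
      push_cast
      have h4 : 0 ≤ (k : ℝ) * (d * (k * d + 2 * w) - c) := by
        have h5 : (k : ℝ) * (d * (d + 2 * w) - c) ≥ 0 := mul_nonneg hk' (by linarith)
        nlinarith [mul_nonneg hk1 (mul_pos hd' hd').le]
      have h6 : -Real.pi * s * (c * k) +
          (-Real.pi * s * (N : ℝ) ^ 2 - 2 * Real.pi * N * (s * (w - N))) -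
          (-Real.pi * s * ((N : ℝ) + d * k) ^ 2 - 2 * Real.pi * (N + d * k) * (s * (w - N))) =
          Real.pi * s * (k * (d * (k * d + 2 * w) - c)) := by ring
      have h7 : 0 ≤ Real.pi * s * (k * (d * (k * d + 2 * w) - c)) := by positivity
      linarith
    have h8 : 0 ≤ Real.exp (-Real.pi * s * (c * k)) * ‖tm s x (N - d)‖ := by positivity
    linarith
  · have hk' : (k : ℝ) ≤ -1 := by
      have : k ≤ -1 := by omega
      exact_mod_cast this
    have hk1 : (0 : ℝ) ≤ (-k - 1) * (-k - 2) := by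
      rcases eq_or_lt_of_le (show k ≤ -1 by omega) with h | h
      · rw [h]; simp
      · have h' : k ≤ -2 := by omega
        have : (k : ℝ) ≤ -2 := by exact_mod_cast h'
        exact mul_nonneg (by linarith) (by linarith)
    have e1 : |(k : ℝ) + 1 / 2| - 1 / 2 = -k - 1 := by
      rw [abs_of_nonpos (by linarith)]
      ring
    rw [e1]
    have h3 : ‖tm s x (N + d * k)‖ ≤
        Real.exp (-Real.pi * s * (c * (-k - 1))) * ‖tm s x (N - d)‖ := by
      rw [norm_tm, norm_tm, ← Real.exp_add, hy]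
      apply Real.exp_le_exp.2
      push_cast
      have h4 : 0 ≤ (-(k : ℝ) - 1) * (d * ((-k + 1) * d - 2 * w) - c) := by
        have h5 : (-(k : ℝ) - 1) * (d * (3 * d - 2 * w) - c) ≥ 0 :=
          mul_nonneg (by linarith) (by linarith)
        nlinarith [mul_nonneg hk1 (mul_pos hd' hd').le]
      have h6 : -Real.pi * s * (c * (-k - 1)) +
          (-Real.pi * s * ((N : ℝ) - d) ^ 2 - 2 * Real.pi * (N - d) * (s * (w - N))) -
          (-Real.pi * s * ((N : ℝ) + d * k) ^ 2 - 2 * Real.pi * (N + d * k) * (s * (w - N))) =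
          Real.pi * s * ((-k - 1) * (d * ((-k + 1) * d - 2 * w) - c)) := by ring
      have h7 : 0 ≤ Real.pi * s * ((-k - 1) * (d * ((-k + 1) * d - 2 * w) - c)) := by positivity
      linarith
    have h8 : 0 ≤ Real.exp (-Real.pi * s * (c * (-k - 1))) * ‖tm s x N‖ := by positivity
    linarith

theorem summable_bound (A B c : ℝ) (hA : 0 ≤ A) (hB : 0 ≤ B) (hc : 0 < c) :
    Summable (fun k : ℤ => (A + B * |(k : ℝ)|) *
      Real.exp (-Real.pi * (c * (|(k : ℝ) + 1 / 2| - 1 / 2)))) := by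
  have hpi := Real.pi_pos
  set r : ℝ := Real.exp (-Real.pi * c) with hr
  have hr0 : 0 < r := Real.exp_pos _
  have hr1 : r < 1 := by
    rw [hr]
    rw [Real.exp_lt_one_iff]
    nlinarith
  have hn : Summable (fun n : ℕ => (A + B * n) * (Real.exp (Real.pi * c) * r ^ n)) := by
    have h1 : Summable (fun n : ℕ => r ^ n) := summable_geometric_of_lt_one hr0.le hr1
    have h2 : Summable (fun n : ℕ => (n : ℝ) ^ 1 * r ^ n) :=
      summable_pow_mul_geometric_of_norm_lt_one 1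
        (by rw [Real.norm_of_nonneg hr0.le]; exact hr1)
    have h3 := (h1.mul_left (A * Real.exp (Real.pi * c))).add
      (h2.mul_left (B * Real.exp (Real.pi * c)))
    refine h3.congr (fun n => ?_)
    ring
  have hle : ∀ k : ℤ, (A + B * |(k : ℝ)|) *
      Real.exp (-Real.pi * (c * (|(k : ℝ) + 1 / 2| - 1 / 2))) ≤
      (A + B * (k.natAbs : ℝ)) * (Real.exp (Real.pi * c) * r ^ k.natAbs) := by
    intro k
    have e1 : (k.natAbs : ℝ) = |(k : ℝ)| := by
      rw [Nat.cast_natAbs, Int.cast_abs]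
    rw [e1]
    apply mul_le_mul_of_nonneg_left _ (by positivity)
    rw [hr, ← Real.exp_nat_mul, ← Real.exp_add, e1]
    apply Real.exp_le_exp.2
    have h1 : |(k : ℝ)| ≤ |(k : ℝ) + 1 / 2| + 1 / 2 := by
      have := abs_add_le ((k : ℝ) + 1 / 2) (-(1 / 2))
      rw [abs_neg, abs_of_pos (by norm_num : (0 : ℝ) < 1 / 2)] at this
      simpa using this
    nlinarith [mul_pos hpi hc]
  have hf : Summable (fun k : ℤ =>
      (A + B * (k.natAbs : ℝ)) * (Real.exp (Real.pi * c) * r ^ k.natAbs)) := by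
    rw [summable_int_iff_summable_nat_and_neg]
    constructor
    · simpa using hn
    · simpa using hn
  exact Summable.of_nonneg_of_le (fun k => by positivity) hle hf

/-- Dominated convergence with a weight of linear growth. -/
theorem weighted_tendsto (d : ℕ) (hd : 0 < d) (F : Filter ℕ) (σ : ℕ → ℝ) (x : ℕ → ℂ) (v : ℝ)
    (N : ℤ) (α β : ℂ) (hσ : Tendsto σ F atTop)
    (hv : Tendsto (fun n => (x n).im / σ n) F (𝓝 v))
    (h1 : -(d : ℝ) / 2 < N + v) (h2 : N + v ≤ (d : ℝ) / 2)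
    (hα : Tendsto (fun n => tm (σ n) (x n) N /
      ((‖tm (σ n) (x n) N‖ + ‖tm (σ n) (x n) (N - d)‖ : ℝ) : ℂ)) F (𝓝 α))
    (hβ : Tendsto (fun n => tm (σ n) (x n) (N - d) /
      ((‖tm (σ n) (x n) N‖ + ‖tm (σ n) (x n) (N - d)‖ : ℝ) : ℂ)) F (𝓝 β))
    (W : ℤ → ℂ) (A B : ℝ) (hA : 0 ≤ A) (hB : 0 ≤ B) (hW : ∀ k, ‖W k‖ ≤ A + B * |(k : ℝ)|) :
    Tendsto (fun n => (∑' k : ℤ, W k * tm (σ n) (x n) (N + d * k)) /
      ((‖tm (σ n) (x n) N‖ + ‖tm (σ n) (x n) (N - d)‖ : ℝ) : ℂ)) F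
        (𝓝 (W 0 * α + W (-1) * β)) := by
  have hd' : (0 : ℝ) < d := by exact_mod_cast hd
  have hpi := Real.pi_pos
  set c : ℝ := min (d * (d + 2 * (N + v)) / 2) (d * d) with hc
  have hc0 : 0 < c := by
    rw [hc]
    apply lt_min
    · apply div_pos _ two_pos
      apply mul_pos hd'
      linarith
    · exact mul_pos hd' hd'
  have hE : ∀ n, 0 < ‖tm (σ n) (x n) N‖ + ‖tm (σ n) (x n) (N - d)‖ := fun n =>
    add_pos_of_pos_of_nonneg (norm_pos_iff.2 (tm_ne_zero _ _ _)) (norm_nonneg _)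
  have ev1 : ∀ᶠ n in F, c ≤ d * (d + 2 * (N + (x n).im / σ n)) := by
    have t1 : Tendsto (fun n => (d : ℝ) * (d + 2 * (N + (x n).im / σ n))) F
        (𝓝 (d * (d + 2 * (N + v)))) :=
      ((hv.const_add (N : ℝ)).const_mul 2 |>.const_add (d : ℝ)).const_mul (d : ℝ)
    have t2 : c < d * (d + 2 * (N + v)) := by
      have : (0 : ℝ) < d * (d + 2 * (N + v)) := mul_pos hd' (by linarith)
      calc c ≤ d * (d + 2 * (N + v)) / 2 := min_le_left _ _
        _ < _ := by linarith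
    filter_upwards [t1.eventually_const_lt t2] with n hn using hn.le
  have ev2 : ∀ᶠ n in F, c ≤ d * (3 * d - 2 * (N + (x n).im / σ n)) := by
    have t1 : Tendsto (fun n => (d : ℝ) * (3 * d - 2 * (N + (x n).im / σ n))) F
        (𝓝 (d * (3 * d - 2 * (N + v)))) :=
      (((hv.const_add (N : ℝ)).const_mul 2).const_sub (3 * (d : ℝ))).const_mul (d : ℝ)
    have t2 : c < d * (3 * d - 2 * (N + v)) := by
      calc c ≤ d * d := min_le_right _ _
        _ < _ := by nlinarith
    filter_upwards [t1.eventually_const_lt t2] with n hn using hn.le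
  have ev3 : ∀ᶠ n in F, 1 ≤ σ n := hσ.eventually_ge_atTop 1
  have hbd : ∀ᶠ n in F, ∀ k : ℤ, ‖W k * tm (σ n) (x n) (N + d * k) /
      ((‖tm (σ n) (x n) N‖ + ‖tm (σ n) (x n) (N - d)‖ : ℝ) : ℂ)‖ ≤
      (A + B * |(k : ℝ)|) * Real.exp (-Real.pi * σ n * (c * (|(k : ℝ) + 1 / 2| - 1 / 2))) := by
    filter_upwards [ev1, ev2, ev3] with n e1 e2 e3 k
    have hs : 0 < σ n := by linarith
    have h3 := norm_ratio d hd (σ n) hs (x n) N c e1 e2 k
    rw [norm_div, norm_mul, Complex.norm_real, Real.norm_of_nonneg (hE n).le,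
      div_le_iff₀ (hE n), mul_assoc]
    exact mul_le_mul (hW k) h3 (norm_nonneg _) (by positivity)
  have habs : ∀ k : ℤ, (0 : ℝ) ≤ |(k : ℝ) + 1 / 2| - 1 / 2 := by
    intro k
    rcases le_or_gt 0 k with hk | hk
    · have hk' : (0 : ℝ) ≤ k := by exact_mod_cast hk
      rw [abs_of_nonneg (by linarith)]
      linarith
    · have hk' : (k : ℝ) ≤ -1 := by
        have : k ≤ -1 := by omega
        exact_mod_cast this
      rw [abs_of_nonpos (by linarith)]
      linarith
  have main := tendsto_tsum_of_dominated_convergence (𝓕 := F)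
    (f := fun n (k : ℤ) => W k * tm (σ n) (x n) (N + d * k) /
      ((‖tm (σ n) (x n) N‖ + ‖tm (σ n) (x n) (N - d)‖ : ℝ) : ℂ))
    (g := fun k : ℤ => if k = 0 then W 0 * α else if k = -1 then W (-1) * β else 0)
    (summable_bound A B c hA hB hc0) ?_ ?_
  · have e1 : (∑' k : ℤ, (if k = 0 then W 0 * α else if k = -1 then W (-1) * β else 0)) =
        W 0 * α + W (-1) * β := by
      rw [tsum_eq_sum (s := {0, -1})]
      · rw [Finset.sum_pair (by norm_num)]
        simp
      · intro k hk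
        simp only [Finset.mem_insert, Finset.mem_singleton, not_or] at hk
        rw [if_neg hk.1, if_neg hk.2]
    rw [e1] at main
    refine main.congr (fun n => ?_)
    rw [tsum_div_const]
  · intro k
    by_cases hk0 : k = 0
    · subst hk0
      simp only [if_true]
      refine (hα.const_mul (W 0)).congr (fun n => ?_)
      rw [mul_zero, add_zero, mul_div_assoc]
    · by_cases hk1 : k = -1
      · subst hk1
        rw [if_neg (by norm_num), if_pos rfl]
        refine (hβ.const_mul (W (-1))).congr (fun n => ?_)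
        rw [mul_div_assoc]
        have : N + (d : ℤ) * (-1) = N - d := by ring
        rw [this]
      · rw [if_neg hk0, if_neg hk1]
        have hpos : 0 < |(k : ℝ) + 1 / 2| - 1 / 2 := by
          rcases le_or_gt 0 k with hk | hk
          · have hk2 : 1 ≤ k := by omega
            have hk' : (1 : ℝ) ≤ k := by exact_mod_cast hk2
            rw [abs_of_nonneg (by linarith)]
            linarith
          · have hk2 : k ≤ -2 := by omega
            have hk' : (k : ℝ) ≤ -2 := by exact_mod_cast hk2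
            rw [abs_of_nonpos (by linarith)]
            linarith
        have t1 : Tendsto (fun n => (A + B * |(k : ℝ)|) *
            Real.exp (-Real.pi * σ n * (c * (|(k : ℝ) + 1 / 2| - 1 / 2)))) F (𝓝 0) := by
          have t2 : Tendsto (fun n => -Real.pi * σ n * (c * (|(k : ℝ) + 1 / 2| - 1 / 2))) F
              atBot := by
            have t3 : Tendsto (fun n => (Real.pi * (c * (|(k : ℝ) + 1 / 2| - 1 / 2))) * σ n) F
                atTop := hσ.const_mul_atTop (by positivity)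
            refine (tendsto_neg_atTop_atBot.comp t3).congr (fun n => ?_)
            simp only [Function.comp_apply]
            ring
          have t4 := (Real.tendsto_exp_atBot.comp t2).const_mul (A + B * |(k : ℝ)|)
          rw [mul_zero] at t4
          exact t4
        exact squeeze_zero_norm' (hbd.mono fun n hn => hn k) t1
  · filter_upwards [hbd, ev3] with n hn e3 k
    refine (hn k).trans ?_
    apply mul_le_mul_of_nonneg_left _ (by positivity)
    apply Real.exp_le_exp.2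
    have h5 : 0 ≤ c * (|(k : ℝ) + 1 / 2| - 1 / 2) := mul_nonneg hc0.le (habs k)
    nlinarith [mul_nonneg (mul_nonneg hpi.le h5) (by linarith : (0 : ℝ) ≤ σ n - 1)]

theorem U_tendsto (d : ℕ) (hd : 0 < d) (F : Filter ℕ) (σ : ℕ → ℝ) (x : ℕ → ℂ) (v : ℝ) (N : ℤ)
    (α β : ℂ) (hσ : Tendsto σ F atTop) (hv : Tendsto (fun n => (x n).im / σ n) F (𝓝 v))
    (h1 : -(d : ℝ) / 2 < N + v) (h2 : N + v ≤ (d : ℝ) / 2)
    (hα : Tendsto (fun n => tm (σ n) (x n) N /
      ((‖tm (σ n) (x n) N‖ + ‖tm (σ n) (x n) (N - d)‖ : ℝ) : ℂ)) F (𝓝 α))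
    (hβ : Tendsto (fun n => tm (σ n) (x n) (N - d) /
      ((‖tm (σ n) (x n) N‖ + ‖tm (σ n) (x n) (N - d)‖ : ℝ) : ℂ)) F (𝓝 β)) :
    Tendsto (fun n => U d (σ n) N (x n) /
      ((‖tm (σ n) (x n) N‖ + ‖tm (σ n) (x n) (N - d)‖ : ℝ) : ℂ)) F (𝓝 (α + β)) ∧
    Tendsto (fun n => U1 d (σ n) N (x n) /
      ((‖tm (σ n) (x n) N‖ + ‖tm (σ n) (x n) (N - d)‖ : ℝ) : ℂ)) F
        (𝓝 (N * α + (N - d) * β)) := by
  constructor
  · have h := weighted_tendsto d hd F σ x v N α β hσ hv h1 h2 hα hβ (fun _ => 1) 1 0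
      zero_le_one le_rfl (fun k => by simp)
    simpa [U] using h
  · have h := weighted_tendsto d hd F σ x v N α β hσ hv h1 h2 hα hβ
      (fun k => ((N + d * k : ℤ) : ℂ)) |(N : ℝ)| d (abs_nonneg _) (Nat.cast_nonneg _) (fun k => by
        have e1 : ((N + d * k : ℤ) : ℂ) = ((((N : ℝ) + d * k : ℝ)) : ℂ) := by push_cast; ring
        rw [e1, Complex.norm_real, Real.norm_eq_abs]
        refine (abs_add_le _ _).trans ?_
        rw [abs_mul, abs_of_nonneg (Nat.cast_nonneg d : (0 : ℝ) ≤ d)])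
    have e2 : ((N + d * (-1 : ℤ) : ℤ) : ℂ) = (N : ℂ) - d := by push_cast; ring
    have e3 : ((N + d * (0 : ℤ) : ℤ) : ℂ) = (N : ℂ) := by push_cast; ring
    simp only [e2, e3] at h
    exact h

end Pool.Agent.AM
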