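import Pool.Agent.AM.Defs

/-! Job AM-4a: elementary facts on the theta functions `th3`, `th4` with purely imaginary
modulus: periods, parity, quasi-periods, the zeros of `th3` and the addition formula. -/

set_option autoImplicit false

open Complex Filter Topology

namespace Pool.Agent.AM

theorem yb_im_tau (al : ℝ) : (I * (al : ℂ)).im = al := by
  simp

theorem th3_diff (al : ℝ) (h : 0 < al) : Differentiable ℂ (th3 al) := by
  intro w
  have hτ : 0 < (I * (al : ℂ)).im := by rw [yb_im_tau]; exact h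
  exact differentiableAt_jacobiTheta₂_fst w hτ

theorem th4_diff (al : ℝ) (h : 0 < al) : Differentiable ℂ (th4 al) := by
  have h1 : th4 al = fun w => th3 al (w + 1 / 2) := rfl
  rw [h1]
  exact (th3_diff al h).comp (differentiable_id.add_const _)

theorem th3_add_one (al : ℝ) (w : ℂ) : th3 al (w + 1) = th3 al w :=
  jacobiTheta₂_add_left w (I * al)

theorem th3_add_half (al : ℝ) (w : ℂ) : th3 al (w + 1 / 2) = th4 al w := rfl

theorem th4_add_half (al : ℝ) (w : ℂ) : th4 al (w + 1 / 2) = th3 al w := by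
  have h1 : th4 al (w + 1 / 2) = th3 al (w + 1 / 2 + 1 / 2) := rfl
  rw [h1, show w + 1 / 2 + 1 / 2 = w + 1 by ring, th3_add_one]

theorem th4_add_one (al : ℝ) (w : ℂ) : th4 al (w + 1) = th4 al w := by
  rw [← th3_add_half, ← th3_add_half, show w + 1 + 1 / 2 = w + 1 / 2 + 1 by ring, th3_add_one]

theorem th3_neg (al : ℝ) (w : ℂ) : th3 al (-w) = th3 al w :=
  jacobiTheta₂_neg_left w (I * al)

theorem th4_neg (al : ℝ) (w : ℂ) : th4 al (-w) = th4 al w := by
  rw [← th3_add_half, ← th3_add_half, ← th3_neg al (w + 1 / 2), ← th3_add_one al (-(w + 1 / 2))]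
  congr 1
  ring

theorem th3_add_tau (al : ℝ) (w : ℂ) : th3 al (w + I * al) =
    cexp ((Real.pi : ℂ) * al - 2 * (Real.pi : ℂ) * I * w) * th3 al w := by
  have h1 := jacobiTheta₂_add_left' w (I * al)
  have h2 : -(Real.pi : ℂ) * I * (I * al + 2 * w) =
      (Real.pi : ℂ) * al - 2 * (Real.pi : ℂ) * I * w := by
    have : I * I = -1 := Complex.I_mul_I
    linear_combination (-(Real.pi : ℂ) * al) * this
  rw [h2] at h1
  exact h1

theorem th4_add_tau (al : ℝ) (w : ℂ) : th4 al (w + I * al) =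
    -cexp ((Real.pi : ℂ) * al - 2 * (Real.pi : ℂ) * I * w) * th4 al w := by
  rw [← th3_add_half, ← th3_add_half, show w + I * al + 1 / 2 = w + 1 / 2 + I * al by ring,
    th3_add_tau]
  congr 1
  rw [show (Real.pi : ℂ) * al - 2 * (Real.pi : ℂ) * I * (w + 1 / 2) =
    ((Real.pi : ℂ) * al - 2 * (Real.pi : ℂ) * I * w) - (Real.pi : ℂ) * I by ring,
    Complex.exp_sub, Complex.exp_pi_mul_I]
  ring

/-- iterated quasi period -/
theorem th3_add_int_tau (al : ℝ) (w : ℂ) (n : ℤ) : th3 al (w + n * (I * al)) =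
    cexp ((Real.pi : ℂ) * al * (n : ℂ) ^ 2 - 2 * (Real.pi : ℂ) * I * n * w) * th3 al w := by
  unfold th3
  conv_rhs => rw [jacobiTheta₂, ← tsum_mul_left, ← (Equiv.addRight n).tsum_eq]
  refine tsum_congr (fun m ↦ ?_)
  rw [jacobiTheta₂_term, jacobiTheta₂_term, ← Complex.exp_add, Equiv.coe_addRight, Int.cast_add]
  congr 1
  have : I * I = -1 := Complex.I_mul_I
  linear_combination (-(Real.pi : ℂ) * al * (n : ℂ) ^ 2) * this

theorem th3_add_int (al : ℝ) (w : ℂ) (n : ℤ) : th3 al (w + n) = th3 al w := by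
  unfold th3
  refine tsum_congr (fun m ↦ ?_)
  rw [jacobiTheta₂_term, jacobiTheta₂_term]
  rw [show 2 * (Real.pi : ℂ) * I * m * (w + n) + (Real.pi : ℂ) * I * (m : ℂ) ^ 2 * (I * al) =
    (2 * (Real.pi : ℂ) * I * m * w + (Real.pi : ℂ) * I * (m : ℂ) ^ 2 * (I * al)) +
      ((m * n : ℤ) : ℂ) * (2 * Real.pi * I) by push_cast; ring, Complex.exp_add,
    Complex.exp_int_mul_two_pi_mul_I, mul_one]

theorem yb_term_pos (al : ℝ) (v : ℂ) (n : ℕ) :
    jacobiTheta₂_term (n : ℤ) ((1 + I * al) / 2 + v) (I * al) =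
      (-1) ^ n * cexp (-(Real.pi : ℂ) * al) ^ (n * (n + 1)) * cexp (2 * Real.pi * I * v) ^ n := by
  rw [jacobiTheta₂_term, ← Complex.exp_pi_mul_I, ← Complex.exp_nat_mul, ← Complex.exp_nat_mul,
    ← Complex.exp_nat_mul, ← Complex.exp_add, ← Complex.exp_add]
  congr 1
  have : I * I = -1 := Complex.I_mul_I
  push_cast
  linear_combination ((Real.pi : ℂ) * al * (n : ℂ) + (Real.pi : ℂ) * al * (n : ℂ) ^ 2) * this

theorem yb_term_neg (al : ℝ) (v : ℂ) (n : ℕ) :
    jacobiTheta₂_term (-((n : ℤ) + 1)) ((1 + I * al) / 2 + v) (I * al) =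
      -((-1) ^ n * cexp (-(Real.pi : ℂ) * al) ^ (n * (n + 1)) *
        (cexp (2 * Real.pi * I * v))⁻¹ ^ (n + 1)) := by
  have h1 : -((-1 : ℂ) ^ n * cexp (-(Real.pi : ℂ) * al) ^ (n * (n + 1)) *
        (cexp (2 * Real.pi * I * v))⁻¹ ^ (n + 1)) =
      (-1) ^ (n + 1) * cexp (-(Real.pi : ℂ) * al) ^ (n * (n + 1)) *
        (cexp (2 * Real.pi * I * v))⁻¹ ^ (n + 1) := by ring
  have h2 : (-1 : ℂ) = cexp (-(Real.pi * I)) := by
    rw [Complex.exp_neg, Complex.exp_pi_mul_I]; norm_num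
  rw [h1, jacobiTheta₂_term, h2, ← Complex.exp_neg, ← Complex.exp_nat_mul, ← Complex.exp_nat_mul,
    ← Complex.exp_nat_mul, ← Complex.exp_add, ← Complex.exp_add]
  congr 1
  have : I * I = -1 := Complex.I_mul_I
  push_cast
  linear_combination (-(Real.pi : ℂ) * al * ((n : ℂ) + 1) +
    (Real.pi : ℂ) * al * ((n : ℂ) + 1) ^ 2) * this

/-- bound for `x^n - y^(n+1)` when `x y = 1` -/
theorem yb_pair_bound (x y : ℂ) (hxy : x * y = 1) (r : ℝ) (hr : 1 ≤ r) (hx : ‖x‖ ≤ r)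
    (hy : ‖y‖ ≤ r) (n : ℕ) :
    ‖x ^ n - y ^ (n + 1)‖ ≤ (2 * n + 1) * r ^ n * ‖1 - y‖ := by
  have h1 : x ^ n - y ^ (n + 1) = (1 - y) * ∑ i ∈ Finset.range (2 * n + 1), x ^ n * y ^ i := by
    rw [← Finset.mul_sum, mul_left_comm, mul_neg_geom_sum, mul_sub, mul_one]
    congr 1
    rw [show 2 * n + 1 = n + (n + 1) by ring, pow_add y n (n + 1), ← mul_assoc, ← mul_pow, hxy,
      one_pow, one_mul]
  rw [h1, norm_mul, mul_comm]
  refine mul_le_mul_of_nonneg_right ?_ (norm_nonneg _)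
  have h2 : ∀ i ∈ Finset.range (2 * n + 1), ‖x ^ n * y ^ i‖ ≤ r ^ n := by
    intro i hi
    rw [Finset.mem_range] at hi
    rcases le_or_gt i n with hin | hin
    · obtain ⟨j, rfl⟩ := Nat.exists_eq_add_of_le hin
      rw [pow_add, mul_right_comm, ← mul_pow, hxy, one_pow, one_mul, norm_pow]
      calc ‖x‖ ^ j ≤ r ^ j := pow_le_pow_left₀ (norm_nonneg _) hx j
        _ ≤ r ^ (i + j) := pow_le_pow_right₀ hr (by omega)
    · obtain ⟨j, rfl⟩ := Nat.exists_eq_add_of_le hin.le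
      rw [pow_add, ← mul_assoc, ← mul_pow, hxy, one_pow, one_mul, norm_pow]
      calc ‖y‖ ^ j ≤ r ^ j := pow_le_pow_left₀ (norm_nonneg _) hy j
        _ ≤ r ^ n := pow_le_pow_right₀ hr (by omega)
  refine (norm_sum_le_of_le _ h2).trans ?_
  rw [Finset.sum_const, Finset.card_range, nsmul_eq_mul]
  push_cast
  exact le_refl _

theorem yb_exp_pi (al : ℝ) (h : 1 ≤ al) : Real.exp (-(Real.pi * al)) ≤ 1 / 8 := by
  have h1 : Real.exp (-(Real.pi * al)) ≤ Real.exp (-3) := by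
    apply Real.exp_le_exp.mpr
    nlinarith [Real.pi_gt_three]
  refine h1.trans ?_
  rw [Real.exp_neg, one_div]
  apply inv_anti₀ (by norm_num)
  have h2 : (2 : ℝ) ≤ Real.exp 1 := by
    have := Real.add_one_le_exp (1 : ℝ)
    linarith
  calc (8 : ℝ) = 2 ^ 3 := by norm_num
    _ ≤ Real.exp 1 ^ 3 := pow_le_pow_left₀ (by norm_num) h2 3
    _ = Real.exp 3 := by rw [← Real.exp_nat_mul]; norm_num

theorem yb_lower (al : ℝ) (h : 1 ≤ al) (v : ℂ) (hv : |v.im| ≤ al / 2) :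
    1 / 2 * ‖1 - cexp (-(2 * Real.pi * I * v))‖ ≤ ‖th3 al ((1 + I * al) / 2 + v)‖ := by
  set y : ℂ := cexp (-(2 * Real.pi * I * v)) with hy
  set x : ℂ := cexp (2 * Real.pi * I * v) with hx
  have hxy : x * y = 1 := by
    rw [hx, hy, ← Complex.exp_add]; simp
  have hyx : y = x⁻¹ := by rw [hy, hx, Complex.exp_neg]
  set q : ℝ := Real.exp (-(Real.pi * al)) with hq
  have hq8 : q ≤ 1 / 8 := yb_exp_pi al h
  have hq0 : 0 < q := Real.exp_pos _
  have hqr : q * q⁻¹ = 1 := mul_inv_cancel₀ hq0.ne'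
  have hr : q⁻¹ = Real.exp (Real.pi * al) := by rw [hq, Real.exp_neg, inv_inv]
  have hr1 : 1 ≤ q⁻¹ := by
    rw [hr]
    apply Real.one_le_exp
    nlinarith [Real.pi_pos]
  have habs := abs_le.mp hv
  have hxn : ‖x‖ ≤ q⁻¹ := by
    rw [hx, Complex.norm_exp, hr, Real.exp_le_exp]
    have : (2 * (Real.pi : ℂ) * I * v).re = -(2 * Real.pi * v.im) := by simp
    rw [this]
    nlinarith [Real.pi_pos, habs.1, habs.2]
  have hyn : ‖y‖ ≤ q⁻¹ := by
    rw [hy, Complex.norm_exp, hr, Real.exp_le_exp]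
    have : (-(2 * (Real.pi : ℂ) * I * v)).re = 2 * Real.pi * v.im := by simp
    rw [this]
    nlinarith [Real.pi_pos, habs.1, habs.2]
  have hτ : 0 < (I * (al : ℂ)).im := by rw [yb_im_tau]; linarith
  have hs := (hasSum_jacobiTheta₂_term ((1 + I * al) / 2 + v) hτ).nat_add_neg_add_one
  have hb : ∀ n : ℕ, jacobiTheta₂_term (n : ℤ) ((1 + I * al) / 2 + v) (I * al) +
      jacobiTheta₂_term (-((n : ℤ) + 1)) ((1 + I * al) / 2 + v) (I * al) =
      (-1) ^ n * cexp (-(Real.pi : ℂ) * al) ^ (n * (n + 1)) * (x ^ n - y ^ (n + 1)) := by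
    intro n
    rw [yb_term_pos, yb_term_neg, ← hyx]
    ring
  simp only [hb] at hs
  have hQ : ‖cexp (-(Real.pi : ℂ) * al)‖ = q := by
    rw [Complex.norm_exp, hq]
    congr 1
    simp
  have hbn : ∀ n : ℕ, ‖(-1) ^ (n + 1) * cexp (-(Real.pi : ℂ) * al) ^ ((n + 1) * (n + 1 + 1)) *
      (x ^ (n + 1) - y ^ (n + 1 + 1))‖ ≤ (3 / 8 * ‖1 - y‖) * (1 / 4) ^ n := by
    intro n
    rw [norm_mul, norm_mul, norm_pow, norm_neg, norm_one, one_pow, one_mul, norm_pow, hQ]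
    have h1 := yb_pair_bound x y hxy q⁻¹ hr1 hxn hyn (n + 1)
    have h2 : q ^ ((n + 1) * (n + 1 + 1)) * ((2 * ((n + 1 : ℕ) : ℝ) + 1) * q⁻¹ ^ (n + 1) * ‖1 - y‖)
        = (2 * ((n + 1 : ℕ) : ℝ) + 1) * q ^ ((n + 1) * (n + 1)) * ‖1 - y‖ := by
      have : q ^ ((n + 1) * (n + 1 + 1)) = q ^ ((n + 1) * (n + 1)) * q ^ (n + 1) := by
        rw [← pow_add]; congr 1
      rw [this]
      have h3 : q ^ (n + 1) * q⁻¹ ^ (n + 1) = 1 := by rw [← mul_pow, hqr, one_pow]
      linear_combination (q ^ ((n + 1) * (n + 1)) * (2 * ((n + 1 : ℕ) : ℝ) + 1) * ‖1 - y‖) * h3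
    have h4 : q ^ ((n + 1) * (n + 1)) ≤ (1 / 8) ^ (n + 1) :=
      calc q ^ ((n + 1) * (n + 1)) ≤ q ^ (n + 1) :=
            pow_le_pow_of_le_one hq0.le (by linarith) (by nlinarith)
        _ ≤ (1 / 8) ^ (n + 1) := pow_le_pow_left₀ hq0.le hq8 _
    have h5 : (2 * ((n + 1 : ℕ) : ℝ) + 1) ≤ 3 * 2 ^ n := by
      have h6 : (n : ℝ) + 1 ≤ 2 ^ n := by
        have := Nat.lt_two_pow_self (n := n)
        exact_mod_cast this
      push_cast
      have h7 : (1 : ℝ) ≤ 2 ^ n := one_le_pow₀ (by norm_num)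
      nlinarith
    calc q ^ ((n + 1) * (n + 1 + 1)) * ‖x ^ (n + 1) - y ^ (n + 1 + 1)‖
        ≤ q ^ ((n + 1) * (n + 1 + 1)) *
          ((2 * ((n + 1 : ℕ) : ℝ) + 1) * q⁻¹ ^ (n + 1) * ‖1 - y‖) :=
          mul_le_mul_of_nonneg_left h1 (by positivity)
      _ = (2 * ((n + 1 : ℕ) : ℝ) + 1) * q ^ ((n + 1) * (n + 1)) * ‖1 - y‖ := h2
      _ ≤ (3 * 2 ^ n) * (1 / 8) ^ (n + 1) * ‖1 - y‖ := by
          refine mul_le_mul_of_nonneg_right ?_ (norm_nonneg _)
          exact mul_le_mul h5 h4 (by positivity) (by positivity)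
      _ = (3 / 8 * ‖1 - y‖) * (1 / 4) ^ n := by
          rw [show (1 / 4 : ℝ) = 2 * (1 / 8) by norm_num, mul_pow, pow_succ]
          ring
  have hg : HasSum (fun n : ℕ => (3 / 8 * ‖1 - y‖) * (1 / 4 : ℝ) ^ n) (1 / 2 * ‖1 - y‖) := by
    have := (hasSum_geometric_of_lt_one (r := (1 / 4 : ℝ)) (by norm_num) (by norm_num)).mul_left
      (3 / 8 * ‖1 - y‖)
    have e : (3 / 8 * ‖1 - y‖) * (1 - 1 / 4 : ℝ)⁻¹ = 1 / 2 * ‖1 - y‖ := by
      rw [show (1 - 1 / 4 : ℝ)⁻¹ = 4 / 3 by norm_num]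
      ring
    rw [e] at this
    exact this
  have hs1 := (hasSum_nat_add_iff' 1).mpr hs
  rw [Finset.sum_range_one] at hs1
  have hfin : ‖jacobiTheta₂ ((1 + I * al) / 2 + v) (I * al) -
      (-1) ^ 0 * cexp (-(Real.pi : ℂ) * al) ^ (0 * (0 + 1)) * (x ^ 0 - y ^ (0 + 1))‖ ≤
      1 / 2 * ‖1 - y‖ := by
    rw [← hs1.tsum_eq]
    exact tsum_of_norm_bounded hg hbn
  simp only [pow_zero, zero_mul, zero_add, pow_one, one_mul] at hfin
  have h9 : ‖1 - y‖ ≤ ‖th3 al ((1 + I * al) / 2 + v)‖ +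
      ‖jacobiTheta₂ ((1 + I * al) / 2 + v) (I * al) - (1 - y)‖ := by
    have : 1 - y = th3 al ((1 + I * al) / 2 + v) -
      (jacobiTheta₂ ((1 + I * al) / 2 + v) (I * al) - (1 - y)) := by
      unfold th3; ring
    calc ‖1 - y‖ = ‖th3 al ((1 + I * al) / 2 + v) -
      (jacobiTheta₂ ((1 + I * al) / 2 + v) (I * al) - (1 - y))‖ := by rw [← this]
      _ ≤ _ := norm_sub_le _ _
  linarith

theorem th3_omega (al : ℝ) : th3 al ((1 + I * al) / 2) = 0 := by
  have h1 : th3 al (-((1 + I * al) / 2) + 1 + I * al) = th3 al ((1 + I * al) / 2) := by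
    congr 1
    ring
  rw [th3_add_tau, th3_add_one, th3_neg] at h1
  have h2 : cexp ((Real.pi : ℂ) * al - 2 * (Real.pi : ℂ) * I * (-((1 + I * al) / 2) + 1)) = -1 := by
    rw [show (Real.pi : ℂ) * al - 2 * (Real.pi : ℂ) * I * (-((1 + I * al) / 2) + 1) =
      -(Real.pi * I) + (Real.pi * al) * (1 + I * I) by ring, Complex.I_mul_I, Complex.exp_add,
      Complex.exp_neg, Complex.exp_pi_mul_I]
    norm_num
  rw [h2] at h1
  have h3 : 2 * th3 al ((1 + I * al) / 2) = 0 := by linear_combination -h1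
  simpa using h3

theorem th3_zero_iff (al : ℝ) (h : 1 ≤ al) (w : ℂ) : th3 al w = 0 ↔
    ∃ m n : ℤ, w = (1 + I * al) / 2 + m + n * (I * al) := by
  constructor
  · intro hw
    have hal : 0 < al := by linarith
    set n : ℤ := round ((w.im - al / 2) / al) with hn
    set v : ℂ := w - (1 + I * al) / 2 - n * (I * al) with hv
    have hwv : w = ((1 + I * al) / 2 + v) + n * (I * al) := by rw [hv]; ring
    have him : v.im = al * ((w.im - al / 2) / al - n) := by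
      have h1 : v.im = w.im - al / 2 - n * al := by
        rw [hv]; simp
      rw [h1]
      field_simp
    have hvb : |v.im| ≤ al / 2 := by
      rw [him, abs_mul, abs_of_pos hal]
      have := abs_sub_round ((w.im - al / 2) / al)
      rw [← hn] at this
      nlinarith
    have h2 := yb_lower al h v hvb
    rw [hwv, th3_add_int_tau] at hw
    have h3 : th3 al ((1 + I * al) / 2 + v) = 0 := by
      rcases mul_eq_zero.mp hw with h4 | h4
      · exact absurd h4 (Complex.exp_ne_zero _)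
      · exact h4
    rw [h3, norm_zero] at h2
    have h5 : ‖1 - cexp (-(2 * Real.pi * I * v))‖ = 0 := by
      have := norm_nonneg (1 - cexp (-(2 * Real.pi * I * v)))
      linarith
    have h6 : cexp (-(2 * Real.pi * I * v)) = 1 := by
      have := norm_eq_zero.mp h5
      linear_combination -this
    obtain ⟨k, hk⟩ := Complex.exp_eq_one_iff.mp h6
    have h7 : v = ((-k : ℤ) : ℂ) := by
      have h8 : (2 * Real.pi * I : ℂ) ≠ 0 := Complex.two_pi_I_ne_zero
      have h9 : (2 * Real.pi * I : ℂ) * v = (2 * Real.pi * I : ℂ) * ((-k : ℤ) : ℂ) := by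
        push_cast
        linear_combination -hk
      exact mul_left_cancel₀ h8 h9
    refine ⟨-k, n, ?_⟩
    rw [← h7]
    exact hwv
  · rintro ⟨m, n, rfl⟩
    rw [th3_add_int_tau, th3_add_int, th3_omega, mul_zero]

theorem th3_deriv_omega (al : ℝ) (h : 1 ≤ al) (d : ℂ)
    (hd : HasDerivAt (th3 al) d ((1 + I * al) / 2)) : d ≠ 0 := by
  have h1 := hd.tendsto_slope_zero.norm
  have hk : HasDerivAt (fun v : ℂ => 1 - cexp (-(2 * Real.pi * I * v))) (2 * Real.pi * I) 0 := by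
    have h2 : HasDerivAt (fun v : ℂ => -(2 * Real.pi * I * v)) (-(2 * Real.pi * I * 1)) 0 :=
      ((hasDerivAt_id (0 : ℂ)).const_mul (2 * Real.pi * I : ℂ)).neg
    have h3 := (h2.cexp).const_sub 1
    simpa using h3
  have h2 := (hk.tendsto_slope_zero.norm).const_mul (1 / 2 : ℝ)
  have h3 : ∀ᶠ t : ℂ in 𝓝[≠] 0, |t.im| ≤ al / 2 := by
    have h4 : ∀ᶠ t : ℂ in 𝓝 0, |t.im| < al / 2 := by
      have hc : Continuous (fun t : ℂ => |t.im|) := by fun_prop
      have := hc.tendsto 0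
      simp only [Complex.zero_im, abs_zero] at this
      exact this.eventually_lt_const (by linarith)
    exact (h4.filter_mono nhdsWithin_le_nhds).mono fun t ht => ht.le
  have h5 : 1 / 2 * ‖(2 * Real.pi * I : ℂ)‖ ≤ ‖d‖ := by
    refine le_of_tendsto_of_tendsto h2 h1 ?_
    filter_upwards [h3] with t ht
    have h6 := yb_lower al h t ht
    rw [th3_omega, sub_zero, norm_smul, norm_smul]
    simp only [zero_add, mul_zero, neg_zero, Complex.exp_zero, sub_self, sub_zero]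
    calc 1 / 2 * (‖t⁻¹‖ * ‖1 - cexp (-(2 * Real.pi * I * t))‖) =
        ‖t⁻¹‖ * (1 / 2 * ‖1 - cexp (-(2 * Real.pi * I * t))‖) := by ring
      _ ≤ ‖t⁻¹‖ * ‖th3 al ((1 + I * al) / 2 + t)‖ :=
        mul_le_mul_of_nonneg_left h6 (norm_nonneg _)
  have h7 : 0 < 1 / 2 * ‖(2 * Real.pi * I : ℂ)‖ := by
    have := norm_pos_iff.mpr Complex.two_pi_I_ne_zero
    linarith
  have h8 : 0 < ‖d‖ := lt_of_lt_of_le h7 h5
  exact norm_pos_iff.mp h8

theorem th3_deriv_ne_zero (al : ℝ) (h : 1 ≤ al) (w : ℂ) (hw : th3 al w = 0) :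
    deriv (th3 al) w ≠ 0 := by
  have hal : 0 < al := by linarith
  obtain ⟨m, n, rfl⟩ := (th3_zero_iff al h w).mp hw
  intro h0
  have h1 : HasDerivAt (th3 al) 0 ((1 + I * al) / 2 + m + n * (I * al)) := by
    rw [← h0]
    exact (th3_diff al hal _).hasDerivAt
  have h2 : HasDerivAt (fun v : ℂ => th3 al (v + (m + n * (I * al)))) 0 ((1 + I * al) / 2) := by
    have := HasDerivAt.comp_add_const (x := (1 + I * al) / 2) (a := (m + n * (I * al) : ℂ))
      (f := th3 al) (f' := 0) (by rw [← add_assoc]; exact h1)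
    exact this
  have h3 : ∀ v : ℂ, th3 al v = cexp (-((Real.pi : ℂ) * al * (n : ℂ) ^ 2 -
      2 * (Real.pi : ℂ) * I * n * (v + m))) * th3 al (v + (m + n * (I * al))) := by
    intro v
    rw [← add_assoc, th3_add_int_tau, th3_add_int, ← mul_assoc, ← Complex.exp_add, neg_add_cancel,
      Complex.exp_zero, one_mul]
  have h4 : HasDerivAt (fun v : ℂ => cexp (-((Real.pi : ℂ) * al * (n : ℂ) ^ 2 -
      2 * (Real.pi : ℂ) * I * n * (v + m)))) (deriv (fun v : ℂ =>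
      cexp (-((Real.pi : ℂ) * al * (n : ℂ) ^ 2 - 2 * (Real.pi : ℂ) * I * n * (v + m))))
      ((1 + I * al) / 2)) ((1 + I * al) / 2) := by
    apply DifferentiableAt.hasDerivAt
    fun_prop
  have h5 := h4.mul h2
  have h6 : th3 al ((1 + I * al) / 2 + (m + n * (I * al))) = 0 := by
    rw [← add_assoc]; exact hw
  rw [h6, mul_zero, mul_zero, add_zero] at h5
  have h7 : HasDerivAt (th3 al) 0 ((1 + I * al) / 2) := by
    have h8 : (th3 al) = (fun v : ℂ => cexp (-((Real.pi : ℂ) * al * (n : ℂ) ^ 2 -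
      2 * (Real.pi : ℂ) * I * n * (v + m)))) * (fun v : ℂ => th3 al (v + (m + n * (I * al)))) := by
      funext v
      exact h3 v
    rw [h8]
    exact h5
  exact th3_deriv_omega al h 0 h7 rfl

theorem yb_term_half (w τ : ℂ) (n : ℤ) :
    jacobiTheta₂_term n (w + 1 / 2) τ = (-1) ^ n * jacobiTheta₂_term n w τ := by
  rw [jacobiTheta₂_term, jacobiTheta₂_term, ← Complex.exp_pi_mul_I, ← Complex.exp_int_mul,
    ← Complex.exp_add]
  congr 1
  ring

theorem yb_prod_tsum (t1 t2 : ℝ) (h1 : 0 < t1) (h2 : 0 < t2) (z z' : ℂ) :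
    jacobiTheta₂ z (I * t1) * jacobiTheta₂ z' (I * t2) = ∑' p : ℤ × ℤ,
      jacobiTheta₂_term p.1 z (I * t1) * jacobiTheta₂_term p.2 z' (I * t2) := by
  have hτ1 : 0 < (I * (t1 : ℂ)).im := by rw [yb_im_tau]; exact h1
  have hτ2 : 0 < (I * (t2 : ℂ)).im := by rw [yb_im_tau]; exact h2
  have s1 := ((summable_jacobiTheta₂_term_iff z (I * t1)).mpr hτ1).norm
  have s2 := ((summable_jacobiTheta₂_term_iff z' (I * t2)).mpr hτ2).norm
  rw [jacobiTheta₂, jacobiTheta₂]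
  exact tsum_mul_tsum_of_summable_norm s1 s2

theorem yb_prod_summable (t1 t2 : ℝ) (h1 : 0 < t1) (h2 : 0 < t2) (z z' : ℂ) :
    Summable (fun p : ℤ × ℤ =>
      jacobiTheta₂_term p.1 z (I * t1) * jacobiTheta₂_term p.2 z' (I * t2)) := by
  have hτ1 : 0 < (I * (t1 : ℂ)).im := by rw [yb_im_tau]; exact h1
  have hτ2 : 0 < (I * (t2 : ℂ)).im := by rw [yb_im_tau]; exact h2
  have s1 := ((summable_jacobiTheta₂_term_iff z (I * t1)).mpr hτ1).norm
  have s2 := ((summable_jacobiTheta₂_term_iff z' (I * t2)).mpr hτ2).norm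
  have s3 := summable_mul_of_summable_norm (f := fun n : ℤ => jacobiTheta₂_term n z (I * t1))
    (g := fun n : ℤ => jacobiTheta₂_term n z' (I * t2)) s1 s2
  exact s3

theorem yb_key (τ w w' : ℂ) (p : ℤ × ℤ) : jacobiTheta₂_term p.1 w τ *
      jacobiTheta₂_term p.2 w' τ + jacobiTheta₂_term p.1 (w + 1 / 2) τ *
      jacobiTheta₂_term p.2 (w' + 1 / 2) τ = (1 + (-1) ^ (p.1 + p.2)) *
      (jacobiTheta₂_term p.1 w τ * jacobiTheta₂_term p.2 w' τ) := by
  rw [yb_term_half, yb_term_half, zpow_add₀ (by norm_num : (-1 : ℂ) ≠ 0)]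
  ring

theorem yb_key2 (al : ℝ) (w w' : ℂ) (a b : ℤ) :
    (1 + (-1 : ℂ) ^ (a + b + (a - b))) *
      (jacobiTheta₂_term (a + b) w (I * al) * jacobiTheta₂_term (a - b) w' (I * al)) =
    2 * (jacobiTheta₂_term a (w + w') (I * ((2 * al : ℝ) : ℂ)) *
      jacobiTheta₂_term b (w - w') (I * ((2 * al : ℝ) : ℂ))) := by
  have h1 : ((-1 : ℂ)) ^ (a + b + (a - b)) = 1 := by
    rw [show a + b + (a - b) = 2 * a by ring, zpow_mul]
    norm_num
  rw [h1, show (1 : ℂ) + 1 = 2 by norm_num]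
  congr 1
  rw [jacobiTheta₂_term, jacobiTheta₂_term, jacobiTheta₂_term, jacobiTheta₂_term,
    ← Complex.exp_add, ← Complex.exp_add]
  congr 1
  push_cast
  ring

theorem yb_reindex (f : ℤ × ℤ → ℂ) (hf : ∀ p : ℤ × ℤ, ¬ Even (p.1 + p.2) → f p = 0) :
    ∑' p : ℤ × ℤ, f p = ∑' p : ℤ × ℤ, f (p.1 + p.2, p.1 - p.2) := by
  have hinj : Function.Injective (fun p : ℤ × ℤ => (p.1 + p.2, p.1 - p.2)) := by
    rintro ⟨a, b⟩ ⟨c, d⟩ hp
    simp only [Prod.mk.injEq] at hp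
    rw [Prod.mk.injEq]
    constructor <;> omega
  symm
  refine hinj.tsum_eq (f := f) ?_
  intro p hp
  rw [Function.mem_support] at hp
  have hev : Even (p.1 + p.2) := by
    by_contra hodd
    exact hp (hf p hodd)
  obtain ⟨k, hk⟩ := hev
  refine ⟨(k, p.1 - k), ?_⟩
  obtain ⟨a, b⟩ := p
  simp only [Prod.mk.injEq] at hk ⊢
  constructor <;> omega

theorem th_add (al : ℝ) (h : 0 < al) (w w' : ℂ) :
    th3 al w * th3 al w' + th4 al w * th4 al w' =
      2 * (th3 (2 * al) (w + w') * th3 (2 * al) (w - w')) := by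
  unfold th3 th4
  rw [yb_prod_tsum al al h h, yb_prod_tsum al al h h,
    yb_prod_tsum (2 * al) (2 * al) (by linarith) (by linarith),
    ← (yb_prod_summable al al h h w w').tsum_add
      (yb_prod_summable al al h h (w + 1 / 2) (w' + 1 / 2)), ← tsum_mul_left,
    tsum_congr (yb_key (I * al) w w'), yb_reindex]
  · exact tsum_congr fun p => yb_key2 al w w' p.1 p.2
  · intro p hodd
    rw [Int.not_even_iff_odd] at hodd
    rw [hodd.neg_one_zpow]
    ring

end Pool.Agent.AM
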